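import Pool.Agent.ORD.Def

/-!
# ORD [ORD-S1]: conjugation on homomorphisms
-/

set_option autoImplicit false

namespace Pool.Agent.ORD

open Pool.Agent.MP_6fb7ad_al

variable {p : ℕ} [Fact p.Prime] {F : Type} [Group F] [TopologicalSpace F] [IsTopologicalGroup F]

private theorem ORDS1_nc {R : Subgroup F} (hR : R.Normal) (a x : F) :
    a⁻¹ * x * a ∈ R ↔ x ∈ R := by
  constructor
  · intro h
    have := hR.conj_mem _ h a
    have e : a * (a⁻¹ * x * a) * a⁻¹ = x := by group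
    rwa [e] at this
  · intro h
    have := hR.conj_mem _ h a⁻¹
    rwa [inv_inv] at this

private theorem ORDS1_one {V : Subgroup F} {h : F → ZMod p} (hh : h ∈ Hm p V) : h 1 = 0 := by
  have h1 := hh.2.1 1 V.one_mem 1 V.one_mem
  rw [one_mul] at h1
  simpa using h1

theorem cj_mem_Hm {V : Subgroup F} (hV : V.Normal) {h : F → ZMod p} (hh : h ∈ Hm p V) (a : F) :
    cj p a h ∈ Hm p V := by
  obtain ⟨h1, h2, W, hW, h3⟩ := hh
  refine ⟨fun x hx => ?_, fun x hx y hy => ?_, W, hW, fun w hw => ?_⟩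
  · rw [cj_apply]
    exact h1 _ (fun h => hx ((ORDS1_nc hV a x).1 h))
  · rw [cj_apply, cj_apply, cj_apply, ← h2 _ ((ORDS1_nc hV a x).2 hx) _ ((ORDS1_nc hV a y).2 hy)]
    congr 1
    group
  · rw [cj_apply]
    exact h3 _ (hW.conj hw a)

/-- If `h ∈ Hm p V` and `W` is an open normal subgroup with `h = 0` on `W`, then
`h (w⁻¹ * x * w) = h (x * (x⁻¹ * w⁻¹ * x * w)) = h x` for `x ∈ V` and `w ∈ W`: the second factor
lies in `V ∩ W`. -/
theorem smooth_Hm {V : Subgroup F} (hV : V.Normal) {h : F → ZMod p} (hh : h ∈ Hm p V) :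
    ∃ W : Subgroup F, ON W ∧ ∀ w ∈ W, cj p w h = h := by
  obtain ⟨h1, h2, W, hW, h3⟩ := hh
  refine ⟨W, hW, fun w hw => ?_⟩
  funext x
  rw [cj_apply]
  by_cases hx : x ∈ V
  · have hc1 : x⁻¹ * w⁻¹ * x * w ∈ W := W.mul_mem (hW.conj (W.inv_mem hw) x) hw
    have hc2 : x⁻¹ * w⁻¹ * x * w ∈ V := by
      have := V.mul_mem (V.inv_mem hx) ((ORDS1_nc hV w x).2 hx)
      have e : x⁻¹ * (w⁻¹ * x * w) = x⁻¹ * w⁻¹ * x * w := by group
      rwa [e] at this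
    have e : w⁻¹ * x * w = x * (x⁻¹ * w⁻¹ * x * w) := by group
    rw [e, h2 x hx _ hc2, h3 _ hc1, add_zero]
  · rw [h1 x hx, h1 _ (fun h => hx ((ORDS1_nc hV w x).1 h))]

theorem Hm_conj {V : Subgroup F} {h : F → ZMod p} (hh : h ∈ Hm p V) {v x : F} (hv : v ∈ V)
    (hx : x ∈ V) : h (v⁻¹ * x * v) = h x := by
  have h1 := hh.2.1 (v⁻¹ * x) (V.mul_mem (V.inv_mem hv) hx) v hv
  have h2 := hh.2.1 v⁻¹ (V.inv_mem hv) x hx
  have h3 := hh.2.1 v⁻¹ (V.inv_mem hv) v hv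
  rw [inv_mul_cancel, ORDS1_one hh] at h3
  rw [h1, h2]
  linear_combination -h3

/-- `cj p a (ind p R h) = ind p R (cj p a h)` since `R` is normal. -/
theorem cj_mem_Rs {V R : Subgroup F} (hV : V.Normal) (hR : R.Normal) {θ : F → ZMod p}
    (hθ : θ ∈ Rs p V R) (a : F) : cj p a θ ∈ Rs p V R := by
  obtain ⟨h, hh, rfl⟩ := hθ
  refine ⟨cj p a h, cj_mem_Hm hV hh a, ?_⟩
  funext x
  by_cases hx : x ∈ R
  · rw [ind_of_mem hx, cj_apply, cj_apply, ind_of_mem ((ORDS1_nc hR a x).2 hx)]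
  · rw [ind_of_notMem hx, cj_apply, ind_of_notMem (fun h => hx ((ORDS1_nc hR a x).1 h))]

theorem Rs_le_Hm {V R : Subgroup F} (hRV : R ≤ V) : Rs p V R ≤ Hm p R := by
  rintro θ ⟨h, ⟨h1, h2, W, hW, h3⟩, rfl⟩
  refine ⟨fun x hx => ind_of_notMem hx h, fun x hx y hy => ?_, W, hW, fun w hw => ?_⟩
  · rw [ind_of_mem hx, ind_of_mem hy, ind_of_mem (R.mul_mem hx hy), h2 x (hRV hx) y (hRV hy)]
  · by_cases hx : w ∈ R
    · rw [ind_of_mem hx, h3 w hw]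
    · rw [ind_of_notMem hx]

/-- `ind p R h = ind p R (ind p V h)` for `h ∈ Hm p E`, and `ind p V h ∈ Hm p V`. -/
theorem Rs_mono {V E R : Subgroup F} (hRV : R ≤ V) (hVE : V ≤ E) : Rs p E R ≤ Rs p V R := by
  rintro θ ⟨h, hh, rfl⟩
  refine ⟨ind p V h, Rs_le_Hm hVE ⟨h, hh, rfl⟩, ?_⟩
  funext x
  by_cases hx : x ∈ R
  · rw [ind_of_mem hx, ind_of_mem hx, ind_of_mem (hRV hx)]
  · rw [ind_of_notMem hx, ind_of_notMem hx]

/-- `V` acts trivially on `Rs p V R`. -/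
theorem Rs_fx {V R : Subgroup F} (hRV : R ≤ V) (hR : R.Normal) {θ : F → ZMod p}
    (hθ : θ ∈ Rs p V R) {v : F} (hv : v ∈ V) : cj p v θ = θ := by
  obtain ⟨h, hh, rfl⟩ := hθ
  funext x
  rw [cj_apply]
  by_cases hx : x ∈ R
  · rw [ind_of_mem hx, ind_of_mem ((ORDS1_nc hR v x).2 hx)]
    exact Hm_conj hh hv (hRV hx)
  · rw [ind_of_notMem hx, ind_of_notMem (fun h => hx ((ORDS1_nc hR v x).1 h))]

end Pool.Agent.ORD
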