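import Pool.Agent.ORD.Def

/-!
# ORD [ORD-G4a]: the operator T - 1
-/

set_option autoImplicit false

namespace Pool.Agent.ORD

open Pool.Agent.MP_6fb7ad_al

variable {p : ℕ} [Fact p.Prime] 
/-- `(X - 1) ^ p = X ^ p - 1` and `(X - 1) ^ (p - 1) = ∑ j ∈ range p, X ^ j` in `(ZMod p)[X]`
(`sub_pow_char`; multiply by `X - 1` and use `geom_sum_mul`, `(ZMod p)[X]` is a domain); apply
`Polynomial.aeval T`. -/
theorem pow_p {M : Type} [AddCommGroup M] [Module (ZMod p) M] (T : Module.End (ZMod p) M) :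
    (T - 1) ^ p = T ^ p - 1 ∧ (T - 1) ^ (p - 1) = ∑ j ∈ Finset.range p, T ^ j := by
  have h1 : (Polynomial.X - 1 : Polynomial (ZMod p)) ^ p = Polynomial.X ^ p - 1 := by
    rw [sub_pow_char, one_pow]
  have hp : 1 ≤ p := (Fact.out : p.Prime).one_lt.le
  have h2 : (Polynomial.X - 1 : Polynomial (ZMod p)) ^ (p - 1) =
      ∑ j ∈ Finset.range p, Polynomial.X ^ j := by
    have h3 : (Polynomial.X - 1 : Polynomial (ZMod p)) ≠ 0 := by
      have := Polynomial.X_sub_C_ne_zero (1 : ZMod p)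
      rwa [Polynomial.C_1] at this
    refine mul_right_cancel₀ h3 ?_
    rw [geom_sum_mul, ← pow_succ, Nat.sub_add_cancel hp, h1]
  have h4 := congrArg (Polynomial.aeval T) h1
  have h5 := congrArg (Polynomial.aeval T) h2
  simp only [map_pow, map_sub, map_one, Polynomial.aeval_X, map_sum] at h4 h5
  exact ⟨h4, h5⟩

/-- Let `D = T - 1`. If `y ∈ Y` and `D y = 0` then by induction on `j ≤ p - 1` there is `y' ∈ Y`
with `D ^ j y' = y`: for `j + 1 ≤ p - 1` the vector `y'` of step `j` satisfies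
`D ^ (j + 1) y' = 0`, so `D ^ (p - 1) y' = 0` and `y' = D y''`. -/
theorem exact2 {M : Type} [AddCommGroup M] [Module (ZMod p) M] (T : Module.End (ZMod p) M)
    (Y : Submodule (ZMod p) M)
    (h : ∀ y ∈ Y, ((T - 1) ^ (p - 1)) y = 0 → ∃ y' ∈ Y, (T - 1) y' = y) :
    ∀ y ∈ Y, T y = y → ∃ y' ∈ Y, ((T - 1) ^ (p - 1)) y' = y := by
  intro y hy hT
  have hD : (T - 1) y = 0 := by
    rw [LinearMap.sub_apply, hT, Module.End.one_apply, sub_self]
  have key : ∀ j, j ≤ p - 1 → ∃ y' ∈ Y, ((T - 1) ^ j) y' = y := by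
    intro j
    induction j with
    | zero => exact fun _ => ⟨y, hy, by rw [pow_zero, Module.End.one_apply]⟩
    | succ j ih =>
      intro hj
      obtain ⟨y', hy', h1⟩ := ih (by omega)
      have h2 : ((T - 1) ^ (j + 1)) y' = 0 := by
        rw [pow_succ', Module.End.mul_apply, h1, hD]
      have h3 : ((T - 1) ^ (p - 1)) y' = 0 := by
        have e : p - 1 = (p - 1 - (j + 1)) + (j + 1) := by omega
        rw [e, pow_add, Module.End.mul_apply, h2, map_zero]
      obtain ⟨y'', hy'', h4⟩ := h y' hy' h3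
      exact ⟨y'', hy'', by rw [pow_succ, Module.End.mul_apply, h4, h1]⟩
  exact key (p - 1) le_rfl

end Pool.Agent.ORD
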