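import Pool.Agent.ORD.Def

/-!
# ORD [ORD-H1a]: the transfer character
-/

set_option autoImplicit false

namespace Pool.Agent.ORD

open Pool.Agent.MP_6fb7ad_al

variable {p : ℕ} [Fact p.Prime] {F : Type} [Group F] [TopologicalSpace F] [IsTopologicalGroup F]

/-- `g f = ∑ c : ZMod p, h (s c * f * (s (c + χ f))⁻¹)` with `s c = t ^ c.val`: the arguments are in
`E`; `g (f * f') = g f + g f'` since
`s c * f * f' * (s (c + χ f + χ f'))⁻¹ = (s c * f * (s (c + χ f))⁻¹) *
(s (c + χ f) * f' * (s (c + χ f + χ f'))⁻¹)`, and it is locally constant: it vanishes on an open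
normal subgroup contained in `E` (for `f ∈ E` the argument is `s c * f * (s c)⁻¹`), and then
`g (x * w) = g x` on it. So `g` is a character of `F`. -/
theorem transfer_char {E : Subgroup F} (hE : ON E) (χ : F → ZMod p) (hχ : IsChar p χ)
    (hEχ : ∀ x, x ∈ E ↔ χ x = 0) (t : F) (ht : χ t = 1) {h : F → ZMod p} (hh : h ∈ Hm p E) :
    ∃ g : F → ZMod p, IsChar p g ∧
      ∀ x ∈ E, g x = ∑ c : ZMod p, h (t ^ c.val * x * (t ^ c.val)⁻¹) := by
  have hpz : NeZero p := ⟨(Fact.out : p.Prime).ne_zero⟩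
  obtain ⟨h1, h2, W, hW, h3⟩ := hh
  have hχ1 : χ 1 = 0 := by
    have := hχ.mul 1 1
    rw [mul_one] at this
    exact left_eq_add.mp this
  have hχi : ∀ f, χ f⁻¹ = - χ f := by
    intro f
    have h1 := hχ.mul f⁻¹ f
    rw [inv_mul_cancel, hχ1] at h1
    exact (neg_eq_of_add_eq_zero_left h1.symm).symm
  have hχt : ∀ n : ℕ, χ (t ^ n) = n := by
    intro n
    induction n with
    | zero => rw [pow_zero, Nat.cast_zero, hχ1]
    | succ n ih => rw [pow_succ, hχ.mul, ih, ht, Nat.cast_succ]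
  let s : ZMod p → F := fun c => t ^ c.val
  have hs : ∀ c, χ (s c) = c := by
    intro c
    show χ (t ^ c.val) = c
    rw [hχt, ZMod.natCast_zmod_val]
  have harg : ∀ c f, s c * f * (s (c + χ f))⁻¹ ∈ E := by
    intro c f
    rw [hEχ, hχ.mul, hχ.mul, hχi, hs, hs]
    ring
  let g : F → ZMod p := fun f => ∑ c : ZMod p, h (s c * f * (s (c + χ f))⁻¹)
  have hgE : ∀ x ∈ E, g x = ∑ c : ZMod p, h (t ^ c.val * x * (t ^ c.val)⁻¹) := by
    intro x hx
    refine Finset.sum_congr rfl fun c _ => ?_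
    rw [(hEχ x).1 hx, add_zero]
  have hgm : ∀ f f', g (f * f') = g f + g f' := by
    intro f f'
    have e1 : ∀ c : ZMod p, h (s c * (f * f') * (s (c + χ (f * f')))⁻¹) =
        h (s c * f * (s (c + χ f))⁻¹) +
        h (s (c + χ f) * f' * (s (c + χ f + χ f'))⁻¹) := by
      intro c
      rw [← h2 _ (harg c f) _ (harg (c + χ f) f'), hχ.mul, add_assoc c]
      congr 1
      group
    show ∑ c : ZMod p, h (s c * (f * f') * (s (c + χ (f * f')))⁻¹) =
      ∑ c : ZMod p, h (s c * f * (s (c + χ f))⁻¹) + ∑ c : ZMod p, h (s c * f' * (s (c + χ f'))⁻¹)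
    rw [Finset.sum_congr rfl fun c _ => e1 c, Finset.sum_add_distrib]
    congr 1
    exact Equiv.sum_comp (Equiv.addRight (χ f))
      (fun c => h (s c * f' * (s (c + χ f'))⁻¹))
  have hgW : ∀ w ∈ W ⊓ E, g w = 0 := by
    intro w hw
    rw [hgE w hw.2]
    refine Finset.sum_eq_zero fun c _ => ?_
    exact h3 _ (hW.1.conj_mem w hw.1 _)
  refine ⟨g, ⟨?_, hgm⟩, hgE⟩
  rw [IsLocallyConstant.iff_eventually_eq]
  intro x
  have hc : Continuous (fun y : F => x⁻¹ * y) := continuous_const.mul continuous_id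
  have hm : x⁻¹ * x ∈ ((W ⊓ E : Subgroup F) : Set F) := by
    rw [inv_mul_cancel]
    exact Subgroup.one_mem _
  filter_upwards [((hW.inf hE).2.preimage hc).mem_nhds hm] with y hy
  have e1 : y = x * (x⁻¹ * y) := (mul_inv_cancel_left _ _).symm
  rw [e1, hgm, hgW _ hy, add_zero]

end Pool.Agent.ORD
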