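import Pool.Agent.ORD.S1
import Pool.Agent.ORD.G4a
import Pool.Agent.ORD.H1a

/-!
# ORD [ORD-H1]: transfer
-/

set_option autoImplicit false

namespace Pool.Agent.ORD

open Pool.Agent.MP_6fb7ad_al

variable {p : ℕ} [Fact p.Prime] {F : Type} [Group F] [TopologicalSpace F] [IsTopologicalGroup F]

private theorem H1_range_sum (ψ : ℕ → ZMod p) :
    ∑ j ∈ Finset.range p, ψ j = ∑ c : ZMod p, ψ c.val := by
  have hp : NeZero p := ⟨(Fact.out : p.Prime).ne_zero⟩
  refine Finset.sum_nbij' (fun j => (j : ZMod p)) (fun c => c.val) (fun _ _ => Finset.mem_univ _)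
    (fun c _ => Finset.mem_range.2 (ZMod.val_lt c)) (fun j hj => ?_) (fun c _ => ?_)
    (fun j hj => ?_)
  · exact ZMod.val_natCast_of_lt (Finset.mem_range.1 hj)
  · exact ZMod.natCast_zmod_val c
  · rw [ZMod.val_natCast_of_lt (Finset.mem_range.1 hj)]

/-- By `pow_p` (second part) for `T = cj p t`:
`((cj p t - 1) ^ (p - 1)) (ind p R h) r = ∑ j ∈ range p, h (t ^ (-j) * r * t ^ j)` for `r ∈ R`
(and it is `0` for `r ∉ R`, as `R` is normal). Apply `transfer_char` to the character `- χ` and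
`t⁻¹` (note `(t⁻¹) ^ c.val = (t ^ c.val)⁻¹`), and `hmin`. The sum over `c : ZMod p` of a function
of `c.val` is the sum over `range p` (`Fin.sum_univ_eq_sum_range`, `ZMod.finEquiv`, or
`Finset.sum_nbij`). -/
theorem transfer {E R : Subgroup F} (hE : ON E) (χ : F → ZMod p) (hχ : IsChar p χ)
    (hEχ : ∀ x, x ∈ E ↔ χ x = 0) (t : F) (ht : χ t = 1) (hR : R.Normal) (hRE : R ≤ E)
    (hmin : ∀ g : F → ZMod p, IsChar p g → ∀ r ∈ R, g r = 0) {h : F → ZMod p}
    (hh : h ∈ Hm p E) : ((cj p t - 1) ^ (p - 1)) (ind p R h) = 0 := by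
  have hχ1 : χ 1 = 0 := by
    have := hχ.mul 1 1
    rw [mul_one] at this
    exact left_eq_add.mp this
  have hχi : ∀ f, χ f⁻¹ = - χ f := by
    intro f
    have h1 := hχ.mul f⁻¹ f
    rw [inv_mul_cancel, hχ1] at h1
    exact (neg_eq_of_add_eq_zero_left h1.symm).symm
  obtain ⟨g, hg, hgE⟩ := transfer_char hE (fun x => - χ x)
    ⟨hχ.lc.comp fun y => -y, fun a b => by
      show - χ (a * b) = - χ a + - χ b
      rw [hχ.mul]
      ring⟩
    (fun x => by rw [hEχ, neg_eq_zero]) t⁻¹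
    (by
      show - χ t⁻¹ = 1
      rw [hχi, neg_neg, ht]) hh
  rw [(pow_p (cj p t)).2, LinearMap.sum_apply]
  funext x
  rw [Finset.sum_apply, Pi.zero_apply]
  have e1 : ∀ j : ℕ, ((cj p t ^ j) (ind p R h)) x = ind p R h ((t ^ j)⁻¹ * x * t ^ j) := by
    intro j
    rw [← map_pow, cj_apply]
  rw [Finset.sum_congr rfl fun j _ => e1 j]
  by_cases hx : x ∈ R
  · have e2 : ∀ j : ℕ, ind p R h ((t ^ j)⁻¹ * x * t ^ j) = h ((t ^ j)⁻¹ * x * t ^ j) := by
      intro j
      refine ind_of_mem ?_ h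
      have := hR.conj_mem x hx (t ^ j)⁻¹
      rwa [inv_inv] at this
    rw [Finset.sum_congr rfl fun j _ => e2 j,
      H1_range_sum (fun j => h ((t ^ j)⁻¹ * x * t ^ j)), ← hmin g hg x hx, hgE x (hRE hx)]
    refine Finset.sum_congr rfl fun c _ => ?_
    rw [inv_pow, inv_inv]
  · refine Finset.sum_eq_zero fun j _ => ?_
    refine ind_of_notMem (fun hn => hx ?_) h
    have := hR.conj_mem _ hn (t ^ j)
    have e3 : t ^ j * ((t ^ j)⁻¹ * x * t ^ j) * (t ^ j)⁻¹ = x := by group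
    rwa [e3] at this

end Pool.Agent.ORD
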