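import Pool.Agent.ORD.G4a

/-!
# ORD [ORD-G4]: from vanishing of H1 to exactness for the operator T
-/

set_option autoImplicit false

namespace Pool.Agent.ORD

open Pool.Agent.MP_6fb7ad_al

variable {p : ℕ} [Fact p.Prime] {F : Type} [Group F] [TopologicalSpace F] [IsTopologicalGroup F]

/-- Let `y ∈ 𝔑` be fixed by `E` and `(α t - 1) ^ (p - 1) y = 0`, that is
`∑ j ∈ range p, α t ^ j y = 0` (`pow_p`). Put `c f = ∑ j ∈ range (χ f).val, (α t) ^ j y`. This is
a cocycle: every `f` acts on the fixed vectors of `E` as `(α t) ^ (χ f).val`, as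
`f = e * t ^ (χ f).val` with `e ∈ E` (and `(α t) ^ j y` is fixed by `E`, as `E` is normal), and
`(χ (f * g)).val` is `(χ f).val + (χ g).val` or this number minus `p`. It vanishes on `E`. So by
`h` there is `m ∈ 𝔑` with `c f = α f m - m`; for `f ∈ E` this says that `m` is fixed by `E`, and
for `f = t` it says `α t m - m = y`. (For `p = 2` note that `(1 : ZMod p).val = 1` for all
primes `p`.) -/
theorem exact1 {M : Type} [AddCommGroup M] [Module (ZMod p) M]
    (α : F →* Module.End (ZMod p) M) (𝔑 : Submodule (ZMod p) M)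
    (hst : ∀ a, ∀ m ∈ 𝔑, α a m ∈ 𝔑) {V E : Subgroup F} (hVE : V ≤ E) (hE : ON E)
    (χ : F → ZMod p) (hχ : IsChar p χ) (hEχ : ∀ x, x ∈ E ↔ χ x = 0) (t : F) (ht : χ t = 1)
    (h : ∀ c : F → M, (∀ f, c f ∈ 𝔑) → (∀ f g, c (f * g) = c f + α f (c g)) →
      (∀ v ∈ V, c v = 0) → (∃ W : Subgroup F, ON W ∧ ∀ w ∈ W, c w = 0) →
      ∃ m ∈ 𝔑, ∀ f, c f = α f m - m) :
    ∀ y ∈ 𝔑, (∀ a ∈ E, α a y = y) → ((α t - 1) ^ (p - 1)) y = 0 →
      ∃ y' ∈ 𝔑, (∀ a ∈ E, α a y' = y') ∧ (α t - 1) y' = y := by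
  intro y hy hyE hy0
  have hpz : NeZero p := ⟨(Fact.out : p.Prime).ne_zero⟩
  have hp1 : Fact (1 < p) := ⟨(Fact.out : p.Prime).one_lt⟩
  let S : ℕ → M := fun n => ∑ j ∈ Finset.range n, (α t ^ j) y
  have hS0 : S 0 = 0 := Finset.sum_range_zero _
  have hSadd : ∀ n m, S (n + m) = S n + (α t ^ n) (S m) := by
    intro n m
    show ∑ j ∈ Finset.range (n + m), (α t ^ j) y = ∑ j ∈ Finset.range n, (α t ^ j) y +
      (α t ^ n) (∑ j ∈ Finset.range m, (α t ^ j) y)
    rw [Finset.sum_range_add, map_sum]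
    congr 1
    refine Finset.sum_congr rfl fun j _ => ?_
    rw [pow_add, Module.End.mul_apply]
  have hSp : S p = 0 := by
    have h1 := (pow_p (α t)).2
    rw [h1, LinearMap.sum_apply] at hy0
    exact hy0
  have hSmod : ∀ n, S (n + p) = S n := by
    intro n
    rw [hSadd, hSp, map_zero, add_zero]
  have hSE : ∀ n, ∀ a ∈ E, α a (S n) = S n := by
    intro n a ha
    show α a (∑ j ∈ Finset.range n, (α t ^ j) y) = ∑ j ∈ Finset.range n, (α t ^ j) y
    rw [map_sum]
    refine Finset.sum_congr rfl fun j _ => ?_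
    rw [← map_pow, ← Module.End.mul_apply, ← map_mul]
    have h1 : a * t ^ j = t ^ j * ((t ^ j)⁻¹ * a * t ^ j) := by group
    rw [h1, map_mul, Module.End.mul_apply, hyE _ (hE.conj ha _)]
  have hSN : ∀ n, S n ∈ 𝔑 := by
    intro n
    refine Submodule.sum_mem _ fun j _ => ?_
    rw [← map_pow]
    exact hst _ y hy
  have hχ1 : χ 1 = 0 := by
    have := hχ.mul 1 1
    rw [mul_one] at this
    exact left_eq_add.mp this
  have hχt : ∀ n : ℕ, χ (t ^ n) = n := by
    intro n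
    induction n with
    | zero => rw [pow_zero, Nat.cast_zero, hχ1]
    | succ n ih => rw [pow_succ, hχ.mul, ih, ht, Nat.cast_succ]
  have hSχ : ∀ f g, S (χ (f * g)).val = S ((χ f).val + (χ g).val) := by
    intro f g
    rw [hχ.mul, ZMod.val_add]
    by_cases hlt : (χ f).val + (χ g).val < p
    · rw [Nat.mod_eq_of_lt hlt]
    · have h1 := ZMod.val_lt (χ f)
      have h2 := ZMod.val_lt (χ g)
      obtain ⟨k, hk⟩ : ∃ k, (χ f).val + (χ g).val = k + p :=
        ⟨(χ f).val + (χ g).val - p, by omega⟩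
      rw [hk, hSmod, Nat.add_mod_right, Nat.mod_eq_of_lt (by omega)]
  have hact : ∀ f n, α f (S n) = (α t ^ (χ f).val) (S n) := by
    intro f n
    have h1 : f * (t ^ (χ f).val)⁻¹ ∈ E := by
      rw [hEχ]
      have h2 := hχ.mul (f * (t ^ (χ f).val)⁻¹) (t ^ (χ f).val)
      rw [inv_mul_cancel_right, hχt, ZMod.natCast_zmod_val] at h2
      exact right_eq_add.mp h2
    have h3 : (α t ^ (χ f).val) (S n) = S ((χ f).val + n) - S (χ f).val := by
      rw [hSadd, add_sub_cancel_left]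
    have h4 : f = f * (t ^ (χ f).val)⁻¹ * t ^ (χ f).val := by rw [inv_mul_cancel_right]
    conv_lhs => rw [h4, map_mul, Module.End.mul_apply, map_pow, h3, map_sub, hSE _ _ h1,
      hSE _ _ h1]
    rw [h3]
  obtain ⟨m, hm, hm'⟩ := h (fun f => S (χ f).val) (fun f => hSN _)
    (fun f g => by
      show S (χ (f * g)).val = S (χ f).val + α f (S (χ g).val)
      rw [hSχ, hSadd, hact])
    (fun v hv => by
      show S (χ v).val = 0
      rw [(hEχ v).1 (hVE hv), ZMod.val_zero, hS0])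
    ⟨E, hE, fun w hw => by
      show S (χ w).val = 0
      rw [(hEχ w).1 hw, ZMod.val_zero, hS0]⟩
  refine ⟨m, hm, fun a ha => ?_, ?_⟩
  · have h1 : S (χ a).val = α a m - m := hm' a
    rw [(hEχ a).1 ha, ZMod.val_zero, hS0] at h1
    exact sub_eq_zero.1 h1.symm
  · have h1 : S (χ t).val = α t m - m := hm' t
    rw [ht, ZMod.val_one p] at h1
    rw [LinearMap.sub_apply, Module.End.one_apply, ← h1]
    show ∑ j ∈ Finset.range 1, (α t ^ j) y = y
    rw [Finset.sum_range_one, pow_zero, Module.End.one_apply]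

end Pool.Agent.ORD
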