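import Pool.Agent.ORD.G0

/-!
# ORD [ORD-G2]: the periodic resolution
-/

set_option autoImplicit false

namespace Pool.Agent.ORD

open Pool.Agent.MP_6fb7ad_al

variable {p : ℕ} [Fact p.Prime] {Q : Type} [Group Q] [TopologicalSpace Q] [IsTopologicalGroup Q]
  {N : Subgroup Q}

/-- `0 → ker0 A → ind0 A → A → 0` with the inclusion and `sumM A` (onto: take a function
supported at one point). -/
theorem cz_step1 (A : SmRep p Q N) (χ : Q → ZMod p) (hχ : IsChar p χ) (hN : ∀ n ∈ N, χ n = 0)
    (h : H1v (ind0 A χ hχ hN)) (n : ℕ) (hn : Cz n (ker0 A χ hχ hN)) : Cz (n + 1) A := by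
  refine ⟨ker0 A χ hχ hN, ind0 A χ hχ hN, (LinearMap.ker (sumM A)).subtype, sumM A,
    fun f m => rfl, fun f φ => sumM_ρ A χ hχ hN f φ, Subtype.val_injective, fun m => ?_,
    fun m => ?_, h, hn⟩
  · refine ⟨fun c => if c = 0 then m else 0, ?_⟩
    show ∑ c : ZMod p, (if c = 0 then m else 0) = m
    rw [Finset.sum_ite_eq' Finset.univ (0 : ZMod p) (fun _ => m), if_pos (Finset.mem_univ _)]
  · constructor
    · intro hm
      exact ⟨⟨m, hm⟩, rfl⟩
    · rintro ⟨m', rfl⟩
      exact m'.2

/-- the difference operator -/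
private def G2_D (A : SmRep p Q N) : (ZMod p → A.M) →ₗ[ZMod p] (ZMod p → A.M) where
  toFun φ c := φ (c + 1) - φ c
  map_add' φ ψ := by
    funext c
    simp only [Pi.add_apply]
    abel
  map_smul' r φ := by
    funext c
    simp only [Pi.smul_apply, RingHom.id_apply, smul_sub]

omit [IsTopologicalGroup Q] in
private theorem G2_D_sum (A : SmRep p Q N) (φ : ZMod p → A.M) : sumM A (G2_D A φ) = 0 := by
  show ∑ c, (φ (c + 1) - φ c) = 0
  have h1 : ∑ c : ZMod p, φ (c + 1) = ∑ c, φ c :=
    Equiv.sum_comp (Equiv.addRight (1 : ZMod p)) φ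
  rw [Finset.sum_sub_distrib, h1, sub_self]

private theorem G2_range_sum {M : Type} [AddCommGroup M] (ψ : ZMod p → M) :
    ∑ j ∈ Finset.range p, ψ j = ∑ c : ZMod p, ψ c := by
  have hp : NeZero p := ⟨(Fact.out : p.Prime).ne_zero⟩
  refine Finset.sum_nbij' (fun j => (j : ZMod p)) (fun c => c.val) (fun _ _ => Finset.mem_univ _)
    (fun c _ => Finset.mem_range.2 (ZMod.val_lt c)) (fun j hj => ?_) (fun c _ => ?_)
    (fun _ _ => rfl)
  · exact ZMod.val_natCast_of_lt (Finset.mem_range.1 hj)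
  · exact ZMod.natCast_zmod_val c

/-- `0 → A → ind0 A → ker0 A → 0` with the inclusion of the constant functions and
`D φ c = φ (c + 1) - φ c`. The sum of `D φ` vanishes, `D` commutes with the action, its kernel
consists of the constant functions, and it is onto: if `∑ c, ψ c = 0`, let
`φ c = ∑ j ∈ Finset.range c.val, ψ j`; then `φ (c + 1) - φ c = ψ c`, also for `c = -1` (where
`(c + 1).val = 0`) since the sum of `ψ` vanishes (`ZMod.val_add_one`-like case distinction
`c.val + 1 < p` or `c.val + 1 = p`; see `val_succ` in `Pool.Agent.MP_6fb7ad_al.Chain`). -/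
theorem cz_step2 (A : SmRep p Q N) (χ : Q → ZMod p) (hχ : IsChar p χ) (hN : ∀ n ∈ N, χ n = 0)
    (h : H1v (ind0 A χ hχ hN)) (n : ℕ) (hn : Cz n A) : Cz (n + 1) (ker0 A χ hχ hN) := by
  have hp : NeZero p := ⟨(Fact.out : p.Prime).ne_zero⟩
  have hp1 : 1 < p := (Fact.out : p.Prime).one_lt
  refine ⟨A, ind0 A χ hχ hN, LinearMap.pi fun _ => LinearMap.id,
    (G2_D A).codRestrict (LinearMap.ker (sumM A)) (fun φ => G2_D_sum A φ), fun f m => ?_,
    fun f φ => ?_, fun m m' hm => ?_, fun ψ => ?_, fun φ => ?_, h, hn⟩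
  · rfl
  · refine Subtype.ext (funext fun c => ?_)
    show A.ρ f (φ (c + 1 - χ f)) - A.ρ f (φ (c - χ f)) =
      A.ρ f (φ (c - χ f + 1) - φ (c - χ f))
    rw [map_sub]
    congr 3
    ring
  · exact congrFun hm 0
  · obtain ⟨ψ, hψ⟩ := ψ
    have hψ' : ∑ c, ψ c = 0 := hψ
    refine ⟨fun c => ∑ j ∈ Finset.range c.val, ψ j, Subtype.ext (funext fun c => ?_)⟩
    show ∑ j ∈ Finset.range (c + 1).val, ψ j - ∑ j ∈ Finset.range c.val, ψ j = ψ c
    have hlt := ZMod.val_lt c
    have hc1 : c + 1 = ((c.val + 1 : ℕ) : ZMod p) := by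
      rw [Nat.cast_add, ZMod.natCast_zmod_val, Nat.cast_one]
    by_cases hc : c.val + 1 < p
    · have e1 : (c + 1).val = c.val + 1 := by
        rw [hc1]
        exact ZMod.val_natCast_of_lt hc
      rw [e1, Finset.sum_range_succ, ZMod.natCast_zmod_val, add_sub_cancel_left]
    · have e2 : c.val + 1 = p := by omega
      have e1 : (c + 1).val = 0 := by
        rw [hc1, e2, ZMod.natCast_self, ZMod.val_zero]
      rw [e1, Finset.sum_range_zero, zero_sub]
      have e3 := G2_range_sum ψ
      have e4 : Finset.range p = Finset.range (c.val + 1) := by rw [e2]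
      rw [hψ', e4, Finset.sum_range_succ, ZMod.natCast_zmod_val] at e3
      exact neg_eq_of_add_eq_zero_right e3
  · constructor
    · intro hφ
      have hφ' : ∀ c, φ (c + 1) = φ c := fun c =>
        sub_eq_zero.1 (congrFun (congrArg Subtype.val hφ) c)
      refine ⟨φ 0, funext fun c => ?_⟩
      show φ 0 = φ c
      have key : ∀ n : ℕ, φ (n : ZMod p) = φ 0 := by
        intro n
        induction n with
        | zero => rw [Nat.cast_zero]
        | succ n ih => rw [Nat.cast_succ, hφ', ih]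
      rw [← ZMod.natCast_zmod_val c, key]
    · rintro ⟨m, rfl⟩
      refine Subtype.ext (funext fun c => ?_)
      exact sub_self m

end Pool.Agent.ORD
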