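import Pool.Agent.ORD.Def

/-!
# ORD [ORD-G3]: descending a module along a surjection
-/

set_option autoImplicit false

namespace Pool.Agent.ORD

open Pool.Agent.MP_6fb7ad_al

variable {p : ℕ} [Fact p.Prime] {F : Type} [Group F] [TopologicalSpace F] [IsTopologicalGroup F]

/-- `A.M = 𝔑` and `A.ρ q = α (σ q)` restricted to `𝔑`, with `σ` a section of `π`; by `hk` the
result does not depend on the choice of the preimage, and it is a homomorphism. Smooth: if the
open normal subgroup `W` of `F` fixes `m` then so does `W.map π`, which is open: its preimage under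
`π` contains `W`, so it is open (`Subgroup.isOpen_mono`), and `π` is a quotient map (a continuous
surjection from a compact space to a Hausdorff space is closed). -/
theorem exists_desc (hF : IsProP p F) {Q : Type} [Group Q] [TopologicalSpace Q]
    [IsTopologicalGroup Q] [T2Space Q] (π : F →* Q) (hπ : Continuous π)
    (hs : Function.Surjective π) (N : Subgroup Q) {M : Type} [AddCommGroup M]
    [Module (ZMod p) M] (α : F →* Module.End (ZMod p) M) (𝔑 : Submodule (ZMod p) M)
    (hst : ∀ a, ∀ m ∈ 𝔑, α a m ∈ 𝔑)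
    (hsm : ∀ m ∈ 𝔑, ∃ W : Subgroup F, ON W ∧ ∀ w ∈ W, α w m = m)
    (hk : ∀ v ∈ N.comap π, ∀ m ∈ 𝔑, α v m = m) :
    ∃ (A : SmRep p Q N) (e : A.M ≃ₗ[ZMod p] 𝔑), ∀ f m, (e (A.ρ (π f) m) : M) = α f (e m) := by
  have hc := hF.compact
  have hq : Topology.IsQuotientMap π := IsClosedMap.isQuotientMap hπ.isClosedMap hπ hs
  have hwd : ∀ f f', π f = π f' → ∀ m ∈ 𝔑, α f m = α f' m := by
    intro f f' hff m hm
    have h1 : f⁻¹ * f' ∈ N.comap π := by
      rw [Subgroup.mem_comap, map_mul, map_inv, hff, inv_mul_cancel]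
      exact N.one_mem
    have h2 := hk _ h1 m hm
    have h3 : f' = f * (f⁻¹ * f') := (mul_inv_cancel_left _ _).symm
    rw [h3, map_mul, Module.End.mul_apply, h2]
  choose σ hσ using hs
  have hρ : ∀ f (m : 𝔑), α (σ (π f)) m = α f m := fun f m => hwd _ _ (hσ _) m m.2
  let ρ : Q →* Module.End (ZMod p) 𝔑 :=
    { toFun := fun q => (α (σ q)).restrict (p := 𝔑) (q := 𝔑) (hst (σ q))
      map_one' := by
        refine LinearMap.ext fun m => Subtype.ext ?_
        show α (σ 1) m = m
        have h1 := hρ 1 m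
        rwa [map_one, map_one, Module.End.one_apply] at h1
      map_mul' := by
        intro q q'
        refine LinearMap.ext fun m => Subtype.ext ?_
        show α (σ (q * q')) m = α (σ q) (α (σ q') m)
        have h1 := hρ (σ q * σ q') m
        rwa [map_mul, map_mul, hσ, hσ, Module.End.mul_apply] at h1 }
  have hρπ : ∀ f (m : 𝔑), ((ρ (π f) m : 𝔑) : M) = α f m := hρ
  refine ⟨⟨𝔑, ρ, fun m => ?_, fun n hn => ?_⟩, LinearEquiv.refl _ _, hρπ⟩
  · obtain ⟨W, hW, hW'⟩ := hsm m m.2
    refine ⟨W.map π, ?_, ?_⟩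
    · rw [← hq.isOpen_preimage]
      have h1 : IsOpen (((W.map π).comap π : Subgroup F) : Set F) :=
        Subgroup.isOpen_mono (H₁ := W) (Subgroup.le_comap_map π W) hW.2
      exact h1
    · rintro _ ⟨w, hw, rfl⟩
      exact Subtype.ext ((hρπ w m).trans (hW' w hw))
  · refine LinearMap.ext fun m => Subtype.ext ?_
    show α (σ n) m = m
    refine hk _ ?_ m m.2
    rw [Subgroup.mem_comap, hσ]
    exact hn

end Pool.Agent.ORD
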