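import Pool.Agent.ORD.G1
import Pool.Agent.ORD.G2
import Pool.Agent.ORD.G3

/-!
# ORD [ORD-G5]: the first cohomology on the whole group
-/

set_option autoImplicit false

namespace Pool.Agent.ORD

open Pool.Agent.MP_6fb7ad_al

variable {p : ℕ} [Fact p.Prime] {F : Type} [Group F] [TopologicalSpace F] [IsTopologicalGroup F]

theorem h1_all (hF : IsProP p F) {Q : Type} [Group Q] [TopologicalSpace Q]
    [IsTopologicalGroup Q] [T2Space Q] (π : F →* Q) (hπ : Continuous π)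
    (hs : Function.Surjective π) (N : Subgroup Q) (hCD : CD p Q N) (χ : Q → ZMod p)
    (hχ : IsChar p χ) (hNχ : ∀ n ∈ N, χ n = 0) (t : Q) (ht : χ t = 1)
    {M : Type} [AddCommGroup M]
    [Module (ZMod p) M] (α : F →* Module.End (ZMod p) M) (𝔑 : Submodule (ZMod p) M)
    (hst : ∀ a, ∀ m ∈ 𝔑, α a m ∈ 𝔑)
    (hsm : ∀ m ∈ 𝔑, ∃ W : Subgroup F, ON W ∧ ∀ w ∈ W, α w m = m)
    (hk : ∀ v ∈ N.comap π, ∀ m ∈ 𝔑, α v m = m)
    (hE : ∀ c : F → M, (∀ a, χ (π a) = 0 → c a ∈ 𝔑) →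
      (∀ a b, χ (π a) = 0 → χ (π b) = 0 → c (a * b) = c a + α a (c b)) →
      (∀ v ∈ N.comap π, c v = 0) → (∃ W : Subgroup F, ON W ∧ ∀ w ∈ W, χ (π w) = 0 → c w = 0) →
      ∃ m ∈ 𝔑, ∀ a, χ (π a) = 0 → c a = α a m - m) :
    ∀ c : F → M, (∀ f, c f ∈ 𝔑) → (∀ f g, c (f * g) = c f + α f (c g)) →
      (∀ v ∈ N.comap π, c v = 0) → (∃ W : Subgroup F, ON W ∧ ∀ w ∈ W, c w = 0) →
      ∃ m ∈ 𝔑, ∀ f, c f = α f m - m := by
  have hcomp : CompactSpace F := hF.compact
  have hquot : Topology.IsQuotientMap π := hπ.isClosedMap.isQuotientMap hπ hs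
  have hopen : ∀ W : Subgroup F, ON W → IsOpen ((W.map π : Subgroup Q) : Set Q) := by
    intro W hW
    rw [← hquot.isOpen_preimage]
    have h1 : IsOpen (((W.map π).comap π : Subgroup F) : Set F) :=
      Subgroup.isOpen_mono (H₁ := W) (Subgroup.le_comap_map π W) hW.2
    exact h1
  obtain ⟨A, e, he⟩ := exists_desc hF π hπ hs N α 𝔑 hst hsm hk
  have he' : ∀ f m, A.ρ (π f) m = e.symm ⟨α f (e m), hst f _ (e m).2⟩ := by
    intro f m
    apply e.injective
    rw [LinearEquiv.apply_symm_apply]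
    exact Subtype.ext (he f m)
  -- vanishing on the kernel of `χ` for `A`
  have hA : ∀ c : Q → A.M, (∀ a b, χ a = 0 → χ b = 0 → c (a * b) = c a + A.ρ a (c b)) →
      (∃ W : Subgroup Q, IsOpen (W : Set Q) ∧ ∀ w ∈ W, χ w = 0 → c w = 0) →
      (∀ n ∈ N, c n = 0) → ∃ m, ∀ a, χ a = 0 → c a = A.ρ a m - m := by
    rintro c h1 ⟨W, hW, hW'⟩ h3
    obtain ⟨W', hW'n, hW'o, hW'W⟩ := exists_normal_le hF ((W.comap π : Subgroup F) : Set F)
      (hW.preimage hπ) (Subgroup.one_mem _)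
    obtain ⟨m, hm, hm'⟩ := hE (fun f => (e (c (π f)) : M)) (fun a _ => (e _).2)
      (fun a b ha hb => by
        show (e (c (π (a * b))) : M) = e (c (π a)) + α a (e (c (π b)))
        rw [map_mul, h1 _ _ ha hb, map_add, ← he]
        rfl)
      (fun v hv => by
        show (e (c (π v)) : M) = 0
        rw [h3 _ hv, map_zero]
        rfl)
      ⟨W', ⟨hW'n, hW'o⟩, fun w hw hw' => by
        show (e (c (π w)) : M) = 0
        rw [hW' _ (hW'W hw) hw', map_zero]
        rfl⟩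
    refine ⟨e.symm ⟨m, hm⟩, fun a ha => ?_⟩
    obtain ⟨f, rfl⟩ := hs a
    apply e.injective
    apply Subtype.ext
    rw [hm' f ha, map_sub, LinearEquiv.apply_symm_apply]
    show α f m - m = (e (A.ρ (π f) (e.symm ⟨m, hm⟩)) : M) - m
    rw [he, LinearEquiv.apply_symm_apply]
  have hI := h1v_ind0 A χ hχ hNχ t ht hA
  have hcz : ∀ n, Cz n A ∧ Cz n (ker0 A χ hχ hNχ) := by
    intro n
    induction n with
    | zero => exact ⟨trivial, trivial⟩
    | succ n ih => exact ⟨cz_step1 A χ hχ hNχ hI n ih.2, cz_step2 A χ hχ hNχ hI n ih.1⟩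
  obtain ⟨n, hn⟩ := hCD
  have hH := hn A (hcz n).1
  rintro c h1 h2 h3 ⟨W, hW, hW'⟩
  have hker : ∀ f f', π f = π f' → c f = c f' := by
    intro f f' h
    have h4 : f⁻¹ * f' ∈ N.comap π := by
      rw [Subgroup.mem_comap, map_mul, map_inv, h, inv_mul_cancel]
      exact N.one_mem
    have h5 := h2 f (f⁻¹ * f')
    rw [mul_inv_cancel_left, h3 _ h4, map_zero, add_zero] at h5
    exact h5.symm
  let σ : Q → F := Function.surjInv hs
  have hσ : ∀ q, π (σ q) = q := Function.surjInv_eq hs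
  obtain ⟨m, hm⟩ := hH (fun q => e.symm ⟨c (σ q), h1 _⟩)
    (fun q r => by
      apply e.injective
      apply Subtype.ext
      have h5 : A.ρ q = A.ρ (π (σ q)) := by rw [hσ]
      rw [map_add, LinearEquiv.apply_symm_apply, h5]
      show c (σ (q * r)) = (e (e.symm ⟨c (σ q), h1 _⟩) : M) +
        (e (A.ρ (π (σ q)) (e.symm ⟨c (σ r), h1 _⟩)) : M)
      rw [he, LinearEquiv.apply_symm_apply, LinearEquiv.apply_symm_apply]
      show c (σ (q * r)) = c (σ q) + α (σ q) (c (σ r))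
      rw [← h2]
      apply hker
      rw [hσ, map_mul, hσ, hσ])
    ⟨W.map π, hopen W hW, fun w hw => by
      obtain ⟨w', hw', rfl⟩ := Subgroup.mem_map.1 hw
      have h6 : (⟨c (σ (π w')), h1 _⟩ : 𝔑) = 0 := by
        apply Subtype.ext
        show c (σ (π w')) = 0
        rw [hker _ w' (hσ _), hW' _ hw']
      show e.symm ⟨c (σ (π w')), h1 _⟩ = 0
      rw [h6, map_zero]⟩
    (fun n hn => by
      have h6 : (⟨c (σ n), h1 _⟩ : 𝔑) = 0 := by
        apply Subtype.ext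
        show c (σ n) = 0
        refine h3 _ ?_
        rw [Subgroup.mem_comap, hσ]
        exact hn
      show e.symm ⟨c (σ n), h1 _⟩ = 0
      rw [h6, map_zero])
  refine ⟨e m, (e m).2, fun f => ?_⟩
  have h7 := congrArg (fun x => (e x : M)) (hm (π f))
  simp only [LinearEquiv.apply_symm_apply, map_sub] at h7
  have h8 : c (σ (π f)) = c f := hker _ _ (hσ _)
  rw [← h8, h7]
  show (e (A.ρ (π f) m) : M) - e m = _
  rw [he]

end Pool.Agent.ORD
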