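import Pool.Agent.ORD.Def

/-!
# ORD [ORD-C1]: closed subgroups of pro-p groups
-/

set_option autoImplicit false

namespace Pool.Agent.ORD

open Pool.Agent.MP_6fb7ad_al

variable {p : ℕ} [Fact p.Prime] {F : Type} [Group F] [TopologicalSpace F] [IsTopologicalGroup F]

/-- Compact, Hausdorff and totally disconnected: clear. If `N` is an open normal subgroup of `H`,
there is an open normal subgroup `W` of `F` with `W ∩ H ≤ N` (`isOpen_induced_iff`,
`exists_normal_le`). The index of `N` in `H` divides that of `W.subgroupOf H`, which is the order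
of the image of `H` in the finite `p`-group `F ⧸ W` (`quot_fin`, `Subgroup.index_ker`), so it is a
power of `p` (`Nat.dvd_prime_pow`). -/
theorem isProP_sub (hF : IsProP p F) (H : Subgroup F) (hH : IsClosed (H : Set F)) :
    IsProP p H := by
  have hc := hF.compact
  have ht := hF.t2
  have htd := hF.td
  refine ⟨isCompact_iff_compactSpace.1 hH.isCompact, inferInstance, inferInstance, ?_⟩
  intro N _ hNo
  obtain ⟨U, hU, hUN⟩ := isOpen_induced_iff.1 hNo
  have h1 : (1 : F) ∈ U := by
    have h2 : (1 : H) ∈ (Subtype.val ⁻¹' U : Set H) := by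
      rw [hUN]
      exact N.one_mem
    exact h2
  obtain ⟨W, hWn, hWo, hWU⟩ := exists_normal_le hF U hU h1
  have hle : W.subgroupOf H ≤ N := by
    intro x hx
    have h3 : x ∈ (Subtype.val ⁻¹' U : Set H) := hWU (Subgroup.mem_subgroupOf.1 hx)
    rw [hUN] at h3
    exact h3
  obtain ⟨k, hk⟩ := hF.pow W hWn hWo
  have h4 : N.index ∣ p ^ k := by
    have h5 : N.index ∣ (W.subgroupOf H).index := Subgroup.index_dvd_of_le hle
    have h6 : W.relIndex H ∣ W.index := Subgroup.relIndex_dvd_index_of_normal W H
    rw [hk] at h6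
    exact h5.trans h6
  obtain ⟨m, -, hm⟩ := (Nat.dvd_prime_pow (Fact.out : p.Prime)).1 h4
  exact ⟨m, hm⟩

end Pool.Agent.ORD
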