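import Pool.Agent.ORD.S1
import Pool.Agent.ORD.C1

/-!
# ORD [ORD-H2]: the codimension of the extendable homomorphisms
-/

set_option autoImplicit false

namespace Pool.Agent.ORD

open Pool.Agent.MP_6fb7ad_al

variable {p : ℕ} [Fact p.Prime] {F : Type} [Group F] [TopologicalSpace F] [IsTopologicalGroup F]

/-- the restriction of an element of `Hm p π.ker` invariant under `U.comap π` -/
private theorem H2_inv {G : Type} [Group G] (π : F →* G) (U : Subgroup G) (θ : F → ZMod p)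
    (h : θ ∈ Hm p π.ker) (k : ∀ a ∈ U.comap π, cj p a θ = θ) :
    IsInv p (π.subgroupComap U).ker (fun a => θ ((a : U.comap π) : F)) := by
  obtain ⟨h1, h2, W, hW, h3⟩ := h
  have hk : ∀ a : (π.subgroupComap U).ker, ((a : U.comap π) : F) ∈ π.ker := by
    intro a
    have := a.2
    rw [MonoidHom.mem_ker] at this
    exact congrArg Subtype.val this
  refine ⟨?_, fun a b => ?_, fun g a b hb => ?_⟩
  · rw [IsLocallyConstant.iff_eventually_eq]
    intro a
    have hc : Continuous (fun y : (π.subgroupComap U).ker =>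
        ((a : U.comap π) : F)⁻¹ * ((y : U.comap π) : F)) :=
      continuous_const.mul (continuous_subtype_val.comp continuous_subtype_val)
    have hm : ((a : U.comap π) : F)⁻¹ * ((a : U.comap π) : F) ∈ (W : Set F) := by
      rw [inv_mul_cancel]
      exact W.one_mem
    filter_upwards [(hW.2.preimage hc).mem_nhds hm] with y hy
    have e1 : ((y : U.comap π) : F) =
        ((a : U.comap π) : F) * (((a : U.comap π) : F)⁻¹ * ((y : U.comap π) : F)) := by
      rw [mul_inv_cancel_left]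
    rw [e1, h2 _ (hk a) _ (mul_mem (inv_mem (hk a)) (hk y)), h3 _ hy, add_zero]
  · exact h2 _ (hk a) _ (hk b)
  · have e1 := congrFun (k g g.2) ((b : U.comap π) : F)
    rw [cj_apply] at e1
    show θ ((b : U.comap π) : F) = θ ((a : U.comap π) : F)
    rw [← e1]
    congr 1
    rw [hb]
    simp only [Subgroup.coe_mul, Subgroup.coe_inv]
    group

/-- Let `E = U.comap π` and `π' : E →* U` the restriction of `π` (`MonoidHom.subgroupComap`), a
continuous surjection from a pro-`p` group (`isProP_sub`) to a Hausdorff group; its kernel consists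
of the elements of `E` that lie in `π.ker`. For `l = 1, 2` the function `θₗ'` on `π'.ker` given by
`θₗ` satisfies `IsInv p π'.ker θₗ'`. Now continue as in the proof of `dependent` in D3 of
MP_6fb7ad_al, with `exists_trans` for `π'`: there are `c₁, c₂`, not both zero, and
`χ x = c₁ * Θ₁ x + c₂ * Θ₂ x - ψ (π' x)` is a continuous character of `E` with
`χ n = c₁ * θ₁ n + c₂ * θ₂ n` for `n ∈ π'.ker` (as `χ 1 = 0`). Let `h x = χ x` for `x ∈ E` and
`h x = 0` otherwise. It vanishes on an open normal subgroup of `F`: the set of all `x ∈ E` with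
`χ x = 0` is open in `E`, hence in `F`; use `exists_normal_le`. -/
theorem dim_le (hF : IsProP p F) {G : Type} [Group G] [TopologicalSpace G]
    [IsTopologicalGroup G] [T2Space G] (π : F →* G) (hπ : Continuous π)
    (hs : Function.Surjective π) (U : Subgroup G) (hU : IsOpen (U : Set G))
    (hr : Module.rank (ZMod p) (H2 p U) ≤ 1) (θ₁ θ₂ : F → ZMod p)
    (h₁ : θ₁ ∈ Hm p π.ker) (h₂ : θ₂ ∈ Hm p π.ker)
    (k₁ : ∀ a ∈ U.comap π, cj p a θ₁ = θ₁) (k₂ : ∀ a ∈ U.comap π, cj p a θ₂ = θ₂) :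
    ∃ c₁ c₂ : ZMod p, (c₁ ≠ 0 ∨ c₂ ≠ 0) ∧
      ∃ h ∈ Hm p (U.comap π), c₁ • θ₁ + c₂ • θ₂ = ind p π.ker h := by
  classical
  have hEo : IsOpen ((U.comap π : Subgroup F) : Set F) := hU.preimage hπ
  have hEp : IsProP p (U.comap π) := isProP_sub hF _ ((U.comap π).isClosed_of_isOpen hEo)
  have hπ' : Continuous (π.subgroupComap U) :=
    Continuous.subtype_mk (hπ.comp continuous_subtype_val) _
  have hs' : Function.Surjective (π.subgroupComap U) := by
    rintro ⟨u, hu⟩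
    obtain ⟨x, rfl⟩ := hs u
    exact ⟨⟨x, hu⟩, rfl⟩
  obtain ⟨f₁, Θ₁, l₁, e₁, m₁⟩ := exists_trans hEp (π.subgroupComap U) hπ' hs' _
    (H2_inv π U θ₁ h₁ k₁)
  obtain ⟨f₂, Θ₂, l₂, e₂, m₂⟩ := exists_trans hEp (π.subgroupComap U) hπ' hs' _
    (H2_inv π U θ₂ h₂ k₂)
  -- linear dependence of the classes
  obtain ⟨v, hv⟩ := rank_le_one_iff.1 hr
  obtain ⟨a₁, ha₁⟩ := hv (Submodule.Quotient.mk f₁)
  obtain ⟨a₂, ha₂⟩ := hv (Submodule.Quotient.mk f₂)
  obtain ⟨c₁, c₂, hc, hz⟩ : ∃ c₁ c₂ : ZMod p, (c₁ ≠ 0 ∨ c₂ ≠ 0) ∧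
      (Submodule.Quotient.mk (c₁ • f₁ + c₂ • f₂) : H2 p U) = 0 := by
    by_cases h0 : a₁ = 0
    · refine ⟨1, 0, Or.inl one_ne_zero, ?_⟩
      rw [one_smul, zero_smul, add_zero, ← ha₁, h0, zero_smul]
    · refine ⟨a₂, -a₁, Or.inr (neg_ne_zero.2 h0), ?_⟩
      rw [Submodule.Quotient.mk_add, Submodule.Quotient.mk_smul, Submodule.Quotient.mk_smul,
        ← ha₁, ← ha₂, smul_smul, smul_smul, ← add_smul]
      rw [show a₂ * a₁ + -a₁ * a₂ = 0 by ring, zero_smul]
  obtain ⟨ψ, lψ, hψ⟩ := (Submodule.Quotient.mk_eq_zero _).1 hz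
  replace hψ : ∀ g h, c₁ * f₁.1 g h + c₂ * f₂.1 g h = ψ g + ψ h - ψ (g * h) := hψ
  let χ : U.comap π → ZMod p := fun g => c₁ * Θ₁ g + c₂ * Θ₂ g - ψ (π.subgroupComap U g)
  have hχ : IsChar p χ := by
    refine ⟨?_, fun g h => ?_⟩
    · exact ((l₁.comp fun y => c₁ * y).add (l₂.comp fun y => c₂ * y)).sub
        (lψ.comp_continuous hπ')
    · have t1 := m₁ g h
      have t2 := m₂ g h
      have t3 := hψ (π.subgroupComap U g) (π.subgroupComap U h)
      show c₁ * Θ₁ (g * h) + c₂ * Θ₂ (g * h) - ψ (π.subgroupComap U (g * h)) =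
        c₁ * Θ₁ g + c₂ * Θ₂ g - ψ (π.subgroupComap U g) +
        (c₁ * Θ₁ h + c₂ * Θ₂ h - ψ (π.subgroupComap U h))
      rw [map_mul]
      linear_combination c₁ * t1 + c₂ * t2 - t3
  have hχ1 : χ 1 = 0 := by
    have := hχ.mul 1 1
    rw [mul_one] at this
    simpa using this
  have hχn : ∀ n : (π.subgroupComap U).ker, χ n =
      c₁ * θ₁ ((n : U.comap π) : F) + c₂ * θ₂ ((n : U.comap π) : F) := by
    intro n
    have t3 := e₁ 1 n
    have t4 := e₂ 1 n
    rw [one_mul] at t3 t4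
    have t5 : π.subgroupComap U (n : U.comap π) = π.subgroupComap U 1 := by
      rw [map_one]
      exact n.2
    have t1 : χ n = c₁ * Θ₁ n + c₂ * Θ₂ n - ψ (π.subgroupComap U n) := rfl
    have t2 : χ 1 = c₁ * Θ₁ 1 + c₂ * Θ₂ 1 - ψ (π.subgroupComap U 1) := rfl
    rw [t5] at t1
    rw [hχ1] at t2
    linear_combination t1 - t2 + c₁ * t3 + c₂ * t4
  let h : F → ZMod p := fun x => if hx : x ∈ U.comap π then χ ⟨x, hx⟩ else 0
  have hh : ∀ x (hx : x ∈ U.comap π), h x = χ ⟨x, hx⟩ := fun x hx => dif_pos hx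
  refine ⟨c₁, c₂, hc, h, ⟨fun x hx => dif_neg hx, fun x hx y hy => ?_, ?_⟩, ?_⟩
  · rw [hh x hx, hh y hy, hh _ (mul_mem hx hy)]
    exact hχ.mul ⟨x, hx⟩ ⟨y, hy⟩
  · have o1 : IsOpen {x : U.comap π | χ x = 0} := hχ.lc {0}
    have o2 := hEo.isOpenMap_subtype_val _ o1
    obtain ⟨W, w1, w2, w3⟩ := exists_normal_le hF _ o2 ⟨1, hχ1, rfl⟩
    refine ⟨W, ⟨w1, w2⟩, fun w hw => ?_⟩
    obtain ⟨x, hx, rfl⟩ := w3 hw
    rw [hh x x.2]
    exact hx
  · funext x
    by_cases hx : x ∈ π.ker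
    · rw [ind_of_mem hx]
      have hxE : x ∈ U.comap π := by
        rw [Subgroup.mem_comap, MonoidHom.mem_ker.1 hx]
        exact U.one_mem
      have hxk : (⟨x, hxE⟩ : U.comap π) ∈ (π.subgroupComap U).ker := by
        rw [MonoidHom.mem_ker]
        exact Subtype.ext (MonoidHom.mem_ker.1 hx)
      rw [hh x hxE]
      exact (hχn ⟨⟨x, hxE⟩, hxk⟩).symm
    · rw [ind_of_notMem hx, Pi.add_apply, Pi.smul_apply, Pi.smul_apply, h₁.1 x hx, h₂.1 x hx,
        smul_zero, smul_zero, add_zero]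

end Pool.Agent.ORD
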