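import Pool.Agent.ORD.S1

/-!
# ORD [ORD-H3]: the relator
-/

set_option autoImplicit false

namespace Pool.Agent.ORD

open Pool.Agent.MP_6fb7ad_al

variable {p : ℕ} [Fact p.Prime] {F : Type} [Group F] [TopologicalSpace F] [IsTopologicalGroup F]

/-- Extend `θ` by zero; `θ` is locally constant on `R`, so it vanishes on `R ∩ W` for an open
normal subgroup `W` of `F` (`isOpen_induced_iff`, `exists_normal_le`). -/
theorem exists_of_isInv (hF : IsProP p F) {R : Subgroup F} (hR : R.Normal) {θ : R → ZMod p}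
    (hθ : IsInv p R θ) : ∃ θ' ∈ Hm p R, (∀ a, cj p a θ' = θ') ∧ ∀ n : R, θ' n = θ n := by
  classical
  have e1 : θ 1 = 0 := by
    have := hθ.mul 1 1
    rw [mul_one] at this
    exact left_eq_add.1 this
  have hval : ∀ (x : F) (hx : x ∈ R), (fun x => if h : x ∈ R then θ ⟨x, h⟩ else 0) x =
      θ ⟨x, hx⟩ := fun x hx => dif_pos hx
  refine ⟨fun x => if h : x ∈ R then θ ⟨x, h⟩ else 0, ?_, fun a => ?_, fun n => ?_⟩
  · refine mem_Hm.2 ⟨fun x hx => dif_neg hx, fun x hx y hy => ?_, ?_⟩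
    · simp only [dif_pos hx, dif_pos hy, dif_pos (R.mul_mem hx hy)]
      exact hθ.mul ⟨x, hx⟩ ⟨y, hy⟩
    · have h1 : IsOpen {a : R | θ a = 0} := hθ.lc.isOpen_fiber 0
      obtain ⟨V, hV, hV2⟩ := isOpen_induced_iff.1 h1
      have h2 : (1 : F) ∈ V := by
        have : (1 : R) ∈ (Subtype.val ⁻¹' V : Set R) := by
          rw [hV2]
          exact e1
        exact this
      obtain ⟨W, hW1, hW2, hW3⟩ := exists_normal_le hF V hV h2
      refine ⟨W, ⟨hW1, hW2⟩, fun w hw => ?_⟩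
      by_cases hwR : w ∈ R
      · simp only [dif_pos hwR]
        have : (⟨w, hwR⟩ : R) ∈ (Subtype.val ⁻¹' V : Set R) := hW3 hw
        rw [hV2] at this
        exact this
      · simp only [dif_neg hwR]
  · funext x
    rw [cj_apply]
    by_cases hx : x ∈ R
    · have h1 : a⁻¹ * x * a ∈ R := by
        have := hR.conj_mem x hx a⁻¹
        rwa [inv_inv] at this
      simp only [dif_pos hx, dif_pos h1]
      refine (hθ.inv a ⟨_, h1⟩ ⟨x, hx⟩ ?_).symm
      show x = a * (a⁻¹ * x * a) * a⁻¹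
      group
    · have h1 : a⁻¹ * x * a ∉ R := by
        intro h
        apply hx
        have := hR.conj_mem _ h a
        have h2 : a * (a⁻¹ * x * a) * a⁻¹ = x := by group
        rwa [h2] at this
      simp only [dif_neg hx, dif_neg h1]
  · exact dif_pos n.2

/-- As `exists_relator` in D3 of MP_6fb7ad_al, with `hd` (and `exists_of_isInv`) instead of
`dependent`. -/
theorem exists_rel (hF : IsProP p F) {G : Type} [Group G] [TopologicalSpace G]
    [IsTopologicalGroup G] [T2Space G] (π : F →* G)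
    (hd : ∀ θ₁ ∈ Hm p π.ker, ∀ θ₂ ∈ Hm p π.ker, (∀ a, cj p a θ₁ = θ₁) → (∀ a, cj p a θ₂ = θ₂) →
      ∃ c₁ c₂ : ZMod p, (c₁ ≠ 0 ∨ c₂ ≠ 0) ∧ c₁ • θ₁ + c₂ • θ₂ = 0) :
    ∃ r ∈ π.ker, ∀ N : Subgroup F, N.Normal → IsClosed (N : Set F) → r ∈ N → π.ker ≤ N := by
  have := hF.t2
  by_cases h0 : π.ker = ⊥
  · refine ⟨1, Subgroup.one_mem _, fun N _ _ _ => ?_⟩
    rw [h0]
    exact bot_le
  have hn : (π.ker).Normal := inferInstance
  obtain ⟨θ₁, i₁, -, r, hr₁⟩ := exists_inv hF ⊥ π.ker inferInstance hn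
    (by
      rw [Subgroup.coe_bot]
      exact isClosed_singleton) (fun h => h0 (le_bot_iff.1 h))
  refine ⟨r, r.2, fun N hN hNc hrN => ?_⟩
  by_contra hne
  obtain ⟨θ₂, i₂, j₂, a, ha⟩ := exists_inv hF N π.ker hN hn hNc hne
  obtain ⟨φ₁, m₁, v₁, w₁⟩ := exists_of_isInv hF hn i₁
  obtain ⟨φ₂, m₂, v₂, w₂⟩ := exists_of_isInv hF hn i₂
  obtain ⟨c₁, c₂, hc, hz⟩ := hd φ₁ m₁ φ₂ m₂ v₁ v₂
  have t1 : c₁ * θ₁ r + c₂ * θ₂ r = 0 := by
    rw [← w₁ r, ← w₂ r]
    exact congrFun hz r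
  rw [j₂ r hrN, mul_zero, add_zero] at t1
  have t2 : c₁ = 0 := (mul_eq_zero.1 t1).resolve_right hr₁
  have t3 : c₁ * θ₁ a + c₂ * θ₂ a = 0 := by
    rw [← w₁ a, ← w₂ a]
    exact congrFun hz a
  rw [t2, zero_mul, zero_add] at t3
  rcases mul_eq_zero.1 t3 with t4 | t4
  · rcases hc with h | h
    · exact h t2
    · exact h t4
  · exact ha t4

end Pool.Agent.ORD
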