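import Pool.Agent.ORD.N1a

/-!
# ORD [ORD-N1]: from group algebras without zero divisors to N1
-/

set_option autoImplicit false

namespace Pool.Agent.ORD

open Pool.Agent.MP_6fb7ad_al

variable {p : ℕ} [Fact p.Prime] {F : Type} [Group F] [TopologicalSpace F] [IsTopologicalGroup F]

/-- right translation by `g` as a linear map on functions -/
def N1_tr (p : ℕ) {Q : Type} [Group Q] (g : Q) : (Q → ZMod p) →ₗ[ZMod p] (Q → ZMod p) where
  toFun φ x := φ (x * g)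
  map_add' _ _ := rfl
  map_smul' _ _ := rfl

/-- If the algebra has no zero divisors, then `LC p Q N` is invariant under right translations. -/
theorem N1_trans {Q : Type} [Group Q] [TopologicalSpace Q] {N : Subgroup Q} (hN : NZD p Q N)
    {φ : Q → ZMod p} (hφ : φ ∈ LC p Q N) (y : Q) : (fun x => φ (x * y)) ∈ LC p Q N := by
  by_contra hcon
  have hnot : φ ∉ (LC p Q N).map (N1_tr p y⁻¹) := by
    rintro ⟨χ, hχ, e⟩
    apply hcon
    have : (fun x => φ (x * y)) = χ := by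
      funext x
      rw [← e]
      show χ (x * y * y⁻¹) = χ x
      rw [mul_inv_cancel_right]
    rw [this]
    exact hχ
  obtain ⟨μ, hμ, hker⟩ := Submodule.exists_le_ker_of_notMem hnot
  obtain ⟨χ, hχ, h⟩ := hN μ (LinearMap.proj (y⁻¹)) ⟨φ, hφ, hμ⟩
    ⟨fun _ => 1, ⟨IsLocallyConstant.const 1, fun _ _ _ => rfl⟩, by simp⟩
  apply h
  rw [LinearMap.proj_apply]
  exact hker ⟨χ, hχ, rfl⟩

/-- Let `ε` be as in the definition of `N1`, and suppose that it is not onto: the image of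
`C1 p ⊤ V` is a proper subspace of `C1 p ⊤ V`, so there is a linear form `ν₀` on
`F → ZMod p` that vanishes on the image but not on `C1 p ⊤ V` (`Submodule.exists_le_ker_of_notMem`
for the image in `F → ZMod p` and a `ψ ∈ C1 p ⊤ V` outside of it).
Let `μ₀ φ = ε φ 1`. As `ε` commutes with right translations,
`ε φ y = ε (rr p y φ) 1 = μ₀ (fun x => φ (x * y))` for `φ ∈ C1 p ⊤ V`, so `μ₀` is nonzero on
`C1 p ⊤ V`, and `ν₀ (fun y => μ₀ (fun x => φ (x * y))) = 0` for all `φ ∈ C1 p ⊤ V`. Let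
`μ f = μ₀ (f ∘ π)`, `ν f = ν₀ (f ∘ π)` and apply `NZD` (with `comp_mem_C1`, `exists_LC`). -/
theorem N1_top (hF : IsProP p F) {Q : Type} [Group Q] [TopologicalSpace Q]
    [IsTopologicalGroup Q] [T2Space Q] (π : F →* Q) (hπ : Continuous π)
    (hs : Function.Surjective π) (N : Subgroup Q) (hN : NZD p Q N) :
    N1 p ⊤ (N.comap π) := by
  intro ε h1 h2 h3 ψ hψ
  obtain ⟨φ₀, hφ₀, hne⟩ := h3
  by_contra hno
  have hnot : ψ ∉ (C1 p ⊤ (N.comap π)).map ε := by
    rintro ⟨φ, hφ, e⟩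
    exact hno ⟨φ, hφ, e⟩
  obtain ⟨ν₀, hν₀, hker⟩ := Submodule.exists_le_ker_of_notMem hnot
  set pb : (Q → ZMod p) →ₗ[ZMod p] (F → ZMod p) := LinearMap.funLeft (ZMod p) (ZMod p) π with hpb
  have pb_apply : ∀ (f : Q → ZMod p) (x : F), pb f x = f (π x) := fun f x => rfl
  set μ₀ : (F → ZMod p) →ₗ[ZMod p] ZMod p := (LinearMap.proj 1).comp ε with hμ₀
  have μ₀_apply : ∀ f, μ₀ f = ε f 1 := fun f => rfl
  -- `ε φ y = μ₀ (φ (· y))`
  have hεy : ∀ φ ∈ C1 p ⊤ (N.comap π), ∀ y : F, ε φ y = μ₀ (fun x => φ (x * y)) := by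
    intro φ hφ y
    have e := congrFun (h2 y (Subgroup.mem_top y) φ hφ) 1
    rw [rr_apply, one_mul] at e
    rw [← e, μ₀_apply]
    rfl
  have hμ : ∃ φ ∈ LC p Q N, (μ₀.comp pb) φ ≠ 0 := by
    obtain ⟨φ', hφ', e'⟩ := exists_LC hF π hπ hs N hφ₀
    obtain ⟨y, hy⟩ := Function.ne_iff.1 hne
    refine ⟨fun q => φ' (q * π y), N1_trans hN hφ' (π y), ?_⟩
    rw [hεy φ₀ hφ₀ y] at hy
    have e : (fun x => φ₀ (x * y)) = pb (fun q => φ' (q * π y)) := by
      funext x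
      rw [pb_apply, e', map_mul]
    rw [e] at hy
    exact hy
  have hν : ∃ φ ∈ LC p Q N, (ν₀.comp pb) φ ≠ 0 := by
    obtain ⟨ψ', hψ', e'⟩ := exists_LC hF π hπ hs N hψ
    refine ⟨ψ', hψ', ?_⟩
    have e : pb ψ' = ψ := by
      funext x
      rw [pb_apply, e']
    rw [LinearMap.comp_apply, e]
    exact hν₀
  obtain ⟨φ, hφ, h⟩ := hN (μ₀.comp pb) (ν₀.comp pb) hμ hν
  apply h
  have hΦ : (fun x => φ (π x)) ∈ C1 p ⊤ (N.comap π) := comp_mem_C1 hF π hπ N hφ
  have e : pb (fun y => (μ₀.comp pb) (fun x => φ (x * y))) = ε (fun x => φ (π x)) := by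
    funext y
    rw [pb_apply, hεy _ hΦ y, LinearMap.comp_apply]
    congr 1
    funext x
    rw [pb_apply, map_mul]
  rw [LinearMap.comp_apply, e]
  exact hker ⟨_, hΦ, rfl⟩

end Pool.Agent.ORD
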