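import Pool.Agent.ORD.Def

/-!
# ORD [ORD-N0]: equivariant endomorphisms of C1
-/

set_option autoImplicit false

namespace Pool.Agent.ORD

open Pool.Agent.MP_6fb7ad_al

variable {p : ℕ} {F : Type} [Group F] [TopologicalSpace F]

/-- Every nonzero endomorphism of `C1 p E V` that commutes with the right translations by the
elements of `E` is onto. -/
def N1 (p : ℕ) {F : Type} [Group F] [TopologicalSpace F] (E V : Subgroup F) : Prop :=
  ∀ ε : (F → ZMod p) →ₗ[ZMod p] (F → ZMod p), (∀ φ ∈ C1 p E V, ε φ ∈ C1 p E V) →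
    (∀ a ∈ E, ∀ φ ∈ C1 p E V, ε (rr p a φ) = rr p a (ε φ)) → (∃ φ ∈ C1 p E V, ε φ ≠ 0) →
    ∀ ψ ∈ C1 p E V, ∃ φ ∈ C1 p E V, ε φ = ψ

end Pool.Agent.ORD
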