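import Pool.Agent.ORD.S2
import Pool.Agent.ORD.N0

/-!
# ORD [ORD-N2]: passing to open subgroups
-/

set_option autoImplicit false

namespace Pool.Agent.ORD

open Pool.Agent.MP_6fb7ad_al

variable {p : ℕ} [Fact p.Prime] {F : Type} [Group F] [TopologicalSpace F] [IsTopologicalGroup F]

/-- Given `ε` on `C1 p E V`, define `T φ x = ε (fun y => if y ∈ E then φ (y * x) else 0) 1`. Then
`T` is linear and `T (rr p a φ) = rr p a (T φ)` for all `a : F`. For `φ ∈ C1 p ⊤ V` and `x ∈ E` the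
function `fun y => if y ∈ E then φ (y * x) else 0` is `rr p x` of the restriction `φ'` of `φ` to
`E` (extended by zero, `φ' ∈ C1 p E V`), so `T φ x = ε φ' x`. `T φ ∈ C1 p ⊤ V`: for `v` in `V` (or
in the open normal subgroup `W` of `φ`) `φ (y * (x * v)) = φ (y * x)` for all `y`. `T` is nonzero since `ε` is. So `T` is onto; given
`ψ ∈ C1 p E V` let `T φ = ψ`; then `ε φ' = ψ` (both vanish outside of `E`). -/
theorem N1_sub {V E : Subgroup F} (hV : V.Normal) (hVE : V ≤ E) (hE : ON E)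
    (h : N1 p ⊤ V) : N1 p E V := by
  intro ε h1 h2 h3 ψ hψ
  have hmem : ∀ x, ∀ w ∈ E, (x * w ∈ E ↔ x ∈ E) := fun x w hw => E.mul_mem_cancel_right hw
  let T : (F → ZMod p) →ₗ[ZMod p] (F → ZMod p) :=
    { toFun := fun φ x => ε (ind p E (rr p x φ)) 1
      map_add' := fun φ φ' => by
        ext x
        simp only [map_add, Pi.add_apply]
      map_smul' := fun c φ => by
        ext x
        simp only [map_smul, Pi.smul_apply, RingHom.id_apply] }
  have hT : ∀ φ x, T φ x = ε (ind p E (rr p x φ)) 1 := fun _ _ => rfl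
  have hrr : ∀ a b (φ : F → ZMod p), rr p a (rr p b φ) = rr p (a * b) φ := by
    intro a b φ
    rw [map_mul]
    rfl
  have hTa : ∀ a φ, T (rr p a φ) = rr p a (T φ) := by
    intro a φ
    ext x
    rw [rr_apply, hT, hT, hrr]
  -- restriction
  have hind : ∀ φ ∈ C1 p ⊤ V, ind p E φ ∈ C1 p E V := by
    rintro φ ⟨-, hφ2, W, hW, hφ3⟩
    refine ⟨fun x hx => ind_of_notMem hx φ, fun x v hv => ?_, W ⊓ E, hW.inf hE, fun x w hw => ?_⟩
    · by_cases hx : x ∈ E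
      · rw [ind_of_mem hx, ind_of_mem ((hmem x v (hVE hv)).2 hx), hφ2 x v hv]
      · rw [ind_of_notMem hx, ind_of_notMem fun h => hx ((hmem x v (hVE hv)).1 h)]
    · by_cases hx : x ∈ E
      · rw [ind_of_mem hx, ind_of_mem ((hmem x w hw.2).2 hx), hφ3 x w hw.1]
      · rw [ind_of_notMem hx, ind_of_notMem fun h => hx ((hmem x w hw.2).1 h)]
  have hTx : ∀ φ ∈ C1 p ⊤ V, ∀ x ∈ E, T φ x = ε (ind p E φ) x := by
    intro φ hφ x hx
    have e1 : ind p E (rr p x φ) = rr p x (ind p E φ) := by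
      ext y
      rw [rr_apply]
      by_cases hy : y ∈ E
      · rw [ind_of_mem hy, ind_of_mem ((hmem y x hx).2 hy), rr_apply]
      · rw [ind_of_notMem hy, ind_of_notMem fun h => hy ((hmem y x hx).1 h)]
    rw [hT, e1, h2 x hx _ (hind φ hφ), rr_apply, one_mul]
  have hTC : ∀ φ ∈ C1 p ⊤ V, T φ ∈ C1 p ⊤ V := by
    rintro φ ⟨hφ1, hφ2, W, hW, hφ3⟩
    refine ⟨fun x hx => absurd (Subgroup.mem_top x) hx, fun x v hv => ?_, W, hW, fun x w hw => ?_⟩
    · have e1 : rr p v φ = φ := by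
        ext y
        exact hφ2 y v hv
      rw [hT, hT, ← hrr, e1]
    · have e1 : rr p w φ = φ := by
        ext y
        exact hφ3 y w hw
      rw [hT, hT, ← hrr, e1]
  have hle : ∀ φ ∈ C1 p E V, φ ∈ C1 p ⊤ V := by
    rintro φ ⟨-, hφ2, hφ3⟩
    exact ⟨fun x hx => absurd (Subgroup.mem_top x) hx, hφ2, hφ3⟩
  have hindE : ∀ φ ∈ C1 p E V, ind p E φ = φ := by
    rintro φ ⟨hφ1, -, -⟩
    ext y
    by_cases hy : y ∈ E
    · rw [ind_of_mem hy]
    · rw [ind_of_notMem hy, hφ1 y hy]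
  have hne : ∃ φ ∈ C1 p ⊤ V, T φ ≠ 0 := by
    obtain ⟨φ, hφ, hφ0⟩ := h3
    refine ⟨φ, hle φ hφ, fun h0 => hφ0 ?_⟩
    ext x
    by_cases hx : x ∈ E
    · have e1 := hTx φ (hle φ hφ) x hx
      rw [hindE φ hφ, h0] at e1
      rw [← e1]
    · exact (h1 φ hφ).1 x hx
  obtain ⟨φ, hφ, hφψ⟩ := h T hTC (fun a _ φ _ => hTa a φ) hne ψ (hle ψ hψ)
  refine ⟨ind p E φ, hind φ hφ, ?_⟩
  ext x
  by_cases hx : x ∈ E
  · rw [← hTx φ hφ x hx, hφψ]
  · rw [(h1 _ (hind φ hφ)).1 x hx, hψ.1 x hx]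

end Pool.Agent.ORD
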