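import Pool.Agent.ORD.E7
import Pool.Agent.ORD.G5
import Pool.Agent.ORD.G4
import Pool.Agent.ORD.H1
import Pool.Agent.ORD.H2
import Pool.Agent.ORD.H3
import Pool.Agent.ORD.N1
import Pool.Agent.ORD.N2

/-!
# ORD [ORD-H0]: the main step
-/

set_option autoImplicit false

namespace Pool.Agent.ORD

open Pool.Agent.MP_6fb7ad_al

variable {p : ℕ} [Fact p.Prime] {Q : Type} [Group Q] [TopologicalSpace Q] [IsTopologicalGroup Q]

theorem step (hQ : IsProP p Q) (N : Subgroup Q) (hN : N.Normal) (hNc : IsClosed (N : Set Q))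
    (χ : Q → ZMod p) (hχ : IsChar p χ) (hNχ : ∀ n ∈ N, χ n = 0) (q₀ : Q) (hq₀ : χ q₀ ≠ 0)
    (hCD : CD p Q N) (hND : NZD p Q N) (U : Subgroup Q) (hU : ∀ q, q ∈ U ↔ χ q = 0)
    (hr : Module.rank (ZMod p) (H2 p U) ≤ 1) : OneRelator p Q := by
  have hT2 : T2Space Q := hQ.t2
  obtain ⟨X, F, _, _, _, i, π, hF, hπ, hs, hmin⟩ := exists_min (p := p) hQ
  have hFp := hF.proP
  have hT2F : T2Space F := hFp.t2
  -- an element of value one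
  obtain ⟨t', ht'⟩ : ∃ t' : Q, χ t' = 1 := by
    have hpow : ∀ n : ℕ, χ (q₀ ^ n) = n * χ q₀ := by
      intro n
      induction n with
      | zero => rw [pow_zero, char_one hχ, Nat.cast_zero, zero_mul]
      | succ n ih =>
        rw [pow_succ, hχ.mul, ih]
        push_cast
        ring
    refine ⟨q₀ ^ ((χ q₀)⁻¹).val, ?_⟩
    rw [hpow, ZMod.natCast_zmod_val, inv_mul_cancel₀ hq₀]
  obtain ⟨t, rfl⟩ := hs t'
  have hUo : IsOpen (U : Set Q) := by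
    have h1 : (U : Set Q) = χ ⁻¹' {0} := by
      ext q
      exact hU q
    rw [h1]
    exact hχ.lc _
  have hRn : π.ker.Normal := inferInstance
  have hRc : IsClosed (π.ker : Set F) := isClosed_singleton.preimage hπ
  have hVn : (N.comap π).Normal := hN.comap π
  have hRV : π.ker ≤ N.comap π := by
    intro x hx
    rw [Subgroup.mem_comap, MonoidHom.mem_ker.1 hx]
    exact N.one_mem
  have hEχ : ∀ x, x ∈ U.comap π ↔ χ (π x) = 0 := fun x => hU _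
  have hVE : N.comap π ≤ U.comap π := fun x hx => (hEχ x).2 (hNχ _ hx)
  have hRE : π.ker ≤ U.comap π := hRV.trans hVE
  have hχF : IsChar p (fun x => χ (π x)) :=
    ⟨hχ.lc.comp_continuous hπ, fun a b => by rw [map_mul, hχ.mul]⟩
  have hUn : U.Normal := by
    refine ⟨fun n hn g => ?_⟩
    rw [hU] at hn ⊢
    have h1 := hχ.mul g g⁻¹
    rw [mul_inv_cancel, char_one hχ] at h1
    rw [hχ.mul, hχ.mul, hn, add_zero, ← h1]
  have hE : ON (U.comap π) := ⟨hUn.comap π, hUo.preimage hπ⟩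
  have hN1 : N1 p (U.comap π) (N.comap π) := N1_sub hVn hVE hE (N1_top hFp π hπ hs N hND)
  have hdim := dim_le (p := p) hFp π hπ hs U hUo hr
  have hdim' : ∀ θ₁ ∈ Hm p π.ker, ∀ θ₂ ∈ Hm p π.ker, (∀ a ∈ U.comap π, cj p a θ₁ = θ₁) →
      (∀ a ∈ U.comap π, cj p a θ₂ = θ₂) → ∃ c₁ c₂ : ZMod p, (c₁ ≠ 0 ∨ c₂ ≠ 0) ∧
      ∃ h ∈ Hm p (U.comap π), c₁ • θ₁ + c₂ • θ₂ = ind p π.ker h :=
    fun θ₁ h₁ θ₂ h₂ k₁ k₂ => hdim θ₁ θ₂ h₁ h₂ k₁ k₂
  -- cohomology of `Rs`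
  have hsm : ∀ m ∈ Rs p (N.comap π) π.ker, ∃ W : Subgroup F, ON W ∧ ∀ w ∈ W, cj p w m = m :=
    fun m hm => smooth_Hm hRn (Rs_le_Hm hRV hm)
  have hH := h1_all hFp π hπ hs N hCD χ hχ hNχ (π t) ht' (cj p) (Rs p (N.comap π) π.ker)
    (fun a m hm => cj_mem_Rs hVn hRn hm a) hsm (fun v hv m hm => Rs_fx hRV hRn hm hv)
    (fun c h1 h2 h3 h4 => by
      obtain ⟨W, hW, hW'⟩ := h4
      obtain ⟨θ, hθ, hθ'⟩ := h1_Rs hF hRn hRc hVn hRV hVE hE (fun x => χ (π x)) hχF hEχ t ht' hN1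
        hdim' c (fun a ha => h1 a ((hEχ a).1 ha))
        (fun a ha b hb => h2 a b ((hEχ a).1 ha) ((hEχ b).1 hb)) h3
        ⟨W, hW, fun w hw hw' => hW' w hw ((hEχ w).1 hw')⟩
      exact ⟨θ, hθ, fun a ha => hθ' a ((hEχ a).2 ha)⟩)
  have hex := exact1 (cj p) (Rs p (N.comap π) π.ker) (fun a m hm => cj_mem_Rs hVn hRn hm a) hVE hE
    (fun x => χ (π x)) hχF hEχ t ht' hH
  have hex2 := exact2 (cj p t) (Rs p (N.comap π) π.ker ⊓ fx (cj p) (U.comap π)) (by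
    rintro y ⟨hy1, hy2⟩ hy3
    obtain ⟨y', h1, h2, h3⟩ := hex y hy1 hy2 hy3
    exact ⟨y', ⟨h1, h2⟩, h3⟩)
  -- elements of `Rs` extending to `E` are killed by the norm
  have htr : ∀ θ ∈ Rs p (U.comap π) π.ker, ((cj p t - 1) ^ (p - 1)) θ = 0 := by
    rintro θ ⟨h, hh, rfl⟩
    exact transfer hE (fun x => χ (π x)) hχF hEχ t ht' hRn hRE hmin hh
  have hd : ∀ θ₁ ∈ Hm p π.ker, ∀ θ₂ ∈ Hm p π.ker, (∀ a, cj p a θ₁ = θ₁) →
      (∀ a, cj p a θ₂ = θ₂) →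
      ∃ c₁ c₂ : ZMod p, (c₁ ≠ 0 ∨ c₂ ≠ 0) ∧ c₁ • θ₁ + c₂ • θ₂ = 0 := by
    intro θ₁ h₁ θ₂ h₂ k₁ k₂
    by_cases hα : ∀ θ ∈ Rs p (N.comap π) π.ker, (∀ a ∈ U.comap π, cj p a θ = θ) →
        θ ∈ Rs p (U.comap π) π.ker
    · obtain ⟨c₁, c₂, hc, h, h3, h4⟩ := hdim' θ₁ h₁ θ₂ h₂ (fun a _ => k₁ a) (fun a _ => k₂ a)
      refine ⟨c₁, c₂, hc, ?_⟩
      have h5 : c₁ • θ₁ + c₂ • θ₂ ∈ Rs p (N.comap π) π.ker := by
        rw [h4]
        exact Rs_mono hRV hVE ⟨h, h3, rfl⟩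
      have h6 : ∀ a, cj p a (c₁ • θ₁ + c₂ • θ₂) = c₁ • θ₁ + c₂ • θ₂ := by
        intro a
        rw [map_add, map_smul, map_smul, k₁, k₂]
      obtain ⟨y, hy, hy'⟩ := hex2 _ ⟨h5, fun a _ => h6 a⟩ (h6 t)
      rw [← hy']
      exact htr y (hα y hy.1 hy.2)
    · push Not at hα
      obtain ⟨x₀, hx1, hx2, hx3⟩ := hα
      have hx1' := Rs_le_Hm hRV hx1
      have hmem : ∀ θ ∈ Hm p π.ker, (∀ a ∈ U.comap π, cj p a θ = θ) →
          θ ∈ Rs p (N.comap π) π.ker := by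
        intro θ hθ hθ'
        obtain ⟨c₁, c₂, hc, h, h3, h4⟩ := hdim' θ hθ x₀ hx1' hθ' hx2
        have h5 : c₁ • θ + c₂ • x₀ ∈ Rs p (U.comap π) π.ker := by
          rw [h4]
          exact ⟨h, h3, rfl⟩
        have hc1 : c₁ ≠ 0 := by
          rintro rfl
          have hc2 : c₂ ≠ 0 := hc.resolve_left fun h => h rfl
          apply hx3
          rw [zero_smul, zero_add] at h5
          have h6 := (Rs p (U.comap π) π.ker).smul_mem c₂⁻¹ h5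
          rwa [smul_smul, inv_mul_cancel₀ hc2, one_smul] at h6
        have h6 : θ = c₁⁻¹ • (c₁ • θ + c₂ • x₀) - (c₁⁻¹ * c₂) • x₀ := by
          rw [smul_add, smul_smul, smul_smul, inv_mul_cancel₀ hc1, one_smul]
          abel
        rw [h6]
        exact Submodule.sub_mem _ (Submodule.smul_mem _ _ (Rs_mono hRV hVE h5))
          (Submodule.smul_mem _ _ hx1)
      obtain ⟨y₁, ⟨hy1, hy1'⟩, hy1''⟩ := hex2 θ₁ ⟨hmem θ₁ h₁ fun a _ => k₁ a, fun a _ => k₁ a⟩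
        (k₁ t)
      obtain ⟨y₂, ⟨hy2, hy2'⟩, hy2''⟩ := hex2 θ₂ ⟨hmem θ₂ h₂ fun a _ => k₂ a, fun a _ => k₂ a⟩
        (k₂ t)
      obtain ⟨c₁, c₂, hc, h, h3, h4⟩ := hdim' y₁ (Rs_le_Hm hRV hy1) y₂ (Rs_le_Hm hRV hy2)
        hy1' hy2'
      refine ⟨c₁, c₂, hc, ?_⟩
      rw [← hy1'', ← hy2'', ← map_smul, ← map_smul, ← map_add, h4]
      exact htr _ ⟨h, h3, rfl⟩
  obtain ⟨r, hr1, hr2⟩ := exists_rel hFp π hd
  exact ⟨X, F, inferInstance, inferInstance, inferInstance, i, r, π, hF, hπ, hs, hr1, hr2⟩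

end Pool.Agent.ORD
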