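import Mathlib

/-!
# ORD: the definitions used in the statement
-/

set_option autoImplicit false

namespace Pool.Agent.ORD.St

section

variable (p : ℕ) (Q : Type) [Group Q] [TopologicalSpace Q] (N : Subgroup Q)

/-- A discrete `𝔽_p`-module over the topological group `Q` on which `N` acts trivially: an abelian
group `M` with `p • m = 0` for all `m`, on which `Q` acts by automorphisms such that every element
of `M` is fixed by an open subgroup of `Q`. -/
structure DMod where
  /-- the abelian group -/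
  M : Type
  [acg : AddCommGroup M]
  [act : DistribMulAction Q M]
  tors : ∀ m : M, p • m = 0
  smooth : ∀ m : M, ∃ W : Subgroup Q, IsOpen (W : Set Q) ∧ ∀ w ∈ W, w • m = m
  triv : ∀ n ∈ N, ∀ m : M, n • m = m

attribute [instance] DMod.acg DMod.act

end

section

variable {p : ℕ} {Q : Type} [Group Q] [TopologicalSpace Q] {N : Subgroup Q}

/-- `H¹(Q / N, A) = 0`: every continuous crossed homomorphism `Q → A` that vanishes on `N` is
principal. -/
def H1z (A : DMod p Q N) : Prop :=
  ∀ z : Q → A.M, IsLocallyConstant z → (∀ f g, z (f * g) = z f + f • z g) → (∀ n ∈ N, z n = 0) →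
    ∃ m, ∀ f, z f = f • m - m

/-- There is a short exact sequence `0 → B → I → A → 0` of `Q`-modules. -/
def Ses (B I A : DMod p Q N) : Prop :=
  ∃ (i : B.M →+[Q] I.M) (j : I.M →+[Q] A.M), Function.Injective i ∧ Function.Surjective j ∧
    ∀ m, j m = 0 ↔ ∃ b, i b = m

/-- `Cz n A`: there is an exact sequence `0 → B → I₁ → ⋯ → Iₙ → A → 0` of discrete modules over
`Q / N` with `H¹(Q / N, Iⱼ) = 0` for all `j`. -/
inductive Cz : ℕ → DMod p Q N → Prop
  | zero (A : DMod p Q N) : Cz 0 A
  | succ (n : ℕ) (B I A : DMod p Q N) : Ses B I A → H1z I → Cz n B → Cz (n + 1) A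

/-- `φ : Q → 𝔽_p` is locally constant and right `N`-invariant. -/
def LC (N : Subgroup Q) (φ : Q → ZMod p) : Prop :=
  IsLocallyConstant φ ∧ ∀ x, ∀ n ∈ N, φ (x * n) = φ x

end

/-- The group `Q / N` has finite cohomological dimension: for some `n`, `H¹(Q / N, A) = 0` for all
discrete modules `A` over `Q / N` with an exact sequence `0 → B → I₁ → ⋯ → Iₙ → A → 0` with
`H¹(Q / N, Iⱼ) = 0` for all `j`. -/
def CD (p : ℕ) (Q : Type) [Group Q] [TopologicalSpace Q] (N : Subgroup Q) : Prop :=
  ∃ n, ∀ A : DMod p Q N, Cz n A → H1z A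

/-- The completed group algebra `𝔽_p⟦Q / N⟧`, the space of the linear forms on the space `LC` of
the locally constant right `N`-invariant functions `Q → 𝔽_p` with the convolution product, has no
zero divisors: the convolution product of two linear forms that do not vanish on `LC` does not
vanish on `LC`. -/
def NZD (p : ℕ) (Q : Type) [Group Q] [TopologicalSpace Q] (N : Subgroup Q) : Prop :=
  ∀ μ ν : (Q → ZMod p) →ₗ[ZMod p] ZMod p, (∃ φ, LC N φ ∧ μ φ ≠ 0) → (∃ φ, LC N φ ∧ ν φ ≠ 0) →
    ∃ φ, LC N φ ∧ ν (fun y => μ (fun x => φ (x * y))) ≠ 0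

/-- `U` is an open subgroup of the subgroup `V` of `G` and contains a closed normal subgroup `K`
of `V` such that `V / K` has finite cohomological dimension and the algebra `𝔽_p⟦V / K⟧` has no
zero divisors. -/
def NStep (p : ℕ) {G : Type} [Group G] [TopologicalSpace G] (V U : Subgroup G) : Prop :=
  U ≤ V ∧ IsOpen ((U.subgroupOf V : Subgroup V) : Set V) ∧
    ∃ K : Subgroup V, K.Normal ∧ IsClosed (K : Set V) ∧ K ≤ U.subgroupOf V ∧
      CD p V K ∧ NZD p V K

/-- `L` is topologically generated by `K` and the element `b` of `L`, and no power `b ^ m` with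
`m > 0` lies in `K`. -/
def Zst {Q : Type} [Group Q] [TopologicalSpace Q] (K L : Subgroup Q) (b : Q) : Prop :=
  b ∈ L ∧ (∀ m : ℕ, 0 < m → b ^ m ∉ K) ∧
    ∀ H : Subgroup Q, IsClosed (H : Set Q) → K ≤ H → b ∈ H → L ≤ H

/-- `Q / N` has a finite series of closed normal subgroups with infinite procyclic factors. -/
def PolyZ (Q : Type) [Group Q] [TopologicalSpace Q] (N : Subgroup Q) : Prop :=
  ∃ (n : ℕ) (S : ℕ → Subgroup Q), S 0 = N ∧ S n = ⊤ ∧
    (∀ i, (S i).Normal ∧ IsClosed (S i : Set Q)) ∧
    ∀ i < n, S i ≤ S (i + 1) ∧ ∃ b, Zst (S i) (S (i + 1)) b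

/-- `U` is an open subgroup of the subgroup `V` of `G`, and for every `v ∈ V` outside of `U` there
is a closed normal subgroup `K` of `V` with `v ∉ K` such that `V / K` has a finite series of
closed normal subgroups with infinite procyclic factors. -/
def ResStep {G : Type} [Group G] [TopologicalSpace G] (V U : Subgroup G) : Prop :=
  U ≤ V ∧ IsOpen ((U.subgroupOf V : Subgroup V) : Set V) ∧
    ∀ v : V, (v : G) ∉ U → ∃ K : Subgroup V, K.Normal ∧ IsClosed (K : Set V) ∧ PolyZ V K ∧ v ∉ K

end Pool.Agent.ORD.St
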