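import Pool.Agent.ORD.I3
import Pool.Agent.ORD.St

/-!
# ORD [ORD-I4]: the main theorem in terms of the definitions of `St`
-/

set_option autoImplicit false

namespace Pool.Agent.ORD

open Pool.Agent.MP_6fb7ad_al

section

variable {p : ℕ} {Q : Type} [Group Q] [TopologicalSpace Q] {N : Subgroup Q}

/-- A discrete module as a module in the sense of `St`. -/
def toD (A : SmRep p Q N) : St.DMod p Q N where
  M := A.M
  acg := A.acg
  act :=
    { smul := fun q m => A.ρ q m
      one_smul := fun m => by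
        show A.ρ 1 m = m
        rw [map_one]
        rfl
      mul_smul := fun a b m => by
        show A.ρ (a * b) m = A.ρ a (A.ρ b m)
        rw [map_mul]
        rfl
      smul_zero := fun a => map_zero (A.ρ a)
      smul_add := fun a => map_add (A.ρ a) }
  tors := fun m => by
    have h : ((p : ZMod p)) • m = (p : ℕ) • m := Nat.cast_smul_eq_nsmul (ZMod p) p m
    rw [← h, ZMod.natCast_self, zero_smul]
  smooth := A.smooth
  triv := fun n hn m => by
    show A.ρ n m = m
    rw [A.triv n hn]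
    rfl

theorem h1v_of [IsTopologicalGroup Q] (A : SmRep p Q N) (h : St.H1z (toD A)) : H1v A := by
  intro z h1 h2 h3
  obtain ⟨W, hW, h4⟩ := h2
  refine h z ?_ h1 h3
  refine (IsLocallyConstant.iff_exists_open z).2 fun x => ?_
  refine ⟨(fun y => x⁻¹ * y) ⁻¹' (W : Set Q), hW.preimage (continuous_const_mul x⁻¹), ?_, ?_⟩
  · show x⁻¹ * x ∈ W
    rw [inv_mul_cancel]
    exact W.one_mem
  · intro y hy
    have h5 : z (x * (x⁻¹ * y)) = z x + A.ρ x (z (x⁻¹ * y)) := h1 x (x⁻¹ * y)
    rw [mul_inv_cancel_left, h4 _ hy, map_zero, add_zero] at h5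
    exact h5

theorem of_h1v (A : SmRep p Q N) (h : H1v A) : St.H1z (toD A) := by
  intro (z : Q → A.M) (h1 : IsLocallyConstant z) (h2 : ∀ f g, z (f * g) = z f + A.ρ f (z g))
    (h3 : ∀ n ∈ N, z n = 0)
  refine h z h2 ?_ h3
  have e1 : z 1 = 0 := by
    have h4 : z (1 * 1) = z 1 + A.ρ 1 (z 1) := h2 1 1
    rw [one_mul, map_one, Module.End.one_apply] at h4
    exact left_eq_add.1 h4
  have e2 : ∀ a, z a = 0 → z a⁻¹ = 0 := by
    intro a ha
    have h4 : z (a⁻¹ * a) = z a⁻¹ + A.ρ a⁻¹ (z a) := h2 a⁻¹ a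
    rw [inv_mul_cancel, e1, ha, map_zero, add_zero] at h4
    exact h4.symm
  have e3 : ∀ a b, z a = 0 → z b = 0 → z (a * b) = 0 := by
    intro a b ha hb
    have h4 : z (a * b) = z a + A.ρ a (z b) := h2 a b
    rw [h4, ha, hb, map_zero, add_zero]
  let W : Subgroup Q :=
    { carrier := {w | z w = 0}
      mul_mem' := fun {a b} ha hb => e3 a b ha hb
      one_mem' := e1
      inv_mem' := fun {a} ha => e2 a ha }
  exact ⟨W, h1.isOpen_fiber 0, fun w hw => hw⟩

theorem cz_toD (n : ℕ) (A : SmRep p Q N) (h : Cz n A) : St.Cz n (toD A) := by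
  induction n generalizing A with
  | zero => exact St.Cz.zero _
  | succ n ih =>
    obtain ⟨B, I, i, j, h1, h2, h3, h4, h5, h6, h7⟩ := h
    refine St.Cz.succ n (toD B) (toD I) (toD A) ⟨?_, ?_, ?_⟩ (of_h1v I h6) (ih B h7)
    · exact
        { toFun := i
          map_smul' := fun q m => h1 q m
          map_zero' := map_zero i
          map_add' := map_add i }
    · exact
        { toFun := j
          map_smul' := fun q m => h2 q m
          map_zero' := map_zero j
          map_add' := map_add j }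
    · refine ⟨h3, h4, fun m => (h5 m).trans ?_⟩
      exact LinearMap.mem_range

theorem cd_of [IsTopologicalGroup Q] (h : St.CD p Q N) : CD p Q N := by
  obtain ⟨n, h⟩ := h
  exact ⟨n, fun A hA => h1v_of A (h (toD A) (cz_toD n A hA))⟩

theorem nzd_of (h : St.NZD p Q N) : NZD p Q N := by
  intro μ ν hμ hν
  obtain ⟨φ, h1, h2⟩ := hμ
  obtain ⟨ψ, h3, h4⟩ := hν
  obtain ⟨θ, h5, h6⟩ := h μ ν ⟨φ, h1, h2⟩ ⟨ψ, h3, h4⟩
  exact ⟨θ, h5, h6⟩

end

section

variable {p : ℕ} {G : Type} [Group G] [TopologicalSpace G] [IsTopologicalGroup G]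

theorem nstep_of {V U : Subgroup G} (h : St.NStep p V U) : NStep p V U := by
  obtain ⟨h1, h2, K, h3, h4, h5, h6, h7⟩ := h
  exact ⟨h1, h2, K, h3, h4, h5, cd_of h6, nzd_of h7⟩

omit [IsTopologicalGroup G] in
theorem resStep_of {V U : Subgroup G} (h : St.ResStep V U) : ResStep V U := h

theorem main3 [Fact p.Prime] (hG : IsProP p G) (U : Subgroup G)
    (hU : Relation.ReflTransGen (fun V U => LiftStep p V U ∨ St.NStep p V U ∨ St.ResStep V U) ⊤ U)
    (h : OneRelator p U) : OneRelator p G := by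
  refine main2 hG U ?_ h
  clear h
  induction hU with
  | refl => exact Relation.ReflTransGen.refl
  | tail h1 h2 ih =>
    refine ih.tail ?_
    rcases h2 with h | h | h
    · exact Or.inl h
    · exact Or.inr (Or.inl (nstep_of h))
    · exact Or.inr (Or.inr (resStep_of h))

end

end Pool.Agent.ORD
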