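import Pool.Agent.ORD.Def

/-!
# ORD [ORD-I0]: rank of H2 of isomorphic subgroups
-/

set_option autoImplicit false

namespace Pool.Agent.ORD

open Pool.Agent.MP_6fb7ad_al

variable {p : ℕ} [Fact p.Prime] {G : Type} [Group G] [TopologicalSpace G] [IsTopologicalGroup G]

/-- If `W` is a subgroup of `H` (as a group) whose image in `G` is `U`, then `W` and `U` are
isomorphic topological groups. Use `pull` in both directions as in `rank_step` of Chain of
MP_6fb7ad_al. -/
theorem rank_H2_le {H U : Subgroup G} (hUH : U ≤ H) (W : Subgroup H)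
    (hW : ∀ x : H, x ∈ W ↔ (x : G) ∈ U) :
    Module.rank (ZMod p) (H2 p W) ≤ Module.rank (ZMod p) (H2 p U) := by
  have hWU : W = U.subgroupOf H := by
    ext x
    rw [hW x, Subgroup.mem_subgroupOf]
  subst hWU
  have hc1 : Continuous (Subgroup.subgroupOfEquivOfLe hUH).symm.toMonoidHom := by
    refine Continuous.subtype_mk ?_ _
    exact Continuous.subtype_mk continuous_subtype_val _
  have hc2 : Continuous (Subgroup.subgroupOfEquivOfLe hUH).toMonoidHom :=
    Continuous.subtype_mk (continuous_subtype_val.comp continuous_subtype_val) _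
  refine LinearMap.rank_le_of_injective
    (pull (p := p) (Subgroup.subgroupOfEquivOfLe hUH).symm.toMonoidHom hc1) ?_
  refine Function.LeftInverse.injective
    (g := pull (p := p) (Subgroup.subgroupOfEquivOfLe hUH).toMonoidHom hc2) ?_
  intro x
  rw [pull_pull]
  refine pull_id _ _ _ fun g => ?_
  exact (Subgroup.subgroupOfEquivOfLe hUH).symm_apply_apply g

end Pool.Agent.ORD
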