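import Pool.Agent.ORD.R1

/-!
# ORD [ORD-R3]: coinduction is exact
-/

set_option autoImplicit false

namespace Pool.Agent.ORD

open Pool.Agent.MP_6fb7ad_al

variable {p : ℕ} [Fact p.Prime] {Q : Type} [Group Q] [TopologicalSpace Q] [IsTopologicalGroup Q]
  {N : Subgroup Q}

section

variable {P : Type} [Group P] [TopologicalSpace P] [IsTopologicalGroup P]

/-- composition of coinduced functions with an equivariant map -/
private def R3_map (j : P →* Q) {A B : SmRep p P (N.comap j)} (i : B.M →ₗ[ZMod p] A.M)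
    (hi : ∀ f m, i (B.ρ f m) = A.ρ f (i m)) : COs j B →ₗ[ZMod p] COs j A where
  toFun φ := ⟨fun q => i (φ.1 q), by
    obtain ⟨φ, h0, h1, W, hW, h2⟩ := φ
    refine ⟨fun h q => ?_, fun x n hn => ?_, W, hW, fun x w hw => ?_⟩
    · show i (φ (j h * q)) = A.ρ h (i (φ q))
      rw [h0, hi]
    · show i (φ (x * n)) = i (φ x)
      rw [h1 x n hn]
    · show i (φ (x * w)) = i (φ x)
      rw [h2 x w hw]⟩
  map_add' φ ψ := Subtype.ext (funext fun q => map_add i (φ.1 q) (ψ.1 q))
  map_smul' c φ := Subtype.ext (funext fun q => map_smul i c (φ.1 q))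

private theorem R3_map_apply (j : P →* Q) {A B : SmRep p P (N.comap j)} (i : B.M →ₗ[ZMod p] A.M)
    (hi : ∀ f m, i (B.ρ f m) = A.ρ f (i m)) (φ : COs j B) (q : Q) :
    (R3_map j i hi φ).1 q = i (φ.1 q) := rfl

/-- right coset representatives -/
private theorem R3_sec (hQ : IsProP p Q) (j : P →* Q) (hi : Function.Injective j)
    {E : Subgroup Q} (hE : IsOpen (E : Set Q)) (hEj : ∀ q, q ∈ E ↔ ∃ x, j x = q) :
    ∃ (σ : Q → Q) (h : Q → P), (Set.range σ).Finite ∧ (∀ q, q = j (h q) * σ q) ∧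
      (∀ x q, σ (j x * q) = σ q) ∧ (∀ x q, h (j x * q) = x * h q) ∧
      (∀ q, σ (σ q) = σ q) ∧ ∀ q, h (σ q) = 1 := by
  have := hQ.compact
  obtain ⟨σ, hσ⟩ : ∃ σ : Q → Q, ∀ q, σ q = (Quotient.mk (QuotientGroup.rightRel E) q).out :=
    ⟨_, fun _ => rfl⟩
  have hfin : Finite (Q ⧸ E) := Subgroup.quotient_finite_of_isOpen E hE
  have hfin2 : Finite (Quotient (QuotientGroup.rightRel E)) :=
    Finite.of_equiv _ (QuotientGroup.quotientRightRelEquivQuotientLeftRel E).symm
  have h1 : ∀ q, q * (σ q)⁻¹ ∈ E := by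
    intro q
    have h2 : (QuotientGroup.rightRel E) (σ q) q := by
      rw [hσ]
      exact Quotient.mk_out q
    rwa [QuotientGroup.rightRel_apply] at h2
  have h3 : ∀ q, ∃ x, j x = q * (σ q)⁻¹ := fun q => (hEj _).1 (h1 q)
  choose h hh using h3
  have h4 : ∀ q, q = j (h q) * σ q := by
    intro q
    rw [hh, inv_mul_cancel_right]
  have h5 : ∀ x q, σ (j x * q) = σ q := by
    intro x q
    rw [hσ, hσ]
    congr 1
    apply Quotient.sound
    show (QuotientGroup.rightRel E) (j x * q) q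
    rw [QuotientGroup.rightRel_apply, mul_inv_rev, mul_inv_cancel_left]
    exact E.inv_mem ((hEj _).2 ⟨x, rfl⟩)
  have h6 : ∀ q, σ (σ q) = σ q := by
    intro q
    conv_rhs => rw [h4 q]
    conv_rhs => rw [h5]
  refine ⟨σ, h, ?_, h4, h5, ?_, h6, ?_⟩
  · have e : σ = fun q => (Quotient.mk (QuotientGroup.rightRel E) q).out := funext hσ
    rw [e]
    exact (Set.finite_range (fun c : Quotient (QuotientGroup.rightRel E) => c.out)).subset
      (by rintro _ ⟨q, rfl⟩; exact ⟨_, rfl⟩)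
  · intro x q
    apply hi
    rw [map_mul, hh, hh, h5, mul_assoc]
  · intro q
    apply hi
    rw [map_one, hh, h6, mul_inv_cancel]

private theorem R3_lift (hQ : IsProP p Q) (hN : N.Normal) (hP : IsProP p P) (j : P →* Q)
    (hj : Continuous j) (hi : Function.Injective j) {E : Subgroup Q} (hE : IsOpen (E : Set Q))
    (hEj : ∀ q, q ∈ E ↔ ∃ x, j x = q) (hNE : N ≤ E) {A I : SmRep p P (N.comap j)}
    (j' : I.M →ₗ[ZMod p] A.M) (hj' : ∀ f m, j' (I.ρ f m) = A.ρ f (j' m))
    (hs : Function.Surjective j') : Function.Surjective (R3_map j j' hj') := by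
  rintro ⟨φ, h0, h1, W0, hW0, h2⟩
  obtain ⟨σ, h, hfin, hσ1, hσ2, hσ3, hσ4, hσ5⟩ := R3_sec hQ j hi hE hEj
  choose y hy using fun q => hs (φ q)
  obtain ⟨ψ, hψ⟩ : ∃ ψ : Q → I.M, ∀ q, ψ q = I.ρ (h q) (y (σ q)) := ⟨_, fun _ => rfl⟩
  have hψ1 : ∀ x q, ψ (j x * q) = I.ρ x (ψ q) := by
    intro x q
    rw [hψ, hψ, hσ2, hσ3, map_mul]
    rfl
  have hψ2 : ∀ q, j' (ψ q) = φ q := by
    intro q
    rw [hψ, hj', hy]
    conv_rhs => rw [hσ1 q]
    exact (h0 _ _).symm
  have hψ3 : ∀ q, ψ (σ q) = y (σ q) := by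
    intro q
    rw [hψ, hσ4, hσ5, map_one]
    rfl
  have key : ∀ q g x, j x = σ q * g * (σ q)⁻¹ → I.ρ x (y (σ q)) = y (σ q) →
      ψ (q * g) = ψ q := by
    intro q g x hx hxy
    have e : q * g = j (h q) * (j x * σ q) := by
      rw [hx]
      conv_lhs => rw [hσ1 q]
      group
    rw [e, hψ1, hψ1, hψ3, hxy, ← hψ]
  -- an open subgroup of `P` fixing the `y (σ q)`
  obtain ⟨W1, hW1, hW1'⟩ : ∃ W : Subgroup P, IsOpen (W : Set P) ∧
      ∀ w ∈ W, ∀ q, I.ρ w (y (σ q)) = y (σ q) := by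
    have hgen : ∀ T : Set Q, T.Finite → ∃ W : Subgroup P, IsOpen (W : Set P) ∧
        ∀ w ∈ W, ∀ q ∈ T, I.ρ w (y q) = y q := by
      intro T hT
      induction T, hT using Set.Finite.induction_on with
      | empty => exact ⟨⊤, isOpen_univ, fun w _ q hq => absurd hq (Set.notMem_empty _)⟩
      | insert _ _ ih =>
        rename_i a s _ _
        obtain ⟨W, hW, hW'⟩ := ih
        obtain ⟨W', hW2, hW2'⟩ := I.smooth (y a)
        refine ⟨W ⊓ W', hW.inter hW2, fun w hw q hq => ?_⟩
        rcases Set.mem_insert_iff.1 hq with rfl | hq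
        · exact hW2' w hw.2
        · exact hW' w hw.1 q hq
    obtain ⟨W, hW, hW'⟩ := hgen _ hfin
    exact ⟨W, hW, fun w hw q => hW' w hw _ ⟨q, rfl⟩⟩
  have := hP.compact
  have := hQ.t2
  have hemb : Topology.IsOpenEmbedding j := by
    refine ⟨(hj.isClosedEmbedding hi).isEmbedding, ?_⟩
    have e : Set.range j = (E : Set Q) := by
      ext q
      exact (hEj q).symm
    rw [e]
    exact hE
  obtain ⟨W, hWn, hWo, hW⟩ := exists_normal_le hQ (j '' (W1 : Set P))
    (hemb.isOpenMap _ hW1) ⟨1, W1.one_mem, map_one j⟩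
  refine ⟨⟨ψ, hψ1, ?_, W, ⟨hWn, hWo⟩, ?_⟩, ?_⟩
  · intro q n hn
    have h3 := hN.conj_mem n hn (σ q)
    obtain ⟨x, hx⟩ := (hEj _).1 (hNE h3)
    apply key q n x hx
    have h4 : x ∈ N.comap j := by
      rw [Subgroup.mem_comap, hx]
      exact h3
    rw [I.triv x h4]
    rfl
  · intro q w hw
    obtain ⟨x, hx, hx'⟩ := hW (hWn.conj_mem w hw (σ q))
    exact key q w x hx' (hW1' x hx q)
  · exact Subtype.ext (funext fun q => hψ2 q)

end

/-- Induction over `n`: from `0 → B → I → A → 0` we get `0 → CO B → CO I → CO A → 0` by composing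
functions with `i` and `j'`. The surjectivity: given `φ ∈ COs j A`, pick representatives `σ q` of
the right cosets of `E` (`q = j h * σ q`, `σ (j h * q) = σ q`), let `φ' q = I.ρ h (y (σ q))` where
`y (σ q)` is a preimage of `φ (σ q)`. Then `φ' (j h * q) = I.ρ h (φ' q)` and `j' (φ' q) = φ q`. As
`E` is open in the compact group `Q` there are finitely many representatives; `j` is a
homeomorphism onto `E`, so there is an open normal subgroup `W` of `Q` such that every `w ∈ W` and
every conjugate of it is `j h` with `h` fixing the finitely many `y (σ q)`; then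
`φ' (q * w) = φ' q` (write `q * w = j h * (σ q * w * (σ q)⁻¹) * σ q` for `q = j h * σ q`).
Similarly for `n ∈ N`. The kernel of `CO I → CO A`: compose with the inverse of `i` on its range
(injective). Use `h1v_CO` for `I`. -/
theorem cz_CO (hQ : IsProP p Q) (hN : N.Normal) {P : Type} [Group P] [TopologicalSpace P]
    [IsTopologicalGroup P] (hP : IsProP p P) (j : P →* Q) (hj : Continuous j)
    (hi : Function.Injective j) {E : Subgroup Q} (hE : IsOpen (E : Set Q))
    (hEj : ∀ q, q ∈ E ↔ ∃ x, j x = q) (hNE : N ≤ E) (n : ℕ) (A : SmRep p P (N.comap j))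
    (hA : Cz n A) : Cz n (CO j hN A) := by
  induction n generalizing A with
  | zero => trivial
  | succ n ih =>
    obtain ⟨B, I, i, j', hie, hje, hinj, hsurj, hex, hI, hB⟩ := hA
    refine ⟨CO j hN B, CO j hN I, R3_map j i hie, R3_map j j' hje, fun f m => rfl, fun f m => rfl,
      ?_, R3_lift hQ hN hP j hj hi hE hEj hNE j' hje hsurj, ?_, h1v_CO hQ hN j hj I hI, ih B hB⟩
    · intro φ ψ hφψ
      apply Subtype.ext
      funext q
      apply hinj
      exact congrFun (congrArg Subtype.val hφψ) q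
    · intro φ
      constructor
      · intro hφ
        have h1 : ∀ q, ∃ b, i b = φ.1 q := by
          intro q
          have h2 : j' (φ.1 q) = 0 := congrFun (congrArg Subtype.val hφ) q
          obtain ⟨b, hb⟩ := (hex _).1 h2
          exact ⟨b, hb⟩
        choose b hb using h1
        obtain ⟨φ, h0, h1, W, hW, h2⟩ := φ
        have hb' : ∀ q, i (b q) = φ q := hb
        refine ⟨⟨b, fun h q => hinj ?_, fun x n hn => hinj ?_, W, hW, fun x w hw => hinj ?_⟩,
          Subtype.ext (funext hb)⟩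
        · rw [hb', h0, hie, hb']
        · rw [hb', hb', h1 x n hn]
        · rw [hb', hb', h2 x w hw]
      · rintro ⟨ψ, rfl⟩
        apply Subtype.ext
        funext q
        exact (hex _).2 ⟨ψ.1 q, rfl⟩

end Pool.Agent.ORD
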