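import Pool.Agent.ORD.R2
import Pool.Agent.ORD.R3

/-!
# ORD [ORD-R4]: cohomological dimension of open subgroups
-/

set_option autoImplicit false

namespace Pool.Agent.ORD

open Pool.Agent.MP_6fb7ad_al

variable {p : ℕ} [Fact p.Prime] {Q : Type} [Group Q] [TopologicalSpace Q] [IsTopologicalGroup Q]
  {N : Subgroup Q}

theorem cd_sub (hQ : IsProP p Q) (hN : N.Normal) {P : Type} [Group P] [TopologicalSpace P]
    [IsTopologicalGroup P] (hP : IsProP p P) (j : P →* Q) (hj : Continuous j)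
    (hi : Function.Injective j) {E : Subgroup Q} (hE : IsOpen (E : Set Q))
    (hEj : ∀ q, q ∈ E ↔ ∃ x, j x = q) (hNE : N ≤ E) (h : CD p Q N) : CD p P (N.comap j) := by
  obtain ⟨n, hn⟩ := h
  exact ⟨n, fun A hA => h1v_of_CO hQ hN hP j hj hi hE hEj hNE A
    (hn _ (cz_CO hQ hN hP j hj hi hE hEj hNE n A hA))⟩

end Pool.Agent.ORD
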