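import Pool.Agent.ORD.Def2
import Pool.Agent.ORD.N0

/-!
# ORD [ORD-T4]: from N1 to group algebras without zero divisors
-/

set_option autoImplicit false

namespace Pool.Agent.ORD

open Pool.Agent.MP_6fb7ad_al

variable {p : ℕ} [Fact p.Prime] {Q : Type} [Group Q] [TopologicalSpace Q] [IsTopologicalGroup Q]
  {N : Subgroup Q}

section T4aux

variable {P : Type} [Group P] [TopologicalSpace P]

open Classical in
/-- extension by zero along `j` -/
private noncomputable def T4ex (j : P →* Q) (φ : P → ZMod p) : Q → ZMod p :=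
  fun q => if h : ∃ x, j x = q then φ h.choose else 0

private theorem T4ex_apply {j : P →* Q} (hi : Function.Injective j) (φ : P → ZMod p) (x : P) :
    T4ex j φ (j x) = φ x := by
  have h : ∃ y, j y = j x := ⟨x, rfl⟩
  unfold T4ex
  rw [dif_pos h]
  congr 1
  exact hi h.choose_spec

private theorem T4ex_out {j : P →* Q} (φ : P → ZMod p) {q : Q} (h : ¬ ∃ x, j x = q) :
    T4ex j φ q = 0 := by
  unfold T4ex
  rw [dif_neg h]

private theorem T4lc {φ : Q → ZMod p} {W : Subgroup Q} (hW : ON W)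
    (h : ∀ x, ∀ w ∈ W, φ (x * w) = φ x) {j : P →* Q} (hj : Continuous j) :
    IsLocallyConstant (fun x => φ (j x)) := by
  rw [IsLocallyConstant.iff_exists_open]
  intro x
  refine ⟨(fun y => (j x)⁻¹ * j y) ⁻¹' (W : Set Q), ?_, ?_, ?_⟩
  · have hc : Continuous (fun y => (j x)⁻¹ * j y) := by fun_prop
    exact hW.2.preimage hc
  · show (j x)⁻¹ * j x ∈ W
    rw [inv_mul_cancel]
    exact W.one_mem
  · intro y hy
    have h1 := h (j x) _ hy
    rw [mul_inv_cancel_left] at h1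
    exact h1

open Classical in
/-- the endomorphism defined by `μ` -/
private noncomputable def T4e (j : P →* Q) (E : Subgroup Q) (μ : (P → ZMod p) →ₗ[ZMod p] ZMod p) :
    (Q → ZMod p) →ₗ[ZMod p] (Q → ZMod p) where
  toFun φ q := if q ∈ E then μ (fun x => φ (j x * q)) else 0
  map_add' φ ψ := by
    ext q
    simp only [Pi.add_apply]
    split_ifs with h
    · rw [← map_add]
      rfl
    · rw [add_zero]
  map_smul' c φ := by
    ext q
    simp only [Pi.smul_apply, RingHom.id_apply]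
    split_ifs with h
    · rw [← map_smul]
      rfl
    · rw [smul_zero]

private theorem T4e_pos (j : P →* Q) {E : Subgroup Q} (μ : (P → ZMod p) →ₗ[ZMod p] ZMod p)
    (φ : Q → ZMod p) {q : Q} (h : q ∈ E) : T4e j E μ φ q = μ (fun x => φ (j x * q)) := if_pos h

private theorem T4e_neg (j : P →* Q) {E : Subgroup Q} (μ : (P → ZMod p) →ₗ[ZMod p] ZMod p)
    (φ : Q → ZMod p) {q : Q} (h : q ∉ E) : T4e j E μ φ q = 0 := if_neg h

end T4aux

/-- Given `μ, ν` on `P → ZMod p`, define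
`ε φ q = if q ∈ E then μ (fun x => φ (j x * q)) else 0`, an endomorphism of `Q → ZMod p`. It maps
`C1 p E N` to itself (if `φ (x * w) = φ x` for all `w` in the open normal subgroup `W` then the same
holds for `ε φ` and `W ⊓ E`) and commutes with `rr p a`, `a ∈ E`. For `φ' ∈ LC p P (N.comap j)` let
`φ` be the function on `Q` with `φ (j x) = φ' x` that vanishes outside of `E`: it is in
`C1 p E N` (`j` is a homeomorphism onto the open subgroup `E`: it is injective and continuous from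
a compact space to a Hausdorff space, so `φ` is locally constant; by `exists_open_normal` it is
right invariant under an open normal subgroup; for `n ∈ N` and `q = j x ∈ E`: `q * n ∈ E` and
`n = j y` with `y ∈ N.comap j`), and `ε φ 1 = μ φ'`. So `ε` is nonzero on
`C1 p E N`, hence onto. Take `ψ' ∈ LC p P (N.comap j)` with `ν ψ' ≠ 0`, extend it to `ψ` in the
same way, let `ψ = ε φ` with `φ ∈ C1 p E N`, and `φ'' = φ ∘ j ∈ LC p P (N.comap j)`. Then
`ψ' y = ψ (j y) = μ (fun x => φ'' (x * y))`. -/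
theorem nzd_of_N1 (hQ : IsProP p Q) {P : Type} [Group P] [TopologicalSpace P]
    [IsTopologicalGroup P] (hP : IsProP p P) (j : P →* Q) (hj : Continuous j)
    (hi : Function.Injective j) {E : Subgroup Q} (hE : ON E) (hEj : ∀ q, q ∈ E ↔ ∃ x, j x = q)
    (hNE : N ≤ E) (h : N1 p E N) : NZD p P (N.comap j) := by
  haveI := hP.compact
  haveI := hQ.compact
  haveI := hQ.t2
  have hce : Topology.IsClosedEmbedding j := hj.isClosedEmbedding hi
  have hrange : Set.range j = (E : Set Q) := by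
    ext q
    exact (hEj q).symm
  have hoe : Topology.IsOpenEmbedding j := ⟨hce.isEmbedding, by rw [hrange]; exact hE.2⟩
  have hEc : IsClosed (E : Set Q) := Subgroup.isClosed_of_isOpen E hE.2
  -- the extension by zero
  have hexm : ∀ φ ∈ LC p P (N.comap j), T4ex j φ ∈ C1 p E N := by
    rintro φ ⟨h1, h2⟩
    have hl : IsLocallyConstant (T4ex j φ) := by
      rw [IsLocallyConstant.iff_exists_open]
      intro q
      by_cases hq : ∃ x, j x = q
      · obtain ⟨x, rfl⟩ := hq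
        refine ⟨j '' (φ ⁻¹' {φ x}), hoe.isOpenMap _ (h1 _), ⟨x, rfl, rfl⟩, ?_⟩
        rintro _ ⟨y, hy, rfl⟩
        rw [T4ex_apply hi, T4ex_apply hi]
        exact hy
      · refine ⟨(E : Set Q)ᶜ, hEc.isOpen_compl, fun hc => hq ((hEj q).1 hc), ?_⟩
        intro q' hq'
        rw [T4ex_out φ hq, T4ex_out φ (fun hc => hq' ((hEj q').2 hc))]
    obtain ⟨W, hWn, hWo, hW⟩ := exists_open_normal _ hl
    refine ⟨fun x hx => T4ex_out φ (fun hc => hx ((hEj x).2 hc)), ?_, W, ⟨hWn, hWo⟩, ?_⟩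
    · intro q v hv
      by_cases hq : q ∈ E
      · obtain ⟨x, rfl⟩ := (hEj q).1 hq
        obtain ⟨y, rfl⟩ := (hEj v).1 (hNE hv)
        rw [← map_mul, T4ex_apply hi, T4ex_apply hi]
        exact h2 x y hv
      · have hq' : q * v ∉ E := fun hc => hq ((Subgroup.mul_mem_cancel_right E (hNE hv)).1 hc)
        rw [T4ex_out φ (fun hc => hq ((hEj q).2 hc)), T4ex_out φ (fun hc => hq' ((hEj _).2 hc))]
    · intro x w hw
      have h3 := hW w hw x 1
      rwa [mul_one, mul_one] at h3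
  rintro μ ν ⟨φ', hφ', hμ⟩ ⟨ψ', hψ', hν⟩
  have e1 : ∀ φ ∈ C1 p E N, T4e j E μ φ ∈ C1 p E N := by
    rintro φ ⟨h1, h2, W, hW, h3⟩
    refine ⟨fun x hx => T4e_neg j μ φ hx, fun x v hv => ?_, W ⊓ E, hW.inf hE, fun x w hw => ?_⟩
    · by_cases hx : x ∈ E
      · rw [T4e_pos j μ φ hx, T4e_pos j μ φ (E.mul_mem hx (hNE hv))]
        congr 1
        ext y
        rw [← mul_assoc, h2 _ v hv]
      · rw [T4e_neg j μ φ hx,
          T4e_neg j μ φ (fun hc => hx ((Subgroup.mul_mem_cancel_right E (hNE hv)).1 hc))]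
    · by_cases hx : x ∈ E
      · rw [T4e_pos j μ φ hx, T4e_pos j μ φ (E.mul_mem hx hw.2)]
        congr 1
        ext y
        rw [← mul_assoc, h3 _ w hw.1]
      · rw [T4e_neg j μ φ hx,
          T4e_neg j μ φ (fun hc => hx ((Subgroup.mul_mem_cancel_right E hw.2).1 hc))]
  have e2 : ∀ a ∈ E, ∀ φ ∈ C1 p E N, T4e j E μ (rr p a φ) = rr p a (T4e j E μ φ) := by
    intro a ha φ _
    ext q
    rw [rr_apply]
    by_cases hq : q ∈ E
    · rw [T4e_pos j μ _ hq, T4e_pos j μ φ (E.mul_mem hq ha)]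
      congr 1
      ext y
      rw [rr_apply, mul_assoc]
    · rw [T4e_neg j μ _ hq,
        T4e_neg j μ φ (fun hc => hq ((Subgroup.mul_mem_cancel_right E ha).1 hc))]
  have e3 : ∃ φ ∈ C1 p E N, T4e j E μ φ ≠ 0 := by
    refine ⟨T4ex j φ', hexm _ hφ', fun hc => hμ ?_⟩
    have h1 := congrFun hc 1
    rw [T4e_pos j μ _ E.one_mem] at h1
    have h2 : (fun x => T4ex j φ' (j x * 1)) = φ' := by
      ext x
      rw [mul_one, T4ex_apply hi]
    rw [h2] at h1
    exact h1
  obtain ⟨φ, hφ, hεφ⟩ := h (T4e j E μ) e1 e2 e3 (T4ex j ψ') (hexm _ hψ')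
  obtain ⟨h1, h2, W, hW, h3⟩ := hφ
  refine ⟨fun x => φ (j x), ⟨T4lc hW h3 hj, fun x n hn => ?_⟩, ?_⟩
  · show φ (j (x * n)) = φ (j x)
    rw [map_mul]
    exact h2 _ _ hn
  · have h4 : (fun y => μ (fun x => φ (j (x * y)))) = ψ' := by
      ext y
      have h5 := congrFun hεφ (j y)
      rw [T4e_pos j μ φ ((hEj _).2 ⟨y, rfl⟩), T4ex_apply hi] at h5
      rw [← h5]
      congr 1
      ext x
      rw [map_mul]
    rw [h4]
    exact hν

/-- `C1 p ⊤ ⊤` consists of the constant functions. -/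
theorem N1_top_top : N1 p (⊤ : Subgroup Q) ⊤ := by
  rintro ε h1 - ⟨φ, hφ, hne⟩ ψ hψ
  have hc : ∀ φ ∈ C1 p (⊤ : Subgroup Q) ⊤, φ = φ 1 • (fun _ => (1 : ZMod p)) := by
    intro φ hφ
    ext x
    have h2 := hφ.2.1 1 x (Subgroup.mem_top x)
    rw [one_mul] at h2
    rw [Pi.smul_apply, smul_eq_mul, mul_one, h2]
  have h1m : (fun _ => (1 : ZMod p)) ∈ C1 p (⊤ : Subgroup Q) ⊤ :=
    ⟨fun x hx => absurd (Subgroup.mem_top x) hx, fun _ _ _ => rfl, ⊤, ON.top, fun _ _ _ => rfl⟩
  have e1 : ε (fun _ => (1 : ZMod p)) = ε (fun _ => (1 : ZMod p)) 1 • (fun _ => (1 : ZMod p)) :=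
    hc _ (h1 _ h1m)
  generalize ε (fun _ => (1 : ZMod p)) 1 = c at e1
  have hc0 : c ≠ 0 := by
    intro h0
    apply hne
    rw [hc φ hφ, map_smul, e1, h0, zero_smul, smul_zero]
  refine ⟨(ψ 1 / c) • (fun _ => (1 : ZMod p)), (C1 p (⊤ : Subgroup Q) ⊤).smul_mem _ h1m, ?_⟩
  rw [map_smul, e1, smul_smul, div_mul_cancel₀ _ hc0]
  exact (hc ψ hψ).symm

end Pool.Agent.ORD
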