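import Pool.Agent.ORD.H0
import Pool.Agent.ORD.I0
import Pool.Agent.ORD.R4
import Pool.Agent.ORD.T4

/-!
# ORD [ORD-I2]: chains
-/

set_option autoImplicit false

namespace Pool.Agent.ORD

open Pool.Agent.MP_6fb7ad_al

variable {p : ℕ} [Fact p.Prime] {G : Type} [Group G] [TopologicalSpace G] [IsTopologicalGroup G]

/-- `U` is an open subgroup of the subgroup `V` of `G`, and there is a closed subgroup `K ≤ U`,
normalized by `V`, such that `V / K` has finite cohomological dimension and the algebra
`𝔽_p⟦V / K⟧` has no zero divisors. -/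
def NStep0 (p : ℕ) {G : Type} [Group G] [TopologicalSpace G] (V U : Subgroup G) : Prop :=
  U ≤ V ∧ IsOpen ((U.subgroupOf V : Subgroup V) : Set V) ∧ ∃ K : Subgroup G, K ≤ U ∧
    IsClosed (K : Set G) ∧ (∀ v ∈ V, ∀ k ∈ K, v * k * v⁻¹ ∈ K) ∧
    CD p V (K.subgroupOf V) ∧ NZD p V (K.subgroupOf V)

/-- Both conditions pass to the kernel of a character. -/
theorem inherit {H H' K : Subgroup G} (hHp : IsProP p H) (hH'p : IsProP p H') (hle : H' ≤ H)
    (hKn : (K.subgroupOf H).Normal) (H₁ : Subgroup H) (hE : ON H₁)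
    (hH' : ∀ x : H, x ∈ H₁ ↔ (x : G) ∈ H') (hKH : K.subgroupOf H ≤ H₁)
    (h1 : CD p H (K.subgroupOf H)) (h2 : NZD p H (K.subgroupOf H)) :
    CD p H' (K.subgroupOf H') ∧ NZD p H' (K.subgroupOf H') := by
  have hT2 : T2Space H := hHp.t2
  have hj : Continuous (Subgroup.inclusion hle) := by
    refine Continuous.subtype_mk ?_ _
    exact continuous_subtype_val
  have hi : Function.Injective (Subgroup.inclusion hle) := Subgroup.inclusion_injective hle
  have hEj : ∀ q, q ∈ H₁ ↔ ∃ x, Subgroup.inclusion hle x = q := by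
    intro q
    rw [hH']
    constructor
    · intro hq
      exact ⟨⟨q, hq⟩, rfl⟩
    · rintro ⟨x, rfl⟩
      exact x.2
  have hcomap : (K.subgroupOf H).comap (Subgroup.inclusion hle) = K.subgroupOf H' := by
    ext x
    exact Iff.rfl
  have h3 := cd_sub hHp hKn hH'p (Subgroup.inclusion hle) hj hi hE.2 hEj hKH h1
  have h4 : N1 p ⊤ (K.subgroupOf H) := by
    have h5 := N1_top hHp (MonoidHom.id H) continuous_id Function.surjective_id
      (K.subgroupOf H) h2
    rwa [Subgroup.comap_id] at h5
  have h6 := nzd_of_N1 hHp hH'p (Subgroup.inclusion hle) hj hi hE hEj hKH (N1_sub hKn hKH hE h4)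
  rw [hcomap] at h3 h6
  exact ⟨h3, h6⟩

/-- Induction over the index: if `U` is a proper subgroup of `H` there is a character of `H` that
vanishes on `U` (`exists_char`), and its kernel is a proper subgroup `H'` of `H` containing `U`. -/
theorem dom_rank (hG : IsProP p G) {V U : Subgroup G} (hV : IsClosed (V : Set G))
    (h : NStep0 p V U)
    (hr : Module.rank (ZMod p) (H2 p U) ≤ 1) : Module.rank (ZMod p) (H2 p V) ≤ 1 := by
  obtain ⟨hUV, hUo, K, hKU, hKc, hKn, hK1, hK2⟩ := h
  have hVp : IsProP p V := isProP_sub hG V hV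
  have hVc : CompactSpace V := hVp.compact
  have hfin0 : Finite (V ⧸ U.subgroupOf V) := Subgroup.quotient_finite_of_isOpen _ hUo
  have hfin : (U.subgroupOf V).FiniteIndex := Subgroup.finiteIndex_of_finite_quotient
  have hUV0 : U.relIndex V ≠ 0 := hfin.index_ne_zero
  have hUVc : IsClosed ((U.subgroupOf V : Subgroup V) : Set V) :=
    Subgroup.isClosed_of_isOpen _ hUo
  have hUc : IsClosed (U : Set G) := by
    have h1 : (U : Set G) = Subtype.val '' ((U.subgroupOf V : Subgroup V) : Set V) := by
      ext x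
      constructor
      · intro hx
        exact ⟨⟨x, hUV hx⟩, hx, rfl⟩
      · rintro ⟨y, hy, rfl⟩
        exact hy
    rw [h1]
    exact hV.isClosedMap_subtype_val _ hUVc
  have main : ∀ n : ℕ, ∀ H : Subgroup G, IsClosed (H : Set G) → U ≤ H → H ≤ V →
      U.relIndex H ≤ n → CD p H (K.subgroupOf H) → NZD p H (K.subgroupOf H) →
      Module.rank (ZMod p) (H2 p H) ≤ 1 := by
    intro n
    induction n with
    | zero =>
      intro H hHc hUH hHV hn _ _
      exfalso
      have h1 := Subgroup.relIndex_mul_relIndex U H V hUH hHV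
      rw [Nat.le_zero.1 hn, zero_mul] at h1
      exact hUV0 h1.symm
    | succ n ih =>
      intro H hHc hUH hHV hn hCD hND
      have hHp : IsProP p H := isProP_sub hG H hHc
      have hHt : T2Space H := hHp.t2
      by_cases hUH' : H ≤ U
      · have h1 : H = U := le_antisymm hUH' hUH
        rw [h1]
        exact hr
      have hne : U.subgroupOf H ≠ ⊤ := fun h1 => hUH' (Subgroup.subgroupOf_eq_top.1 h1)
      have hUHc : IsClosed ((U.subgroupOf H : Subgroup H) : Set H) :=
        hUc.preimage continuous_subtype_val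
      obtain ⟨χ, hχ, hχU, q₀, hq₀⟩ := exists_char hHp (U.subgroupOf H) hUHc hne
      let H₁ : Subgroup H :=
        { carrier := {x | χ x = 0}
          mul_mem' := by
            intro a b ha hb
            show χ (a * b) = 0
            rw [hχ.mul, show χ a = 0 from ha, show χ b = 0 from hb, add_zero]
          one_mem' := char_one hχ
          inv_mem' := by
            intro a ha
            have h2 := hχ.mul a a⁻¹
            rw [mul_inv_cancel, char_one hχ, show χ a = 0 from ha, zero_add] at h2
            exact h2.symm }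
      have hH₁ : ∀ x, x ∈ H₁ ↔ χ x = 0 := fun _ => Iff.rfl
      let H' : Subgroup G := H₁.map H.subtype
      have hH' : ∀ x : H, x ∈ H₁ ↔ (x : G) ∈ H' := by
        intro x
        constructor
        · intro hx
          exact ⟨x, hx, rfl⟩
        · rintro ⟨y, hy, hyx⟩
          have h2 : y = x := Subtype.ext hyx
          rw [← h2]
          exact hy
      have hUH₁ : U ≤ H' := fun x hx => (hH' ⟨x, hUH hx⟩).1 (hχU _ hx)
      have hH'H : H' ≤ H := Subgroup.map_subtype_le _
      have hH₁c : IsClosed (H₁ : Set H) := hχ.lc.isClosed_fiber 0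
      have hH'c : IsClosed (H' : Set G) := by
        have h1 : (H' : Set G) = Subtype.val '' (H₁ : Set H) := rfl
        rw [h1]
        exact hHc.isClosedMap_subtype_val _ hH₁c
      have hE : ON H₁ := by
        refine ⟨⟨fun m hm g => ?_⟩, hχ.lc.isOpen_fiber 0⟩
        rw [hH₁] at hm ⊢
        have h1 := hχ.mul g g⁻¹
        rw [mul_inv_cancel, char_one hχ] at h1
        rw [hχ.mul, hχ.mul, hm, add_zero, ← h1]
      have hlt : U.relIndex H' ≤ n := by
        have h1 := Subgroup.relIndex_mul_relIndex U H' H hUH₁ hH'H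
        have h2 := Subgroup.relIndex_mul_relIndex U H V hUH hHV
        have h3 : U.relIndex H ≠ 0 := by
          intro h4
          rw [h4, zero_mul] at h2
          exact hUV0 h2.symm
        have h4 : H'.relIndex H ≠ 1 := by
          intro h5
          exact hq₀ ((hH' q₀).2 (Subgroup.relIndex_eq_one.1 h5 q₀.2))
        have h5 : H'.relIndex H ≠ 0 := by
          intro h6
          rw [h6, mul_zero] at h1
          exact h3 h1.symm
        have h6 : 2 ≤ H'.relIndex H := by omega
        have h7 : U.relIndex H' ≠ 0 := by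
          intro h8
          rw [h8, zero_mul] at h1
          exact h3 h1.symm
        have h8 : U.relIndex H' * 2 ≤ U.relIndex H := by
          rw [← h1]
          exact Nat.mul_le_mul_left _ h6
        omega
      have hKn' : (K.subgroupOf H).Normal := by
        refine ⟨fun k hk g => ?_⟩
        exact hKn g (hHV g.2) k hk
      have hKc' : IsClosed ((K.subgroupOf H : Subgroup H) : Set H) :=
        hKc.preimage continuous_subtype_val
      have hKH : K.subgroupOf H ≤ H₁ := fun k hk => hχU k (hKU hk)
      obtain ⟨h9, h10⟩ := inherit hHp (isProP_sub hG H' hH'c) hH'H hKn' H₁ hE hH' hKH hCD hND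
      have h3 := ih H' hH'c hUH₁ (hH'H.trans hHV) hlt h9 h10
      have h4 : Module.rank (ZMod p) (H2 p H₁) ≤ 1 := (rank_H2_le hH'H H₁ hH').trans h3
      exact rank_le_one (step hHp (K.subgroupOf H) hKn' hKc' χ hχ (fun k hk => hχU k (hKU hk)) q₀
        hq₀ hCD hND H₁ hH₁ h4)
  exact main _ V hV hUV le_rfl le_rfl hK1 hK2

omit [Fact p.Prime] in
theorem chain_closed {V U : Subgroup G} (hV : IsClosed (V : Set G))
    (h : LiftStep p V U ∨ NStep0 p V U) : IsClosed (U : Set G) := by
  have hU : U ≤ V ∧ IsClosed ((U.subgroupOf V : Subgroup V) : Set V) := by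
    rcases h with ⟨h1, χ, hl, hs, hU⟩ | ⟨h1, h2, -⟩
    · refine ⟨h1, ?_⟩
      have h3 : ((U.subgroupOf V : Subgroup V) : Set V) = χ ⁻¹' {x | x ^ p = 1} := by
        ext x
        exact hU x
      rw [h3]
      exact ⟨by rw [← Set.preimage_compl]; exact hl _⟩
    · exact ⟨h1, Subgroup.isClosed_of_isOpen _ h2⟩
  have h1 : (U : Set G) = Subtype.val '' ((U.subgroupOf V : Subgroup V) : Set V) := by
    ext x
    constructor
    · intro hx
      exact ⟨⟨x, hU.1 hx⟩, hx, rfl⟩
    · rintro ⟨y, hy, rfl⟩
      exact hy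
  rw [h1]
  exact hV.isClosedMap_subtype_val _ hU.2

theorem main (hG : IsProP p G) (U : Subgroup G)
    (hU : Relation.ReflTransGen (fun V U => LiftStep p V U ∨ NStep0 p V U) ⊤ U)
    (h : OneRelator p U) : OneRelator p G := by
  have hT2 := hG.t2
  refine oneRelator_of_rank_le hG (rank_top.trans ?_)
  have key : ∀ U : Subgroup G,
      Relation.ReflTransGen (fun V U => LiftStep p V U ∨ NStep0 p V U) ⊤ U →
      IsClosed (U : Set G) ∧ (Module.rank (ZMod p) (H2 p U) ≤ 1 →
        Module.rank (ZMod p) (H2 p (⊤ : Subgroup G)) ≤ 1) := by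
    intro U hU
    induction hU with
    | refl => exact ⟨isClosed_univ, id⟩
    | tail h1 h2 ih =>
      refine ⟨chain_closed ih.1 h2, fun h3 => ih.2 ?_⟩
      rcases h2 with h2 | h2
      · exact (rank_step h2).trans h3
      · exact dom_rank hG ih.1 h2 h3
  exact (key U hU).2 (rank_le_one h)

end Pool.Agent.ORD
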