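import Pool.Agent.MP_6fb7ad_al.Z

/-!
# ORD: definitions
-/

set_option autoImplicit false

namespace Pool.Agent.ORD

open Pool.Agent.MP_6fb7ad_al

/-- `W` is an open normal subgroup. -/
def ON {F : Type} [Group F] [TopologicalSpace F] (W : Subgroup F) : Prop :=
  W.Normal ∧ IsOpen (W : Set F)

section

variable {F : Type} [Group F] [TopologicalSpace F]

theorem ON.inf {W W' : Subgroup F} (h : ON W) (h' : ON W') : ON (W ⊓ W') := by
  obtain ⟨h1, h2⟩ := h
  obtain ⟨h3, h4⟩ := h'
  exact ⟨inferInstance, h2.inter h4⟩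

theorem ON.top : ON (⊤ : Subgroup F) := ⟨inferInstance, isOpen_univ⟩

theorem ON.conj {W : Subgroup F} (h : ON W) {w : F} (hw : w ∈ W) (g : F) : g⁻¹ * w * g ∈ W := by
  have := h.1.conj_mem w hw g⁻¹
  rwa [inv_inv] at this

end

section

variable (p : ℕ) {F : Type} [Group F]

/-- conjugation of functions: `(cj p a h) x = h (a⁻¹ * x * a)` -/
def cj : F →* Module.End (ZMod p) (F → ZMod p) where
  toFun a :=
    { toFun := fun h x => h (a⁻¹ * x * a)
      map_add' := fun _ _ => rfl
      map_smul' := fun _ _ => rfl }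
  map_one' := by
    ext h x
    show h (1⁻¹ * x * 1) = h x
    rw [inv_one, one_mul, mul_one]
  map_mul' a b := by
    ext h x
    show h ((a * b)⁻¹ * x * (a * b)) = h (b⁻¹ * (a⁻¹ * x * a) * b)
    congr 1
    group

/-- right translation of functions: `(rr p a φ) x = φ (x * a)` -/
def rr : F →* Module.End (ZMod p) (F → ZMod p) where
  toFun a :=
    { toFun := fun φ x => φ (x * a)
      map_add' := fun _ _ => rfl
      map_smul' := fun _ _ => rfl }
  map_one' := by
    ext φ x
    show φ (x * 1) = φ x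
    rw [mul_one]
  map_mul' a b := by
    ext φ x
    show φ (x * (a * b)) = φ (x * a * b)
    rw [mul_assoc]

/-- right translation of families of functions: `(rh p I a φ) i x = φ i (x * a)` -/
def rh (I : Type) : F →* Module.End (ZMod p) (I → F → ZMod p) where
  toFun a :=
    { toFun := fun φ i x => φ i (x * a)
      map_add' := fun _ _ => rfl
      map_smul' := fun _ _ => rfl }
  map_one' := by
    ext φ i x
    show φ i (x * 1) = φ i x
    rw [mul_one]
  map_mul' a b := by
    ext φ i x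
    show φ i (x * (a * b)) = φ i (x * a * b)
    rw [mul_assoc]

variable {p}

theorem cj_apply (a : F) (h : F → ZMod p) (x : F) : cj p a h x = h (a⁻¹ * x * a) := rfl

theorem rr_apply (a : F) (φ : F → ZMod p) (x : F) : rr p a φ x = φ (x * a) := rfl

theorem rh_apply {I : Type} (a : F) (φ : I → F → ZMod p) (i : I) (x : F) :
    rh p I a φ i x = φ i (x * a) := rfl

/-- the vectors fixed by the elements of `V` -/
def fx {M : Type} [AddCommGroup M] [Module (ZMod p) M] (α : F →* Module.End (ZMod p) M)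
    (V : Subgroup F) : Submodule (ZMod p) M where
  carrier := {m | ∀ v ∈ V, α v m = m}
  add_mem' := by
    intro a b ha hb v hv
    rw [map_add, ha v hv, hb v hv]
  zero_mem' := fun v _ => map_zero _
  smul_mem' := by
    intro c a ha v hv
    rw [map_smul, ha v hv]

theorem mem_fx {M : Type} [AddCommGroup M] [Module (ZMod p) M]
    {α : F →* Module.End (ZMod p) M} {V : Subgroup F} {m : M} :
    m ∈ fx α V ↔ ∀ v ∈ V, α v m = m := Iff.rfl

end

section

variable (p : ℕ) {F : Type} [Group F] [TopologicalSpace F]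

/-- The continuous homomorphisms `V → ZMod p`, extended by `0` to functions on `F`. -/
def Hm (V : Subgroup F) : Submodule (ZMod p) (F → ZMod p) where
  carrier := {h | (∀ x, x ∉ V → h x = 0) ∧ (∀ x ∈ V, ∀ y ∈ V, h (x * y) = h x + h y) ∧
    ∃ W : Subgroup F, ON W ∧ ∀ w ∈ W, h w = 0}
  add_mem' := by
    rintro h h' ⟨h1, h2, W, hW, h3⟩ ⟨h1', h2', W', hW', h3'⟩
    refine ⟨fun x hx => ?_, fun x hx y hy => ?_, W ⊓ W', hW.inf hW', fun w hw => ?_⟩
    · rw [Pi.add_apply, h1 x hx, h1' x hx, add_zero]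
    · simp only [Pi.add_apply, h2 x hx y hy, h2' x hx y hy]
      ring
    · rw [Pi.add_apply, h3 w hw.1, h3' w hw.2, add_zero]
  zero_mem' := ⟨fun _ _ => rfl, fun _ _ _ _ => (add_zero _).symm, ⊤, ON.top, fun _ _ => rfl⟩
  smul_mem' := by
    rintro c h ⟨h1, h2, W, hW, h3⟩
    refine ⟨fun x hx => ?_, fun x hx y hy => ?_, W, hW, fun w hw => ?_⟩
    · rw [Pi.smul_apply, h1 x hx, smul_zero]
    · simp only [Pi.smul_apply, h2 x hx y hy, smul_add]
    · rw [Pi.smul_apply, h3 w hw, smul_zero]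

/-- The space of all right `V`-invariant functions on `F` that are right invariant under an open
normal subgroup and vanish outside of `E`. -/
def C1 (E V : Subgroup F) : Submodule (ZMod p) (F → ZMod p) where
  carrier := {φ | (∀ x, x ∉ E → φ x = 0) ∧ (∀ x, ∀ v ∈ V, φ (x * v) = φ x) ∧
    ∃ W : Subgroup F, ON W ∧ ∀ x, ∀ w ∈ W, φ (x * w) = φ x}
  add_mem' := by
    rintro h h' ⟨h1, h2, W, hW, h3⟩ ⟨h1', h2', W', hW', h3'⟩
    refine ⟨fun x hx => ?_, fun x v hv => ?_, W ⊓ W', hW.inf hW', fun x w hw => ?_⟩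
    · rw [Pi.add_apply, h1 x hx, h1' x hx, add_zero]
    · simp only [Pi.add_apply, h2 x v hv, h2' x v hv]
    · simp only [Pi.add_apply, h3 x w hw.1, h3' x w hw.2]
  zero_mem' := ⟨fun _ _ => rfl, fun _ _ _ => rfl, ⊤, ON.top, fun _ _ _ => rfl⟩
  smul_mem' := by
    rintro c h ⟨h1, h2, W, hW, h3⟩
    refine ⟨fun x hx => ?_, fun x v hv => ?_, W, hW, fun x w hw => ?_⟩
    · rw [Pi.smul_apply, h1 x hx, smul_zero]
    · simp only [Pi.smul_apply, h2 x v hv]
    · simp only [Pi.smul_apply, h3 x w hw]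

/-- Finitely supported families of elements of `C1`. -/
def Cc (I : Type) (E V : Subgroup F) : Submodule (ZMod p) (I → F → ZMod p) where
  carrier := {φ | (∀ i, φ i ∈ C1 p E V) ∧ {i | φ i ≠ 0}.Finite}
  add_mem' := by
    rintro φ ψ ⟨h1, h2⟩ ⟨h3, h4⟩
    refine ⟨fun i => (C1 p E V).add_mem (h1 i) (h3 i), (h2.union h4).subset fun i hi => ?_⟩
    by_contra hc
    rw [Set.mem_union, not_or] at hc
    apply hi
    have e1 : φ i = 0 := not_not.1 hc.1
    have e2 : ψ i = 0 := not_not.1 hc.2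
    rw [Pi.add_apply, e1, e2, add_zero]
  zero_mem' := ⟨fun _ => (C1 p E V).zero_mem, by simp⟩
  smul_mem' := by
    rintro c φ ⟨h1, h2⟩
    refine ⟨fun i => (C1 p E V).smul_mem c (h1 i), h2.subset fun i hi => ?_⟩
    intro e
    apply hi
    rw [Pi.smul_apply, e, smul_zero]

/-- The continuous `1`-cocycles of `F` with values in the module of locally constant functions on
`F ⧸ V` (left translation action). -/
def Bc (V : Subgroup F) : Submodule (ZMod p) (F → F → ZMod p) where
  carrier := {z | (∀ f g x, z (f * g) x = z f x + z g (f⁻¹ * x)) ∧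
    (∀ f x, ∀ v ∈ V, z f (x * v) = z f x) ∧
    ∃ W : Subgroup F, ON W ∧ (∀ w ∈ W, ∀ x, z w x = 0) ∧ ∀ w ∈ W, ∀ f x, z f (x * w) = z f x}
  add_mem' := by
    rintro h h' ⟨h1, h2, W, hW, h3, h4⟩ ⟨h1', h2', W', hW', h3', h4'⟩
    refine ⟨fun f g x => ?_, fun f x v hv => ?_, W ⊓ W', hW.inf hW', fun w hw x => ?_,
      fun w hw f x => ?_⟩
    · simp only [Pi.add_apply, h1 f g x, h1' f g x]
      ring
    · simp only [Pi.add_apply, h2 f x v hv, h2' f x v hv]
    · simp only [Pi.add_apply, h3 w hw.1 x, h3' w hw.2 x, add_zero]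
    · simp only [Pi.add_apply, h4 w hw.1 f x, h4' w hw.2 f x]
  zero_mem' := ⟨fun _ _ _ => (add_zero _).symm, fun _ _ _ _ => rfl, ⊤, ON.top, fun _ _ _ => rfl,
    fun _ _ _ _ => rfl⟩
  smul_mem' := by
    rintro c h ⟨h1, h2, W, hW, h3, h4⟩
    refine ⟨fun f g x => ?_, fun f x v hv => ?_, W, hW, fun w hw x => ?_, fun w hw f x => ?_⟩
    · simp only [Pi.smul_apply, h1 f g x, smul_add]
    · simp only [Pi.smul_apply, h2 f x v hv]
    · simp only [Pi.smul_apply, h3 w hw x, smul_zero]
    · simp only [Pi.smul_apply, h4 w hw f x]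

open Classical in
/-- restriction to `R`, extended by zero -/
noncomputable def ind (R : Subgroup F) : (F → ZMod p) →ₗ[ZMod p] (F → ZMod p) where
  toFun h x := if x ∈ R then h x else 0
  map_add' h h' := by
    ext x
    simp only [Pi.add_apply]
    split_ifs <;> simp
  map_smul' c h := by
    ext x
    simp only [Pi.smul_apply, RingHom.id_apply]
    split_ifs <;> simp

/-- The restrictions to `R` of the elements of `Hm p V`. -/
noncomputable def Rs (V R : Subgroup F) : Submodule (ZMod p) (F → ZMod p) :=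
  (Hm p V).map (ind p R)

open Classical in
/-- the evaluation `(qq p R z) r = z r 1` for `r ∈ R`, extended by zero -/
noncomputable def qq (R : Subgroup F) : (F → F → ZMod p) →ₗ[ZMod p] (F → ZMod p) where
  toFun z x := if x ∈ R then z x 1 else 0
  map_add' h h' := by
    ext x
    simp only [Pi.add_apply]
    split_ifs <;> simp
  map_smul' c h := by
    ext x
    simp only [Pi.smul_apply, RingHom.id_apply]
    split_ifs <;> simp

open Classical in
/-- evaluation of cocycles at the elements `y i`: `(ev p y E z) i x = z (y i) x` for `x ∈ E` -/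
noncomputable def ev {I : Type} (y : I → F) (E : Subgroup F) :
    (F → F → ZMod p) →ₗ[ZMod p] (I → F → ZMod p) where
  toFun z i x := if x ∈ E then z (y i) x else 0
  map_add' h h' := by
    ext i x
    simp only [Pi.add_apply]
    split_ifs <;> simp
  map_smul' c h := by
    ext i x
    simp only [Pi.smul_apply, RingHom.id_apply]
    split_ifs <;> simp

open Classical in
/-- evaluation of functions at the conjugates of the elements `y i`:
`(evc p y E θ) i x = θ (x⁻¹ * y i * x)` for `x ∈ E` -/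
noncomputable def evc {I : Type} (y : I → F) (E : Subgroup F) :
    (F → ZMod p) →ₗ[ZMod p] (I → F → ZMod p) where
  toFun θ i x := if x ∈ E then θ (x⁻¹ * y i * x) else 0
  map_add' h h' := by
    ext i x
    simp only [Pi.add_apply]
    split_ifs <;> simp
  map_smul' c h := by
    ext i x
    simp only [Pi.smul_apply, RingHom.id_apply]
    split_ifs <;> simp

open Classical in
/-- the function `1` on `E`, `0` elsewhere -/
noncomputable def one1 (E : Subgroup F) : F → ZMod p := fun x => if x ∈ E then 1 else 0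

end

section

variable {p : ℕ} {F : Type} [Group F] [TopologicalSpace F]

theorem mem_Hm {V : Subgroup F} {h : F → ZMod p} : h ∈ Hm p V ↔ (∀ x, x ∉ V → h x = 0) ∧
    (∀ x ∈ V, ∀ y ∈ V, h (x * y) = h x + h y) ∧
    ∃ W : Subgroup F, ON W ∧ ∀ w ∈ W, h w = 0 := Iff.rfl

theorem mem_C1 {E V : Subgroup F} {φ : F → ZMod p} : φ ∈ C1 p E V ↔
    (∀ x, x ∉ E → φ x = 0) ∧ (∀ x, ∀ v ∈ V, φ (x * v) = φ x) ∧
    ∃ W : Subgroup F, ON W ∧ ∀ x, ∀ w ∈ W, φ (x * w) = φ x := Iff.rfl

theorem mem_Cc {I : Type} {E V : Subgroup F} {φ : I → F → ZMod p} : φ ∈ Cc p I E V ↔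
    (∀ i, φ i ∈ C1 p E V) ∧ {i | φ i ≠ 0}.Finite := Iff.rfl

theorem mem_Bc {V : Subgroup F} {z : F → F → ZMod p} : z ∈ Bc p V ↔
    (∀ f g x, z (f * g) x = z f x + z g (f⁻¹ * x)) ∧
    (∀ f x, ∀ v ∈ V, z f (x * v) = z f x) ∧
    ∃ W : Subgroup F, ON W ∧ (∀ w ∈ W, ∀ x, z w x = 0) ∧
      ∀ w ∈ W, ∀ f x, z f (x * w) = z f x := Iff.rfl

theorem ind_of_mem {R : Subgroup F} {x : F} (hx : x ∈ R) (h : F → ZMod p) :
    ind p R h x = h x := if_pos hx

theorem ind_of_notMem {R : Subgroup F} {x : F} (hx : x ∉ R) (h : F → ZMod p) :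
    ind p R h x = 0 := if_neg hx

theorem mem_Rs {V R : Subgroup F} {θ : F → ZMod p} : θ ∈ Rs p V R ↔
    ∃ h ∈ Hm p V, ind p R h = θ := Iff.rfl

theorem qq_of_mem {R : Subgroup F} {x : F} (hx : x ∈ R) (z : F → F → ZMod p) :
    qq p R z x = z x 1 := if_pos hx

theorem qq_of_notMem {R : Subgroup F} {x : F} (hx : x ∉ R) (z : F → F → ZMod p) :
    qq p R z x = 0 := if_neg hx

theorem ev_of_mem {I : Type} (y : I → F) {E : Subgroup F} {x : F} (hx : x ∈ E)
    (z : F → F → ZMod p) (i : I) : ev p y E z i x = z (y i) x := if_pos hx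

theorem ev_of_notMem {I : Type} (y : I → F) {E : Subgroup F} {x : F} (hx : x ∉ E)
    (z : F → F → ZMod p) (i : I) : ev p y E z i x = 0 := if_neg hx

theorem evc_of_mem {I : Type} (y : I → F) {E : Subgroup F} {x : F} (hx : x ∈ E)
    (θ : F → ZMod p) (i : I) : evc p y E θ i x = θ (x⁻¹ * y i * x) := if_pos hx

theorem evc_of_notMem {I : Type} (y : I → F) {E : Subgroup F} {x : F} (hx : x ∉ E)
    (θ : F → ZMod p) (i : I) : evc p y E θ i x = 0 := if_neg hx

theorem one1_of_mem {E : Subgroup F} {x : F} (hx : x ∈ E) : one1 p E x = 1 := if_pos hx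

theorem one1_of_notMem {E : Subgroup F} {x : F} (hx : x ∉ E) : one1 p E x = 0 := if_neg hx

end

/-! ### Discrete modules, cohomological dimension, zero divisors -/

/-- A discrete `𝔽_p`-module over the topological group `Q` on which `N` acts trivially. -/
structure SmRep (p : ℕ) (Q : Type) [Group Q] [TopologicalSpace Q] (N : Subgroup Q) where
  /-- the vector space -/
  M : Type
  [acg : AddCommGroup M]
  [mod : Module (ZMod p) M]
  /-- the action -/
  ρ : Q →* Module.End (ZMod p) M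
  smooth : ∀ m, ∃ W : Subgroup Q, IsOpen (W : Set Q) ∧ ∀ w ∈ W, ρ w m = m
  triv : ∀ n ∈ N, ρ n = 1

attribute [instance] SmRep.acg SmRep.mod

section

variable {p : ℕ} {Q : Type} [Group Q] [TopologicalSpace Q] {N : Subgroup Q}

/-- `H¹(Q / N, A) = 0`: every continuous crossed homomorphism `Q → A` that vanishes on `N` is
principal. -/
def H1v (A : SmRep p Q N) : Prop :=
  ∀ z : Q → A.M, (∀ f g, z (f * g) = z f + A.ρ f (z g)) →
    (∃ W : Subgroup Q, IsOpen (W : Set Q) ∧ ∀ w ∈ W, z w = 0) → (∀ n ∈ N, z n = 0) →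
    ∃ m, ∀ f, z f = A.ρ f m - m

/-- `Cz n A`: there is an exact sequence `0 → B → I₁ → ⋯ → Iₙ → A → 0` of discrete modules with
`H¹(Q / N, Iⱼ) = 0` for all `j`. -/
def Cz : ℕ → SmRep p Q N → Prop
  | 0, _ => True
  | n + 1, A => ∃ (B I : SmRep p Q N) (i : B.M →ₗ[ZMod p] I.M) (j : I.M →ₗ[ZMod p] A.M),
      (∀ f m, i (B.ρ f m) = I.ρ f (i m)) ∧ (∀ f m, j (I.ρ f m) = A.ρ f (j m)) ∧
      Function.Injective i ∧ Function.Surjective j ∧ (∀ m, j m = 0 ↔ m ∈ LinearMap.range i) ∧
      H1v I ∧ Cz n B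

end

/-- The group `Q / N` has finite cohomological dimension: for some `n`, `H¹(Q / N, A) = 0` for all
discrete modules `A` with an exact sequence `0 → B → I₁ → ⋯ → Iₙ → A → 0` with
`H¹(Q / N, Iⱼ) = 0` for all `j`. -/
def CD (p : ℕ) (Q : Type) [Group Q] [TopologicalSpace Q] (N : Subgroup Q) : Prop :=
  ∃ n, ∀ A : SmRep p Q N, Cz n A → H1v A

/-- The locally constant functions on `Q` that are right `N`-invariant. -/
def LC (p : ℕ) (Q : Type) [Group Q] [TopologicalSpace Q] (N : Subgroup Q) :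
    Submodule (ZMod p) (Q → ZMod p) where
  carrier := {φ | IsLocallyConstant φ ∧ ∀ x, ∀ n ∈ N, φ (x * n) = φ x}
  add_mem' := by
    rintro φ ψ ⟨h1, h2⟩ ⟨h3, h4⟩
    refine ⟨h1.add h3, fun x n hn => ?_⟩
    simp only [Pi.add_apply, h2 x n hn, h4 x n hn]
  zero_mem' := ⟨IsLocallyConstant.const 0, fun _ _ _ => rfl⟩
  smul_mem' := by
    rintro c φ ⟨h1, h2⟩
    refine ⟨h1.comp (fun y => c * y), fun x n hn => ?_⟩
    simp only [Pi.smul_apply, h2 x n hn]

/-- The completed group algebra `𝔽_p⟦Q / N⟧`, the space of linear forms on `LC p Q N` with the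
convolution product, has no zero divisors: the convolution product of two linear forms that do not
vanish on `LC p Q N` does not vanish on `LC p Q N`. -/
def NZD (p : ℕ) (Q : Type) [Group Q] [TopologicalSpace Q] (N : Subgroup Q) : Prop :=
  ∀ μ ν : (Q → ZMod p) →ₗ[ZMod p] ZMod p, (∃ φ ∈ LC p Q N, μ φ ≠ 0) → (∃ φ ∈ LC p Q N, ν φ ≠ 0) →
    ∃ φ ∈ LC p Q N, ν (fun y => μ (fun x => φ (x * y))) ≠ 0

/-- `U` is an open subgroup of the subgroup `V` of `G`, and there is a closed subgroup `K ≤ U`,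
normalized by `V`, such that for every `H` with `U ≤ H ≤ V` the group `H / K` has finite
cohomological dimension and the algebra `𝔽_p⟦H / K⟧` has no zero divisors. -/
def DomStep (p : ℕ) {G : Type} [Group G] [TopologicalSpace G] (V U : Subgroup G) : Prop :=
  U ≤ V ∧ IsOpen ((U.subgroupOf V : Subgroup V) : Set V) ∧ ∃ K : Subgroup G, K ≤ U ∧
    IsClosed (K : Set G) ∧ (∀ v ∈ V, ∀ k ∈ K, v * k * v⁻¹ ∈ K) ∧
    ∀ H : Subgroup G, U ≤ H → H ≤ V → CD p H (K.subgroupOf H) ∧ NZD p H (K.subgroupOf H)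

end Pool.Agent.ORD
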