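import Pool.Agent.ORD.S2

/-!
# ORD [ORD-E3]: the first cohomology of Cc vanishes
-/

set_option autoImplicit false

namespace Pool.Agent.ORD

open Pool.Agent.MP_6fb7ad_al

variable {p : ℕ} [Fact p.Prime] {F : Type} [Group F] [TopologicalSpace F] [IsTopologicalGroup F]

/-- Put `ψ j x = c x j 1` for `x ∈ E` and `ψ j x = 0` otherwise. For `a, x ∈ E`
`(rh p I a ψ - ψ) j x = c (x * a) j 1 - c x j 1 = (rh p I x (c a)) j 1 = c a j x`.
For `w ∈ W ∩ E` or `w ∈ V`: `c (x * w) = c x`, so `ψ j` is right invariant under `V` and under the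
open normal subgroup `W ⊓ E`, and there are only finitely many different `c x`, `x ∈ E`, since
`W ⊓ E` has finite index; so `ψ` has finite support. -/
theorem h1_Cc (hF : IsProP p F) {V E : Subgroup F} (hV : V.Normal) (hVE : V ≤ E) (hE : ON E)
    {I : Type} (c : F → I → F → ZMod p) (hc : ∀ a ∈ E, c a ∈ Cc p I E V)
    (hmul : ∀ a ∈ E, ∀ b ∈ E, c (a * b) = c a + rh p I a (c b)) (hv : ∀ v ∈ V, c v = 0)
    (hs : ∃ W : Subgroup F, ON W ∧ ∀ w ∈ W, w ∈ E → c w = 0) :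
    ∃ ψ ∈ Cc p I E V, ∀ a ∈ E, c a = rh p I a ψ - ψ := by
  classical
  obtain ⟨W, hW, hWc⟩ := hs
  have hWE : ON (W ⊓ E) := hW.inf hE
  have hcw : ∀ x ∈ E, ∀ w ∈ W ⊓ E, c (x * w) = c x := by
    intro x hx w hw
    rw [hmul x hx w hw.2, hWc w hw.1 hw.2, map_zero, add_zero]
  have hcv : ∀ x ∈ E, ∀ v ∈ V, c (x * v) = c x := by
    intro x hx v hv'
    rw [hmul x hx v (hVE hv'), hv v hv', map_zero, add_zero]
  have hmem : ∀ x, ∀ w ∈ E, (x * w ∈ E ↔ x ∈ E) := fun x w hw => E.mul_mem_cancel_right hw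
  let ψ : I → F → ZMod p := fun j x => if x ∈ E then c x j 1 else 0
  have hψ1 : ∀ j, ∀ x ∈ E, ψ j x = c x j 1 := fun j x hx => if_pos hx
  have hψ0 : ∀ j, ∀ x, x ∉ E → ψ j x = 0 := fun j x hx => if_neg hx
  refine ⟨ψ, ⟨fun j => ⟨hψ0 j, fun x v hv' => ?_, W ⊓ E, hWE, fun x w hw => ?_⟩, ?_⟩, ?_⟩
  · by_cases hx : x ∈ E
    · rw [hψ1 j x hx, hψ1 j _ ((hmem x v (hVE hv')).2 hx), hcv x hx v hv']
    · rw [hψ0 j x hx, hψ0 j _ fun h => hx ((hmem x v (hVE hv')).1 h)]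
  · by_cases hx : x ∈ E
    · rw [hψ1 j x hx, hψ1 j _ ((hmem x w hw.2).2 hx), hcw x hx w hw]
    · rw [hψ0 j x hx, hψ0 j _ fun h => hx ((hmem x w hw.2).1 h)]
  · have := hWE.1
    have := (quot_fin hF (W ⊓ E) hWE.2).1
    let S : F ⧸ (W ⊓ E) → Set I := fun q => {j | ∃ x ∈ E, (QuotientGroup.mk x : F ⧸ (W ⊓ E)) = q ∧ c x j ≠ 0}
    have hS : ∀ q, (S q).Finite := by
      intro q
      by_cases hq : ∃ x ∈ E, (QuotientGroup.mk x : F ⧸ (W ⊓ E)) = q
      · obtain ⟨x₀, hx₀, hq₀⟩ := hq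
        refine (hc x₀ hx₀).2.subset ?_
        rintro j ⟨x, hx, hxq, hj⟩
        have e1 : x₀⁻¹ * x ∈ W ⊓ E := by
          rw [← QuotientGroup.eq, hq₀, hxq]
        have e2 := hcw x₀ hx₀ _ e1
        rw [mul_inv_cancel_left] at e2
        rw [e2] at hj
        exact hj
      · have : S q = ∅ := by
          ext j
          simp only [Set.mem_empty_iff_false, iff_false]
          rintro ⟨x, hx, hxq, -⟩
          exact hq ⟨x, hx, hxq⟩
        rw [this]
        exact Set.finite_empty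
    refine (Set.finite_iUnion hS).subset fun j hj => ?_
    have hj' : ψ j ≠ 0 := hj
    obtain ⟨x, hx⟩ := Function.ne_iff.1 hj'
    have hxE : x ∈ E := by
      by_contra h
      exact hx (hψ0 j x h)
    rw [hψ1 j x hxE] at hx
    rw [Set.mem_iUnion]
    refine ⟨QuotientGroup.mk x, x, hxE, rfl, fun h => hx ?_⟩
    rw [h]
    rfl
  · intro a ha
    ext j x
    show c a j x = ψ j (x * a) - ψ j x
    by_cases hx : x ∈ E
    · rw [hψ1 j x hx, hψ1 j _ ((hmem x a ha).2 hx), hmul x hx a ha]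
      show c a j x = c x j 1 + c a j (1 * x) - c x j 1
      rw [one_mul]
      ring
    · rw [hψ0 j x hx, hψ0 j _ fun h => hx ((hmem x a ha).1 h), ((hc a ha).1 j).1 x hx, sub_zero]

end Pool.Agent.ORD
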