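import Pool.Agent.ORD.E6
import Pool.Agent.ORD.E3

/-!
# ORD [ORD-E7]: the first cohomology of Rs vanishes on E
-/

set_option autoImplicit false

namespace Pool.Agent.ORD

open Pool.Agent.MP_6fb7ad_al

variable {p : ℕ} [Fact p.Prime] {F : Type} [Group F] [TopologicalSpace F] [IsTopologicalGroup F]

theorem h1_Rs {X : Type} {i : X → F} (hF : IsFreeProP p i) {R V E : Subgroup F}
    (hR : R.Normal) (hRc : IsClosed (R : Set F)) (hV : V.Normal) (hRV : R ≤ V)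
    (hVE : V ≤ E) (hE : ON E) (χ : F → ZMod p) (hχ : IsChar p χ)
    (hEχ : ∀ x, x ∈ E ↔ χ x = 0) (t : F) (ht : χ t = 1) (hN : N1 p E V)
    (hdim : ∀ θ₁ ∈ Hm p R, ∀ θ₂ ∈ Hm p R, (∀ a ∈ E, cj p a θ₁ = θ₁) →
      (∀ a ∈ E, cj p a θ₂ = θ₂) → ∃ c₁ c₂ : ZMod p, (c₁ ≠ 0 ∨ c₂ ≠ 0) ∧
      ∃ h ∈ Hm p E, c₁ • θ₁ + c₂ • θ₂ = ind p R h)
    (c : F → F → ZMod p) (hc : ∀ a ∈ E, c a ∈ Rs p V R)
    (hmul : ∀ a ∈ E, ∀ b ∈ E, c (a * b) = c a + cj p a (c b)) (hv : ∀ v ∈ V, c v = 0)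
    (hs : ∃ W : Subgroup F, ON W ∧ ∀ w ∈ W, w ∈ E → c w = 0) :
    ∃ θ ∈ Rs p V R, ∀ a ∈ E, c a = cj p a θ - θ := by
  obtain ⟨B, y, y1, y2, y3, y4⟩ := key hF hR hRc hV hRV hVE hE χ hχ hEχ t ht hN hdim
  have hevc : ∀ θ ∈ Rs p V R, evc p y E θ ∈ Cc p B E V := by
    rintro θ ⟨h, hh, rfl⟩
    obtain ⟨z, hz, hz'⟩ := exists_sh hV hh
    have e1 : qq p R z = ind p R h := by
      funext r
      by_cases hr : r ∈ R
      · rw [qq_of_mem hr, ind_of_mem hr, hz' r (hRV hr)]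
      · rw [qq_of_notMem hr, ind_of_notMem hr]
    rw [← e1, ← ev_eq_evc hV hR hRV y1 hz]
    exact ev_mem_Cc hE hVE y2 hz
  obtain ⟨ψ, hψ, hψ'⟩ := h1_Cc hF.proP hV hVE hE (fun a => evc p y E (c a))
    (fun a ha => hevc _ (hc a ha))
    (fun a ha b hb => by
      show evc p y E (c (a * b)) = evc p y E (c a) + rh p B a (evc p y E (c b))
      rw [hmul a ha b hb, map_add, evc_cj y ha])
    (fun v hv' => by
      show evc p y E (c v) = 0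
      rw [hv v hv', map_zero])
    (by
      obtain ⟨W, hW, hW'⟩ := hs
      refine ⟨W, hW, fun w hw hw' => ?_⟩
      show evc p y E (c w) = 0
      rw [hW' w hw hw', map_zero])
  obtain ⟨z, hz, hz'⟩ := y4 ψ hψ
  refine ⟨qq p R z, qq_mem_Rs hRV hz, fun a ha => ?_⟩
  have h1 : c a - (cj p a (qq p R z) - qq p R z) ∈ Rs p V R :=
    (Rs p V R).sub_mem (hc a ha) ((Rs p V R).sub_mem (cj_mem_Rs hV hR (qq_mem_Rs hRV hz) a)
      (qq_mem_Rs hRV hz))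
  refine sub_eq_zero.1 (y3 _ h1 ?_)
  rw [map_sub, map_sub, evc_cj y ha, ← ev_eq_evc hV hR hRV y1 hz, hz']
  have h2 := hψ' a ha
  have h3 : evc p y E (c a) = rh p B a ψ - ψ := h2
  rw [h3, sub_self]

end Pool.Agent.ORD
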