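import Pool.Agent.ORD.Def

/-!
# ORD [ORD-A1]: closed subgroups containing a basis
-/

set_option autoImplicit false

namespace Pool.Agent.ORD

open Pool.Agent.MP_6fb7ad_al

variable {p : ℕ} [Fact p.Prime] {F : Type} [Group F] [TopologicalSpace F] [IsTopologicalGroup F]

/-- A closed subgroup containing the basis is everything: otherwise `exists_char` gives a nonzero
continuous character `χ` vanishing on `H`; but `χ` and `0`, as homomorphisms to
`Multiplicative (ZMod p)` with the discrete topology, agree on the basis (`free_uniq`). -/
theorem eq_top_of_basis {X : Type} {i : X → F} (hF : IsFreeProP p i) (H : Subgroup F)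
    (hH : IsClosed (H : Set F)) (hi : ∀ x, i x ∈ H) : H = ⊤ := by
  by_contra hne
  obtain ⟨χ, hχ, h0, g, hg⟩ := exists_char hF.proP H hH hne
  have hone : χ 1 = 0 := by
    have := hχ.mul 1 1
    rw [mul_one] at this
    exact left_eq_add.1 this
  let q : F →* Multiplicative (ZMod p) :=
    { toFun := fun f => Multiplicative.ofAdd (χ f)
      map_one' := by rw [hone]; rfl
      map_mul' := fun a b => by rw [hχ.mul]; rfl }
  let : TopologicalSpace (Multiplicative (ZMod p)) := ⊥
  have hd : DiscreteTopology (Multiplicative (ZMod p)) := ⟨rfl⟩
  have hfin : Finite (Multiplicative (ZMod p)) := by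
    have : NeZero p := ⟨(Fact.out : p.Prime).ne_zero⟩
    infer_instance
  have hPG : IsPGroup p (Multiplicative (ZMod p)) := by
    apply IsPGroup.of_card (n := 1)
    rw [pow_one]
    show Nat.card (ZMod p) = p
    exact Nat.card_zmod p
  have hq : Continuous q := by
    have : IsLocallyConstant q := hχ.lc.comp Multiplicative.ofAdd
    exact this.continuous
  have key := free_uniq hF hPG q 1 hq continuous_const (fun x => by
    show Multiplicative.ofAdd (χ (i x)) = 1
    rw [h0 _ (hi x)]
    rfl)
  apply hg
  have := DFunLike.congr_fun key g
  exact Multiplicative.ofAdd.injective this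

/-- `{f | ∀ x, z f x = 0}` is a subgroup by the cocycle identity; it is open (it contains an open
normal subgroup), so closed (`Subgroup.isClosed_of_isOpen`); use `eq_top_of_basis`. -/
theorem Bc_ext {X : Type} {i : X → F} (hF : IsFreeProP p i) {V : Subgroup F}
    {z : F → F → ZMod p} (hz : z ∈ Bc p V) (h : ∀ x, z (i x) = 0) : z = 0 := by
  obtain ⟨h1, -, W, hW, h3, -⟩ := mem_Bc.1 hz
  let H : Subgroup F :=
    { carrier := {f | ∀ x, z f x = 0}
      mul_mem' := by
        intro a b ha hb x
        rw [h1, ha, hb, add_zero]
      one_mem' := by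
        intro x
        have h := h1 1 1 x
        rw [mul_one, inv_one, one_mul] at h
        exact left_eq_add.1 h
      inv_mem' := by
        intro a ha x
        have h0 : z 1 (a * x) = 0 := by
          have h := h1 1 1 (a * x)
          rw [mul_one, inv_one, one_mul] at h
          exact left_eq_add.1 h
        have h := h1 a a⁻¹ (a * x)
        rw [mul_inv_cancel, h0, ha, zero_add, inv_mul_cancel_left] at h
        exact h.symm }
  have hWH : W ≤ H := fun w hw x => h3 w hw x
  have hopen : IsOpen (H : Set F) := Subgroup.isOpen_mono hWH hW.2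
  have htop := eq_top_of_basis hF H (Subgroup.isClosed_of_isOpen H hopen)
    (fun x y => by rw [h x]; rfl)
  ext f x
  have : f ∈ H := by
    rw [htop]
    exact Subgroup.mem_top f
  exact this x

end Pool.Agent.ORD
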