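import Pool.Agent.ORD.A2a

/-!
# ORD [ORD-A2]: cocycles with prescribed values on the basis
-/

set_option autoImplicit false

namespace Pool.Agent.ORD

open Pool.Agent.MP_6fb7ad_al

variable {p : ℕ} [Fact p.Prime] {F : Type} [Group F] [TopologicalSpace F] [IsTopologicalGroup F]

omit [IsTopologicalGroup F] in
/-- a common open normal subgroup for a finitely supported family -/
private theorem A2_common {X : Type} {V : Subgroup F} {φ : X → F → ZMod p}
    (hφ : φ ∈ Cc p X ⊤ V) :
    ∃ W : Subgroup F, ON W ∧ ∀ x y, ∀ w ∈ W, φ x (y * w) = φ x y := by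
  obtain ⟨h1, h2⟩ := hφ
  have key : ∀ s : Set X, s.Finite → ∃ W : Subgroup F, ON W ∧
      ∀ x ∈ s, ∀ y, ∀ w ∈ W, φ x (y * w) = φ x y := by
    intro s hs
    induction s, hs using Set.Finite.induction_on with
    | empty => exact ⟨⊤, ON.top, fun x hx => absurd hx (Set.notMem_empty x)⟩
    | @insert a s _ _ ih =>
      obtain ⟨W, hW, hW'⟩ := ih
      obtain ⟨W', hW1, hW2⟩ := (h1 a).2.2
      refine ⟨W ⊓ W', hW.inf hW1, fun x hx y w hw => ?_⟩
      rcases Set.mem_insert_iff.1 hx with rfl | hx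
      · exact hW2 y w hw.2
      · exact hW' x hx y w hw.1
  obtain ⟨W, hW, hW'⟩ := key _ h2
  refine ⟨W, hW, fun x y w hw => ?_⟩
  by_cases hx : φ x = 0
  · rw [hx]
    rfl
  · exact hW' x hx y w hw

/-- Let `W` be an open normal subgroup such that all `φ x` are right `W`-invariant (`φ` has finite
support), `P = V ⊔ W`, an open normal subgroup, and `Q = F ⧸ P`, a finite `p`-group (`quot_fin`).
Every `φ x` is right `P`-invariant, so it is `φ' x ∘ mk` with `φ' x : Q → ZMod p`. Give `Wr p Q`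
the discrete topology (`⊥`): it is a pro-`p` group (`isProP_of_finite`), and the family
`x ↦ ⟨φ' x, mk (i x)⟩` is `1` for almost all `x` (`hF.conv` for `P`, finite support of `φ`), so
there is a continuous homomorphism `s : F → Wr p Q` with these values at the `i x`
(`convOne_of_finite`, `hF.univ`). By `free_uniq` `(s f).x = mk f`. Put `z f y = (s f).a (mk y)`.
The open normal subgroup needed for `Bc` is `s.ker ⊓ P` (`s` is continuous, so its kernel is
open). -/
theorem exists_Bc {X : Type} {i : X → F} (hF : IsFreeProP p i) {V : Subgroup F} (hV : V.Normal)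
    {φ : X → F → ZMod p} (hφ : φ ∈ Cc p X ⊤ V) : ∃ z ∈ Bc p V, ∀ x, z (i x) = φ x := by
  obtain ⟨W, hW, hWφ⟩ := A2_common hφ
  have hWn : W.Normal := hW.1
  let P : Subgroup F := V ⊔ W
  have hPn : P.Normal := inferInstanceAs (V ⊔ W).Normal
  have hPo : IsOpen (P : Set F) := Subgroup.isOpen_mono (H₁ := W) le_sup_right hW.2
  have hinv : ∀ x y, ∀ w ∈ P, φ x (y * w) = φ x y := by
    intro x y w hw
    obtain ⟨v, hv, w', hw', rfl⟩ := Subgroup.mem_sup_of_normal_left.1 hw
    rw [← mul_assoc, hWφ x _ w' hw', (hφ.1 x).2.1 y v hv]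
  obtain ⟨hfin, hpg⟩ := quot_fin hF.proP P hPo
  have hdisc : DiscreteTopology (F ⧸ P) := QuotientGroup.discreteTopology hPo
  have hq : Continuous (QuotientGroup.mk' P) := QuotientGroup.continuous_mk
  let φ' : X → F ⧸ P → ZMod p := fun x a => φ x a.out
  have hφ' : ∀ x (y : F), φ' x (QuotientGroup.mk' P y) = φ x y := by
    intro x y
    obtain ⟨w, hw⟩ := QuotientGroup.mk_out_eq_mul P y
    show φ x (y : F ⧸ P).out = φ x y
    rw [hw]
    exact hinv x y w w.2
  let : TopologicalSpace (Wr p (F ⧸ P)) := ⊥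
  have : DiscreteTopology (Wr p (F ⧸ P)) := ⟨rfl⟩
  have : NeZero p := ⟨(Fact.out : p.Prime).ne_zero⟩
  have : Finite (Wr p (F ⧸ P)) := Wr.finite
  have hE : IsPGroup p (Wr p (F ⧸ P)) := Wr.isPGroup hpg
  let s₀ : X → Wr p (F ⧸ P) := fun x => ⟨φ' x, QuotientGroup.mk' P (i x)⟩
  have hfin2 : {x | s₀ x ≠ 1}.Finite := by
    refine ((hF.conv P hPo).union hφ.2).subset ?_
    intro x hx
    by_contra hc
    rw [Set.mem_union, not_or] at hc
    apply hx
    have e1 : i x ∈ P := not_not.1 hc.1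
    have e2 : φ x = 0 := not_not.1 hc.2
    have e3 : QuotientGroup.mk' P (i x) = 1 := (QuotientGroup.eq_one_iff _).2 e1
    have e4 : φ' x = 0 := by
      funext a
      show φ x a.out = 0
      rw [e2]
      rfl
    show (⟨φ' x, QuotientGroup.mk' P (i x)⟩ : Wr p (F ⧸ P)) = ⟨0, 1⟩
    rw [e3, e4]
  obtain ⟨s, ⟨hs1, hs2⟩, -⟩ := hF.univ (Wr p (F ⧸ P)) (isProP_of_finite hE) s₀
    (convOne_of_finite s₀ hfin2)
  let π : Wr p (F ⧸ P) →* F ⧸ P :=
    { toFun := fun u => u.x
      map_one' := rfl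
      map_mul' := fun _ _ => rfl }
  have hπ : π.comp s = QuotientGroup.mk' P := by
    refine free_uniq hF hpg (π.comp s) (QuotientGroup.mk' P)
      ((continuous_of_discreteTopology (f := π)).comp hs1) hq (fun x => ?_)
    show (s (i x)).x = QuotientGroup.mk' P (i x)
    rw [hs2]
  have hx : ∀ g, (s g).x = QuotientGroup.mk' P g := fun g => DFunLike.congr_fun hπ g
  have hker : IsOpen (s.ker : Set F) := by
    have : (s.ker : Set F) = s ⁻¹' {1} := rfl
    rw [this]
    exact (isOpen_discrete _).preimage hs1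
  refine ⟨fun f y => (s f).a (QuotientGroup.mk' P y), ⟨fun f g x => ?_, fun f x v hv => ?_,
    s.ker ⊓ P, ⟨inferInstance, hker.inter hPo⟩, fun w hw x => ?_, fun w hw f x => ?_⟩, fun x => ?_⟩
  · show (s (f * g)).a _ = (s f).a _ + (s g).a _
    rw [map_mul, Wr.mul_a, hx, map_mul, map_inv]
  · show (s f).a _ = (s f).a _
    have : QuotientGroup.mk' P v = 1 := (QuotientGroup.eq_one_iff _).2 (le_sup_left (a := V) hv)
    rw [map_mul, this, mul_one]
  · show (s w).a _ = 0
    have : s w = 1 := hw.1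
    rw [this, Wr.one_a]
  · show (s f).a _ = (s f).a _
    have : QuotientGroup.mk' P w = 1 := (QuotientGroup.eq_one_iff _).2 hw.2
    rw [map_mul, this, mul_one]
  · funext y
    show (s (i x)).a _ = _
    rw [hs2]
    exact hφ' x y

end Pool.Agent.ORD
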