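import Pool.Agent.ORD.Def

/-!
# ORD [ORD-S2]: translations of functions and cocycles
-/

set_option autoImplicit false

namespace Pool.Agent.ORD

open Pool.Agent.MP_6fb7ad_al

variable {p : ℕ} [Fact p.Prime] {F : Type} [Group F] [TopologicalSpace F] [IsTopologicalGroup F]

theorem rr_mem_C1 {E V : Subgroup F} (hV : V.Normal) {a : F} (ha : a ∈ E) {φ : F → ZMod p}
    (hφ : φ ∈ C1 p E V) : rr p a φ ∈ C1 p E V := by
  obtain ⟨h1, h2, W, hW, h3⟩ := mem_C1.1 hφ
  have key : ∀ (x v : F), φ (x * v * a) = φ (x * a * (a⁻¹ * v * a)) := by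
    intro x v
    congr 1
    group
  refine mem_C1.2 ⟨fun x hx => ?_, fun x v hv => ?_, W, hW, fun x w hw => ?_⟩
  · rw [rr_apply]
    apply h1
    intro hxa
    exact hx (by simpa using E.mul_mem hxa (E.inv_mem ha))
  · rw [rr_apply, rr_apply, key]
    apply h2
    have := hV.conj_mem v hv a⁻¹
    rwa [inv_inv] at this
  · rw [rr_apply, rr_apply, key]
    apply h3
    exact hW.conj hw a

theorem rh_mem_Cc {I : Type} {E V : Subgroup F} (hV : V.Normal) {a : F} (ha : a ∈ E)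
    {φ : I → F → ZMod p} (hφ : φ ∈ Cc p I E V) : rh p I a φ ∈ Cc p I E V := by
  obtain ⟨h1, h2⟩ := mem_Cc.1 hφ
  refine mem_Cc.2 ⟨fun i => rr_mem_C1 hV ha (h1 i), h2.subset fun i hi => ?_⟩
  intro e
  apply hi
  ext x
  rw [rh_apply, e]
  rfl

/-- The subgroup `W` of the definition of `C1` works; for `Cc` take the intersection of the
subgroups of the finitely many nonzero members. -/
theorem smooth_Cc {I : Type} {E V : Subgroup F} {φ : I → F → ZMod p} (hφ : φ ∈ Cc p I E V) :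
    ∃ W : Subgroup F, ON W ∧ ∀ w ∈ W, rh p I w φ = φ := by
  obtain ⟨h1, h2⟩ := mem_Cc.1 hφ
  have h3 : ∀ i, ∃ W : Subgroup F, ON W ∧ ∀ x, ∀ w ∈ W, φ i (x * w) = φ i x :=
    fun i => (mem_C1.1 (h1 i)).2.2
  have h4 : ∀ s : Set I, s.Finite → ∃ W : Subgroup F, ON W ∧
      ∀ i ∈ s, ∀ x, ∀ w ∈ W, φ i (x * w) = φ i x := by
    intro s hs
    induction s, hs using Set.Finite.induction_on with
    | empty => exact ⟨⊤, ON.top, fun i hi => absurd hi (Set.notMem_empty i)⟩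
    | @insert j s _ _ ih =>
      obtain ⟨W, hW, h5⟩ := ih
      obtain ⟨W', hW', h6⟩ := h3 j
      refine ⟨W ⊓ W', hW.inf hW', fun i hi x w hw => ?_⟩
      rcases Set.mem_insert_iff.1 hi with rfl | hi
      · exact h6 x w hw.2
      · exact h5 i hi x w hw.1
  obtain ⟨W, hW, h5⟩ := h4 _ h2
  refine ⟨W, hW, fun w hw => ?_⟩
  ext i x
  rw [rh_apply]
  by_cases hi : φ i = 0
  · rw [hi]; rfl
  · exact h5 i hi x w hw

theorem rh_mem_Bc {V : Subgroup F} (hV : V.Normal) (a : F) {z : F → F → ZMod p}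
    (hz : z ∈ Bc p V) : rh p F a z ∈ Bc p V := by
  obtain ⟨h1, h2, W, hW, h3, h4⟩ := mem_Bc.1 hz
  have key : ∀ (f x v : F), z f (x * v * a) = z f (x * a * (a⁻¹ * v * a)) := by
    intro f x v
    congr 1
    group
  refine mem_Bc.2 ⟨fun f g x => ?_, fun f x v hv => ?_, W, hW, fun w hw x => ?_,
    fun w hw f x => ?_⟩
  · rw [rh_apply, rh_apply, rh_apply, h1, mul_assoc]
  · rw [rh_apply, rh_apply, key]
    apply h2
    have := hV.conj_mem v hv a⁻¹
    rwa [inv_inv] at this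
  · rw [rh_apply]
    exact h3 w hw _
  · rw [rh_apply, rh_apply, key]
    exact h4 _ (hW.conj hw a) f _

theorem Bc_mono {V E : Subgroup F} (hVE : V ≤ E) : Bc p E ≤ Bc p V := by
  intro z hz
  obtain ⟨h1, h2, h3⟩ := mem_Bc.1 hz
  exact mem_Bc.2 ⟨h1, fun f x v hv => h2 f x v (hVE hv), h3⟩

theorem Bc_one {V : Subgroup F} {z : F → F → ZMod p} (hz : z ∈ Bc p V) (x : F) : z 1 x = 0 := by
  obtain ⟨h1, -⟩ := mem_Bc.1 hz
  have h := h1 1 1 x
  rw [mul_one, inv_one, one_mul] at h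
  exact left_eq_add.1 h

/-- `z (x * (x⁻¹ * v * x) * x⁻¹)`: by the cocycle identity
`z v x = z x x + z (x⁻¹ * v * x) 1 + z x⁻¹ ((x⁻¹ * v * x)⁻¹)` and the last term is
`z x⁻¹ 1 = - z x x` by right `V`-invariance and `0 = z 1 x = z x x + z x⁻¹ 1`. -/
theorem Bc_conj {V : Subgroup F} (hV : V.Normal) {z : F → F → ZMod p} (hz : z ∈ Bc p V) {v : F}
    (hv : v ∈ V) (x : F) : z v x = z (x⁻¹ * v * x) 1 := by
  have h0 := Bc_one hz x
  obtain ⟨h1, h2, -⟩ := mem_Bc.1 hz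
  have hc : x⁻¹ * v * x ∈ V := by
    have := hV.conj_mem v hv x⁻¹
    rwa [inv_inv] at this
  have e1 : z v x = z (x * (x⁻¹ * v * x * x⁻¹)) x := by
    congr 1
    group
  have e2 : z 1 x = z x x + z x⁻¹ 1 := by
    have := h1 x x⁻¹ x
    rw [mul_inv_cancel, inv_mul_cancel] at this
    exact this
  have e3 : z x⁻¹ ((x⁻¹ * v * x)⁻¹ * 1) = z x⁻¹ 1 := by
    have := h2 x⁻¹ 1 ((x⁻¹ * v * x)⁻¹) (V.inv_mem hc)
    rw [one_mul] at this
    rw [mul_one]
    exact this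
  rw [e1, h1, inv_mul_cancel, h1, e3]
  rw [h0] at e2
  have e4 : z x⁻¹ 1 = - z x x := by
    rw [eq_neg_iff_add_eq_zero, add_comm]
    exact e2.symm
  rw [e4]
  ring

/-- `one1 p E` is right `E`-invariant. -/
theorem one1_mem_C1 {E V : Subgroup F} (hE : ON E) (hVE : V ≤ E) : one1 p E ∈ C1 p E V := by
  have key : ∀ x, ∀ v ∈ E, one1 p E (x * v) = one1 p E x := by
    intro x v hv
    by_cases hx : x ∈ E
    · rw [one1_of_mem hx, one1_of_mem (E.mul_mem hx hv)]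
    · rw [one1_of_notMem hx, one1_of_notMem]
      intro h
      exact hx (by simpa using E.mul_mem h (E.inv_mem hv))
  exact mem_C1.2 ⟨fun x hx => one1_of_notMem hx, fun x v hv => key x v (hVE hv), E, hE,
    fun x w hw => key x w hw⟩

end Pool.Agent.ORD
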