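import Pool.Agent.ORD.A1
import Pool.Agent.ORD.A2
import Pool.Agent.ORD.S2

/-!
# ORD [ORD-A4]: the linear isomorphism between cocycles and families
-/

set_option autoImplicit false

namespace Pool.Agent.ORD

open Pool.Agent.MP_6fb7ad_al

variable {p : ℕ} [Fact p.Prime] {F : Type} [Group F] [TopologicalSpace F] [IsTopologicalGroup F]

/-- The values of a cocycle at the basis form an element of `Cc p X ⊤ V` (the cocycle vanishes on
an open normal subgroup and the basis converges to `1`, `hF.conv`). -/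
theorem Bc_restr {X : Type} {i : X → F} (hF : IsFreeProP p i) {V : Subgroup F}
    {z : F → F → ZMod p} (hz : z ∈ Bc p V) : (fun x => z (i x)) ∈ Cc p X ⊤ V := by
  obtain ⟨h1, h2, W, hW, h3, h4⟩ := mem_Bc.1 hz
  refine mem_Cc.2 ⟨fun x => mem_C1.2 ⟨fun y hy => absurd (Subgroup.mem_top y) hy,
    fun y v hv => h2 (i x) y v hv, W, hW, fun y w hw => h4 w hw (i x) y⟩, ?_⟩
  refine (hF.conv W hW.2).subset fun x hx hxW => hx ?_
  funext y
  exact h3 (i x) hxW y

private theorem A4_uniq {X : Type} {i : X → F} (hF : IsFreeProP p i) {V : Subgroup F}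
    {z z' : F → F → ZMod p} (hz : z ∈ Bc p V) (hz' : z' ∈ Bc p V) (h : ∀ x, z (i x) = z' (i x)) :
    z = z' := by
  have h1 : z - z' = 0 := Bc_ext hF ((Bc p V).sub_mem hz hz') (fun x => by
    rw [Pi.sub_apply, h x, sub_self])
  exact sub_eq_zero.1 h1

/-- For `φ ∈ Cc p X ⊤ V` let `g φ` be the cocycle of `exists_Bc`; it is unique by `Bc_ext`, hence
linear in `φ`; extend the linear map from the submodule to the whole space
(`LinearMap.exists_extend`). The two last properties follow from `Bc_ext` too. -/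
theorem exists_gb {X : Type} {i : X → F} (hF : IsFreeProP p i) {V : Subgroup F}
    (hV : V.Normal) : ∃ g : (X → F → ZMod p) →ₗ[ZMod p] (F → F → ZMod p),
      (∀ φ ∈ Cc p X ⊤ V, g φ ∈ Bc p V ∧ ∀ x, g φ (i x) = φ x) ∧
      (∀ z ∈ Bc p V, g (fun x => z (i x)) = z) ∧
      ∀ a, ∀ φ ∈ Cc p X ⊤ V, g (rh p X a φ) = rh p F a (g φ) := by
  classical
  have hex : ∀ φ : Cc (F := F) p X ⊤ V, ∃ z : F → F → ZMod p, z ∈ Bc p V ∧
      ∀ x, z (i x) = (φ : X → F → ZMod p) x := fun φ => by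
    obtain ⟨z, hz, h⟩ := exists_Bc hF hV φ.2
    exact ⟨z, hz, h⟩
  choose z hz hzi using hex
  let g₀ : Cc (F := F) p X ⊤ V →ₗ[ZMod p] (F → F → ZMod p) :=
    { toFun := z
      map_add' := fun φ ψ => A4_uniq hF (hz _) ((Bc p V).add_mem (hz φ) (hz ψ)) (fun x => by
        rw [Pi.add_apply, hzi, hzi, hzi]
        rfl)
      map_smul' := fun c φ => A4_uniq hF (hz _) ((Bc p V).smul_mem c (hz φ)) (fun x => by
        rw [RingHom.id_apply, Pi.smul_apply, hzi, hzi]
        rfl) }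
  obtain ⟨g, hg⟩ := LinearMap.exists_extend g₀
  have hgφ : ∀ φ (hφ : φ ∈ Cc (F := F) p X ⊤ V), g φ = z ⟨φ, hφ⟩ := by
    intro φ hφ
    have := LinearMap.congr_fun hg ⟨φ, hφ⟩
    exact this
  have hA : ∀ φ ∈ Cc (F := F) p X ⊤ V, g φ ∈ Bc p V ∧ ∀ x, g φ (i x) = φ x := by
    intro φ hφ
    rw [hgφ φ hφ]
    exact ⟨hz _, hzi _⟩
  refine ⟨g, hA, ?_, ?_⟩
  · intro z' hz'
    have h1 := Bc_restr hF hz'
    exact A4_uniq hF (hA _ h1).1 hz' (fun x => (hA _ h1).2 x)
  · intro a φ hφ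
    have h1 : rh p X a φ ∈ Cc p X ⊤ V := rh_mem_Cc hV (Subgroup.mem_top a) hφ
    refine A4_uniq hF (hA _ h1).1 (rh_mem_Bc hV a (hA _ hφ).1) (fun x => ?_)
    rw [(hA _ h1).2 x]
    funext y
    rw [rh_apply, rh_apply, (hA _ hφ).2 x]

end Pool.Agent.ORD
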