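import Pool.Agent.ORD.B1

/-!
# ORD [ORD-B2]: cocycles extending homomorphisms (Shapiro)
-/

set_option autoImplicit false

namespace Pool.Agent.ORD

open Pool.Agent.MP_6fb7ad_al

variable {p : ℕ} [Fact p.Prime] {F : Type} [Group F] [TopologicalSpace F] [IsTopologicalGroup F]

/-- the chosen representative of the coset of `x` -/
private noncomputable def B2_sg (P : Subgroup F) (x : F) : F := (QuotientGroup.mk x : F ⧸ P).out

omit [TopologicalSpace F] [IsTopologicalGroup F] in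
private theorem B2_sg_mul (P : Subgroup F) {x u : F} (hu : u ∈ P) :
    B2_sg P (x * u) = B2_sg P x := by
  unfold B2_sg
  congr 1
  rw [QuotientGroup.eq]
  have : (x * u)⁻¹ * x = u⁻¹ := by group
  rw [this]
  exact P.inv_mem hu

omit [TopologicalSpace F] [IsTopologicalGroup F] in
private theorem B2_sg_eq (P : Subgroup F) (x : F) : ∃ u ∈ P, B2_sg P x = x * u := by
  obtain ⟨u, hu⟩ := QuotientGroup.mk_out_eq_mul P x
  exact ⟨u, u.2, hu⟩

omit [TopologicalSpace F] [IsTopologicalGroup F] in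
private theorem B2_arg (P : Subgroup F) (f x : F) :
    (B2_sg P x)⁻¹ * f * B2_sg P (f⁻¹ * x) ∈ P := by
  obtain ⟨a, ha, ea⟩ := B2_sg_eq P x
  obtain ⟨b, hb, eb⟩ := B2_sg_eq P (f⁻¹ * x)
  rw [ea, eb]
  have : (x * a)⁻¹ * f * (f⁻¹ * x * b) = a⁻¹ * b := by group
  rw [this]
  exact P.mul_mem (P.inv_mem ha) hb

/-- Take `P, h'` from `exists_Hm_ext` and put `σ x = (QuotientGroup.mk x : F ⧸ P).out` (so
`(σ x)⁻¹ * x ∈ P` and `σ (x * u) = σ x` for `u ∈ P`) and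
`z f x = h' ((σ x)⁻¹ * f * σ (f⁻¹ * x))`. The argument is in `P` since `P` is normal. The cocycle
identity is the additivity of `h'` on `P`. For `v ∈ V`: `σ (v⁻¹ * 1) = σ 1 ∈ P`, and
`h' ((σ 1)⁻¹ * v * σ 1) = h' v` since `h'` is additive on `P` and takes values in a commutative
group. If `W` is an open normal subgroup with `h' = 0` on `W`, then `z` vanishes on `W ⊓ P`
(for `w ∈ W ⊓ P`: `σ (w⁻¹ * x) = σ x`). -/
theorem exists_sh {V : Subgroup F} (hV : V.Normal) {h : F → ZMod p} (hh : h ∈ Hm p V) :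
    ∃ z ∈ Bc p V, ∀ v ∈ V, z v 1 = h v := by
  obtain ⟨P, h', hP, hVP, hh', hext⟩ := exists_Hm_ext hV hh
  obtain ⟨-, hadd, W, hW, hW0⟩ := mem_Hm.1 hh'
  have h10 : h' 1 = 0 := by
    have := hadd 1 P.one_mem 1 P.one_mem
    rw [one_mul] at this
    exact left_eq_add.1 this
  -- `σ (w⁻¹ * x) = σ x` for `w ∈ P`
  have hsl : ∀ w ∈ P, ∀ x, B2_sg P (w⁻¹ * x) = B2_sg P x := by
    intro w hw x
    have e : w⁻¹ * x = x * (x⁻¹ * w⁻¹ * x) := by group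
    rw [e]
    exact B2_sg_mul P (hP.conj (P.inv_mem hw) x)
  refine ⟨fun f x => h' ((B2_sg P x)⁻¹ * f * B2_sg P (f⁻¹ * x)), ?_, ?_⟩
  · refine mem_Bc.2 ⟨?_, ?_, W ⊓ P, hW.inf hP, ?_, ?_⟩
    · intro f g x
      show h' ((B2_sg P x)⁻¹ * (f * g) * B2_sg P ((f * g)⁻¹ * x)) =
        h' ((B2_sg P x)⁻¹ * f * B2_sg P (f⁻¹ * x)) +
        h' ((B2_sg P (f⁻¹ * x))⁻¹ * g * B2_sg P (g⁻¹ * (f⁻¹ * x)))
      rw [← hadd _ (B2_arg P f x) _ (B2_arg P g (f⁻¹ * x))]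
      congr 1
      have e : (f * g)⁻¹ * x = g⁻¹ * (f⁻¹ * x) := by group
      rw [e]
      group
    · intro f x v hv
      show h' ((B2_sg P (x * v))⁻¹ * f * B2_sg P (f⁻¹ * (x * v))) =
        h' ((B2_sg P x)⁻¹ * f * B2_sg P (f⁻¹ * x))
      rw [B2_sg_mul P (hVP hv), ← mul_assoc f⁻¹ x v, B2_sg_mul P (hVP hv)]
    · intro w hw x
      show h' ((B2_sg P x)⁻¹ * w * B2_sg P (w⁻¹ * x)) = 0
      rw [hsl w hw.2 x]
      exact hW0 _ (hW.conj hw.1 _)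
    · intro w hw f x
      show h' ((B2_sg P (x * w))⁻¹ * f * B2_sg P (f⁻¹ * (x * w))) =
        h' ((B2_sg P x)⁻¹ * f * B2_sg P (f⁻¹ * x))
      rw [B2_sg_mul P hw.2, ← mul_assoc f⁻¹ x w, B2_sg_mul P hw.2]
  · intro v hv
    show h' ((B2_sg P 1)⁻¹ * v * B2_sg P (v⁻¹ * 1)) = h v
    rw [hsl v (hVP hv) 1, ← hext v hv]
    obtain ⟨a, ha, ea⟩ := B2_sg_eq P (1 : F)
    rw [one_mul] at ea
    rw [ea, hadd _ (P.mul_mem (P.inv_mem ha) (hVP hv)) _ ha, hadd _ (P.inv_mem ha) _ (hVP hv)]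
    have h2 : h' a⁻¹ + h' a = 0 := by
      rw [← hadd _ (P.inv_mem ha) _ ha, inv_mul_cancel, h10]
    calc h' a⁻¹ + h' v + h' a = (h' a⁻¹ + h' a) + h' v := by ring
      _ = h' v := by rw [h2, zero_add]

end Pool.Agent.ORD
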