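import Pool.Agent.ORD.Def

/-!
# ORD [ORD-D1]: fixed vectors
-/

set_option autoImplicit false

namespace Pool.Agent.ORD

open Pool.Agent.MP_6fb7ad_al

variable {p : ℕ} [Fact p.Prime] {F : Type} [Group F] [TopologicalSpace F] [IsTopologicalGroup F]

/-- Let `φ : E → Equiv.Perm S` be the homomorphism given by the action (`α a` for `a ∈ E` maps `S`
to itself, with inverse `α a⁻¹`). Its kernel contains `W ∩ E` for an open normal subgroup `W` of
`F` (the intersection of the finitely many subgroups of `hsm`, `S` being finite), so it is an open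
normal subgroup of `E` and its index is a power of `p` (`hE.pow`). So the range of `φ` is a finite
`p`-group (`Subgroup.index_ker`, `IsPGroup.of_card`) acting on the finite set `S`, whose order is a
positive power of `p`; `0` is a fixed point, so there is another one
(`IsPGroup.exists_fixed_point_of_prime_dvd_card_of_fixed_point`). -/
theorem exists_fixed {M : Type} [AddCommGroup M] [Module (ZMod p) M]
    (α : F →* Module.End (ZMod p) M) {E : Subgroup F} (hE : IsProP p E)
    (S : Submodule (ZMod p) M) (hfin : Finite S) (hS : ∀ a ∈ E, ∀ m ∈ S, α a m ∈ S)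
    (hsm : ∀ m ∈ S, ∃ W : Subgroup F, ON W ∧ ∀ w ∈ W, α w m = m) (hne : S ≠ ⊥) :
    ∃ m ∈ S, m ≠ 0 ∧ ∀ a ∈ E, α a m = m := by
  classical
  let act : MulAction E S :=
    { smul := fun a m => ⟨α a m, hS a a.2 m m.2⟩
      one_smul := fun m => Subtype.ext (by
        show α ((1 : E) : F) (m : M) = m
        rw [Subgroup.coe_one, map_one]
        rfl)
      mul_smul := fun a b m => Subtype.ext (by
        show α ((a * b : E) : F) (m : M) = α a (α b m)
        rw [Subgroup.coe_mul, map_mul]
        rfl) }
  have hact : ∀ (a : E) (m : S), ((a • m : S) : M) = α a m := fun a m => rfl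
  let φ : E →* Equiv.Perm S := MulAction.toPermHom E S
  have hφ : ∀ (a : E) (m : S), φ a m = a • m := fun a m => rfl
  choose! W hW1 hW2 using hsm
  have hopen : IsOpen (φ.ker : Set E) := by
    have h1 : IsOpen ((⋂ m : S, (Subtype.val ⁻¹' (W m.1 : Set F) : Set E))) := by
      apply isOpen_iInter_of_finite
      intro m
      exact (hW1 m.1 m.2).2.preimage continuous_subtype_val
    have h1' : (⋂ m : S, (Subtype.val ⁻¹' (W m.1 : Set F) : Set E)) ⊆ (φ.ker : Set E) := by
      intro a ha
      rw [Set.mem_iInter] at ha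
      show a ∈ φ.ker
      rw [MonoidHom.mem_ker]
      apply Equiv.ext
      intro m
      apply Subtype.ext
      rw [hφ, hact]
      exact hW2 m.1 m.2 a (ha m)
    have h2 : (φ.ker : Set E) ∈ nhds (1 : E) := by
      refine Filter.mem_of_superset (h1.mem_nhds ?_) h1'
      rw [Set.mem_iInter]
      intro m
      exact (W m.1).one_mem
    exact Subgroup.isOpen_of_mem_nhds φ.ker h2
  obtain ⟨k, hk⟩ := hE.pow φ.ker inferInstance hopen
  rw [Subgroup.index_ker] at hk
  have hP : IsPGroup p φ.range := IsPGroup.of_card hk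
  obtain ⟨m0, hm0, hm0'⟩ := S.ne_bot_iff.1 hne
  have hdvd : p ∣ Nat.card S := by
    have h1 : addOrderOf (⟨m0, hm0⟩ : S) = p := by
      apply addOrderOf_eq_prime
      · apply Subtype.ext
        show p • m0 = 0
        rw [← Nat.cast_smul_eq_nsmul (ZMod p), ZMod.natCast_self, zero_smul]
      · intro h
        exact hm0' (congrArg Subtype.val h)
    have h2 := addOrderOf_dvd_natCard (⟨m0, hm0⟩ : S)
    rw [h1] at h2
    exact h2
  have hfix0 : (0 : S) ∈ MulAction.fixedPoints φ.range S := by
    rintro ⟨_, a, rfl⟩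
    show φ a 0 = 0
    apply Subtype.ext
    rw [hφ, hact]
    exact map_zero (α a)
  obtain ⟨m, hm, hne0⟩ := hP.exists_fixed_point_of_prime_dvd_card_of_fixed_point S hdvd hfix0
  refine ⟨m.1, m.2, ?_, ?_⟩
  · intro h
    exact hne0 (Subtype.ext h.symm)
  · intro a ha
    have h1 := hm ⟨φ ⟨a, ha⟩, ⟨a, ha⟩, rfl⟩
    have h2 : φ ⟨a, ha⟩ m = m := h1
    have h3 := congrArg Subtype.val h2
    rw [hφ, hact] at h3
    exact h3

end Pool.Agent.ORD
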