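import Pool.Agent.ORD.D1

/-!
# ORD [ORD-D2]: local nilpotence of endomorphisms killing the fixed vectors
-/

set_option autoImplicit false

namespace Pool.Agent.ORD

open Pool.Agent.MP_6fb7ad_al

variable {p : ℕ} [Fact p.Prime] {F : Type} [Group F] [TopologicalSpace F] [IsTopologicalGroup F]

private theorem D2_fin {M : Type} [AddCommGroup M] [Module (ZMod p) M]
    (α : F →* Module.End (ZMod p) M) {E : Subgroup F} (hE : IsProP p E)
    (𝔑 : Submodule (ZMod p) M)
    (hsm : ∀ m ∈ 𝔑, ∃ W : Subgroup F, ON W ∧ ∀ w ∈ W, α w m = m) (ν : M →ₗ[ZMod p] M)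
    (hν : ∀ m ∈ 𝔑, ν m ∈ 𝔑) (hc : ∀ a ∈ E, ∀ m ∈ 𝔑, ν (α a m) = α a (ν m))
    (hf : ∀ m ∈ 𝔑, (∀ a ∈ E, α a m = m) → ν m = 0) :
    ∀ n : ℕ, ∀ S : Submodule (ZMod p) M, Finite S → Nat.card S ≤ n → S ≤ 𝔑 →
      (∀ a ∈ E, ∀ m ∈ S, α a m ∈ S) → ∀ m ∈ S, ∃ l : ℕ, (ν ^ l) m = 0 := by
  intro n
  induction n with
  | zero =>
    intro S hS hcard _ _ m _
    have h1 : 0 < Nat.card S := Nat.card_pos
    omega
  | succ n ih =>
    intro S hS hcard hle hst m hm
    by_cases hbot : S = ⊥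
    · rw [hbot, Submodule.mem_bot] at hm
      exact ⟨0, by rw [hm, map_zero]⟩
    · obtain ⟨m0, hm0, hne, hfix⟩ := exists_fixed α hE S hS hst
        (fun m hm => hsm m (hle hm)) hbot
      have hν0 : ν m0 = 0 := hf m0 (hle hm0) hfix
      let q : S → S.map ν := fun x => ⟨ν x, Submodule.mem_map_of_mem x.2⟩
      have hq : Function.Surjective q := by
        rintro ⟨y, hy⟩
        obtain ⟨x, hx, rfl⟩ := Submodule.mem_map.1 hy
        exact ⟨⟨x, hx⟩, rfl⟩
      have hfin' : Finite (S.map ν) := Finite.of_surjective q hq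
      have hlt : Nat.card (S.map ν) < Nat.card S := by
        by_contra hcon
        have h1 : Nat.card S ≤ Nat.card (S.map ν) := not_lt.1 hcon
        have h2 := hq.bijective_of_nat_card_le h1
        have h3 : q ⟨m0, hm0⟩ = q 0 := by
          apply Subtype.ext
          show ν m0 = ν 0
          rw [hν0, map_zero]
        have h4 := h2.1 h3
        apply hne
        exact congrArg Subtype.val h4
      have hle' : S.map ν ≤ 𝔑 := by
        rintro y hy
        obtain ⟨x, hx, rfl⟩ := Submodule.mem_map.1 hy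
        exact hν x (hle hx)
      have hst' : ∀ a ∈ E, ∀ m ∈ S.map ν, α a m ∈ S.map ν := by
        intro a ha y hy
        obtain ⟨x, hx, rfl⟩ := Submodule.mem_map.1 hy
        rw [← hc a ha x (hle hx)]
        exact Submodule.mem_map_of_mem (hst a ha x hx)
      obtain ⟨l, hl⟩ := ih (S.map ν) hfin' (by omega) hle' hst' (ν m)
        (Submodule.mem_map_of_mem hm)
      exact ⟨l + 1, by rw [pow_succ]; exact hl⟩

/-- First let `S ≤ 𝔑` be a finite submodule stable under `α a`, `a ∈ E`; by induction on the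
cardinality of `S` every `m ∈ S` is killed by a power of `ν`: if `S ≠ ⊥` then `exists_fixed` gives
a nonzero fixed vector, which is killed by `ν`, so `S.map ν` (again finite, stable and contained in
`𝔑`) has smaller cardinality.
For `m ∈ 𝔑` let `S` be the span of the vectors `α a m`, `a ∈ E`: it is stable, and it is finite
since the set of these vectors is finite (`α (a * w) m = α a m` for `w` in an open normal subgroup
`W`, of finite index by `hF`), `ZMod p` is finite and `S` is finite dimensional. -/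
theorem nilp (hF : IsProP p F) {M : Type} [AddCommGroup M] [Module (ZMod p) M]
    (α : F →* Module.End (ZMod p) M) {E : Subgroup F} (hE : IsProP p E)
    (𝔑 : Submodule (ZMod p) M) (hst : ∀ a ∈ E, ∀ m ∈ 𝔑, α a m ∈ 𝔑)
    (hsm : ∀ m ∈ 𝔑, ∃ W : Subgroup F, ON W ∧ ∀ w ∈ W, α w m = m) (ν : M →ₗ[ZMod p] M)
    (hν : ∀ m ∈ 𝔑, ν m ∈ 𝔑) (hc : ∀ a ∈ E, ∀ m ∈ 𝔑, ν (α a m) = α a (ν m))
    (hf : ∀ m ∈ 𝔑, (∀ a ∈ E, α a m = m) → ν m = 0) :
    ∀ m ∈ 𝔑, ∃ l : ℕ, (ν ^ l) m = 0 := by
  intro m hm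
  obtain ⟨W, hW, hWm⟩ := hsm m hm
  have hidx : Finite (F ⧸ W) := by
    have := hW.1
    exact (quot_fin hF W hW.2).1
  let T : Set M := {y | ∃ a ∈ E, α a m = y}
  have hT : T.Finite := by
    let f : F ⧸ W → M := fun x => α x.out m
    refine (Set.finite_range f).subset ?_
    rintro y ⟨a, ha, rfl⟩
    refine ⟨(QuotientGroup.mk a : F ⧸ W), ?_⟩
    have h1 : (QuotientGroup.mk (QuotientGroup.mk a : F ⧸ W).out : F ⧸ W) = QuotientGroup.mk a :=
      Quotient.out_eq _
    rw [QuotientGroup.eq] at h1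
    show α (QuotientGroup.mk a : F ⧸ W).out m = α a m
    have h2 : a = (QuotientGroup.mk a : F ⧸ W).out * ((QuotientGroup.mk a : F ⧸ W).out⁻¹ * a) := by
      group
    conv_rhs => rw [h2, map_mul]
    show _ = α (QuotientGroup.mk a : F ⧸ W).out (α ((QuotientGroup.mk a : F ⧸ W).out⁻¹ * a) m)
    rw [hWm _ h1]
  let S : Submodule (ZMod p) M := Submodule.span (ZMod p) T
  have hSfin : Finite S := by
    have : Module.Finite (ZMod p) S := Module.Finite.span_of_finite (ZMod p) hT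
    exact Module.finite_of_finite (ZMod p)
  have hSle : S ≤ 𝔑 := by
    refine Submodule.span_le.2 ?_
    rintro y ⟨a, ha, rfl⟩
    exact hst a ha m hm
  have hSst : ∀ a ∈ E, ∀ x ∈ S, α a x ∈ S := by
    intro a ha x hx
    have h1 : S ≤ S.comap (α a) := by
      refine Submodule.span_le.2 ?_
      rintro y ⟨b, hb, rfl⟩
      show α a (α b m) ∈ S
      refine Submodule.subset_span ⟨a * b, E.mul_mem ha hb, ?_⟩
      rw [map_mul]; rfl
    exact h1 hx
  have hmS : m ∈ S := Submodule.subset_span ⟨1, E.one_mem, by rw [map_one]; rfl⟩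
  exact D2_fin α hE 𝔑 hsm ν hν hc hf (Nat.card S) S hSfin le_rfl hSle hSst m hmS

end Pool.Agent.ORD
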