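import Pool.Agent.ORD.Def

/-!
# ORD [ORD-E0]: unipotent maps are invertible
-/

set_option autoImplicit false

namespace Pool.Agent.ORD

open Pool.Agent.MP_6fb7ad_al

variable {p : ℕ} [Fact p.Prime] 
/-- Injective on `𝔑`: if `m ∈ 𝔑` and `u m = 0` then `(1 - u) m = m`, so `m = (1 - u) ^ l m = 0`.
Onto: `m = u (∑ j ∈ range l, (1 - u) ^ j m)` if `(1 - u) ^ l m = 0` (`mul_neg_geom_sum` or
`geom_sum_mul_neg`). So `u` restricts to a bijective linear map of `𝔑`; extend its inverse to `M`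
(`LinearMap.exists_extend`). -/
theorem exists_inv_unip {M : Type} [AddCommGroup M] [Module (ZMod p) M]
    (𝔑 : Submodule (ZMod p) M) (u : M →ₗ[ZMod p] M) (hu : ∀ m ∈ 𝔑, u m ∈ 𝔑)
    (hn : ∀ m ∈ 𝔑, ∃ l : ℕ, ((1 - u) ^ l) m = 0) :
    ∃ v : M →ₗ[ZMod p] M, ∀ m ∈ 𝔑, v m ∈ 𝔑 ∧ u (v m) = m ∧ v (u m) = m := by
  have h1u : ∀ m ∈ 𝔑, (1 - u) m ∈ 𝔑 := fun m hm => 𝔑.sub_mem hm (hu m hm)
  have hpow : ∀ l : ℕ, ∀ m ∈ 𝔑, ((1 - u) ^ l) m ∈ 𝔑 := by
    intro l
    induction l with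
    | zero => intro m hm; exact hm
    | succ l ih =>
      intro m hm
      rw [pow_succ', Module.End.mul_apply]
      exact h1u _ (ih m hm)
  let w : 𝔑 →ₗ[ZMod p] 𝔑 := u.restrict hu
  have hinj : Function.Injective w := by
    rw [← LinearMap.ker_eq_bot, LinearMap.ker_eq_bot']
    intro m hm
    have h0 : u (m : M) = 0 := congrArg Subtype.val hm
    have h1 : ∀ l : ℕ, ((1 - u) ^ l) (m : M) = m := by
      intro l
      induction l with
      | zero => rfl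
      | succ l ih =>
        rw [pow_succ', Module.End.mul_apply, ih, LinearMap.sub_apply, h0, sub_zero]
        rfl
    obtain ⟨l, hl⟩ := hn m m.2
    rw [h1 l] at hl
    exact Subtype.ext hl
  have hsurj : Function.Surjective w := by
    intro m
    obtain ⟨l, hl⟩ := hn m m.2
    refine ⟨⟨(∑ j ∈ Finset.range l, (1 - u) ^ j) (m : M), ?_⟩, ?_⟩
    · rw [LinearMap.sum_apply]
      exact 𝔑.sum_mem fun j _ => hpow j _ m.2
    · apply Subtype.ext
      show u ((∑ j ∈ Finset.range l, (1 - u) ^ j) (m : M)) = m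
      have h2 := mul_neg_geom_sum (1 - u) l
      have h3 : (1 : Module.End (ZMod p) M) - (1 - u) = u := by abel
      rw [h3] at h2
      have h4 := congrArg (fun f : Module.End (ZMod p) M => f (m : M)) h2
      simp only [Module.End.mul_apply] at h4
      rw [h4, LinearMap.sub_apply, hl, sub_zero]
      rfl
  let e := LinearEquiv.ofBijective w ⟨hinj, hsurj⟩
  obtain ⟨v, hv⟩ := LinearMap.exists_extend (𝔑.subtype.comp (e.symm : 𝔑 →ₗ[ZMod p] 𝔑))
  have hv' : ∀ m : 𝔑, v m = e.symm m := by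
    intro m
    have := congrArg (fun f : 𝔑 →ₗ[ZMod p] M => f m) hv
    exact this
  refine ⟨v, fun m hm => ⟨?_, ?_, ?_⟩⟩
  · rw [hv' ⟨m, hm⟩]
    exact (e.symm ⟨m, hm⟩).2
  · rw [hv' ⟨m, hm⟩]
    have h5 : e (e.symm ⟨m, hm⟩) = ⟨m, hm⟩ := e.apply_symm_apply _
    exact congrArg Subtype.val h5
  · have h6 := hv' ⟨u m, hu m hm⟩
    have h7 : (⟨u m, hu m hm⟩ : 𝔑) = e ⟨m, hm⟩ := rfl
    rw [h7, e.symm_apply_apply] at h6
    exact h6

end Pool.Agent.ORD
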