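import Pool.Agent.ORD.S1
import Pool.Agent.ORD.S2

/-!
# ORD [ORD-S3]: evaluation maps
-/

set_option autoImplicit false

namespace Pool.Agent.ORD

open Pool.Agent.MP_6fb7ad_al

variable {p : ℕ} [Fact p.Prime] {F : Type} [Group F] [TopologicalSpace F] [IsTopologicalGroup F]

private theorem s3_mem_mul {E : Subgroup F} {x a : F} (ha : a ∈ E) : x * a ∈ E ↔ x ∈ E :=
  ⟨fun h => by simpa using E.mul_mem h (E.inv_mem ha), fun h => E.mul_mem h ha⟩

/-- Take `h v = z v 1` for `v ∈ V`, extended by zero; it is additive on `V`: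
`z (v * v') 1 = z v 1 + z v' (v⁻¹ * 1) = z v 1 + z v' 1` by right `V`-invariance. -/
theorem qq_mem_Rs {V R : Subgroup F} (hRV : R ≤ V) {z : F → F → ZMod p} (hz : z ∈ Bc p V) :
    qq p R z ∈ Rs p V R := by
  obtain ⟨h1, h2, W, hW, h3, -⟩ := mem_Bc.1 hz
  refine mem_Rs.2 ⟨qq p V z, mem_Hm.2 ⟨fun x hx => qq_of_notMem hx z, fun x hx y hy => ?_, W, hW,
    fun w hw => ?_⟩, ?_⟩
  · rw [qq_of_mem hx, qq_of_mem hy, qq_of_mem (V.mul_mem hx hy), h1]
    have := h2 y 1 x⁻¹ (V.inv_mem hx)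
    rw [one_mul] at this
    rw [mul_one, this]
  · by_cases hwV : w ∈ V
    · rw [qq_of_mem hwV]
      exact h3 w hw 1
    · exact qq_of_notMem hwV z
  · ext x
    by_cases hx : x ∈ R
    · rw [ind_of_mem hx, qq_of_mem (hRV hx), qq_of_mem hx]
    · rw [ind_of_notMem hx, qq_of_notMem hx]

/-- From `Bc_conj`. -/
theorem ev_eq_evc {I : Type} {V R E : Subgroup F} (hV : V.Normal) (hR : R.Normal) (hRV : R ≤ V)
    {y : I → F} (hy : ∀ i, y i ∈ R) {z : F → F → ZMod p} (hz : z ∈ Bc p V) :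
    ev p y E z = evc p y E (qq p R z) := by
  ext i x
  by_cases hx : x ∈ E
  · have hc : x⁻¹ * y i * x ∈ R := by
      have := hR.conj_mem (y i) (hy i) x⁻¹
      rwa [inv_inv] at this
    rw [ev_of_mem y hx, evc_of_mem y hx, qq_of_mem hc]
    exact Bc_conj hV hz (hRV (hy i)) x
  · rw [ev_of_notMem y hx, evc_of_notMem y hx]

theorem evc_cj {I : Type} {E : Subgroup F} (y : I → F) {a : F} (ha : a ∈ E) (θ : F → ZMod p) :
    evc p y E (cj p a θ) = rh p I a (evc p y E θ) := by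
  ext i x
  rw [rh_apply]
  by_cases hx : x ∈ E
  · rw [evc_of_mem y hx, evc_of_mem y ((s3_mem_mul ha).2 hx), cj_apply]
    congr 1
    group
  · rw [evc_of_notMem y hx, evc_of_notMem y (fun h => hx ((s3_mem_mul ha).1 h))]

theorem ev_rh {I : Type} {E : Subgroup F} (y : I → F) {a : F} (ha : a ∈ E)
    (z : F → F → ZMod p) : ev p y E (rh p F a z) = rh p I a (ev p y E z) := by
  ext i x
  rw [rh_apply]
  by_cases hx : x ∈ E
  · rw [ev_of_mem y hx, ev_of_mem y ((s3_mem_mul ha).2 hx), rh_apply]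
  · rw [ev_of_notMem y hx, ev_of_notMem y (fun h => hx ((s3_mem_mul ha).1 h))]

/-- The support is finite since `z` vanishes on an open normal subgroup. For the right invariance
under an open normal subgroup intersect with `E`. -/
theorem ev_mem_Cc {I : Type} {V E : Subgroup F} (hE : ON E) (hVE : V ≤ E) {y : I → F}
    (hy : ∀ W : Subgroup F, ON W → {i | y i ∉ W}.Finite) {z : F → F → ZMod p} (hz : z ∈ Bc p V) :
    ev p y E z ∈ Cc p I E V := by
  obtain ⟨-, h2, W, hW, h3, h4⟩ := mem_Bc.1 hz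
  refine mem_Cc.2 ⟨fun i => mem_C1.2 ⟨fun x hx => ev_of_notMem y hx z i, fun x v hv => ?_,
    W ⊓ E, hW.inf hE, fun x w hw => ?_⟩, (hy W hW).subset fun i hi hiW => hi ?_⟩
  · by_cases hx : x ∈ E
    · rw [ev_of_mem y hx, ev_of_mem y ((s3_mem_mul (hVE hv)).2 hx)]
      exact h2 _ x v hv
    · rw [ev_of_notMem y hx, ev_of_notMem y (fun h => hx ((s3_mem_mul (hVE hv)).1 h))]
  · by_cases hx : x ∈ E
    · rw [ev_of_mem y hx, ev_of_mem y ((s3_mem_mul hw.2).2 hx)]
      exact h4 w hw.1 _ x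
    · rw [ev_of_notMem y hx, ev_of_notMem y (fun h => hx ((s3_mem_mul hw.2).1 h))]
  · ext x
    by_cases hx : x ∈ E
    · rw [ev_of_mem y hx]
      exact h3 _ hiW x
    · rw [ev_of_notMem y hx]
      rfl

end Pool.Agent.ORD
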