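import Pool.Agent.ORD.E1
import Pool.Agent.ORD.E0
import Pool.Agent.ORD.D2
import Pool.Agent.ORD.S3
import Pool.Agent.ORD.C1

/-!
# ORD [ORD-E2]: an equivariant section of the evaluation
-/

set_option autoImplicit false

namespace Pool.Agent.ORD

open Pool.Agent.MP_6fb7ad_al

variable {p : ℕ} [Fact p.Prime] {F : Type} [Group F] [TopologicalSpace F] [IsTopologicalGroup F]

theorem st1 {X : Type} {i : X → F} (hF : IsFreeProP p i) {V E : Subgroup F}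
    (hV : V.Normal) (hVE : V ≤ E) (hE : ON E) (χ : F → ZMod p) (hχ : IsChar p χ)
    (hEχ : ∀ x, x ∈ E ↔ χ x = 0) (t : F) (ht : χ t = 1) {I : Type} (y : I → F)
    (hy : ∀ W : Subgroup F, ON W → {b | y b ∉ W}.Finite)
    (zf : I → F → F → ZMod p) (hz : ∀ j, zf j ∈ Bc p E)
    (hd1 : ∀ j, ∀ x ∈ E, zf j (y j) x = 1)
    (hd0 : ∀ j j', j ≠ j' → ∀ x ∈ E, zf j (y j') x = 0) :
    ∃ τ : (I → F → ZMod p) →ₗ[ZMod p] (F → F → ZMod p),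
      (∀ φ ∈ Cc p I E V, τ φ ∈ Bc p V ∧ ev p y E (τ φ) = φ) ∧
      ∀ a ∈ E, ∀ φ ∈ Cc p I E V, τ (rh p I a φ) = rh p F a (τ φ) := by
  obtain ⟨sg, h1, h2, h3⟩ := exists_sg hF hV hVE hE χ hχ hEχ t ht y zf hz hd1 hd0
  have hEc : IsClosed (E : Set F) := E.isClosed_of_isOpen hE.2
  have hE' : IsProP p E := isProP_sub hF.proP E hEc
  have hu : ∀ φ ∈ Cc p I E V, (ev p y E ∘ₗ sg) φ ∈ Cc p I E V := fun φ hφ =>
    ev_mem_Cc hE hVE hy (h1 φ hφ)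
  have huc : ∀ a ∈ E, ∀ φ ∈ Cc p I E V,
      (ev p y E ∘ₗ sg) (rh p I a φ) = rh p I a ((ev p y E ∘ₗ sg) φ) := by
    intro a ha φ hφ
    show ev p y E (sg (rh p I a φ)) = rh p I a (ev p y E (sg φ))
    rw [h2 a ha φ hφ, ev_rh y ha]
  have hn : ∀ φ ∈ Cc p I E V, ∃ l : ℕ, ((1 - (ev p y E ∘ₗ sg)) ^ l) φ = 0 := by
    refine nilp hF.proP (rh p I) hE' (Cc p I E V) (fun a ha m hm => rh_mem_Cc hV ha hm)
      (fun m hm => smooth_Cc hm) (1 - (ev p y E ∘ₗ sg)) ?_ ?_ ?_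
    · intro m hm
      exact (Cc p I E V).sub_mem hm (hu m hm)
    · intro a ha m hm
      show rh p I a m - (ev p y E ∘ₗ sg) (rh p I a m) = rh p I a (m - (ev p y E ∘ₗ sg) m)
      rw [huc a ha m hm, map_sub]
    · intro m hm hm'
      show m - ev p y E (sg m) = 0
      rw [h3 m hm hm', sub_self]
  obtain ⟨v, hv⟩ := exists_inv_unip (Cc p I E V) (ev p y E ∘ₗ sg) hu hn
  refine ⟨sg ∘ₗ v, fun φ hφ => ⟨h1 _ (hv φ hφ).1, (hv φ hφ).2.1⟩, fun a ha φ hφ => ?_⟩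
  show sg (v (rh p I a φ)) = rh p F a (sg (v φ))
  rw [← h2 a ha _ (hv φ hφ).1]
  congr 1
  have e1 : (ev p y E ∘ₗ sg) (rh p I a (v φ)) = rh p I a φ := by
    rw [huc a ha _ (hv φ hφ).1, (hv φ hφ).2.1]
  rw [← e1]
  exact (hv _ (rh_mem_Cc hV ha (hv φ hφ).1)).2.2

end Pool.Agent.ORD
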