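import Pool.Agent.ORD.Def

/-!
# ORD [ORD-C2]: dual families converging to 1
-/

set_option autoImplicit false

namespace Pool.Agent.ORD

open Pool.Agent.MP_6fb7ad_al

variable {p : ℕ} [Fact p.Prime] {F : Type} [Group F] [TopologicalSpace F] [IsTopologicalGroup F]

/-- As in `exists_dual` and `exists_dual_conv` of C2 of MP_6fb7ad_al. First, by `c2a_surj` and
compactness there are `c₀ b` with `e b (c₀ b) = 1` and `e b' (c₀ b) = 0` for `b ≠ b'`. Let `N₀` be
the intersection of the kernels of all `e b`, a closed normal subgroup. If `V` is an open subgroup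
containing `N₀` then, by compactness of the complement of `V`, there is a finite set `S` of indices
such that `e b g = 0` for all `b ∈ S` implies `g ∈ V` (for example
`IsCompact.elim_finite_subfamily_closed`); so `c₀ b ∈ V` for all `b ∉ S`. Apply
`exists_conv_lift`. -/
theorem exists_dual_fam (hF : IsProP p F) {ι : Type} (e : ι → Ch p F)
    (he : LinearIndependent (ZMod p) e) : ∃ c : ι → F, (∀ b, (e b : F → ZMod p) (c b) = 1) ∧
      (∀ b b', b ≠ b' → (e b' : F → ZMod p) (c b) = 0) ∧ ConvOne c := by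
  classical
  have := hF.compact
  have hv : ∀ v : ι → ZMod p, ∃ g : F, ∀ b, (e b : F → ZMod p) g = v b := by
    intro v
    have h1 : (⋂ b, {g : F | (e b : F → ZMod p) g = v b}).Nonempty := by
      apply CompactSpace.iInter_nonempty
      · intro b
        exact ((e b).2.lc.isClosed_fiber (v b))
      · intro S
        obtain ⟨g, hg⟩ := c2a_surj he S v
        exact ⟨g, Set.mem_iInter₂.2 fun b hb => hg b hb⟩
    obtain ⟨g, hg⟩ := h1
    exact ⟨g, fun b => Set.mem_iInter.1 hg b⟩
  choose cc hcc using hv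
  let c₀ : ι → F := fun b => cc (Pi.single b 1)
  have hc1 : ∀ b, (e b : F → ZMod p) (c₀ b) = 1 := by
    intro b
    show (e b : F → ZMod p) (cc (Pi.single b 1)) = 1
    rw [hcc, Pi.single_eq_same]
  have hc2 : ∀ b b', b ≠ b' → (e b' : F → ZMod p) (c₀ b) = 0 := by
    intro b b' hbb'
    show (e b' : F → ZMod p) (cc (Pi.single b 1)) = 0
    rw [hcc, Pi.single_eq_of_ne' hbb']
  let N₀ : Subgroup F :=
    { carrier := {g | ∀ b, (e b : F → ZMod p) g = 0}
      mul_mem' := by
        intro x y hx hy b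
        rw [(e b).2.mul, hx b, hy b, add_zero]
      one_mem' := fun b => c2b_one (e b).2
      inv_mem' := by
        intro x hx b
        rw [c2b_inv (e b).2, hx b, neg_zero] }
  have hN₀ : ∀ g, g ∈ N₀ ↔ ∀ b, (e b : F → ZMod p) g = 0 := fun g => Iff.rfl
  have hn : N₀.Normal := by
    refine ⟨fun n hn g => ?_⟩
    rw [hN₀] at hn ⊢
    intro b
    rw [(e b).2.mul, (e b).2.mul, c2b_inv (e b).2, hn b]
    ring
  have hcl : ∀ b, IsClosed {g : F | (e b : F → ZMod p) g = 0} := fun b =>
    (e b).2.lc.isClosed_fiber 0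
  have hNeq : (N₀ : Set F) = ⋂ b, {g : F | (e b : F → ZMod p) g = 0} := by
    ext g
    simp only [Set.mem_iInter]
    exact Iff.rfl
  have hNcl : IsClosed (N₀ : Set F) := by
    rw [hNeq]
    exact isClosed_iInter hcl
  have hfin : ∀ V : Subgroup F, V.Normal → IsOpen (V : Set F) → N₀ ≤ V → {b | c₀ b ∉ V}.Finite := by
    intro V _ hVo hle
    have hcomp : IsCompact ((V : Set F)ᶜ) := hVo.isClosed_compl.isCompact
    obtain ⟨S, hS⟩ := hcomp.elim_finite_subfamily_closed
      (fun b => {g : F | (e b : F → ZMod p) g = 0}) hcl (by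
        rw [← hNeq, Set.eq_empty_iff_forall_notMem]
        rintro g ⟨h1, h2⟩
        exact h1 (hle h2))
    refine Set.Finite.subset S.finite_toSet ?_
    intro b hb
    by_contra hbS
    have h3 : c₀ b ∈ ((V : Set F)ᶜ ∩ ⋂ i ∈ S, {g : F | (e i : F → ZMod p) g = 0}) := by
      refine ⟨hb, Set.mem_iInter₂.2 fun i hi => ?_⟩
      exact hc2 b i (fun h => hbS (by rw [h]; exact hi))
    rw [hS] at h3
    exact h3
  obtain ⟨c, hcN, hcO⟩ := exists_conv_lift hF N₀ hn hNcl c₀ hfin
  have h6 : ∀ b b', (e b' : F → ZMod p) (c b) = (e b' : F → ZMod p) (c₀ b) := by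
    intro b b'
    have h7 : (e b' : F → ZMod p) ((c₀ b)⁻¹ * c b) = 0 := hcN b b'
    have h8 := (e b').2.mul (c₀ b) ((c₀ b)⁻¹ * c b)
    rw [mul_inv_cancel_left, h7, add_zero] at h8
    exact h8
  exact ⟨c, fun b => by rw [h6, hc1], fun b b' hb => by rw [h6, hc2 b b' hb], hcO⟩

end Pool.Agent.ORD
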