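import Pool.Agent.ORD.C1
import Pool.Agent.ORD.C2

/-!
# ORD [ORD-C3]: dual families in a closed subgroup
-/

set_option autoImplicit false

namespace Pool.Agent.ORD

open Pool.Agent.MP_6fb7ad_al

variable {p : ℕ} [Fact p.Prime] {F : Type} [Group F] [TopologicalSpace F] [IsTopologicalGroup F]

theorem exists_fam (hF : IsProP p F) {R : Subgroup F} (hRc : IsClosed (R : Set F)) {ι : Type}
    (e : ι → F → ZMod p) (he : ∀ b, e b ∈ Hm p R) (hli : LinearIndependent (ZMod p) e) :
    ∃ y : ι → F, (∀ b, y b ∈ R) ∧ (∀ b, e b (y b) = 1) ∧ (∀ b b', b ≠ b' → e b' (y b) = 0) ∧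
      ∀ W : Subgroup F, ON W → {b | y b ∉ W}.Finite := by
  classical
  have hR : IsProP p R := isProP_sub hF R hRc
  have hch : ∀ b, IsChar p (fun r : R => e b r) := by
    intro b
    obtain ⟨h1, h2, W, hW, h3⟩ := he b
    refine ⟨?_, fun g h => h2 _ g.2 _ h.2⟩
    rw [IsLocallyConstant.iff_exists_open]
    intro x
    refine ⟨{y : R | (x : F)⁻¹ * (y : F) ∈ W}, ?_, ?_, ?_⟩
    · exact hW.2.preimage ((continuous_const_mul (x : F)⁻¹).comp continuous_subtype_val)
    · show (x : F)⁻¹ * x ∈ W
      rw [inv_mul_cancel]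
      exact W.one_mem
    · intro y hy
      have hy' : (x : F)⁻¹ * (y : F) ∈ W := hy
      have h4 := h2 _ x.2 _ (R.mul_mem (R.inv_mem x.2) y.2)
      rw [mul_inv_cancel_left, h3 _ hy', add_zero] at h4
      exact h4
  let e' : ι → Ch p R := fun b => ⟨fun r => e b r, hch b⟩
  let f : Ch p R →ₗ[ZMod p] (F → ZMod p) :=
    { toFun := fun χ x => if h : x ∈ R then χ.1 ⟨x, h⟩ else 0
      map_add' := by
        intro χ ψ
        funext x
        simp only [Pi.add_apply]
        split_ifs
        · rfl
        · simp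
      map_smul' := by
        intro c χ
        funext x
        simp only [Pi.smul_apply, RingHom.id_apply]
        split_ifs
        · rfl
        · simp }
  have hf : ∀ b, f (e' b) = e b := by
    intro b
    funext x
    show (if h : x ∈ R then e b x else 0) = e b x
    split_ifs with h
    · rfl
    · exact ((he b).1 x h).symm
  have hli' : LinearIndependent (ZMod p) e' := by
    refine LinearIndependent.of_comp f ?_
    have h1 : (f ∘ e') = e := funext hf
    rw [h1]
    exact hli
  obtain ⟨c, c1, c2, c3⟩ := exists_dual_fam hR e' hli'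
  refine ⟨fun b => c b, fun b => (c b).2, c1, c2, fun W hW => ?_⟩
  exact c3 (W.subgroupOf R) (hW.2.preimage continuous_subtype_val)

end Pool.Agent.ORD
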