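import Pool.Agent.ORD.D2
import Pool.Agent.ORD.S3

/-!
# ORD [ORD-E5]: evaluation is injective
-/

set_option autoImplicit false

namespace Pool.Agent.ORD

open Pool.Agent.MP_6fb7ad_al

variable {p : ℕ} [Fact p.Prime] {F : Type} [Group F] [TopologicalSpace F] [IsTopologicalGroup F]

/-- Apply `nilp` to `α = cj p`, `𝔑 = Rs p V R ⊓ LinearMap.ker (evc p y E)` and `ν = 1`: if
`θ ∈ 𝔑` is fixed by `E` then `θ = ∑ c b • e b` (a finite sum) by `hspan`, and
`c b = θ (y b) = evc p y E θ b 1 = 0`, so `θ = 0`. Hence every `θ ∈ 𝔑` satisfies `1 ^ l θ = 0`. -/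
theorem evc_inj (hF : IsProP p F) {R V E : Subgroup F} (hR : R.Normal) (hV : V.Normal)
    (hRV : R ≤ V) (hE : IsProP p E) {B : Type} (y : B → F) (e : B → F → ZMod p) (hd1 : ∀ b, e b (y b) = 1)
    (hd0 : ∀ b b', b ≠ b' → e b' (y b) = 0)
    (hspan : ∀ θ ∈ Rs p V R, (∀ a ∈ E, cj p a θ = θ) →
      θ ∈ Submodule.span (ZMod p) (Set.range e)) :
    ∀ θ ∈ Rs p V R, evc p y E θ = 0 → θ = 0 := by
  intro θ hθ h0
  have key := nilp hF (cj p) hE (Rs p V R ⊓ LinearMap.ker (evc p y E)) ?_ ?_ 1 (fun m hm => hm)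
    (fun a _ m _ => rfl) ?_ θ ⟨hθ, h0⟩
  · obtain ⟨l, hl⟩ := key
    rwa [one_pow, Module.End.one_apply] at hl
  · rintro a ha m ⟨hm1, hm2⟩
    refine ⟨cj_mem_Rs hV hR hm1 a, ?_⟩
    rw [SetLike.mem_coe, LinearMap.mem_ker] at hm2 ⊢
    rw [evc_cj y ha, hm2, map_zero]
  · rintro m ⟨hm1, -⟩
    exact smooth_Hm hR (Rs_le_Hm hRV hm1)
  · rintro m ⟨hm1, hm2⟩ hfix
    rw [SetLike.mem_coe, LinearMap.mem_ker] at hm2
    obtain ⟨c, hc⟩ := (Finsupp.mem_span_range_iff_exists_finsupp).1 (hspan m hm1 hfix)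
    have hc0 : c = 0 := by
      ext b
      have h1 : m (y b) = 0 := by
        have h2 := congrFun (congrFun hm2 b) 1
        rw [evc_of_mem y E.one_mem, inv_one, one_mul, mul_one] at h2
        exact h2
      rw [← hc, Finsupp.sum, Finset.sum_apply] at h1
      rw [Finsupp.zero_apply, ← h1]
      symm
      rw [Finset.sum_eq_single b]
      · rw [Pi.smul_apply, hd1, smul_eq_mul, mul_one]
      · intro b' _ hb
        rw [Pi.smul_apply, hd0 b b' (Ne.symm hb), smul_zero]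
      · intro hb
        rw [Finsupp.notMem_support_iff.1 hb, zero_smul, Pi.zero_apply]
    rw [Module.End.one_apply, ← hc, hc0, Finsupp.sum_zero_index]

end Pool.Agent.ORD
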