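import Pool.Agent.ORD.Def

/-!
# ORD [ORD-A2a]: a wreath product
-/

set_option autoImplicit false

namespace Pool.Agent.ORD

open Pool.Agent.MP_6fb7ad_al

variable {p : ℕ} [Fact p.Prime] {Q : Type} [Group Q]

/-- The wreath product of `ZMod p` and `Q` (the product of a function and an element of `Q`). -/
structure Wr (p : ℕ) (Q : Type) where
  /-- the function -/
  a : Q → ZMod p
  /-- the element of `Q` -/
  x : Q

theorem A2a_mk {p : ℕ} {Q : Type} {f g : Q → ZMod p} {x y : Q} (h : f = g) (h' : x = y) :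
    (Wr.mk f x : Wr p Q) = Wr.mk g y := by rw [h, h']

/-- The product is `(a, x) (b, y) = (a + x · b, x * y)` with `(x · b) q = b (x⁻¹ * q)`. -/
instance (p : ℕ) (Q : Type) [Group Q] : Group (Wr p Q) where
  mul u v := ⟨fun q => u.a q + v.a (u.x⁻¹ * q), u.x * v.x⟩
  one := ⟨0, 1⟩
  inv u := ⟨fun q => - u.a (u.x * q), u.x⁻¹⟩
  mul_assoc u v w := by
    refine A2a_mk (funext fun q => ?_) (mul_assoc _ _ _)
    show (u.a q + v.a (u.x⁻¹ * q)) + w.a ((u.x * v.x)⁻¹ * q) =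
      u.a q + (v.a (u.x⁻¹ * q) + w.a (v.x⁻¹ * (u.x⁻¹ * q)))
    rw [mul_inv_rev, mul_assoc, add_assoc]
  one_mul u := by
    refine A2a_mk (funext fun q => ?_) (one_mul _)
    show (0 : ZMod p) + u.a ((1 : Q)⁻¹ * q) = u.a q
    rw [inv_one, one_mul, zero_add]
  mul_one u := by
    refine A2a_mk (funext fun q => ?_) (mul_one _)
    show u.a q + (0 : ZMod p) = u.a q
    rw [add_zero]
  inv_mul_cancel u := by
    refine A2a_mk (funext fun q => ?_) (inv_mul_cancel _)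
    show - u.a (u.x * q) + u.a ((u.x⁻¹)⁻¹ * q) = 0
    rw [inv_inv, neg_add_cancel]

theorem Wr.mul_a (u v : Wr p Q) (q : Q) : (u * v).a q = u.a q + v.a (u.x⁻¹ * q) := rfl

theorem Wr.mul_x (u v : Wr p Q) : (u * v).x = u.x * v.x := rfl

theorem Wr.one_a (q : Q) : (1 : Wr p Q).a q = 0 := rfl

theorem Wr.one_x : (1 : Wr p Q).x = 1 := rfl

/-- the underlying set is a product -/
def Wr.equiv (p : ℕ) (Q : Type) : Wr p Q ≃ (Q → ZMod p) × Q where
  toFun u := (u.a, u.x)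
  invFun v := ⟨v.1, v.2⟩
  left_inv _ := rfl
  right_inv _ := rfl

theorem Wr.finite [Finite Q] : Finite (Wr p Q) := by
  haveI : NeZero p := ⟨(Fact.out : p.Prime).ne_zero⟩
  exact Finite.of_equiv _ (Wr.equiv p Q).symm

/-- The order is `p ^ |Q| * |Q|` (`IsPGroup.of_card`, `Nat.card_fun` or `Nat.card_pi`). -/
theorem Wr.isPGroup [Finite Q] (hQ : IsPGroup p Q) : IsPGroup p (Wr p Q) := by
  haveI : NeZero p := ⟨(Fact.out : p.Prime).ne_zero⟩
  obtain ⟨n, hn⟩ := (IsPGroup.iff_card (p := p) (G := Q)).1 hQ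
  refine IsPGroup.of_card (n := Nat.card Q + n) ?_
  rw [Nat.card_congr (Wr.equiv p Q), Nat.card_prod, Nat.card_fun, Nat.card_zmod, pow_add, ← hn]

end Pool.Agent.ORD
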