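import Pool.Agent.ORD.A4
import Pool.Agent.ORD.N0

/-!
# ORD [ORD-A6]: nonzero equivariant maps of cocycles are onto
-/

set_option autoImplicit false

namespace Pool.Agent.ORD

open Pool.Agent.MP_6fb7ad_al

variable {p : ℕ} [Fact p.Prime] {F : Type} [Group F] [TopologicalSpace F] [IsTopologicalGroup F]

open Classical in
/-- the family concentrated at `x₀` and on the coset `χ = c` -/
private noncomputable def A6_fam {F : Type} [Group F] {X : Type} (χ : F → ZMod p) (t : F) (x₀ : X)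
    (c : ZMod p) : (F → ZMod p) →ₗ[ZMod p] (X → F → ZMod p) where
  toFun φ x y := if x = x₀ ∧ χ y = c then φ ((t ^ c.val)⁻¹ * y) else 0
  map_add' φ ψ := by
    ext x y
    simp only [Pi.add_apply]
    split_ifs <;> simp
  map_smul' a φ := by
    ext x y
    simp only [Pi.smul_apply, RingHom.id_apply]
    split_ifs <;> simp

open Classical in
private theorem A6_fam_apply {F : Type} [Group F] {X : Type} (χ : F → ZMod p) (t : F) (x₀ : X)
    (c : ZMod p) (φ : F → ZMod p) (x : X) (y : F) :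
    A6_fam χ t x₀ c φ x y = if x = x₀ ∧ χ y = c then φ ((t ^ c.val)⁻¹ * y) else 0 := rfl

/-- Take `g` from `exists_gb`. For `x₀ : X` and `c : ZMod p` consider the linear map
`ι φ = g (fun x y => if x = x₀ ∧ χ y = c then φ ((t ^ c.val)⁻¹ * y) else 0)`. For `φ ∈ C1 p E V`
the family is in `Cc p X ⊤ V`, and `ι (rr p a φ) = rh p F a (ι φ)` for `a ∈ E`. So
`ε = L ∘ ι` is an endomorphism as in the definition of `N1`. If `ε φ = 0` for all `x₀, c` and all
`φ ∈ C1 p E V`, then `L z = 0` for all `z ∈ Bc p V`: `z = g (fun x => z (i x))` and the family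
`fun x => z (i x)` is the finite sum over the `x₀` in its support and all `c` of the families of
the functions `φ y = if y ∈ E then z (i x₀) (t ^ c.val * y) else 0` (which is in `C1 p E V`). So
for some `x₀, c` the map `ε` is nonzero on `C1 p E V`, hence onto, and `L` is onto. -/
theorem onto_of_ne {X : Type} {i : X → F} (hF : IsFreeProP p i) {V E : Subgroup F}
    (hV : V.Normal) (hVE : V ≤ E) (hE : ON E) (χ : F → ZMod p) (hχ : IsChar p χ)
    (hEχ : ∀ x, x ∈ E ↔ χ x = 0) (t : F) (ht : χ t = 1) (hN : N1 p E V)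
    (L : (F → F → ZMod p) →ₗ[ZMod p] (F → ZMod p)) (hL : ∀ z ∈ Bc p V, L z ∈ C1 p E V)
    (hL' : ∀ a ∈ E, ∀ z ∈ Bc p V, L (rh p F a z) = rr p a (L z))
    (hne : ∃ z ∈ Bc p V, L z ≠ 0) :
    ∀ ψ ∈ C1 p E V, ∃ z ∈ Bc p V, L z = ψ := by
  classical
  have : NeZero p := ⟨(Fact.out : p.Prime).ne_zero⟩
  obtain ⟨g, hg1, hg2, hg3⟩ := exists_gb hF hV
  have hmulE : ∀ y, ∀ a ∈ E, χ (y * a) = χ y := by
    intro y a ha
    rw [hχ.mul, (hEχ a).1 ha, add_zero]
  have hχt : ∀ n : ℕ, χ (t ^ n) = n := by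
    intro n
    induction n with
    | zero =>
      have := hχ.mul 1 1
      rw [mul_one] at this
      rw [pow_zero, Nat.cast_zero]
      simpa using this
    | succ n ih => rw [pow_succ, hχ.mul, ih, ht, Nat.cast_succ]
  -- membership of the families
  have hfam : ∀ (x₀ : X) (c : ZMod p), ∀ φ ∈ C1 p E V, A6_fam χ t x₀ c φ ∈ Cc p X ⊤ V := by
    rintro x₀ c φ ⟨h1, h2, W, hW, h3⟩
    refine ⟨fun x => ⟨fun y hy => absurd (Subgroup.mem_top y) hy, fun y v hv => ?_, W ⊓ E,
      hW.inf hE, fun y w hw => ?_⟩, (Set.finite_singleton x₀).subset fun x hx => ?_⟩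
    · rw [A6_fam_apply, A6_fam_apply, hmulE y v (hVE hv), ← mul_assoc, h2 _ v hv]
    · rw [A6_fam_apply, A6_fam_apply, hmulE y w hw.2, ← mul_assoc, h3 _ w hw.1]
    · by_contra hc
      apply hx
      funext y
      rw [A6_fam_apply, if_neg (fun h => hc h.1)]
      rfl
  have hequi : ∀ (x₀ : X) (c : ZMod p), ∀ a ∈ E, ∀ φ : F → ZMod p,
      A6_fam χ t x₀ c (rr p a φ) = rh p X a (A6_fam χ t x₀ c φ) := by
    intro x₀ c a ha φ
    funext x y
    rw [rh_apply, A6_fam_apply, A6_fam_apply, hmulE y a ha, rr_apply, mul_assoc]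
  -- the endomorphisms
  by_cases hz : ∀ (x₀ : X) (c : ZMod p), ∀ φ ∈ C1 p E V, L (g (A6_fam χ t x₀ c φ)) = 0
  · exfalso
    obtain ⟨z, hz1, hz2⟩ := hne
    apply hz2
    have hΦ := Bc_restr hF hz1
    obtain ⟨k1, k2, W, hW, k3, k4⟩ := mem_Bc.1 hz1
    let ph : X → ZMod p → F → ZMod p := fun x₀ c y =>
      if y ∈ E then z (i x₀) (t ^ c.val * y) else 0
    have hph : ∀ x₀ c, ph x₀ c ∈ C1 p E V := by
      intro x₀ c
      refine ⟨fun y hy => if_neg hy, fun y v hv => ?_, W ⊓ E, hW.inf hE, fun y w hw => ?_⟩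
      · have e1 : y * v ∈ E ↔ y ∈ E := by
          rw [hEχ, hEχ, hmulE y v (hVE hv)]
        show (if y * v ∈ E then z (i x₀) (t ^ c.val * (y * v)) else 0) =
          if y ∈ E then z (i x₀) (t ^ c.val * y) else 0
        simp only [e1]
        rw [← mul_assoc, k2 _ _ v hv]
      · have e1 : y * w ∈ E ↔ y ∈ E := by
          rw [hEχ, hEχ, hmulE y w hw.2]
        show (if y * w ∈ E then z (i x₀) (t ^ c.val * (y * w)) else 0) =
          if y ∈ E then z (i x₀) (t ^ c.val * y) else 0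
        simp only [e1]
        rw [← mul_assoc, k4 w hw.1]
    have hsum : (fun x => z (i x)) =
        ∑ x₀ ∈ hΦ.2.toFinset, ∑ c : ZMod p, A6_fam χ t x₀ c (ph x₀ c) := by
      funext x y
      simp only [Finset.sum_apply, A6_fam_apply]
      have hmem : (t ^ (χ y).val)⁻¹ * y ∈ E := by
        rw [hEχ]
        have e1 := hχ.mul (t ^ (χ y).val) ((t ^ (χ y).val)⁻¹ * y)
        rw [mul_inv_cancel_left, hχt, ZMod.natCast_zmod_val] at e1
        simpa using e1
      have hinner : ∀ x₀ : X, (∑ c : ZMod p, if x = x₀ ∧ χ y = c then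
          ph x₀ c ((t ^ c.val)⁻¹ * y) else 0) = if x = x₀ then z (i x₀) y else 0 := by
        intro x₀
        by_cases hx : x = x₀
        · simp only [hx, true_and, if_true]
          rw [Finset.sum_ite_eq Finset.univ (χ y) (fun c => ph x₀ c ((t ^ c.val)⁻¹ * y)),
            if_pos (Finset.mem_univ _)]
          show (if (t ^ (χ y).val)⁻¹ * y ∈ E then
            z (i x₀) (t ^ (χ y).val * ((t ^ (χ y).val)⁻¹ * y)) else 0) = z (i x₀) y
          rw [if_pos hmem, mul_inv_cancel_left]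
        · simp only [hx, false_and, if_false, Finset.sum_const_zero]
      rw [Finset.sum_congr rfl fun x₀ _ => hinner x₀,
        Finset.sum_ite_eq hΦ.2.toFinset x (fun x₀ => z (i x₀) y)]
      by_cases hx : z (i x) = 0
      · rw [if_neg (by simp [hx]), hx]
        rfl
      · rw [if_pos (by simpa using hx)]
    rw [← hg2 z hz1, hsum, map_sum, map_sum]
    refine Finset.sum_eq_zero fun x₀ _ => ?_
    rw [map_sum, map_sum]
    exact Finset.sum_eq_zero fun c _ => hz x₀ c _ (hph x₀ c)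
  · push Not at hz
    obtain ⟨x₀, c, φ₀, hφ₀, hne₀⟩ := hz
    intro ψ hψ
    obtain ⟨φ, hφ, hφ'⟩ := hN (L ∘ₗ g ∘ₗ A6_fam χ t x₀ c)
      (fun φ hφ => hL _ (hg1 _ (hfam x₀ c φ hφ)).1)
      (fun a ha φ hφ => by
        show L (g (A6_fam χ t x₀ c (rr p a φ))) = rr p a (L (g (A6_fam χ t x₀ c φ)))
        rw [hequi x₀ c a ha φ, hg3 a _ (hfam x₀ c φ hφ), hL' a ha _ (hg1 _ (hfam x₀ c φ hφ)).1])
      ⟨φ₀, hφ₀, hne₀⟩ ψ hψ
    exact ⟨g (A6_fam χ t x₀ c φ), (hg1 _ (hfam x₀ c φ hφ)).1, hφ'⟩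

end Pool.Agent.ORD
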