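import Pool.Agent.ORD.Def

/-!
# ORD [ORD-B1]: extending homomorphisms to open subgroups
-/

set_option autoImplicit false

namespace Pool.Agent.ORD

open Pool.Agent.MP_6fb7ad_al

variable {p : ℕ} [Fact p.Prime] {F : Type} [Group F] [TopologicalSpace F] [IsTopologicalGroup F]

/-- Let `h` vanish on the open normal subgroup `W`. Put `h' x = h v` if `x = v * w` with `v ∈ V`,
`w ∈ W`, and `h' x = 0` if there is no such decomposition. Well defined: if `v * w = v' * w'` then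
`v'⁻¹ * v ∈ V ∩ W`. Additive on `V ⊔ W`: `(v * w) * (v' * w') = (v * v') * (v'⁻¹ * w * v' * w')`. -/
theorem exists_Hm_ext {V : Subgroup F} (hV : V.Normal) {h : F → ZMod p} (hh : h ∈ Hm p V) :
    ∃ (P : Subgroup F) (h' : F → ZMod p), ON P ∧ V ≤ P ∧ h' ∈ Hm p P ∧ ∀ v ∈ V, h' v = h v := by
  classical
  obtain ⟨hh1, hh2, W, hW, hh3⟩ := hh
  have hWn : W.Normal := hW.1
  have hWo := hW.2
  let h' : F → ZMod p := fun x => if hx : ∃ v ∈ V, v⁻¹ * x ∈ W then h hx.choose else 0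
  have key : ∀ x, ∀ v ∈ V, v⁻¹ * x ∈ W → h' x = h v := by
    intro x v hv hvx
    have hx : ∃ v ∈ V, v⁻¹ * x ∈ W := ⟨v, hv, hvx⟩
    have e1 : h' x = h hx.choose := dif_pos hx
    obtain ⟨hu, hux⟩ := hx.choose_spec
    have e2 : v⁻¹ * hx.choose ∈ W := by
      have e3 : v⁻¹ * hx.choose = v⁻¹ * x * (hx.choose⁻¹ * x)⁻¹ := by group
      rw [e3]
      exact W.mul_mem hvx (W.inv_mem hux)
    have e4 := hh2 v hv (v⁻¹ * hx.choose) (V.mul_mem (V.inv_mem hv) hu)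
    rw [mul_inv_cancel_left, hh3 _ e2, add_zero] at e4
    rw [e1, e4]
  have hP : ON (V ⊔ W) := by
    refine ⟨inferInstance, ?_⟩
    exact Subgroup.isOpen_mono le_sup_right hWo
  have hmem : ∀ x ∈ V ⊔ W, ∃ v ∈ V, v⁻¹ * x ∈ W := by
    intro x hx
    obtain ⟨v, hv, w, hw, e⟩ := Subgroup.mem_sup_of_normal_right.1 hx
    exact ⟨v, hv, by rw [← e, inv_mul_cancel_left]; exact hw⟩
  have h1 : h 1 = 0 := hh3 1 W.one_mem
  refine ⟨V ⊔ W, h', hP, le_sup_left, ⟨fun x hx => ?_, fun x hx y hy => ?_, W, hW, fun w hw => ?_⟩,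
    fun v hv => ?_⟩
  · refine dif_neg ?_
    rintro ⟨v, hv, hvx⟩
    apply hx
    have e1 : x = v * (v⁻¹ * x) := by group
    rw [e1]
    exact (V ⊔ W).mul_mem (Subgroup.mem_sup_left hv) (Subgroup.mem_sup_right hvx)
  · obtain ⟨v, hv, hvx⟩ := hmem x hx
    obtain ⟨u, hu, huy⟩ := hmem y hy
    rw [key x v hv hvx, key y u hu huy, ← hh2 v hv u hu]
    apply key _ _ (V.mul_mem hv hu)
    have e1 : (v * u)⁻¹ * (x * y) = (u⁻¹ * (v⁻¹ * x) * u) * (u⁻¹ * y) := by group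
    rw [e1]
    exact W.mul_mem (hW.conj hvx u) huy
  · rw [key w 1 V.one_mem (by rw [inv_one, one_mul]; exact hw), h1]
  · exact key v v hv (by rw [inv_mul_cancel]; exact W.one_mem)

end Pool.Agent.ORD
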