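import Pool.Agent.ORD.Def

/-!
# ORD: definitions, part 2
-/

set_option autoImplicit false

namespace Pool.Agent.ORD

open Pool.Agent.MP_6fb7ad_al

/-- `L` is topologically generated by `K` and the element `b` of `L`, and no power `b ^ m` with
`m > 0` lies in `K`. -/
def Zst {Q : Type} [Group Q] [TopologicalSpace Q] (K L : Subgroup Q) (b : Q) : Prop :=
  b ∈ L ∧ (∀ m : ℕ, 0 < m → b ^ m ∉ K) ∧
    ∀ H : Subgroup Q, IsClosed (H : Set Q) → K ≤ H → b ∈ H → L ≤ H

/-- `Q / N` has a finite series of closed normal subgroups with infinite procyclic factors. -/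
def PolyZ (Q : Type) [Group Q] [TopologicalSpace Q] (N : Subgroup Q) : Prop :=
  ∃ (n : ℕ) (S : ℕ → Subgroup Q), S 0 = N ∧ S n = ⊤ ∧
    (∀ i, (S i).Normal ∧ IsClosed (S i : Set Q)) ∧
    ∀ i < n, S i ≤ S (i + 1) ∧ ∃ b, Zst (S i) (S (i + 1)) b

section

variable {p : ℕ} {Q : Type} [Group Q] [TopologicalSpace Q] {N : Subgroup Q}

/-- The functions `Q → A` that are right invariant under `N` and under an open normal
subgroup. -/
def CCs (A : SmRep p Q N) : Submodule (ZMod p) (Q → A.M) where
  carrier := {φ | (∀ x, ∀ n ∈ N, φ (x * n) = φ x) ∧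
    ∃ W : Subgroup Q, ON W ∧ ∀ x, ∀ w ∈ W, φ (x * w) = φ x}
  add_mem' := by
    rintro φ ψ ⟨h1, W, hW, h2⟩ ⟨h3, W', hW', h4⟩
    refine ⟨fun x n hn => ?_, W ⊓ W', hW.inf hW', fun x w hw => ?_⟩
    · simp only [Pi.add_apply, h1 x n hn, h3 x n hn]
    · simp only [Pi.add_apply, h2 x w hw.1, h4 x w hw.2]
  zero_mem' := ⟨fun _ _ _ => rfl, ⊤, ON.top, fun _ _ _ => rfl⟩
  smul_mem' := by
    rintro c φ ⟨h1, W, hW, h2⟩
    refine ⟨fun x n hn => ?_, W, hW, fun x w hw => ?_⟩
    · simp only [Pi.smul_apply, h1 x n hn]
    · simp only [Pi.smul_apply, h2 x w hw]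

/-- The module of the functions `Q → A` that are right invariant under `N` and under an open
normal subgroup, with the action by right translations. -/
def CC (A : SmRep p Q N) (hN : N.Normal) : SmRep p Q N where
  M := CCs A
  ρ :=
    { toFun := fun f =>
        { toFun := fun φ => ⟨fun x => φ.1 (x * f), by
            obtain ⟨φ, h1, W, hW, h2⟩ := φ
            refine ⟨fun x n hn => ?_, W, hW, fun x w hw => ?_⟩
            · show φ (x * n * f) = φ (x * f)
              have h3 := hN.conj_mem n hn f⁻¹
              rw [inv_inv] at h3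
              rw [← h1 (x * f) _ h3]
              congr 1
              group
            · show φ (x * w * f) = φ (x * f)
              rw [← h2 (x * f) _ (hW.conj hw f)]
              congr 1
              group⟩
          map_add' := fun _ _ => rfl
          map_smul' := fun _ _ => rfl }
      map_one' := by
        refine LinearMap.ext fun φ => Subtype.ext (funext fun x => ?_)
        show φ.1 (x * 1) = φ.1 x
        rw [mul_one]
      map_mul' := by
        intro f g
        refine LinearMap.ext fun φ => Subtype.ext (funext fun x => ?_)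
        show φ.1 (x * (f * g)) = φ.1 (x * f * g)
        rw [mul_assoc] }
  smooth := by
    rintro ⟨φ, h1, W, hW, h2⟩
    exact ⟨W, hW.2, fun w hw => Subtype.ext (funext fun x => h2 x w hw)⟩
  triv := by
    intro n hn
    refine LinearMap.ext fun φ => Subtype.ext (funext fun x => ?_)
    exact φ.2.1 x n hn

theorem CC_ρ (A : SmRep p Q N) (hN : N.Normal) (f : Q) (φ : CCs A) (x : Q) :
    ((CC A hN).ρ f φ : CCs A).1 x = φ.1 (x * f) := rfl

/-- The submodule of the elements fixed by `N₁`. -/
def fixM (A : SmRep p Q N) (N₁ : Subgroup Q) : Submodule (ZMod p) A.M where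
  carrier := {m | ∀ n ∈ N₁, A.ρ n m = m}
  add_mem' := by
    intro a b ha hb n hn
    rw [map_add, ha n hn, hb n hn]
  zero_mem' := fun _ _ => map_zero _
  smul_mem' := by
    intro c a ha n hn
    rw [map_smul, ha n hn]

/-- The module of the elements fixed by the normal subgroup `N₁`. -/
def invN (A : SmRep p Q N) (N₁ : Subgroup Q) (hN : N₁.Normal) : SmRep p Q N₁ where
  M := fixM A N₁
  ρ :=
    { toFun := fun f => (A.ρ f).restrict (p := fixM A N₁) (q := fixM A N₁) (by
        intro m hm n hn
        have h1 := hN.conj_mem n hn f⁻¹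
        rw [inv_inv] at h1
        have h2 : A.ρ n (A.ρ f m) = A.ρ f (A.ρ (f⁻¹ * n * f) m) := by
          rw [← Module.End.mul_apply, ← Module.End.mul_apply, ← map_mul, ← map_mul]
          congr 2
          group
        rw [h2, hm _ h1])
      map_one' := by
        refine LinearMap.ext fun m => Subtype.ext ?_
        show A.ρ 1 m.1 = m.1
        rw [map_one]
        rfl
      map_mul' := by
        intro f g
        refine LinearMap.ext fun m => Subtype.ext ?_
        show A.ρ (f * g) m.1 = A.ρ f (A.ρ g m.1)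
        rw [map_mul]
        rfl }
  smooth := by
    intro m
    obtain ⟨W, h1, h2⟩ := A.smooth m.1
    exact ⟨W, h1, fun w hw => Subtype.ext (h2 w hw)⟩
  triv := by
    intro n hn
    refine LinearMap.ext fun m => Subtype.ext ?_
    exact m.2 n hn

theorem invN_ρ (A : SmRep p Q N) (N₁ : Subgroup Q) (hN : N₁.Normal) (f : Q) (m : fixM A N₁) :
    ((invN A N₁ hN).ρ f m : fixM A N₁).1 = A.ρ f m.1 := rfl

end

section

variable {p : ℕ} {P Q : Type} [Group P] [TopologicalSpace P] [Group Q] [TopologicalSpace Q]
  {N : Subgroup Q}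

/-- The coinduced functions along a homomorphism `j : P → Q`: all `φ : Q → A` with
`φ (j h * q) = h (φ q)` that are right invariant under an open normal subgroup and under `N`. -/
def COs (j : P →* Q) (A : SmRep p P (N.comap j)) : Submodule (ZMod p) (Q → A.M) where
  carrier := {φ | (∀ h q, φ (j h * q) = A.ρ h (φ q)) ∧ (∀ x, ∀ n ∈ N, φ (x * n) = φ x) ∧
    ∃ W : Subgroup Q, ON W ∧ ∀ x, ∀ w ∈ W, φ (x * w) = φ x}
  add_mem' := by
    rintro φ ψ ⟨h0, h1, W, hW, h2⟩ ⟨h0', h3, W', hW', h4⟩
    refine ⟨fun h q => ?_, fun x n hn => ?_, W ⊓ W', hW.inf hW', fun x w hw => ?_⟩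
    · simp only [Pi.add_apply, h0 h q, h0' h q, map_add]
    · simp only [Pi.add_apply, h1 x n hn, h3 x n hn]
    · simp only [Pi.add_apply, h2 x w hw.1, h4 x w hw.2]
  zero_mem' := ⟨fun _ _ => (map_zero _).symm, fun _ _ _ => rfl, ⊤, ON.top, fun _ _ _ => rfl⟩
  smul_mem' := by
    rintro c φ ⟨h0, h1, W, hW, h2⟩
    refine ⟨fun h q => ?_, fun x n hn => ?_, W, hW, fun x w hw => ?_⟩
    · simp only [Pi.smul_apply, h0 h q, map_smul]
    · simp only [Pi.smul_apply, h1 x n hn]
    · simp only [Pi.smul_apply, h2 x w hw]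

/-- The coinduced module. -/
def CO (j : P →* Q) (hN : N.Normal) (A : SmRep p P (N.comap j)) : SmRep p Q N where
  M := COs j A
  ρ :=
    { toFun := fun f =>
        { toFun := fun φ => ⟨fun x => φ.1 (x * f), by
            obtain ⟨φ, h0, h1, W, hW, h2⟩ := φ
            refine ⟨fun h q => ?_, fun x n hn => ?_, W, hW, fun x w hw => ?_⟩
            · show φ (j h * q * f) = A.ρ h (φ (q * f))
              rw [mul_assoc, h0]
            · show φ (x * n * f) = φ (x * f)
              have h3 := hN.conj_mem n hn f⁻¹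
              rw [inv_inv] at h3
              rw [← h1 (x * f) _ h3]
              congr 1
              group
            · show φ (x * w * f) = φ (x * f)
              rw [← h2 (x * f) _ (hW.conj hw f)]
              congr 1
              group⟩
          map_add' := fun _ _ => rfl
          map_smul' := fun _ _ => rfl }
      map_one' := by
        refine LinearMap.ext fun φ => Subtype.ext (funext fun x => ?_)
        show φ.1 (x * 1) = φ.1 x
        rw [mul_one]
      map_mul' := by
        intro f g
        refine LinearMap.ext fun φ => Subtype.ext (funext fun x => ?_)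
        show φ.1 (x * (f * g)) = φ.1 (x * f * g)
        rw [mul_assoc] }
  smooth := by
    rintro ⟨φ, h0, h1, W, hW, h2⟩
    exact ⟨W, hW.2, fun w hw => Subtype.ext (funext fun x => h2 x w hw)⟩
  triv := by
    intro n hn
    refine LinearMap.ext fun φ => Subtype.ext (funext fun x => ?_)
    exact φ.2.2.1 x n hn

theorem CO_ρ (j : P →* Q) (hN : N.Normal) (A : SmRep p P (N.comap j)) (f : Q) (φ : COs j A)
    (x : Q) : ((CO j hN A).ρ f φ : COs j A).1 x = φ.1 (x * f) := rfl

end

end Pool.Agent.ORD
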