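import Pool.Agent.ORD.A5

/-!
# ORD [ORD-E1]: spreading a family of cocycles
-/

set_option autoImplicit false

namespace Pool.Agent.ORD

open Pool.Agent.MP_6fb7ad_al

variable {p : ℕ} [Fact p.Prime] {F : Type} [Group F] [TopologicalSpace F] [IsTopologicalGroup F]

/-- Take `σ j` from `exists_sig` for `zf j`, and let `sg φ` be the (finite) sum of the
`σ j (φ j)`: define it on `Cc p I E V` (for example with `finsum`, or as the sum over the support)
and extend it (`LinearMap.exists_extend`). If `φ` is fixed by all `a ∈ E`, then `φ j` is constant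
on `E`, that is `φ j = c j • one1 p E` with `c j = φ j 1`; so `sg φ` is the sum of the
`c j • zf j`, and `ev p y E (sg φ) j' x = c j' = φ j' x` for `x ∈ E` by `hd1`, `hd0`. -/
theorem exists_sg {X : Type} {i : X → F} (hF : IsFreeProP p i) {V E : Subgroup F}
    (hV : V.Normal) (hVE : V ≤ E) (hE : ON E) (χ : F → ZMod p) (hχ : IsChar p χ)
    (hEχ : ∀ x, x ∈ E ↔ χ x = 0) (t : F) (ht : χ t = 1) {I : Type} (y : I → F)
    (zf : I → F → F → ZMod p) (hz : ∀ j, zf j ∈ Bc p E)
    (hd1 : ∀ j, ∀ x ∈ E, zf j (y j) x = 1)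
    (hd0 : ∀ j j', j ≠ j' → ∀ x ∈ E, zf j (y j') x = 0) :
    ∃ sg : (I → F → ZMod p) →ₗ[ZMod p] (F → F → ZMod p),
      (∀ φ ∈ Cc p I E V, sg φ ∈ Bc p V) ∧
      (∀ a ∈ E, ∀ φ ∈ Cc p I E V, sg (rh p I a φ) = rh p F a (sg φ)) ∧
      ∀ φ ∈ Cc p I E V, (∀ a ∈ E, rh p I a φ = φ) → ev p y E (sg φ) = φ := by
  classical
  have hσ := fun j => exists_sig hF hV hVE hE χ hχ hEχ t ht (hz j)
  choose σ hσ1 hσ2 hσ3 using hσ
  -- the support of the family
  have hsupp : ∀ φ : I → F → ZMod p,
      Function.support (fun j => σ j (φ j)) ⊆ {j | φ j ≠ 0} := by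
    intro φ j hj h0
    apply hj
    show σ j (φ j) = 0
    rw [h0, map_zero]
  let sg0 : ↥(Cc p I E V) →ₗ[ZMod p] (F → F → ZMod p) :=
    { toFun := fun φ => ∑ᶠ j, σ j (φ.1 j)
      map_add' := by
        intro φ ψ
        rw [← finsum_add_distrib (φ.2.2.subset (hsupp φ.1)) (ψ.2.2.subset (hsupp ψ.1))]
        refine finsum_congr fun j => ?_
        exact map_add (σ j) (φ.1 j) (ψ.1 j)
      map_smul' := by
        intro c φ
        rw [RingHom.id_apply, smul_finsum' c (φ.2.2.subset (hsupp φ.1))]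
        refine finsum_congr fun j => ?_
        exact map_smul (σ j) c (φ.1 j) }
  obtain ⟨sg, hsg⟩ := sg0.exists_extend
  have hsg' : ∀ φ (hφ : φ ∈ Cc p I E V), sg φ = ∑ j ∈ hφ.2.toFinset, σ j (φ j) := by
    intro φ hφ
    have h1 : sg φ = ∑ᶠ j, σ j (φ j) := LinearMap.congr_fun hsg ⟨φ, hφ⟩
    rw [h1]
    refine finsum_eq_sum_of_support_subset _ ?_
    rw [Set.Finite.coe_toFinset]
    exact hsupp φ
  refine ⟨sg, fun φ hφ => ?_, fun a ha φ hφ => ?_, fun φ hφ hfix => ?_⟩
  · rw [hsg' φ hφ]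
    exact Submodule.sum_mem _ fun j _ => hσ1 j _ (hφ.1 j)
  · have hφ2 := rh_mem_Cc hV ha hφ
    have h1 : sg (rh p I a φ) = ∑ᶠ j, σ j (rh p I a φ j) := LinearMap.congr_fun hsg ⟨_, hφ2⟩
    have h2 : Function.support (fun j => σ j (rh p I a φ j)) ⊆ (hφ.2.toFinset : Set I) := by
      rw [Set.Finite.coe_toFinset]
      intro j hj h0
      apply hj
      show σ j (rr p a (φ j)) = 0
      rw [h0, map_zero, map_zero]
    rw [h1, finsum_eq_sum_of_support_subset _ h2, hsg' φ hφ, map_sum]
    exact Finset.sum_congr rfl fun j _ => hσ2 j a ha _ (hφ.1 j)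
  · have hc : ∀ j, φ j = φ j 1 • one1 p E := by
      intro j
      funext x
      rw [Pi.smul_apply]
      by_cases hx : x ∈ E
      · rw [one1_of_mem hx, smul_eq_mul, mul_one]
        have := congrFun (congrFun (hfix x hx) j) 1
        rw [rh_apply, one_mul] at this
        exact this
      · rw [one1_of_notMem hx, smul_zero]
        exact (hφ.1 j).1 x hx
    have h1 : sg φ = ∑ j ∈ hφ.2.toFinset, φ j 1 • zf j := by
      rw [hsg' φ hφ]
      refine Finset.sum_congr rfl fun j _ => ?_
      conv_lhs => rw [hc j, map_smul, hσ3 j]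
    funext j' x
    by_cases hx : x ∈ E
    · rw [ev_of_mem y hx, h1]
      simp only [Finset.sum_apply, Pi.smul_apply, smul_eq_mul]
      have h2 : φ j' x = φ j' 1 := by
        conv_lhs => rw [hc j', Pi.smul_apply, one1_of_mem hx, smul_eq_mul, mul_one]
      rw [h2]
      by_cases hj : j' ∈ hφ.2.toFinset
      · rw [Finset.sum_eq_single j', hd1 j' x hx, mul_one]
        · intro j _ hne
          rw [hd0 j j' hne x hx, mul_zero]
        · intro hn
          exact absurd hj hn
      · have h3 : φ j' = 0 := by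
          by_contra h4
          exact hj (hφ.2.mem_toFinset.2 h4)
        rw [h3, Pi.zero_apply]
        refine Finset.sum_eq_zero fun j hj1 => ?_
        have hne : j ≠ j' := by
          rintro rfl
          exact hj hj1
        rw [hd0 j j' hne x hx, mul_zero]
    · rw [ev]
      show (if x ∈ E then _ else (0 : ZMod p)) = _
      rw [if_neg hx]
      exact ((hφ.1 j').1 x hx).symm

end Pool.Agent.ORD
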