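import Pool.Agent.ORD.E2
import Pool.Agent.ORD.A6

/-!
# ORD [ORD-E4]: the last coordinate
-/

set_option autoImplicit false

namespace Pool.Agent.ORD

open Pool.Agent.MP_6fb7ad_al

variable {p : ℕ} [Fact p.Prime] {F : Type} [Group F] [TopologicalSpace F] [IsTopologicalGroup F]

theorem st2 {X : Type} {i : X → F} (hF : IsFreeProP p i) {V E : Subgroup F}
    (hV : V.Normal) (hVE : V ≤ E) (hE : ON E) (χ : F → ZMod p) (hχ : IsChar p χ)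
    (hEχ : ∀ x, x ∈ E ↔ χ x = 0) (t : F) (ht : χ t = 1) {I : Type} (y : I → F)
    (hy : ∀ W : Subgroup F, ON W → {b | y b ∉ W}.Finite)
    (τ : (I → F → ZMod p) →ₗ[ZMod p] (F → F → ZMod p))
    (h1 : ∀ φ ∈ Cc p I E V, τ φ ∈ Bc p V ∧ ev p y E (τ φ) = φ)
    (h2 : ∀ a ∈ E, ∀ φ ∈ Cc p I E V, τ (rh p I a φ) = rh p F a (τ φ)) (hN : N1 p E V) (s : F)
    (z₀ : F → F → ZMod p) (hz₀ : z₀ ∈ Bc p V) (h0 : ev p y E z₀ = 0) (hs : z₀ s 1 ≠ 0) :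
    ∀ ψ ∈ C1 p E V, ∃ z ∈ Bc p V, ev p y E z = 0 ∧ ∀ x ∈ E, z s x = ψ x := by
  have hu : ∀ W : Subgroup F, ON W → {b : Unit | (fun _ : Unit => s) b ∉ W}.Finite :=
    fun W _ => Set.toFinite _
  let L₀ : (F → F → ZMod p) →ₗ[ZMod p] (F → F → ZMod p) := LinearMap.id - τ ∘ₗ ev p y E
  have hL₀ : ∀ z, L₀ z = z - τ (ev p y E z) := fun _ => rfl
  have hmem : ∀ z ∈ Bc p V, L₀ z ∈ Bc p V := fun z hz =>
    (Bc p V).sub_mem hz (h1 _ (ev_mem_Cc hE hVE hy hz)).1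
  have hev : ∀ z ∈ Bc p V, ev p y E (L₀ z) = 0 := by
    intro z hz
    rw [hL₀, map_sub, (h1 _ (ev_mem_Cc hE hVE hy hz)).2, sub_self]
  let L : (F → F → ZMod p) →ₗ[ZMod p] (F → ZMod p) :=
    (LinearMap.proj (R := ZMod p) (φ := fun _ : Unit => F → ZMod p) ()) ∘ₗ
      ev p (fun _ : Unit => s) E ∘ₗ L₀
  have hLd : ∀ z, L z = ev p (fun _ : Unit => s) E (L₀ z) () := fun _ => rfl
  have key := onto_of_ne hF hV hVE hE χ hχ hEχ t ht hN L ?_ ?_ ?_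
  · intro ψ hψ
    obtain ⟨z, hz, hz'⟩ := key ψ hψ
    refine ⟨L₀ z, hmem z hz, hev z hz, fun x hx => ?_⟩
    rw [← hz', hLd, ev_of_mem _ hx]
  · intro z hz
    exact (ev_mem_Cc hE hVE hu (hmem z hz)).1 ()
  · intro a ha z hz
    have e1 : L₀ (rh p F a z) = rh p F a (L₀ z) := by
      rw [hL₀, hL₀, ev_rh y ha, h2 a ha _ (ev_mem_Cc hE hVE hy hz), map_sub]
    rw [hLd, hLd, e1, ev_rh _ ha]
    rfl
  · refine ⟨z₀, hz₀, fun hc => hs ?_⟩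
    have e1 : L₀ z₀ = z₀ := by
      rw [hL₀, h0, map_zero, sub_zero]
    rw [hLd, e1] at hc
    have e2 := congrFun hc 1
    rw [ev_of_mem _ E.one_mem] at e2
    exact e2

end Pool.Agent.ORD
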