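import Pool.Agent.ORD.Def

/-!
# ORD [ORD-G0]: the coinduced module and the kernel of the sum
-/

set_option autoImplicit false

namespace Pool.Agent.ORD

open Pool.Agent.MP_6fb7ad_al

variable {p : ℕ} [Fact p.Prime] {Q : Type} [Group Q] [TopologicalSpace Q] [IsTopologicalGroup Q]
  {N : Subgroup Q}

theorem char_one {χ : Q → ZMod p} (hχ : IsChar p χ) : χ 1 = 0 := by
  have := hχ.mul 1 1
  rw [mul_one] at this
  exact left_eq_add.mp this

/-- The module of all functions `ZMod p → A`, with the action
`(f φ) c = f (φ (c - χ f))`. -/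
def ind0 (A : SmRep p Q N) (χ : Q → ZMod p) (hχ : IsChar p χ) (hN : ∀ n ∈ N, χ n = 0) :
    SmRep p Q N where
  M := ZMod p → A.M
  ρ :=
    { toFun := fun f =>
        { toFun := fun φ c => A.ρ f (φ (c - χ f))
          map_add' := by
            intro φ ψ
            funext c
            exact map_add _ _ _
          map_smul' := by
            intro r φ
            funext c
            exact map_smul _ _ _ }
      map_one' := by
        refine LinearMap.ext fun φ => funext fun c => ?_
        show A.ρ 1 (φ (c - χ 1)) = φ c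
        rw [map_one, char_one hχ, sub_zero]
        rfl
      map_mul' := by
        intro f g
        refine LinearMap.ext fun φ => funext fun c => ?_
        show A.ρ (f * g) (φ (c - χ (f * g))) = A.ρ f (A.ρ g (φ (c - χ f - χ g)))
        rw [map_mul, hχ.mul, sub_add_eq_sub_sub]
        rfl }
  smooth := by
    intro φ
    have h1 := fun c => A.smooth (φ c)
    choose W hW hW' using h1
    refine ⟨(⨅ c : ZMod p, W c) ⊓
      { carrier := {x | χ x = 0}
        mul_mem' := by
          intro a b ha hb
          show χ (a * b) = 0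
          rw [hχ.mul, show χ a = 0 from ha, show χ b = 0 from hb, add_zero]
        one_mem' := char_one hχ
        inv_mem' := by
          intro a ha
          have h2 := hχ.mul a a⁻¹
          rw [mul_inv_cancel, char_one hχ, show χ a = 0 from ha, zero_add] at h2
          exact h2.symm }, ?_, ?_⟩
    · have h2 : IsOpen (((⨅ c : ZMod p, W c : Subgroup Q)) : Set Q) := by
        rw [Subgroup.coe_iInf]
        exact isOpen_iInter_of_finite hW
      exact IsOpen.inter h2 (hχ.lc {0})
    · rintro w ⟨h2, h3⟩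
      funext c
      show A.ρ w (φ (c - χ w)) = φ c
      have h4 : χ w = 0 := h3
      rw [h4, sub_zero]
      exact hW' c w ((Subgroup.mem_iInf.1 h2) c)
  triv := by
    intro n hn
    refine LinearMap.ext fun φ => funext fun c => ?_
    show A.ρ n (φ (c - χ n)) = φ c
    rw [hN n hn, sub_zero, A.triv n hn]
    rfl

theorem ind0_ρ (A : SmRep p Q N) (χ : Q → ZMod p) (hχ : IsChar p χ) (hN : ∀ n ∈ N, χ n = 0)
    (f : Q) (φ : ZMod p → A.M) (c : ZMod p) :
    (ind0 A χ hχ hN).ρ f φ c = A.ρ f (φ (c - χ f)) := rfl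

/-- The sum of all values. -/
def sumM (A : SmRep p Q N) : (ZMod p → A.M) →ₗ[ZMod p] A.M where
  toFun φ := ∑ c, φ c
  map_add' φ ψ := by
    simp only [Pi.add_apply, Finset.sum_add_distrib]
  map_smul' r φ := by
    simp only [Pi.smul_apply, Finset.smul_sum, RingHom.id_apply]

theorem sumM_ρ (A : SmRep p Q N) (χ : Q → ZMod p) (hχ : IsChar p χ) (hN : ∀ n ∈ N, χ n = 0)
    (f : Q) (φ : ZMod p → A.M) : sumM A ((ind0 A χ hχ hN).ρ f φ) = A.ρ f (sumM A φ) := by
  show ∑ c, A.ρ f (φ (c - χ f)) = A.ρ f (∑ c, φ c)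
  rw [map_sum]
  exact Equiv.sum_comp (Equiv.subRight (χ f)) (fun c => A.ρ f (φ c))

/-- The submodule of the functions with sum zero. -/
def ker0 (A : SmRep p Q N) (χ : Q → ZMod p) (hχ : IsChar p χ) (hN : ∀ n ∈ N, χ n = 0) :
    SmRep p Q N where
  M := LinearMap.ker (sumM A)
  ρ :=
    { toFun := fun f => ((ind0 A χ hχ hN).ρ f).restrict (p := LinearMap.ker (sumM A))
        (q := LinearMap.ker (sumM A)) (fun φ hφ => by
          have h1 : sumM A φ = 0 := hφ
          exact (sumM_ρ A χ hχ hN f φ).trans ((congrArg (A.ρ f) h1).trans (map_zero _)))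
      map_one' := by
        refine LinearMap.ext fun φ => Subtype.ext ?_
        show (ind0 A χ hχ hN).ρ 1 φ.1 = φ.1
        rw [map_one]
        rfl
      map_mul' := by
        intro f g
        refine LinearMap.ext fun φ => Subtype.ext ?_
        show (ind0 A χ hχ hN).ρ (f * g) φ.1 = (ind0 A χ hχ hN).ρ f ((ind0 A χ hχ hN).ρ g φ.1)
        rw [map_mul]
        rfl }
  smooth := by
    intro φ
    obtain ⟨W, h1, h2⟩ := (ind0 A χ hχ hN).smooth φ.1
    exact ⟨W, h1, fun w hw => Subtype.ext (h2 w hw)⟩
  triv := by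
    intro n hn
    refine LinearMap.ext fun φ => Subtype.ext ?_
    show (ind0 A χ hχ hN).ρ n φ.1 = φ.1
    rw [(ind0 A χ hχ hN).triv n hn]
    rfl

end Pool.Agent.ORD
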