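import Pool.Agent.ORD.G0

/-!
# ORD [ORD-G1]: Shapiro lemma for the coinduced module
-/

set_option autoImplicit false

namespace Pool.Agent.ORD

open Pool.Agent.MP_6fb7ad_al

variable {p : ℕ} [Fact p.Prime] {Q : Type} [Group Q] [TopologicalSpace Q] [IsTopologicalGroup Q]
  {N : Subgroup Q}

/-- Let `z` be a cocycle with values in `ind0 A χ`. Then `c a = z a 0` is a cocycle on the kernel
of `χ`, so by `h` there is `m` with `z a 0 = A.ρ a m - m` for `χ a = 0`. If `χ f = χ f'` then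
`A.ρ f⁻¹ (m + z f 0) = A.ρ f'⁻¹ (m + z f' 0)`: write `f' = a * f` with `χ a = 0` and use
`z (a * f) 0 = z a 0 + A.ρ a (z f 0)`. Let `φ c = A.ρ (g c)⁻¹ (m + z (g c) 0)` where
`χ (g c) = - c` (for example `g c = t ^ (- c).val`). So `φ (- χ f) = A.ρ f⁻¹ (m + z f 0)` for
all `f`. For `f` and `c`, with `g = g c`:
`φ (c - χ f) = φ (- χ (g * f)) = A.ρ (g * f)⁻¹ (m + z g 0 + A.ρ g (z f c))`, hence
`A.ρ f (φ (c - χ f)) = φ c + z f c`. -/
theorem h1v_ind0 (A : SmRep p Q N) (χ : Q → ZMod p) (hχ : IsChar p χ) (hN : ∀ n ∈ N, χ n = 0)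
    (t : Q) (ht : χ t = 1)
    (h : ∀ c : Q → A.M, (∀ a b, χ a = 0 → χ b = 0 → c (a * b) = c a + A.ρ a (c b)) →
      (∃ W : Subgroup Q, IsOpen (W : Set Q) ∧ ∀ w ∈ W, χ w = 0 → c w = 0) →
      (∀ n ∈ N, c n = 0) → ∃ m, ∀ a, χ a = 0 → c a = A.ρ a m - m) :
    H1v (ind0 A χ hχ hN) := by
  intro z hz hzW hzN
  have hz' : ∀ f g c, z (f * g) c = z f c + A.ρ f (z g (c - χ f)) :=
    fun f g c => congrFun (hz f g) c
  obtain ⟨m, hm⟩ := h (fun a => z a 0)
    (fun a b ha _ => by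
      show z (a * b) 0 = z a 0 + A.ρ a (z b 0)
      rw [hz', ha, sub_zero])
    (by
      obtain ⟨W, hW, hW'⟩ := hzW
      exact ⟨W, hW, fun w hw _ => congrFun (hW' w hw) 0⟩)
    (fun n hn => congrFun (hzN n hn) 0)
  have hχt : ∀ n : ℕ, χ (t ^ n) = n := by
    intro n
    induction n with
    | zero => rw [pow_zero, Nat.cast_zero, char_one hχ]
    | succ n ih => rw [pow_succ, hχ.mul, ih, ht, Nat.cast_succ]
  have hχi : ∀ f, χ f⁻¹ = - χ f := by
    intro f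
    have h1 := hχ.mul f⁻¹ f
    rw [inv_mul_cancel, char_one hχ] at h1
    exact (neg_eq_of_add_eq_zero_left h1.symm).symm
  have hρi : ∀ (f : Q) (x : A.M), A.ρ f (A.ρ f⁻¹ x) = x := by
    intro f x
    rw [← Module.End.mul_apply, ← map_mul, mul_inv_cancel, map_one, Module.End.one_apply]
  have hρi' : ∀ (f : Q) (x : A.M), A.ρ f⁻¹ (A.ρ f x) = x := by
    intro f x
    rw [← Module.End.mul_apply, ← map_mul, inv_mul_cancel, map_one, Module.End.one_apply]
  have hρm : ∀ (f g : Q) (x : A.M), A.ρ (f * g) x = A.ρ f (A.ρ g x) := by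
    intro f g x
    rw [map_mul, Module.End.mul_apply]
  have hP : ∀ f f', χ f = χ f' → A.ρ f⁻¹ (m + z f 0) = A.ρ f'⁻¹ (m + z f' 0) := by
    intro f f' hff
    obtain ⟨a, rfl⟩ : ∃ a, f' = a * f := ⟨f' * f⁻¹, by rw [inv_mul_cancel_right]⟩
    have ha : χ a = 0 := by
      rw [hχ.mul] at hff
      exact right_eq_add.mp hff
    have h2 : m + z (a * f) 0 = A.ρ a (m + z f 0) := by
      rw [hz', ha, sub_zero, map_add, ← add_assoc]
      congr 1
      have h3 : z a 0 = A.ρ a m - m := hm a ha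
      rw [h3]
      abel
    rw [h2, mul_inv_rev, hρm, hρi']
  have : NeZero p := ⟨(Fact.out : p.Prime).ne_zero⟩
  let g : ZMod p → Q := fun c => t ^ (-c).val
  have hg : ∀ c, χ (g c) = -c := by
    intro c
    show χ (t ^ (-c).val) = -c
    rw [hχt, ZMod.natCast_zmod_val]
  let φ : ZMod p → A.M := fun c => A.ρ (g c)⁻¹ (m + z (g c) 0)
  have hφ : ∀ f, φ (- χ f) = A.ρ f⁻¹ (m + z f 0) := by
    intro f
    refine hP _ _ ?_
    rw [hg, neg_neg]
  refine ⟨φ, fun f => funext fun c => ?_⟩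
  show z f c = A.ρ f (φ (c - χ f)) - φ c
  have h1 : c - χ f = - χ (g c * f) := by
    rw [hχ.mul, hg]
    ring
  rw [h1, hφ, mul_inv_rev, hρm, hρi, hz', hg, zero_sub, neg_neg, ← add_assoc, map_add, hρi']
  exact (add_sub_cancel_left _ _).symm

end Pool.Agent.ORD
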