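import Pool.Agent.ORD.Def2

/-!
# ORD [ORD-P1]: right translation by an element of infinite order
-/

set_option autoImplicit false

namespace Pool.Agent.ORD

open Pool.Agent.MP_6fb7ad_al
open scoped Pointwise

variable {p : ℕ} [Fact p.Prime] {Q : Type} [Group Q] [TopologicalSpace Q] [IsTopologicalGroup Q]
  {N : Subgroup Q}

private theorem per_sum {M : Type} [AddCommGroup M] (f : ℕ → M) (a : ℕ)
    (h : ∀ j, f (j + a) = f j) (k : ℕ) :
    ∑ j ∈ Finset.range (a * k), f j = k • ∑ j ∈ Finset.range a, f j := by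
  have h' : ∀ k j, f (a * k + j) = f j := by
    intro k
    induction k with
    | zero => intro j; rw [Nat.mul_zero, Nat.zero_add]
    | succ k ih =>
      intro j
      rw [show a * (k + 1) + j = a * k + j + a by ring, h, ih]
  induction k with
  | zero => simp
  | succ k ih =>
    rw [Nat.mul_succ, Finset.sum_range_add, ih, succ_nsmul]
    congr 1
    exact Finset.sum_congr rfl fun j _ => h' k j

private theorem fin_sol {G : Type} [Group G] [Finite G] {M : Type} [AddCommGroup M] (b : G)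
    (f : G → M) (hf : ∀ y, ∑ j ∈ Finset.range (orderOf b), f (y * b ^ j) = 0) :
    ∃ g : G → M, ∀ y, g (y * b) - g y = f y := by
  classical
  have hn : 0 < orderOf b := orderOf_pos b
  obtain ⟨c, hc⟩ : ∃ c : G → G, c = fun y => (QuotientGroup.mk y : G ⧸ Subgroup.zpowers b).out :=
    ⟨_, rfl⟩
  have hc1 : ∀ y, c (y * b) = c y := by
    intro y
    rw [hc]
    show (QuotientGroup.mk (y * b) : G ⧸ Subgroup.zpowers b).out =
      (QuotientGroup.mk y : G ⧸ Subgroup.zpowers b).out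
    congr 1
    rw [QuotientGroup.eq]
    have : (y * b)⁻¹ * y = b⁻¹ := by group
    rw [this]
    exact Subgroup.inv_mem _ (Subgroup.mem_zpowers b)
  have hc2 : ∀ y, ∃ k, k < orderOf b ∧ b ^ k = (c y)⁻¹ * y := by
    intro y
    have h1 : (c y)⁻¹ * y ∈ Subgroup.zpowers b := by
      rw [← QuotientGroup.eq, hc]
      exact QuotientGroup.out_eq' _
    have h2 := mem_zpowers_iff_mem_range_orderOf.1 h1
    obtain ⟨k, hk, hk2⟩ := Finset.mem_image.1 h2
    exact ⟨k, Finset.mem_range.1 hk, hk2⟩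
  choose k hk hk2 using hc2
  refine ⟨fun y => ∑ l ∈ Finset.range (k y), f (c y * b ^ l), fun y => ?_⟩
  have e0 : c y * b ^ k y = y := by
    rw [hk2]
    group
  have e1 : b ^ k (y * b) = b ^ (k y + 1) := by
    rw [hk2, hc1, pow_succ, hk2]
    group
  show ∑ l ∈ Finset.range (k (y * b)), f (c (y * b) * b ^ l) -
    ∑ l ∈ Finset.range (k y), f (c y * b ^ l) = f y
  rw [hc1]
  rcases lt_or_ge (k y + 1) (orderOf b) with h | h
  · have e2 : k (y * b) = k y + 1 := pow_injOn_Iio_orderOf (hk _) h e1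
    rw [e2, Finset.sum_range_succ, add_sub_cancel_left, e0]
  · have e3 : k y + 1 = orderOf b := le_antisymm (hk y) h
    have e2 : k (y * b) = 0 := by
      refine pow_injOn_Iio_orderOf (hk _) hn ?_
      show b ^ k (y * b) = b ^ 0
      rw [e1, e3, pow_orderOf_eq_one, pow_zero]
    have e4 := hf (c y)
    rw [← e3, Finset.sum_range_succ, e0] at e4
    rw [e2, Finset.sum_range_zero, zero_sub]
    exact neg_eq_of_add_eq_zero_right e4

/-- Let `W` be the open normal subgroup of `h2` and `P = N ⊔ W`, an open normal subgroup; `φ` is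
right `P`-invariant. `Q ⧸ W` is a finite `p`-group (`quot_fin`), so `b ^ (p ^ s) ∈ W ≤ P` for some
`s`. By `exists_sep` there is an open normal `W'` with `b ^ (p ^ s) * w ∉ N` for all `w ∈ W'`; we
may assume `W' ≤ W`. Let `P' = N ⊔ W'`: it is open and normal, `P' ≤ P` and `b ^ (p ^ s) ∉ P'`. So
the order `n` of the image of `b` in the finite `p`-group `Q ⧸ P'` is a power of `p` that does not
divide `p ^ s`, hence `p ^ (s + 1) ∣ n`.
Let `D = P' ⊔ Subgroup.zpowers b` and let `e x : ZMod p` be `1` if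
`((QuotientGroup.mk x : Q ⧸ D).out)⁻¹ * x ∈ P'`, else `0`. Then `e (x * u) = e x` for `u ∈ P'`,
`e (x * b ^ n) = e x` and `∑ j ∈ range n, e (x * b ^ j) = 1`: with `c = out`, `c⁻¹ * x ∈ D` is
`b ^ k * u` with `k : ℤ`, `u ∈ P'`, and `c⁻¹ * x * b ^ j ∈ P'` iff `n ∣ k + j`, which holds for
exactly one `j < n`.
Let `S j x = ∑ l ∈ range j, φ (x * b ^ l)`. Then `S n x = 0`, since `φ (x * b ^ (l + p ^ s))`
`= φ (x * b ^ l)`, `p ^ (s + 1) ∣ n` and `p • m = 0` for all `m : M`. And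
`S j (x * b) = S (j + 1) x - φ x`. Put `ψ x = - ∑ j ∈ range n, e (x * b ^ j) • S j x`. Then
`ψ (x * b) = - ∑ j ∈ range n, e (x * b ^ (j + 1)) • (S (j + 1) x - φ x) = ψ x + φ x`.
`ψ` is right `P'`-invariant since `e` and `φ` are (and `P'` is normal). -/
theorem flm (hQ : IsProP p Q) (hN : N.Normal) (hNc : IsClosed (N : Set Q)) (b : Q)
    (hb : ∀ m : ℕ, 0 < m → b ^ m ∉ N) {M : Type} [AddCommGroup M] [Module (ZMod p) M] (φ : Q → M)
    (h1 : ∀ x, ∀ n ∈ N, φ (x * n) = φ x)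
    (h2 : ∃ W : Subgroup Q, ON W ∧ ∀ x, ∀ w ∈ W, φ (x * w) = φ x) :
    ∃ ψ : Q → M, (∀ x, ∀ n ∈ N, ψ (x * n) = ψ x) ∧
      (∃ W : Subgroup Q, ON W ∧ ∀ x, ∀ w ∈ W, ψ (x * w) = ψ x) ∧
      ∀ x, ψ (x * b) - ψ x = φ x := by
  classical
  obtain ⟨W, hW, hWφ⟩ := h2
  have hWn : W.Normal := hW.1
  obtain ⟨hfin, hP⟩ := quot_fin hQ W hW.2
  have hp : p.Prime := Fact.out
  obtain ⟨s, hs⟩ : ∃ s, b ^ (p ^ s) ∈ W := by
    obtain ⟨s, hs⟩ := hP (b : Q ⧸ W)
    refine ⟨s, ?_⟩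
    rwa [← QuotientGroup.mk_pow, QuotientGroup.eq_one_iff] at hs
  have hbs : b ^ (p ^ s) ∉ N := hb _ (pow_pos hp.pos s)
  obtain ⟨W', hW', hWo', hWs'⟩ := exists_sep hQ N hNc (b ^ (p ^ s)) hbs
  obtain ⟨V, hV⟩ : ∃ V : Subgroup Q, V = W ⊓ W' := ⟨_, rfl⟩
  have hVn : V.Normal := by rw [hV]; infer_instance
  have hVo : IsOpen (V : Set Q) := by rw [hV]; exact hW.2.inter hWo'
  obtain ⟨P, hPd⟩ : ∃ P : Subgroup Q, P = N ⊔ V := ⟨_, rfl⟩
  have hPn : P.Normal := by rw [hPd]; infer_instance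
  have hPo : IsOpen (P : Set Q) := Subgroup.isOpen_mono (by rw [hPd]; exact le_sup_right) hVo
  have hPm : ∀ u ∈ P, ∃ n ∈ N, ∃ v ∈ V, n * v = u := by
    intro u hu
    have h3 : u ∈ (N : Set Q) * (V : Set Q) := by
      rw [← Subgroup.mul_normal, ← hPd]
      exact hu
    obtain ⟨n, hn, v, hv, h4⟩ := h3
    exact ⟨n, hn, v, hv, h4⟩
  have hbP : b ^ (p ^ s) ∉ P := by
    intro h3
    obtain ⟨n, hn, v, hv, h4⟩ := hPm _ h3
    refine hWs' v⁻¹ ?_ ?_
    · rw [hV] at hv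
      exact W'.inv_mem hv.2
    · rw [← h4, mul_inv_cancel_right]
      exact hn
  have hφ : ∀ x, ∀ u ∈ P, φ (x * u) = φ x := by
    intro x u hu
    obtain ⟨n, hn, v, hv, h4⟩ := hPm _ hu
    rw [hV] at hv
    rw [← h4, ← mul_assoc, hWφ _ v hv.1, h1 x n hn]
  obtain ⟨hfinP, hPP⟩ := quot_fin hQ P hPo
  obtain ⟨c, hc⟩ : ∃ c : Q ⧸ P, c = (b : Q ⧸ P) := ⟨_, rfl⟩
  -- the order of `c`
  have hdiv : p ^ (s + 1) ∣ orderOf c := by
    obtain ⟨k, hk⟩ := hPP c
    obtain ⟨j, -, hj⟩ := (Nat.dvd_prime_pow hp).1 (orderOf_dvd_of_pow_eq_one hk)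
    rw [hj]
    refine pow_dvd_pow p ?_
    by_contra hlt
    push Not at hlt
    have h3 : orderOf c ∣ p ^ s := by
      rw [hj]
      exact pow_dvd_pow p (by omega)
    have h4 := orderOf_dvd_iff_pow_eq_one.1 h3
    rw [hc, ← QuotientGroup.mk_pow, QuotientGroup.eq_one_iff] at h4
    exact hbP h4
  -- the function on the quotient
  obtain ⟨φ', hφ'⟩ : ∃ φ' : Q ⧸ P → M, ∀ x : Q, φ' (x : Q ⧸ P) = φ x := by
    refine ⟨fun y => φ y.out, fun x => ?_⟩
    obtain ⟨u, hu⟩ := QuotientGroup.mk_out_eq_mul P x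
    show φ ((x : Q ⧸ P).out) = φ x
    rw [hu, hφ x u u.2]
  have hφP : ∀ x, ∀ w ∈ W, φ (x * w) = φ x := hWφ
  have hper : ∀ (y : Q ⧸ P) (j : ℕ), φ' (y * c ^ (j + p ^ s)) = φ' (y * c ^ j) := by
    intro y j
    obtain ⟨x, rfl⟩ := QuotientGroup.mk_surjective y
    rw [hc, ← QuotientGroup.mk_pow, ← QuotientGroup.mk_pow, ← QuotientGroup.mk_mul,
      ← QuotientGroup.mk_mul, hφ', hφ', pow_add, ← mul_assoc, hφP _ _ hs]
  have hsum : ∀ y : Q ⧸ P, ∑ j ∈ Finset.range (orderOf c), φ' (y * c ^ j) = 0 := by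
    intro y
    obtain ⟨m, hm⟩ := hdiv
    have h3 : orderOf c = p ^ s * (p * m) := by
      rw [hm, pow_succ]
      ring
    rw [h3, per_sum (fun j => φ' (y * c ^ j)) (p ^ s) (hper y) (p * m), mul_nsmul]
    have h4 : ∀ z : M, p • z = 0 := by
      intro z
      rw [← Nat.cast_smul_eq_nsmul (ZMod p) p z, ZMod.natCast_self, zero_smul]
    rw [h4, nsmul_zero]
  obtain ⟨g, hg⟩ := fin_sol c φ' hsum
  refine ⟨fun x => g (x : Q ⧸ P), fun x n hn => ?_, ⟨P, ⟨hPn, hPo⟩, fun x w hw => ?_⟩, fun x => ?_⟩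
  · show g ((x * n : Q) : Q ⧸ P) = g (x : Q ⧸ P)
    congr 1
    rw [QuotientGroup.mk_mul_of_mem]
    rw [hPd]
    exact (le_sup_left : N ≤ N ⊔ V) hn
  · show g ((x * w : Q) : Q ⧸ P) = g (x : Q ⧸ P)
    congr 1
    rw [QuotientGroup.mk_mul_of_mem _ hw]
  · show g ((x * b : Q) : Q ⧸ P) - g (x : Q ⧸ P) = φ x
    rw [QuotientGroup.mk_mul, ← hc, hg, hφ']

end Pool.Agent.ORD
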