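import Pool.Agent.ORD.Def

/-!
# ORD [ORD-T2]: the leading term argument
-/

set_option autoImplicit false

namespace Pool.Agent.ORD

open Pool.Agent.MP_6fb7ad_al

variable {p : ℕ} [Fact p.Prime] {Q : Type} [Group Q] [TopologicalSpace Q] [IsTopologicalGroup Q]

/-- Write `D = α b - 1`. Let `m` be minimal with: there is `φ₀ ∈ 𝔑` with `D ^ (m + 1) φ₀ = 0` and
`ε φ₀ ≠ 0` (it exists by `hne`, `h3`; the exponent `0` is impossible). So `ε φ = 0` for all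
`φ ∈ 𝔑` with `D ^ m φ = 0`. As `D ^ m` maps `𝔑` onto `𝔑` (`h2`), there is a linear map `ε'` on `𝔑`
with `ε' (D ^ m φ) = ε φ` for `φ ∈ 𝔑`; extend it to `M` (`LinearMap.exists_extend`). It maps `𝔑`
to `𝔑` and commutes with `α b` on `𝔑`, so it maps `𝔑₁` to `𝔑₁` (`h1`, `h1'`). It is nonzero on
`𝔑₁`: `D ^ m φ₀ ∈ 𝔑₁`. It commutes with `α a` on `𝔑₁`: let `ψ = D ^ m φ ∈ 𝔑₁`, `φ ∈ 𝔑`, and `L` as
in `h4` for `a, φ`. With `g = ∑ l ∈ range L, (α b) ^ l` we have `(α b) ^ L - 1 = D * g`, so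
`α a ψ = D ^ m (g ^ m (α a φ))` and `ε' (α a ψ) = ε (g ^ m (α a φ)) = g ^ m (α a (ε φ))`
`= g ^ m (α a (ε' ψ)) = α a (ε' ψ)`, since `α a (ε' ψ)` is in `𝔑₁` (`h1''`), so it is fixed by
`α b` and `g` acts on it as `(L : ZMod p) = 1`.
By `h5` the map `ε'` maps `𝔑₁` onto `𝔑₁`. So it maps `𝔑` onto `𝔑`: if `D ^ r χ = 0` then by
induction on `r`: `D ^ (r - 1) χ ∈ 𝔑₁` is `ε' ψ` with `ψ ∈ 𝔑₁`, `ψ = D ^ (r - 1) ψ'`, `ψ' ∈ 𝔑`
(`h2`), and `D ^ (r - 1) (χ - ε' ψ') = 0`. Finally `ε = ε' ∘ D ^ m` on `𝔑` is onto. -/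
theorem leading {M : Type} [AddCommGroup M] [Module (ZMod p) M]
    (α : Q →* Module.End (ZMod p) M) (𝔑 𝔑₁ : Submodule (ZMod p) M) (b : Q)
    (h0 : ∀ a, ∀ m ∈ 𝔑, α a m ∈ 𝔑) (h1'' : ∀ a, ∀ m ∈ 𝔑₁, α a m ∈ 𝔑₁)
    (h1 : ∀ m ∈ 𝔑₁, m ∈ 𝔑 ∧ α b m = m) (h1' : ∀ m ∈ 𝔑, α b m = m → m ∈ 𝔑₁)
    (h2 : ∀ m ∈ 𝔑, ∃ m' ∈ 𝔑, (α b - 1) m' = m)
    (h3 : ∀ m ∈ 𝔑, ∃ r : ℕ, ((α b - 1) ^ r) m = 0)
    (h4 : ∀ a, ∀ m ∈ 𝔑, ∃ L : ℕ, (L : ZMod p) = 1 ∧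
      ∀ r : ℕ, α a (((α b - 1) ^ r) m) = (((α b) ^ L - 1) ^ r) (α a m))
    (ε : M →ₗ[ZMod p] M) (he : ∀ m ∈ 𝔑, ε m ∈ 𝔑)
    (hc : ∀ a, ∀ m ∈ 𝔑, ε (α a m) = α a (ε m)) (hne : ∃ m ∈ 𝔑, ε m ≠ 0)
    (h5 : ∀ ε' : M →ₗ[ZMod p] M, (∀ m ∈ 𝔑₁, ε' m ∈ 𝔑₁) →
      (∀ a, ∀ m ∈ 𝔑₁, ε' (α a m) = α a (ε' m)) → (∃ m ∈ 𝔑₁, ε' m ≠ 0) →
      ∀ m ∈ 𝔑₁, ∃ m' ∈ 𝔑₁, ε' m' = m) :
    ∀ m ∈ 𝔑, ∃ m' ∈ 𝔑, ε m' = m := by
  classical
  set D : Module.End (ZMod p) M := α b - 1 with hD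
  have hDmem : ∀ m ∈ 𝔑, D m ∈ 𝔑 := by
    intro m hm
    rw [hD, LinearMap.sub_apply, Module.End.one_apply]
    exact 𝔑.sub_mem (h0 b m hm) hm
  have hDpow : ∀ r : ℕ, ∀ m ∈ 𝔑, (D ^ r) m ∈ 𝔑 := by
    intro r
    induction r with
    | zero => intro m hm; simpa using hm
    | succ r ih =>
      intro m hm
      rw [pow_succ', Module.End.mul_apply]
      exact hDmem _ (ih m hm)
  have hDsur : ∀ r : ℕ, ∀ m ∈ 𝔑, ∃ m' ∈ 𝔑, (D ^ r) m' = m := by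
    intro r
    induction r with
    | zero => intro m hm; exact ⟨m, hm, by simp⟩
    | succ r ih =>
      intro m hm
      obtain ⟨m1, hm1, e1⟩ := h2 m hm
      obtain ⟨m2, hm2, e2⟩ := ih m1 hm1
      refine ⟨m2, hm2, ?_⟩
      rw [pow_succ', Module.End.mul_apply, e2, e1]
  -- the minimal exponent
  have hex : ∃ n : ℕ, ∃ φ ∈ 𝔑, (D ^ n) φ = 0 ∧ ε φ ≠ 0 := by
    obtain ⟨φ, hφ, hφ'⟩ := hne
    obtain ⟨r, hr⟩ := h3 φ hφ
    exact ⟨r, φ, hφ, hr, hφ'⟩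
  obtain ⟨m, hm⟩ : ∃ m, Nat.find hex = m + 1 := by
    rcases Nat.eq_zero_or_pos (Nat.find hex) with h | h
    · exfalso
      obtain ⟨φ, _, h1, h2⟩ := Nat.find_spec hex
      rw [h, pow_zero, Module.End.one_apply] at h1
      exact h2 (by rw [h1, map_zero])
    · exact ⟨Nat.find hex - 1, by omega⟩
  obtain ⟨φ₀, hφ₀, hz₀, hne₀⟩ := Nat.find_spec hex
  rw [hm] at hz₀
  have hmin : ∀ φ ∈ 𝔑, (D ^ m) φ = 0 → ε φ = 0 := by
    intro φ hφ hz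
    by_contra hcon
    exact Nat.find_min hex (m := m) (by omega) ⟨φ, hφ, hz, hcon⟩
  -- the map `ε'`
  obtain ⟨f, hf⟩ : ∃ f : 𝔑 →ₗ[ZMod p] 𝔑, ∀ x : 𝔑, (f x : M) = (D ^ m) x :=
    ⟨(D ^ m).restrict (fun x hx => hDpow m x hx), fun x => rfl⟩
  have hfs : Function.Surjective f := by
    intro y
    obtain ⟨x, hx, hxy⟩ := hDsur m y y.2
    exact ⟨⟨x, hx⟩, Subtype.ext (by rw [hf]; exact hxy)⟩
  obtain ⟨s, hs⟩ := f.exists_rightInverse_of_surjective (LinearMap.range_eq_top.2 hfs)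
  obtain ⟨ε', hε'⟩ := LinearMap.exists_extend (ε.comp (𝔑.subtype.comp s))
  have hE : ∀ φ ∈ 𝔑, ε' ((D ^ m) φ) = ε φ := by
    intro φ hφ
    have e1 : ε' ((D ^ m) φ) = ε (s (f ⟨φ, hφ⟩)) := by
      have := LinearMap.congr_fun hε' (f ⟨φ, hφ⟩)
      simp only [LinearMap.comp_apply, Submodule.subtype_apply] at this
      rw [hf] at this
      exact this
    have e2 : (D ^ m) ((s (f ⟨φ, hφ⟩) : M) - φ) = 0 := by
      rw [map_sub, ← hf (s (f ⟨φ, hφ⟩))]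
      have := LinearMap.congr_fun hs (f ⟨φ, hφ⟩)
      rw [LinearMap.comp_apply, LinearMap.id_apply] at this
      rw [this, hf, sub_self]
    have e3 := hmin _ (𝔑.sub_mem (s (f ⟨φ, hφ⟩)).2 hφ) e2
    rw [map_sub, sub_eq_zero] at e3
    rw [e1, e3]
  have hE𝔑 : ∀ ψ ∈ 𝔑, ε' ψ ∈ 𝔑 := by
    intro ψ hψ
    obtain ⟨φ, hφ, rfl⟩ := hDsur m ψ hψ
    rw [hE φ hφ]
    exact he φ hφ
  have hcommb : ∀ r : ℕ, ∀ φ : M, α b ((D ^ r) φ) = (D ^ r) (α b φ) := by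
    intro r φ
    have hc1 : Commute (α b) D := by
      rw [hD]
      exact (Commute.refl _).sub_right (Commute.one_right _)
    have := (hc1.pow_right r).eq
    rw [← Module.End.mul_apply, this, Module.End.mul_apply]
  have hEb : ∀ ψ ∈ 𝔑, ε' (α b ψ) = α b (ε' ψ) := by
    intro ψ hψ
    obtain ⟨φ, hφ, rfl⟩ := hDsur m ψ hψ
    rw [hcommb, hE _ (h0 b φ hφ), hE φ hφ, hc b φ hφ]
  have hED : ∀ r : ℕ, ∀ ψ ∈ 𝔑, ε' ((D ^ r) ψ) = (D ^ r) (ε' ψ) := by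
    intro r
    induction r with
    | zero => intro ψ _; simp
    | succ r ih =>
      intro ψ hψ
      rw [pow_succ, Module.End.mul_apply, Module.End.mul_apply, ih _ (hDmem ψ hψ)]
      congr 1
      rw [hD, LinearMap.sub_apply, LinearMap.sub_apply, Module.End.one_apply, Module.End.one_apply, map_sub,
        hEb ψ hψ]
  have hE1 : ∀ ψ ∈ 𝔑₁, ε' ψ ∈ 𝔑₁ := by
    intro ψ hψ
    obtain ⟨h𝔑, hfix⟩ := h1 ψ hψ
    apply h1' _ (hE𝔑 ψ h𝔑)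
    rw [← hEb ψ h𝔑, hfix]
  have hEa : ∀ a, ∀ ψ ∈ 𝔑₁, ε' (α a ψ) = α a (ε' ψ) := by
    intro a ψ hψ
    obtain ⟨h𝔑, _⟩ := h1 ψ hψ
    obtain ⟨φ, hφ, rfl⟩ := hDsur m ψ h𝔑
    obtain ⟨L, hL, hL'⟩ := h4 a φ hφ
    obtain ⟨g, hg⟩ : ∃ g : Module.End (ZMod p) M, g = ∑ l ∈ Finset.range L, (α b) ^ l := ⟨_, rfl⟩
    have hDg : (α b) ^ L - 1 = D * g := by
      rw [hg, hD, mul_geom_sum]
    have hcDg : Commute D g := by
      rw [hg]
      apply Commute.sum_right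
      intro l _
      rw [hD]
      exact (((Commute.refl (α b)).pow_right l).sub_left (Commute.one_left _))
    have hg𝔑 : ∀ x ∈ 𝔑, g x ∈ 𝔑 := by
      intro x hx
      rw [hg, LinearMap.sum_apply]
      apply Submodule.sum_mem
      intro l hl
      clear hl
      induction l with
      | zero => simpa using hx
      | succ l ih =>
        rw [pow_succ', Module.End.mul_apply]
        exact h0 b _ ih
    have hgm𝔑 : ∀ r : ℕ, ∀ x ∈ 𝔑, (g ^ r) x ∈ 𝔑 := by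
      intro r
      induction r with
      | zero => intro x hx; simpa using hx
      | succ r ih =>
        intro x hx
        rw [pow_succ', Module.End.mul_apply]
        exact hg𝔑 _ (ih x hx)
    have hbpow : ∀ l : ℕ, ∀ x ∈ 𝔑, ((α b) ^ l) x ∈ 𝔑 ∧ ε (((α b) ^ l) x) = ((α b) ^ l) (ε x) := by
      intro l
      induction l with
      | zero => intro x hx; simpa using hx
      | succ l ih =>
        intro x hx
        obtain ⟨i1, i2⟩ := ih x hx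
        rw [pow_succ', Module.End.mul_apply, Module.End.mul_apply]
        exact ⟨h0 b _ i1, by rw [hc b _ i1, i2]⟩
    have hεg : ∀ x ∈ 𝔑, ε (g x) = g (ε x) := by
      intro x hx
      rw [hg, LinearMap.sum_apply, LinearMap.sum_apply, map_sum]
      apply Finset.sum_congr rfl
      intro l _
      exact (hbpow l x hx).2
    have hεgm : ∀ r : ℕ, ∀ x ∈ 𝔑, ε ((g ^ r) x) = (g ^ r) (ε x) := by
      intro r
      induction r with
      | zero => intro x _; simp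
      | succ r ih =>
        intro x hx
        rw [pow_succ', Module.End.mul_apply, Module.End.mul_apply, hεg _ (hgm𝔑 r x hx), ih x hx]
    have hfixg : ∀ x, α b x = x → g x = x := by
      intro x hx
      have hp : ∀ l : ℕ, ((α b) ^ l) x = x := by
        intro l
        induction l with
        | zero => simp
        | succ l ih => rw [pow_succ', Module.End.mul_apply, ih, hx]
      rw [hg, LinearMap.sum_apply, Finset.sum_congr rfl (fun l _ => hp l), Finset.sum_const, Finset.card_range]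
      have : (L : ZMod p) • x = x := by rw [hL, one_smul]
      rwa [Nat.cast_smul_eq_nsmul] at this
    have hfixgm : ∀ r : ℕ, ∀ x, α b x = x → (g ^ r) x = x := by
      intro r
      induction r with
      | zero => intro x _; simp
      | succ r ih => intro x hx; rw [pow_succ', Module.End.mul_apply, ih x hx, hfixg x hx]
    have e1 : α a ((D ^ m) φ) = (D ^ m) ((g ^ m) (α a φ)) := by
      rw [hL' m, hDg, hcDg.mul_pow, Module.End.mul_apply]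
    have e2 : ε' (α a ((D ^ m) φ)) = (g ^ m) (α a (ε' ((D ^ m) φ))) := by
      rw [e1, hE _ (hgm𝔑 m _ (h0 a φ hφ)), hεgm m _ (h0 a φ hφ), hc a φ hφ, hE φ hφ]
    rw [e2]
    exact hfixgm m _ ((h1 _ (h1'' a _ (hE1 _ hψ))).2)
  have hEne : ∃ ψ ∈ 𝔑₁, ε' ψ ≠ 0 := by
    refine ⟨(D ^ m) φ₀, ?_, ?_⟩
    · apply h1' _ (hDpow m φ₀ hφ₀)
      have : D ((D ^ m) φ₀) = 0 := by
        rw [← Module.End.mul_apply, ← pow_succ']
        exact hz₀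
      rw [hD, LinearMap.sub_apply, Module.End.one_apply, sub_eq_zero] at this
      exact this
    · rw [hE φ₀ hφ₀]
      exact hne₀
  have hon1 := h5 ε' hE1 hEa hEne
  have hon : ∀ r : ℕ, ∀ χ ∈ 𝔑, (D ^ r) χ = 0 → ∃ ψ ∈ 𝔑, ε' ψ = χ := by
    intro r
    induction r with
    | zero =>
      intro χ _ hz
      rw [pow_zero, Module.End.one_apply] at hz
      exact ⟨0, 𝔑.zero_mem, by rw [hz, map_zero]⟩
    | succ r ih =>
      intro χ hχ hz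
      have hη : (D ^ r) χ ∈ 𝔑₁ := by
        apply h1' _ (hDpow r χ hχ)
        have : D ((D ^ r) χ) = 0 := by
          rw [← Module.End.mul_apply, ← pow_succ']
          exact hz
        rw [hD, LinearMap.sub_apply, Module.End.one_apply, sub_eq_zero] at this
        exact this
      obtain ⟨ψ, hψ, hψ'⟩ := hon1 _ hη
      obtain ⟨ψ1, hψ1, hψ1'⟩ := hDsur r ψ (h1 ψ hψ).1
      obtain ⟨ψ2, hψ2, hψ2'⟩ := ih (χ - ε' ψ1) (𝔑.sub_mem hχ (hE𝔑 _ hψ1)) (by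
        rw [map_sub, ← hED r ψ1 hψ1, hψ1', hψ', sub_self])
      exact ⟨ψ1 + ψ2, 𝔑.add_mem hψ1 hψ2, by rw [map_add, hψ2', add_sub_cancel]⟩
  intro χ hχ
  obtain ⟨r, hr⟩ := h3 χ hχ
  obtain ⟨ψ, hψ, hψ'⟩ := hon r χ hχ hr
  obtain ⟨φ, hφ, rfl⟩ := hDsur m ψ hψ
  exact ⟨φ, hφ, by rw [← hE φ hφ, hψ']⟩

end Pool.Agent.ORD
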