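import Pool.Agent.ORD.T1
import Pool.Agent.ORD.T2
import Pool.Agent.ORD.P1
import Pool.Agent.ORD.N0
import Pool.Agent.ORD.S2
import Pool.Agent.ORD.G4a

/-!
# ORD [ORD-T3]: group algebras of extensions
-/

set_option autoImplicit false

namespace Pool.Agent.ORD

open Pool.Agent.MP_6fb7ad_al

variable {p : ℕ} [Fact p.Prime] {Q : Type} [Group Q] [TopologicalSpace Q] [IsTopologicalGroup Q]
  {N : Subgroup Q}

/-- the subgroup of the elements which fix the function under right translation -/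
private def T3_stab (φ : Q → ZMod p) : Subgroup Q where
  carrier := {y | ∀ x, φ (x * y) = φ x}
  mul_mem' {a b} ha hb x := by rw [← mul_assoc, hb (x * a), ha x]
  one_mem' x := by rw [mul_one]
  inv_mem' {a} ha x := by
    have h1 := ha (x * a⁻¹)
    rw [inv_mul_cancel_right] at h1
    exact h1.symm

private theorem T3_pow {M : Type} [AddCommGroup M] [Module (ZMod p) M]
    (T : Module.End (ZMod p) M) (k : ℕ) :
    (T - 1) ^ (p ^ k) = T ^ (p ^ k) - 1 := by
  induction k with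
  | zero => rw [pow_zero, pow_one, pow_one]
  | succ k ih => rw [pow_succ, pow_mul, ih, (pow_p (T ^ (p ^ k))).1, ← pow_mul]

omit [Fact p.Prime] in
private theorem T3_h1' {N₁ : Subgroup Q} {b : Q} (hz : Zst N N₁ b)
    {φ : Q → ZMod p} (hφ : φ ∈ C1 p ⊤ N) (hb : rr p b φ = φ) : φ ∈ C1 p ⊤ N₁ := by
  obtain ⟨h1, h2, W, hW, h3⟩ := hφ
  refine ⟨h1, fun x v hv => ?_, W, hW, h3⟩
  have h4 : W ≤ T3_stab φ := fun w hw x => h3 x w hw
  have h5 : IsOpen (T3_stab φ : Set Q) := Subgroup.isOpen_mono h4 hW.2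
  exact hz.2.2 (T3_stab φ) (Subgroup.isClosed_of_isOpen _ h5) (fun v hv x => h2 x v hv)
    (fun x => congrFun hb x) hv x

private theorem T3_h3 (hQ : IsProP p Q) (b : Q) {φ : Q → ZMod p} (hφ : φ ∈ C1 p ⊤ N) :
    ∃ r : ℕ, ((rr p b - 1) ^ r) φ = 0 := by
  obtain ⟨h1, h2, W, hW, h3⟩ := hφ
  have hWn := hW.1
  obtain ⟨k, hk⟩ := (quot_fin hQ W hW.2).2 (QuotientGroup.mk b)
  refine ⟨p ^ k, ?_⟩
  rw [← QuotientGroup.mk_pow, QuotientGroup.eq_one_iff] at hk
  rw [T3_pow, ← map_pow]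
  funext x
  show φ (x * b ^ p ^ k) - φ x = 0
  rw [h3 x _ hk, sub_self]

omit [TopologicalSpace Q] [IsTopologicalGroup Q] in
/-- functions which are right invariant under `P` -/
private theorem T3_h4 {P : Subgroup Q} (hP : P.Normal) {a b : Q} {L : ℕ}
    (hL : (b ^ L * a)⁻¹ * (a * b) ∈ P) (r : ℕ) :
    ∀ φ : Q → ZMod p, (∀ x, ∀ u ∈ P, φ (x * u) = φ x) →
      rr p a (((rr p b - 1) ^ r) φ) = (((rr p b) ^ L - 1) ^ r) (rr p a φ) := by
  induction r with
  | zero => intro φ _; rfl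
  | succ r ih =>
    intro φ hφ
    rw [pow_succ, Module.End.mul_apply, ih ((rr p b - 1) φ) (by
      intro x u hu
      show φ (x * u * b) - φ (x * u) = φ (x * b) - φ x
      rw [hφ x u hu]
      have h1 := hφ (x * b) (b⁻¹ * u * b) (by
        have := hP.conj_mem u hu b⁻¹
        rwa [inv_inv] at this)
      have h2 : x * b * (b⁻¹ * u * b) = x * u * b := by group
      rw [h2] at h1
      rw [h1]), pow_succ, Module.End.mul_apply]
    congr 1
    rw [← map_pow]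
    funext x
    show φ (x * a * b) - φ (x * a) = φ (x * b ^ L * a) - φ (x * a)
    have h1 := hφ (x * b ^ L * a) _ hL
    have h2 : x * b ^ L * a * ((b ^ L * a)⁻¹ * (a * b)) = x * a * b := by group
    rw [h2] at h1
    rw [h1]

/-- Apply `leading` to `α = rr p`, `𝔑 = C1 p ⊤ N`, `𝔑₁ = C1 p ⊤ N₁`. `h1'`: for `φ ∈ 𝔑` the set of
all `x` with `rr p x φ = φ` is a closed subgroup (it contains an open subgroup) containing `N`
and, if `rr p b φ = φ`, also `b`, hence `N₁`. `h2`: from `flm`. `h3`: if `φ` is right invariant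
under the open normal subgroup `W` and `b ^ (p ^ r) ∈ W` (`quot_fin`) then
`(rr p b - 1) ^ (p ^ r) φ = rr p (b ^ (p ^ r)) φ - φ = 0` (`(X - 1) ^ (p ^ r) = X ^ (p ^ r) - 1`
in `(ZMod p)[X]`, `sub_pow_char_pow`, or iterate `pow_p`). `h4`: take `L` from `twist` for the
open normal subgroup `W` of `m = φ`: then `rr p (a * b) φ' = rr p (b ^ L * a) φ'` for all right
`N ⊔ W`-invariant `φ'`, that is `α a (α b φ') = (α b) ^ L (α a φ')`; all `(α b - 1) ^ r φ` are right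
`N ⊔ W`-invariant; induct on `r`. -/
theorem N1_step (hQ : IsProP p Q) (hN : N.Normal) (hNc : IsClosed (N : Set Q)) {N₁ : Subgroup Q}
    (hN₁ : N₁.Normal) (hle : N ≤ N₁) {b : Q} (hz : Zst N N₁ b) (h : N1 p ⊤ N₁) : N1 p ⊤ N := by
  intro ε he hc hne
  refine leading (rr p) (C1 p ⊤ N) (C1 p ⊤ N₁) b
    (fun a m hm => rr_mem_C1 hN (Subgroup.mem_top a) hm)
    (fun a m hm => rr_mem_C1 hN₁ (Subgroup.mem_top a) hm) ?_
    (fun m hm hb => T3_h1' hz hm hb) ?_ (fun m hm => T3_h3 hQ b hm) ?_ ε he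
    (fun a m hm => hc a (Subgroup.mem_top a) m hm) hne
    (fun ε' h1 h2 h3 => h ε' h1 (fun a _ m hm => h2 a m hm) h3)
  · rintro m ⟨h1, h2, W, hW, h3⟩
    exact ⟨⟨h1, fun x v hv => h2 x v (hle hv), W, hW, h3⟩, funext fun x => h2 x b hz.1⟩
  · rintro m ⟨h1, h2, h3⟩
    obtain ⟨ψ, h4, h5, h6⟩ := flm hQ hN hNc b hz.2.1 m h2 h3
    exact ⟨ψ, ⟨fun x hx => absurd (Subgroup.mem_top x) hx, h4, h5⟩, funext h6⟩
  · rintro a m ⟨h1, h2, W, hW, h3⟩
    have hWn := hW.1
    obtain ⟨L, hL1, hL2⟩ := twist hQ hN hN₁ hz a hW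
    refine ⟨L, hL1, fun r => T3_h4 (P := N ⊔ W) inferInstance hL2 r m ?_⟩
    have h4 : N ⊔ W ≤ T3_stab m := sup_le (fun v hv x => h2 x v hv) (fun w hw x => h3 x w hw)
    exact fun x u hu => h4 hu x

end Pool.Agent.ORD
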