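import Pool.Agent.ORD.P7
import Pool.Agent.ORD.T3
import Pool.Agent.ORD.T4

/-!
# ORD [ORD-R5]: groups with a series with infinite procyclic factors
-/

set_option autoImplicit false

namespace Pool.Agent.ORD

open Pool.Agent.MP_6fb7ad_al

variable {p : ℕ} [Fact p.Prime] {Q : Type} [Group Q] [TopologicalSpace Q] [IsTopologicalGroup Q]
  {N : Subgroup Q}

theorem polyZ (hQ : IsProP p Q) (h : PolyZ Q N) : CD p Q N ∧ NZD p Q N := by
  obtain ⟨n, S, h0, hn, hS, hst⟩ := h
  have key : ∀ k ≤ n, CD p Q (S (n - k)) ∧ N1 p ⊤ (S (n - k)) := by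
    intro k
    induction k with
    | zero =>
      intro _
      rw [Nat.sub_zero, hn]
      exact ⟨cd_top, N1_top_top⟩
    | succ k ih =>
      intro hk
      obtain ⟨h1, h2⟩ := ih (by omega)
      obtain ⟨h3, b, h4⟩ := hst (n - (k + 1)) (by omega)
      have e : n - (k + 1) + 1 = n - k := by omega
      rw [e] at h3 h4
      exact ⟨cd_step hQ (hS _).1 (hS _).2 (hS _).1 h3 h4 h1,
        N1_step hQ (hS _).1 (hS _).2 (hS _).1 h3 h4 h2⟩
  have h1 := key n le_rfl
  rw [Nat.sub_self, h0] at h1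
  refine ⟨h1.1, ?_⟩
  have h2 := nzd_of_N1 (N := N) hQ hQ (MonoidHom.id Q) continuous_id Function.injective_id
    (E := ⊤) ON.top (fun q => ⟨fun _ => ⟨q, rfl⟩, fun _ => Subgroup.mem_top q⟩) le_top h1.2
  rwa [Subgroup.comap_id] at h2

end Pool.Agent.ORD
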