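import Pool.Agent.ORD.U2

/-!
# ORD [ORD-U3]: residually PolyZ groups
-/

set_option autoImplicit false

namespace Pool.Agent.ORD

open Pool.Agent.MP_6fb7ad_al

variable {p : ℕ} [Fact p.Prime] {Q : Type} [Group Q] [TopologicalSpace Q] [IsTopologicalGroup Q]

omit [Fact p.Prime] [IsTopologicalGroup Q] in
theorem polyZ_cons {K L : Subgroup Q} (hK : K.Normal) (hKc : IsClosed (K : Set Q)) (hKL : K ≤ L)
    {b : Q} (hz : Zst K L b) (h : PolyZ Q L) : PolyZ Q K := by
  obtain ⟨n, S, h0, hn, hS, hst⟩ := h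
  refine ⟨n + 1, fun i => if i = 0 then K else S (i - 1), if_pos rfl, ?_, fun i => ?_,
    fun i hi => ?_⟩
  · show (if n + 1 = 0 then K else S (n + 1 - 1)) = ⊤
    rw [if_neg (Nat.succ_ne_zero n), Nat.add_sub_cancel, hn]
  · by_cases hi : i = 0
    · simp only [if_pos hi]
      exact ⟨hK, hKc⟩
    · simp only [if_neg hi]
      exact hS _
  · cases i with
    | zero =>
      simp only [if_true, zero_add, one_ne_zero, if_false, Nat.sub_self, h0]
      exact ⟨hKL, b, hz⟩
    | succ i =>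
      simp only [Nat.succ_ne_zero, if_false, Nat.add_sub_cancel]
      exact hst i (by omega)

theorem polyZ_inf (hQ : IsProP p Q) {N₁ N₂ : Subgroup Q} (hN₁ : N₁.Normal)
    (hN₁c : IsClosed (N₁ : Set Q)) (h₁ : PolyZ Q N₁) (h₂ : PolyZ Q N₂) :
    PolyZ Q (N₁ ⊓ N₂) := by
  obtain ⟨n, S, h0, hn, hS, hst⟩ := h₂
  have key : ∀ k ≤ n, PolyZ Q (N₁ ⊓ S (n - k)) := by
    intro k
    induction k with
    | zero =>
      intro _
      rw [Nat.sub_zero, hn, inf_top_eq]
      exact h₁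
    | succ k ih =>
      intro hk
      have h1 := ih (by omega)
      obtain ⟨h3, b, h4⟩ := hst (n - (k + 1)) (by omega)
      have e : n - (k + 1) + 1 = n - k := by omega
      rw [e] at h3 h4
      have hnor : (N₁ ⊓ S (n - (k + 1))).Normal := by
        have := (hS (n - (k + 1))).1
        exact Subgroup.normal_inf_normal _ _
      have hcl : IsClosed ((N₁ ⊓ S (n - (k + 1)) : Subgroup Q) : Set Q) :=
        hN₁c.inter (hS _).2
      rcases inf_Zst hQ (M := N₁) (hS _).1 (hS _).2 (hS (n - k)).2 hN₁c h3 h4 with h5 | ⟨b', h5⟩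
      · have h6 : N₁ ⊓ S (n - (k + 1)) = N₁ ⊓ S (n - k) := by
          refine le_antisymm (inf_le_inf_left _ h3) (le_inf inf_le_left h5)
        rw [h6]
        exact h1
      · exact polyZ_cons hnor hcl (inf_le_inf_left _ h3) h5 h1
  have h1 := key n le_rfl
  rwa [Nat.sub_self, h0] at h1

/-- If every element outside of the open subgroup `U` is missed by a closed normal subgroup `N`
with `PolyZ Q N`, then there is one contained in `U`. -/
theorem exists_polyZ_le (hQ : IsProP p Q) (U : Subgroup Q) (hU : IsOpen (U : Set Q))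
    (h : ∀ q, q ∉ U → ∃ N : Subgroup Q, N.Normal ∧ IsClosed (N : Set Q) ∧ PolyZ Q N ∧ q ∉ N) :
    ∃ N : Subgroup Q, N.Normal ∧ IsClosed (N : Set Q) ∧ PolyZ Q N ∧ N ≤ U := by
  classical
  have hcomp : CompactSpace Q := hQ.compact
  let ι := { N : Subgroup Q // N.Normal ∧ IsClosed (N : Set Q) ∧ PolyZ Q N }
  have hcpt : IsCompact ((U : Set Q)ᶜ) := hU.isClosed_compl.isCompact
  have htop : PolyZ Q (⊤ : Subgroup Q) :=
    ⟨0, fun _ => ⊤, rfl, rfl, fun _ => ⟨inferInstance, isClosed_univ⟩, fun i hi =>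
      absurd hi (Nat.not_lt_zero i)⟩
  obtain ⟨t, ht⟩ := hcpt.elim_finite_subfamily_closed (fun N : ι => ((N : Subgroup Q) : Set Q))
    (fun N => N.2.2.1) (by
      rw [Set.eq_empty_iff_forall_notMem]
      rintro q ⟨hq, hq'⟩
      obtain ⟨N, h1, h2, h3, h4⟩ := h q hq
      exact h4 (Set.mem_iInter.1 hq' ⟨N, h1, h2, h3⟩))
  have hfin : ∀ t : Finset ι, ∃ N : Subgroup Q, N.Normal ∧ IsClosed (N : Set Q) ∧ PolyZ Q N ∧
      ∀ M ∈ t, N ≤ (M : Subgroup Q) := by
    intro t
    induction t using Finset.induction_on with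
    | empty => exact ⟨⊤, inferInstance, isClosed_univ, htop, fun M hM => absurd hM (by simp)⟩
    | insert M t _ ih =>
      obtain ⟨N, h1, h2, h3, h4⟩ := ih
      have hM := M.2
      have hn := hM.1
      refine ⟨(M : Subgroup Q) ⊓ N, Subgroup.normal_inf_normal _ _, hM.2.1.inter h2,
        polyZ_inf hQ hM.1 hM.2.1 hM.2.2 h3, fun M' hM' => ?_⟩
      rcases Finset.mem_insert.1 hM' with rfl | h5
      · exact inf_le_left
      · exact inf_le_right.trans (h4 M' h5)
  obtain ⟨N, h1, h2, h3, h4⟩ := hfin t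
  refine ⟨N, h1, h2, h3, fun q hq => ?_⟩
  by_contra hqU
  have h5 : q ∈ ((U : Set Q)ᶜ) ∩ ⋂ N ∈ t, ((N : Subgroup Q) : Set Q) :=
    ⟨hqU, Set.mem_iInter₂.2 fun M hM => h4 M hM hq⟩
  rw [ht] at h5
  exact h5

end Pool.Agent.ORD
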