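import Pool.Agent.ORD.I2
import Pool.Agent.ORD.R5
import Pool.Agent.ORD.U3

/-!
# ORD [ORD-I3]: the main theorem
-/

set_option autoImplicit false

namespace Pool.Agent.ORD

open Pool.Agent.MP_6fb7ad_al

variable {p : ℕ} [Fact p.Prime] {G : Type} [Group G] [TopologicalSpace G] [IsTopologicalGroup G]

/-- `U` is an open subgroup of the subgroup `V` of `G` and contains a closed normal subgroup `K`
of `V` such that `V / K` has finite cohomological dimension and the algebra `𝔽_p⟦V / K⟧` has no
zero divisors. -/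
def NStep (p : ℕ) {G : Type} [Group G] [TopologicalSpace G] (V U : Subgroup G) : Prop :=
  U ≤ V ∧ IsOpen ((U.subgroupOf V : Subgroup V) : Set V) ∧
    ∃ K : Subgroup V, K.Normal ∧ IsClosed (K : Set V) ∧ K ≤ U.subgroupOf V ∧
      CD p V K ∧ NZD p V K

/-- `U` is an open subgroup of the subgroup `V` of `G`, and for every `v ∈ V` outside of `U` there
is a closed normal subgroup `K` of `V` with `v ∉ K` such that `V / K` has a finite series of
closed normal subgroups with infinite procyclic factors. -/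
def ResStep {G : Type} [Group G] [TopologicalSpace G] (V U : Subgroup G) : Prop :=
  U ≤ V ∧ IsOpen ((U.subgroupOf V : Subgroup V) : Set V) ∧
    ∀ v : V, (v : G) ∉ U → ∃ K : Subgroup V, K.Normal ∧ IsClosed (K : Set V) ∧ PolyZ V K ∧ v ∉ K

theorem nstep_nstep0 {V U : Subgroup G} (hV : IsClosed (V : Set G))
    (h : NStep p V U) : NStep0 p V U := by
  obtain ⟨hUV, hUo, N, h1, h2, h4, h7⟩ := h
  have h5 : (N.map V.subtype).subgroupOf V = N := by
    ext x
    constructor
    · rintro ⟨y, hy, hyx⟩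
      have h6 : y = x := Subtype.ext hyx
      rw [← h6]
      exact hy
    · intro hx
      exact ⟨x, hx, rfl⟩
  refine ⟨hUV, hUo, N.map V.subtype, ?_, ?_, ?_, ?_⟩
  · rintro _ ⟨x, hx, rfl⟩
    exact Subgroup.mem_subgroupOf.1 (h4 hx)
  · have h8 : ((N.map V.subtype : Subgroup G) : Set G) = Subtype.val '' (N : Set V) := rfl
    rw [h8]
    exact hV.isClosedMap_subtype_val _ h2
  · rintro v hv _ ⟨x, hx, rfl⟩
    exact ⟨⟨v, hv⟩ * x * ⟨v, hv⟩⁻¹, h1.conj_mem x hx ⟨v, hv⟩, rfl⟩
  · rw [h5]
    exact h7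

theorem res_nstep (hG : IsProP p G) {V U : Subgroup G} (hV : IsClosed (V : Set G))
    (h : ResStep V U) : NStep p V U := by
  obtain ⟨hUV, hUo, h⟩ := h
  have hVp : IsProP p V := isProP_sub hG V hV
  obtain ⟨N, h1, h2, h3, h4⟩ := exists_polyZ_le hVp (U.subgroupOf V) hUo
    (fun q hq => h q (fun hq' => hq (Subgroup.mem_subgroupOf.2 hq')))
  exact ⟨hUV, hUo, N, h1, h2, h4, polyZ hVp h3⟩

theorem main2 (hG : IsProP p G) (U : Subgroup G)
    (hU : Relation.ReflTransGen (fun V U => LiftStep p V U ∨ NStep p V U ∨ ResStep V U) ⊤ U)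
    (h : OneRelator p U) : OneRelator p G := by
  have key : IsClosed (U : Set G) ∧
      Relation.ReflTransGen (fun V U => LiftStep p V U ∨ NStep0 p V U) ⊤ U := by
    clear h
    induction hU with
    | refl => exact ⟨isClosed_univ, Relation.ReflTransGen.refl⟩
    | @tail V' U' h1 h2 ih =>
      have h3 : LiftStep p V' U' ∨ NStep0 p V' U' := by
        rcases h2 with h2 | h2 | h2
        · exact Or.inl h2
        · exact Or.inr (nstep_nstep0 ih.1 h2)
        · exact Or.inr (nstep_nstep0 ih.1 (res_nstep hG ih.1 h2))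
      exact ⟨chain_closed ih.1 h3, ih.2.tail h3⟩
  exact main hG U key.2 h

end Pool.Agent.ORD
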