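import Pool.Agent.ORD.N0

/-!
# ORD [ORD-N1a]: functions on a quotient
-/

set_option autoImplicit false

namespace Pool.Agent.ORD

open Pool.Agent.MP_6fb7ad_al

variable {p : ℕ} [Fact p.Prime] {F : Type} [Group F] [TopologicalSpace F] [IsTopologicalGroup F]

/-- Under `f ↦ f ∘ π` the space `LC p Q N` corresponds to `C1 p ⊤ (N.comap π)`: the composite of a
locally constant function with `π` is locally constant, so it is right invariant under an open
normal subgroup (`exists_open_normal` with `h = 1`). -/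
theorem comp_mem_C1 (hF : IsProP p F) {Q : Type} [Group Q] [TopologicalSpace Q] (π : F →* Q)
    (hπ : Continuous π) (N : Subgroup Q) {φ : Q → ZMod p} (hφ : φ ∈ LC p Q N) :
    (fun x => φ (π x)) ∈ C1 p ⊤ (N.comap π) := by
  have hc := hF.compact
  obtain ⟨W, hW1, hW2, hW3⟩ := exists_open_normal (fun x => φ (π x)) (hφ.1.comp_continuous hπ)
  refine ⟨fun x hx => absurd (Subgroup.mem_top x) hx, fun x v hv => ?_, W, ⟨hW1, hW2⟩,
    fun x w hw => ?_⟩
  · show φ (π (x * v)) = φ (π x)
    rw [map_mul]
    exact hφ.2 _ _ hv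
  · have h1 := hW3 w hw x 1
    rw [mul_one, mul_one] at h1
    exact h1

/-- Conversely `φ ∈ C1 p ⊤ (N.comap π)` is right invariant under the kernel of `π`, so
`φ = φ' ∘ π`, and `φ'` is locally constant since `π` is a quotient map (a continuous surjection
from a compact space to a Hausdorff space is closed, `IsClosedMap.isQuotientMap`). -/
theorem exists_LC (hF : IsProP p F) {Q : Type} [Group Q] [TopologicalSpace Q]
    [IsTopologicalGroup Q] [T2Space Q] (π : F →* Q) (hπ : Continuous π)
    (hs : Function.Surjective π) (N : Subgroup Q) {φ : F → ZMod p}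
    (hφ : φ ∈ C1 p ⊤ (N.comap π)) : ∃ φ' ∈ LC p Q N, ∀ x, φ x = φ' (π x) := by
  have hc := hF.compact
  obtain ⟨-, h2, W, hW, h3⟩ := hφ
  have hx : ∀ x, φ x = φ (Function.surjInv hs (π x)) := by
    intro x
    have h4 : x⁻¹ * Function.surjInv hs (π x) ∈ N.comap π := by
      rw [Subgroup.mem_comap, map_mul, map_inv, Function.surjInv_eq hs, inv_mul_cancel]
      exact N.one_mem
    have h5 := h2 x _ h4
    rw [mul_inv_cancel_left] at h5
    exact h5.symm
  have hlc : ∀ s : Set (ZMod p), IsOpen (φ ⁻¹' s) := by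
    intro s
    rw [isOpen_iff_forall_mem_open]
    intro x hxs
    refine ⟨(fun y => x⁻¹ * y) ⁻¹' (W : Set F), ?_, hW.2.preimage (continuous_const.mul continuous_id),
      ?_⟩
    · intro y hy
      have h5 := h3 x _ hy
      rw [mul_inv_cancel_left] at h5
      show φ y ∈ s
      rw [h5]
      exact hxs
    · show x⁻¹ * x ∈ W
      rw [inv_mul_cancel]
      exact W.one_mem
  have hq : Topology.IsQuotientMap π := hπ.isClosedMap.isQuotientMap hπ hs
  refine ⟨fun q => φ (Function.surjInv hs q), ⟨fun s => ?_, fun q n hn => ?_⟩, hx⟩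
  · rw [← hq.isOpen_preimage]
    have h6 : π ⁻¹' ((fun q => φ (Function.surjInv hs q)) ⁻¹' s) = φ ⁻¹' s := by
      ext x
      show φ (Function.surjInv hs (π x)) ∈ s ↔ φ x ∈ s
      rw [← hx]
    rw [h6]
    exact hlc s
  · obtain ⟨x, rfl⟩ := hs q
    obtain ⟨v, rfl⟩ := hs n
    show φ (Function.surjInv hs (π x * π v)) = φ (Function.surjInv hs (π x))
    rw [← map_mul, ← hx, ← hx]
    exact h2 x v hn

end Pool.Agent.ORD
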