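import Pool.Agent.ORD.Def2
import Pool.Agent.ORD.D1

/-!
# ORD [ORD-P2]: fixed vectors in quotients
-/

set_option autoImplicit false

namespace Pool.Agent.ORD

open Pool.Agent.MP_6fb7ad_al

variable {p : ℕ} [Fact p.Prime] {Q : Type} [Group Q] [TopologicalSpace Q] [IsTopologicalGroup Q]
  {N : Subgroup Q}

omit [Fact p.Prime] in
private theorem P2_top (hQ : IsProP p Q) : IsProP p (⊤ : Subgroup Q) := by
  have h1 := hQ.compact
  have h2 := hQ.t2
  have h3 := hQ.td
  refine ⟨?_, inferInstance, inferInstance, fun N' hN' hO => ?_⟩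
  · exact isCompact_iff_compactSpace.1 (isCompact_univ (X := Q))
  · obtain ⟨k, hk⟩ := hQ.pow (N'.map (Subgroup.topEquiv : (⊤ : Subgroup Q) ≃* Q).toMonoidHom)
      (hN'.map _ (Subgroup.topEquiv : (⊤ : Subgroup Q) ≃* Q).surjective) (by
        have h4 := (isOpen_univ (X := Q)).isOpenMap_subtype_val _ hO
        convert h4 using 1
        rfl)
    refine ⟨k, ?_⟩
    rw [← hk]
    exact (Subgroup.index_map_equiv N' (Subgroup.topEquiv : (⊤ : Subgroup Q) ≃* Q)).symm

/-- the action on the quotient -/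
private def P2_act (A : SmRep p Q N) (S : Submodule (ZMod p) A.M)
    (hS : ∀ q, ∀ m ∈ S, A.ρ q m ∈ S) : Q →* Module.End (ZMod p) (A.M ⧸ S) where
  toFun q := Submodule.mapQ S S (A.ρ q) (fun m hm => hS q m hm)
  map_one' := by
    refine LinearMap.ext fun x => ?_
    obtain ⟨m, rfl⟩ := Submodule.Quotient.mk_surjective S x
    rw [Submodule.mapQ_apply, map_one]
    rfl
  map_mul' a b := by
    refine LinearMap.ext fun x => ?_
    obtain ⟨m, rfl⟩ := Submodule.Quotient.mk_surjective S x
    rw [Module.End.mul_apply, Submodule.mapQ_apply, Submodule.mapQ_apply, Submodule.mapQ_apply,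
      map_mul]
    rfl

omit [IsTopologicalGroup Q] in
private theorem P2_act_mk (A : SmRep p Q N) (S : Submodule (ZMod p) A.M)
    (hS : ∀ q, ∀ m ∈ S, A.ρ q m ∈ S) (q : Q) (m : A.M) :
    P2_act A S hS q (Submodule.Quotient.mk m) = Submodule.Quotient.mk (A.ρ q m) := rfl

omit [Fact p.Prime] in
/-- open normal subgroups fixing a vector -/
private theorem P2_smooth (hQ : IsProP p Q) (A : SmRep p Q N) (m : A.M) :
    ∃ W : Subgroup Q, ON W ∧ ∀ w ∈ W, A.ρ w m = m := by
  obtain ⟨W, h1, h2⟩ := A.smooth m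
  obtain ⟨V, h3, h4, h5⟩ := exists_normal_le hQ (W : Set Q) h1 W.one_mem
  exact ⟨V, ⟨h3, h4⟩, fun w hw => h2 w (h5 hw)⟩

/-- the orbit of a vector is finite -/
private theorem P2_orbit (hQ : IsProP p Q) (A : SmRep p Q N) (m : A.M) :
    (Set.range fun q => A.ρ q m).Finite := by
  obtain ⟨V, hV, hV'⟩ := P2_smooth hQ A m
  have hVn := hV.1
  have h6 : Finite (Q ⧸ V) := (quot_fin hQ V hV.2).1
  refine (Set.finite_range fun c : Q ⧸ V => A.ρ c.out m).subset ?_
  rintro _ ⟨q, rfl⟩
  refine ⟨(QuotientGroup.mk q : Q ⧸ V), ?_⟩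
  have h7 : ((QuotientGroup.mk q : Q ⧸ V).out)⁻¹ * q ∈ V :=
    QuotientGroup.eq.1 (QuotientGroup.out_eq' _)
  have h8 := hV' _ h7
  show A.ρ (QuotientGroup.mk q : Q ⧸ V).out m = A.ρ q m
  conv_lhs => rw [← h8]
  rw [← Module.End.mul_apply, ← map_mul, mul_inv_cancel_left]

/-- Let `m₀ ∉ S` and let `T` be the span of the vectors `A.ρ q m₀`. It is finite (the stabilizer of
`m₀` is open, so it contains an open normal subgroup, of finite index in `Q`; `ZMod p` is finite)
and stable. The image `T'` of `T` in the quotient module `A.M ⧸ S` is finite, nonzero and stable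
under the induced action (`Submodule.mapQ`), which is smooth. Apply `exists_fixed` with
`E = ⊤` (an open subgroup, so `IsProP p (⊤ : Subgroup Q)`: transport along `Subgroup.topEquiv`, or
prove it directly); or redo the argument of `exists_fixed` for `T'`. -/
theorem exists_fixed_quot (hQ : IsProP p Q) (A : SmRep p Q N) (S : Submodule (ZMod p) A.M)
    (hS : ∀ q, ∀ m ∈ S, A.ρ q m ∈ S) (hne : S ≠ ⊤) : ∃ m, m ∉ S ∧ ∀ q, A.ρ q m - m ∈ S := by
  obtain ⟨m₀, hm₀⟩ : ∃ m₀, m₀ ∉ S := by
    by_contra hc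
    push Not at hc
    exact hne (eq_top_iff.2 fun m _ => hc m)
  obtain ⟨T, hT⟩ : ∃ T : Submodule (ZMod p) (A.M ⧸ S), T =
      Submodule.span (ZMod p) (Set.range fun q => (Submodule.Quotient.mk (A.ρ q m₀) : A.M ⧸ S)) :=
    ⟨_, rfl⟩
  have hfin : Finite T := by
    have h1 : (Set.range fun q => (Submodule.Quotient.mk (A.ρ q m₀) : A.M ⧸ S)).Finite := by
      have h2 := (P2_orbit hQ A m₀).image (fun m => (Submodule.Quotient.mk m : A.M ⧸ S))
      rwa [← Set.range_comp] at h2
    have h3 : Module.Finite (ZMod p) T := by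
      rw [hT]
      exact Module.Finite.span_of_finite _ h1
    exact Module.finite_of_finite (ZMod p)
  obtain ⟨x, hx, hx0, hxf⟩ := exists_fixed (P2_act A S hS) (E := ⊤) (P2_top hQ) T hfin (by
      intro a _ m hm
      rw [hT] at hm ⊢
      refine Submodule.span_induction ?_ ?_ ?_ ?_ hm
      · rintro _ ⟨q, rfl⟩
        refine Submodule.subset_span ⟨a * q, ?_⟩
        show (Submodule.Quotient.mk (A.ρ (a * q) m₀) : A.M ⧸ S) =
          P2_act A S hS a (Submodule.Quotient.mk (A.ρ q m₀))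
        rw [P2_act_mk, map_mul, Module.End.mul_apply]
      · rw [map_zero]; exact Submodule.zero_mem _
      · intro x y _ _ hx hy
        rw [map_add]; exact Submodule.add_mem _ hx hy
      · intro c x _ hx
        rw [map_smul]; exact Submodule.smul_mem _ _ hx) (by
      intro m _
      obtain ⟨m', rfl⟩ := Submodule.Quotient.mk_surjective S m
      obtain ⟨W, h1, h2⟩ := P2_smooth hQ A m'
      exact ⟨W, h1, fun w hw => by rw [P2_act_mk, h2 w hw]⟩) (by
      intro h0
      have h1 : (Submodule.Quotient.mk m₀ : A.M ⧸ S) ∈ T := by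
        rw [hT]
        refine Submodule.subset_span ⟨1, ?_⟩
        show Submodule.Quotient.mk (A.ρ 1 m₀) = _
        rw [map_one]
        rfl
      rw [h0, Submodule.mem_bot, Submodule.Quotient.mk_eq_zero] at h1
      exact hm₀ h1)
  obtain ⟨m, rfl⟩ := Submodule.Quotient.mk_surjective S x
  refine ⟨m, fun hm => hx0 ((Submodule.Quotient.mk_eq_zero S).2 hm), fun q => ?_⟩
  have h1 := hxf q (Subgroup.mem_top q)
  rw [P2_act_mk] at h1
  exact (Submodule.Quotient.eq S).1 h1

end Pool.Agent.ORD
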