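import Pool.Agent.ORD.P2

/-!
# ORD [ORD-P3]: modules with vanishing H1 are injective
-/

set_option autoImplicit false

namespace Pool.Agent.ORD

open Pool.Agent.MP_6fb7ad_al

variable {p : ℕ} [Fact p.Prime] {Q : Type} [Group Q] [TopologicalSpace Q] [IsTopologicalGroup Q]
  {N : Subgroup Q}

/-- the graph of an equivariant partial linear map -/
private structure ORDP3_G (I A : SmRep p Q N) (Γ : Submodule (ZMod p) (A.M × I.M)) : Prop where
  uniq : ∀ y, ((0 : A.M), y) ∈ Γ → y = 0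
  stab : ∀ q, ∀ z ∈ Γ, (A.ρ q z.1, I.ρ q z.2) ∈ Γ

private theorem ORDP3_uniq {I A : SmRep p Q N} {Γ : Submodule (ZMod p) (A.M × I.M)}
    (h : ORDP3_G I A Γ) {m : A.M} {y y' : I.M} (h1 : (m, y) ∈ Γ) (h2 : (m, y') ∈ Γ) : y = y' := by
  have h3 := Γ.sub_mem h1 h2
  rw [Prod.mk_sub_mk, sub_self] at h3
  exact sub_eq_zero.1 (h.uniq _ h3)

/-- one more vector -/
private theorem ORDP3_step (hQ : IsProP p Q) (I A : SmRep p Q N) (hI : H1v I)
    {Γ : Submodule (ZMod p) (A.M × I.M)} (h : ORDP3_G I A Γ)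
    (hne : Γ.map (LinearMap.fst (ZMod p) A.M I.M) ≠ ⊤) :
    ∃ Γ' : Submodule (ZMod p) (A.M × I.M), ORDP3_G I A Γ' ∧ Γ ≤ Γ' ∧ ¬ Γ' ≤ Γ := by
  obtain ⟨m, hm, hq⟩ := exists_fixed_quot hQ A (Γ.map (LinearMap.fst (ZMod p) A.M I.M)) (by
    rintro q _ ⟨z, hz, rfl⟩
    exact ⟨_, h.stab q z hz, rfl⟩) hne
  have hy : ∀ q, ∃ y, (A.ρ q m - m, y) ∈ Γ := by
    intro q
    obtain ⟨⟨a, y⟩, hz, hz2⟩ := hq q
    have hz3 : a = A.ρ q m - m := hz2
    rw [← hz3]
    exact ⟨y, hz⟩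
  choose z hz using hy
  have hz1 : ∀ q r, z (q * r) = z q + I.ρ q (z r) := by
    intro q r
    have h1 := Γ.add_mem (hz q) (h.stab q _ (hz r))
    refine ORDP3_uniq h (hz (q * r)) ?_
    rw [Prod.mk_add_mk] at h1
    have h2 : A.ρ q m - m + A.ρ q (A.ρ r m - m) = A.ρ (q * r) m - m := by
      rw [map_mul, Module.End.mul_apply, map_sub]
      abel
    rw [← h2]
    exact h1
  have hz0 : ∀ q, A.ρ q m = m → z q = 0 := by
    intro q h1
    have h2 := hz q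
    rw [h1, sub_self] at h2
    exact h.uniq _ h2
  obtain ⟨x, hx⟩ := hI z hz1 (by
    obtain ⟨W, h1, h2⟩ := A.smooth m
    exact ⟨W, h1, fun w hw => hz0 w (h2 w hw)⟩) (by
    intro n hn
    apply hz0
    rw [A.triv n hn]
    rfl)
  refine ⟨Γ ⊔ Submodule.span (ZMod p) {(m, x)}, ⟨?_, ?_⟩, le_sup_left, ?_⟩
  · intro y h1
    obtain ⟨⟨a, b⟩, hg, c, hc, hgc⟩ := Submodule.mem_sup.1 h1
    obtain ⟨t, rfl⟩ := Submodule.mem_span_singleton.1 hc
    rw [Prod.smul_mk, Prod.mk_add_mk, Prod.mk.injEq] at hgc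
    by_cases ht : t = 0
    · subst ht
      rw [zero_smul, zero_smul, add_zero, add_zero] at hgc
      rw [← hgc.2]
      apply h.uniq
      rw [← hgc.1]
      exact hg
    · exfalso
      apply hm
      have h2 : m = -(t⁻¹ • a) := by
        have h3 : a = -(t • m) := eq_neg_of_add_eq_zero_left hgc.1
        rw [h3, smul_neg, neg_neg, smul_smul, inv_mul_cancel₀ ht, one_smul]
      rw [h2]
      refine Submodule.neg_mem _ (Submodule.smul_mem _ _ ⟨(a, b), hg, rfl⟩)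
  · intro q w hw
    obtain ⟨g, hg, c, hc, rfl⟩ := Submodule.mem_sup.1 hw
    obtain ⟨t, rfl⟩ := Submodule.mem_span_singleton.1 hc
    have h1 : (A.ρ q (g + t • (m, x)).1, I.ρ q (g + t • (m, x)).2) =
        (A.ρ q g.1, I.ρ q g.2) + t • ((A.ρ q m - m, z q) + (m, x)) := by
      rw [hx q]
      ext
      · simp
      · simp
    rw [h1]
    refine Submodule.add_mem _ (Submodule.mem_sup_left (h.stab q g hg)) ?_
    refine Submodule.smul_mem _ _ (Submodule.add_mem _ (Submodule.mem_sup_left (hz q)) ?_)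
    exact Submodule.mem_sup_right (Submodule.mem_span_singleton_self _)
  · intro h1
    apply hm
    have h2 : (m, x) ∈ Γ := h1 (Submodule.mem_sup_right (Submodule.mem_span_singleton_self _))
    exact ⟨_, h2, rfl⟩

/-- Zorn's lemma for the partial linear maps `A.M →ₗ.[ZMod p] I.M` (`LinearPMap`) extending `f`
whose domain is stable and that are equivariant (chains: `LinearPMap.sSup`). Let `g` be maximal
with domain `S'`; suppose `S' ≠ ⊤`. By `exists_fixed_quot` there is `m ∉ S'` with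
`A.ρ q m - m ∈ S'` for all `q`. Then `z q = g (A.ρ q m - m)` is a cocycle of `Q` with values in
`I` (`A.ρ (q * r) m - m = A.ρ q (A.ρ r m - m) + (A.ρ q m - m)`) vanishing on `N` and on an open
subgroup; by `hI` there is `x` with `z q = I.ρ q x - x` for all `q`. Extend `g` to
`S' ⊔ span {m}` by `m ↦ x` (`LinearPMap.supSpanSingleton`): this is equivariant, a
contradiction. -/
theorem inj_ext (hQ : IsProP p Q) (I A : SmRep p Q N) (hI : H1v I) (S : Submodule (ZMod p) A.M)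
    (hS : ∀ q, ∀ m ∈ S, A.ρ q m ∈ S) (f : S →ₗ[ZMod p] I.M)
    (hf : ∀ q, ∀ m : S, f ⟨A.ρ q m, hS q m m.2⟩ = I.ρ q (f m)) :
    ∃ g : A.M →ₗ[ZMod p] I.M, (∀ q m, g (A.ρ q m) = I.ρ q (g m)) ∧ ∀ m : S, g m = f m := by
  classical
  -- the graph of `f`
  obtain ⟨Γ₀, hΓ₀⟩ : ∃ Γ₀ : Submodule (ZMod p) (A.M × I.M), Γ₀ = (LinearMap.range
      (S.subtype.prod f)) := ⟨_, rfl⟩
  have h0 : ORDP3_G I A Γ₀ := by
    subst hΓ₀
    constructor
    · rintro y ⟨m, hm⟩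
      have h1 : (m : A.M) = 0 := congrArg Prod.fst hm
      have h2 : f m = y := congrArg Prod.snd hm
      have h3 : m = 0 := Subtype.ext h1
      rw [← h2, h3, map_zero]
    · rintro q z ⟨m, rfl⟩
      refine ⟨⟨A.ρ q m, hS q m m.2⟩, ?_⟩
      exact Prod.ext rfl (hf q m)
  obtain ⟨Γ, hle, hmax⟩ := zorn_le_nonempty₀ {Γ | ORDP3_G I A Γ} (by
    intro c hc hch y hy
    have hdir : DirectedOn (· ≤ ·) c := hch.directedOn
    refine ⟨sSup c, ⟨?_, ?_⟩, fun z hz => le_sSup hz⟩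
    · intro b hb
      obtain ⟨Γ', h1, h2⟩ := (Submodule.mem_sSup_of_directed ⟨y, hy⟩ hdir).1 hb
      exact (hc h1).uniq b h2
    · intro q z hz
      obtain ⟨Γ', h1, h2⟩ := (Submodule.mem_sSup_of_directed ⟨y, hy⟩ hdir).1 hz
      exact (Submodule.mem_sSup_of_directed ⟨y, hy⟩ hdir).2 ⟨Γ', h1, (hc h1).stab q z h2⟩)
    Γ₀ h0
  have hΓ : ORDP3_G I A Γ := hmax.prop
  have htop : Γ.map (LinearMap.fst (ZMod p) A.M I.M) = ⊤ := by
    by_contra hne
    obtain ⟨Γ', h1, h2, h3⟩ := ORDP3_step hQ I A hI hΓ hne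
    exact h3 (hmax.le_of_ge h1 h2)
  have hex : ∀ m : A.M, ∃ y, (m, y) ∈ Γ := by
    intro m
    have h1 : m ∈ Γ.map (LinearMap.fst (ZMod p) A.M I.M) := by
      rw [htop]
      exact Submodule.mem_top
    obtain ⟨⟨a, y⟩, hz, hz2⟩ := h1
    have hz3 : a = m := hz2
    rw [← hz3]
    exact ⟨y, hz⟩
  choose g hg using hex
  refine ⟨{ toFun := g, map_add' := ?_, map_smul' := ?_ }, ?_, ?_⟩
  · intro a b
    exact ORDP3_uniq hΓ (hg (a + b)) (Γ.add_mem (hg a) (hg b))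
  · intro c a
    exact ORDP3_uniq hΓ (hg (c • a)) (Γ.smul_mem c (hg a))
  · intro q m
    exact ORDP3_uniq hΓ (hg (A.ρ q m)) (hΓ.stab q _ (hg m))
  · intro m
    refine ORDP3_uniq hΓ (hg m) (hle ?_)
    rw [hΓ₀]
    exact ⟨m, rfl⟩

end Pool.Agent.ORD
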