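import Pool.Agent.ORD.P1
import Pool.Agent.ORD.P3

/-!
# ORD [ORD-P4]: surjectivity of b - 1 on acyclic modules
-/

set_option autoImplicit false

namespace Pool.Agent.ORD

open Pool.Agent.MP_6fb7ad_al

variable {p : ℕ} [Fact p.Prime] {Q : Type} [Group Q] [TopologicalSpace Q] [IsTopologicalGroup Q]
  {N : Subgroup Q}

/-- Let `C = CC I`, the module of functions `Q → I`, and `ι m = fun q => I.ρ q m`, an injective
equivariant map `I → C` (`ι m` is right invariant under `N` and under an open normal subgroup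
fixing `m`: the stabilizer of `m` is open, `exists_normal_le`). Its range `S` is stable; let
`f : S → I` be the inverse of `ι` (`LinearEquiv.ofInjective`); by `inj_ext` it extends to an
equivariant `g : C → I`. Given `m`, take `ψ` from `flm` for `φ = ι m`; then `m' = g ψ` satisfies
`I.ρ b m' - m' = g (C.ρ b ψ - ψ) = g (ι m) = m`. -/
theorem b_onto (hQ : IsProP p Q) (hN : N.Normal) (hNc : IsClosed (N : Set Q)) (b : Q)
    (hb : ∀ m : ℕ, 0 < m → b ^ m ∉ N) (I : SmRep p Q N) (hI : H1v I) (m : I.M) :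
    ∃ m', I.ρ b m' - m' = m := by
  have hι : ∀ m : I.M, (fun q => I.ρ q m) ∈ CCs I := by
    intro m
    refine ⟨fun x n hn => ?_, ?_⟩
    · show I.ρ (x * n) m = I.ρ x m
      rw [map_mul, Module.End.mul_apply, I.triv n hn, Module.End.one_apply]
    · obtain ⟨W, h1, h2⟩ := I.smooth m
      obtain ⟨W', hn, ho, hle⟩ := exists_normal_le hQ (W : Set Q) h1 W.one_mem
      refine ⟨W', ⟨hn, ho⟩, fun x w hw => ?_⟩
      show I.ρ (x * w) m = I.ρ x m
      rw [map_mul, Module.End.mul_apply, h2 w (hle hw)]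
  let ι : I.M →ₗ[ZMod p] (CC I hN).M :=
    { toFun := fun m => (⟨fun q => I.ρ q m, hι m⟩ : CCs I)
      map_add' := by
        intro x y
        refine Subtype.ext (funext fun q => ?_)
        exact map_add (I.ρ q) x y
      map_smul' := by
        intro c x
        refine Subtype.ext (funext fun q => ?_)
        exact map_smul (I.ρ q) c x }
  have hιv : ∀ (m : I.M) (x : Q), (ι m : CCs I).1 x = I.ρ x m := fun _ _ => rfl
  have hinj : Function.Injective ι := by
    intro x y hxy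
    have h1 := hιv x 1
    rw [hxy, hιv y 1, map_one, Module.End.one_apply, Module.End.one_apply] at h1
    exact h1.symm
  have hιe : ∀ (q : Q) (m : I.M), (CC I hN).ρ q (ι m) = ι (I.ρ q m) := by
    intro q m
    refine Subtype.ext (funext fun x => ?_)
    show I.ρ (x * q) m = I.ρ x (I.ρ q m)
    rw [map_mul, Module.End.mul_apply]
  have hS : ∀ q, ∀ m ∈ LinearMap.range ι, (CC I hN).ρ q m ∈ LinearMap.range ι := by
    rintro q _ ⟨m, rfl⟩
    exact ⟨I.ρ q m, (hιe q m).symm⟩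
  let e : I.M ≃ₗ[ZMod p] LinearMap.range ι := LinearEquiv.ofInjective ι hinj
  have he : ∀ m : I.M, e.symm ⟨ι m, ⟨m, rfl⟩⟩ = m := fun m => e.symm_apply_apply m
  obtain ⟨g, hg1, hg2⟩ := inj_ext hQ I (CC I hN) hI (LinearMap.range ι) hS e.symm.toLinearMap (by
    rintro q ⟨_, ⟨m, rfl⟩⟩
    have h1 : (⟨(CC I hN).ρ q (ι m), hS q _ ⟨m, rfl⟩⟩ : LinearMap.range ι) =
        ⟨ι (I.ρ q m), ⟨I.ρ q m, rfl⟩⟩ := Subtype.ext (hιe q m)
    show e.symm ⟨(CC I hN).ρ q (ι m), _⟩ = I.ρ q (e.symm ⟨ι m, ⟨m, rfl⟩⟩)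
    rw [h1, he, he])
  obtain ⟨ψ, h1, h2, h3⟩ := flm hQ hN hNc b hb (fun q => I.ρ q m) (hι m).1 (hι m).2
  let Ψ : (CC I hN).M := (⟨ψ, h1, h2⟩ : CCs I)
  refine ⟨g Ψ, ?_⟩
  rw [← hg1, ← map_sub]
  have h4 : (CC I hN).ρ b Ψ - Ψ = ι m := Subtype.ext (funext fun x => h3 x)
  rw [h4]
  have h5 := hg2 ⟨ι m, ⟨m, rfl⟩⟩
  rw [h5]
  exact he m

end Pool.Agent.ORD
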