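import Pool.Agent.ORD.Def2

/-!
# ORD [ORD-P5]: invariants and cohomology
-/

set_option autoImplicit false

namespace Pool.Agent.ORD

open Pool.Agent.MP_6fb7ad_al

variable {p : ℕ} [Fact p.Prime] {Q : Type} [Group Q] [TopologicalSpace Q] [IsTopologicalGroup Q]
  {N : Subgroup Q}

/-- The stabilizer of `m` is a subgroup that contains an open subgroup, so it is open and closed
(`Subgroup.isOpen_mono`, `Subgroup.isClosed_of_isOpen`). -/
theorem fix_of_gen {N₁ : Subgroup Q} {b : Q} (hz : Zst N N₁ b) (A : SmRep p Q N) (m : A.M)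
    (hm : A.ρ b m = m) : ∀ n ∈ N₁, A.ρ n m = m := by
  let H : Subgroup Q :=
    { carrier := {x | A.ρ x m = m}
      one_mem' := by
        show A.ρ 1 m = m
        rw [map_one]
        rfl
      mul_mem' := by
        intro x y hx hy
        show A.ρ (x * y) m = m
        rw [map_mul, Module.End.mul_apply, hy, hx]
      inv_mem' := by
        intro x hx
        show A.ρ x⁻¹ m = m
        have h1 : A.ρ x⁻¹ (A.ρ x m) = m := by
          rw [← Module.End.mul_apply, ← map_mul, inv_mul_cancel, map_one]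
          rfl
        have h2 : A.ρ x m = m := hx
        rwa [h2] at h1 }
  obtain ⟨W, hW, hW'⟩ := A.smooth m
  have hop : IsOpen (H : Set Q) := Subgroup.isOpen_mono (fun w hw => hW' w hw) hW
  have hle := hz.2.2 H (Subgroup.isClosed_of_isOpen H hop)
    (fun n hn => by
      show A.ρ n m = m
      rw [A.triv n hn]
      rfl) hm
  exact fun n hn => hle hn

/-- A cocycle with values in the fixed vectors that vanishes on `N₁` is principal in `I`:
`z q = I.ρ q m - m`; for `n ∈ N₁` this says that `m` is fixed by `N₁`. -/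
theorem h1v_invN {N₁ : Subgroup Q} (hN₁ : N₁.Normal) (hle : N ≤ N₁) (I : SmRep p Q N)
    (hI : H1v I) : H1v (invN I N₁ hN₁) := by
  intro z hz hW hn
  let z' : Q → I.M := fun q => (z q : fixM I N₁).1
  have hz' : ∀ f g, z' (f * g) = z' f + I.ρ f (z' g) := by
    intro f g
    exact congrArg Subtype.val (hz f g)
  obtain ⟨W, hW1, hW2⟩ := hW
  obtain ⟨m, hm⟩ := hI z' hz' ⟨W, hW1, fun w hw => congrArg Subtype.val (hW2 w hw)⟩
    (fun n hn' => congrArg Subtype.val (hn n (hle hn')))
  have hmf : m ∈ fixM I N₁ := by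
    intro n hn'
    have h1 := hm n
    have h2 : z' n = 0 := congrArg Subtype.val (hn n hn')
    rw [h2] at h1
    exact (sub_eq_zero.1 h1.symm)
  exact ⟨⟨m, hmf⟩, fun f => Subtype.ext (hm f)⟩

/-- Let `z` be a cocycle, `z b = A.ρ b a - a` by `hb`; replace `z` by
`z' q = z q - (A.ρ q a - a)`. The set of all `x` with `z' x = 0` is a subgroup; it contains an
open subgroup (where `z` vanishes and that fixes `a`), so it is closed; it contains `N` and `b`,
so it contains `N₁`. Then `z' q` is fixed by `N₁`: for `n ∈ N₁`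
`z' (n * q) = z' n + A.ρ n (z' q) = A.ρ n (z' q)` and `z' (q * (q⁻¹ * n * q)) = z' q`. So `z'` is
a cocycle with values in `invN A N₁` vanishing on `N₁`. -/
theorem h1v_of_invN {N₁ : Subgroup Q} (hN₁ : N₁.Normal) {b : Q} (hz : Zst N N₁ b)
    (A : SmRep p Q N) (hb : ∀ m : A.M, ∃ m', A.ρ b m' - m' = m) (h : H1v (invN A N₁ hN₁)) :
    H1v A := by
  intro z hzc hW hn
  obtain ⟨a, ha⟩ := hb (z b)
  let z' : Q → A.M := fun q => z q - (A.ρ q a - a)
  have hz'd : ∀ q, z' q = z q - (A.ρ q a - a) := fun _ => rfl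
  have hz' : ∀ f g, z' (f * g) = z' f + A.ρ f (z' g) := by
    intro f g
    rw [hz'd, hz'd, hz'd, hzc, map_mul, Module.End.mul_apply, map_sub, map_sub]
    abel
  have hz'1 : z' 1 = 0 := by
    have h1 := hz' 1 1
    rw [one_mul, map_one] at h1
    have h2 : z' 1 = z' 1 + z' 1 := h1
    exact (left_eq_add.1 h2)
  let H : Subgroup Q :=
    { carrier := {x | z' x = 0}
      one_mem' := hz'1
      mul_mem' := by
        intro x y hx hy
        show z' (x * y) = 0
        have hx' : z' x = 0 := hx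
        have hy' : z' y = 0 := hy
        rw [hz', hx', hy', map_zero, add_zero]
      inv_mem' := by
        intro x hx
        show z' x⁻¹ = 0
        have hx' : z' x = 0 := hx
        have h1 := hz' x⁻¹ x
        rw [inv_mul_cancel, hz'1, hx', map_zero, add_zero] at h1
        exact h1.symm }
  obtain ⟨W₁, hW1, hW2⟩ := hW
  obtain ⟨W₂, hW3, hW4⟩ := A.smooth a
  have hop : IsOpen (H : Set Q) := by
    refine Subgroup.isOpen_mono (H₁ := W₁ ⊓ W₂) ?_ (hW1.inter hW3)
    intro w hw
    show z' w = 0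
    rw [hz'd, hW2 w hw.1, hW4 w hw.2, sub_self, sub_self]
  have hle : N₁ ≤ H := by
    refine hz.2.2 H (Subgroup.isClosed_of_isOpen H hop) (fun n hn' => ?_) ?_
    · show z' n = 0
      rw [hz'd, hn n hn', A.triv n hn']
      show (0 : A.M) - (a - a) = 0
      rw [sub_self, sub_self]
    · show z' b = 0
      rw [hz'd, ha, sub_self]
  have hfix : ∀ q, z' q ∈ fixM A N₁ := by
    intro q n hn'
    have h1 : z' n = 0 := hle hn'
    have h2 := hz' n q
    rw [h1, zero_add] at h2
    have h3 : q⁻¹ * n * q ∈ N₁ := by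
      have := hN₁.conj_mem n hn' q⁻¹
      rwa [inv_inv] at this
    have h4 : z' (q⁻¹ * n * q) = 0 := hle h3
    have h5 := hz' q (q⁻¹ * n * q)
    rw [h4, map_zero, add_zero] at h5
    have h6 : q * (q⁻¹ * n * q) = n * q := by group
    rw [h6] at h5
    rw [← h2, h5]
  obtain ⟨m, hm⟩ := h (fun q => (⟨z' q, hfix q⟩ : fixM A N₁))
    (fun f g => Subtype.ext (hz' f g))
    ⟨W₁ ⊓ W₂, hW1.inter hW3, fun w hw => Subtype.ext (by
      show z' w = 0
      rw [hz'd, hW2 w hw.1, hW4 w hw.2, sub_self, sub_self])⟩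
    (fun n hn' => Subtype.ext (hle hn'))
  refine ⟨(m : fixM A N₁).1 + a, fun f => ?_⟩
  have h1 : z' f = A.ρ f (m : fixM A N₁).1 - (m : fixM A N₁).1 := congrArg Subtype.val (hm f)
  have h2 := hz'd f
  rw [h1] at h2
  rw [map_add]
  have h3 : z f = A.ρ f (m : fixM A N₁).1 - (m : fixM A N₁).1 + (A.ρ f a - a) := by
    rw [h2]
    abel
  rw [h3]
  abel

end Pool.Agent.ORD
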