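import Pool.Agent.ORD.P5

/-!
# ORD [ORD-P6]: cosyzygies and invariants
-/

set_option autoImplicit false

namespace Pool.Agent.ORD

open Pool.Agent.MP_6fb7ad_al

variable {p : ℕ} [Fact p.Prime] {Q : Type} [Group Q] [TopologicalSpace Q] [IsTopologicalGroup Q]
  {N : Subgroup Q}

/-- Induction over `n`. `n = 0`: `Cz 0` is always true. Step: `0 → B → I → A → 0` is exact with
`Cz (n + 1) B`, so `b - 1` is onto on `B`: as `Cz (n + 1) B` gives a surjection `I' → B` with
`H1v I'`, this follows from `hon`. The sequence `0 → invN B → invN I → invN A → 0` is exact: if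
`a ∈ A` is fixed by `N₁`, let `x ∈ I` be a preimage; `I.ρ b x - x = i y'`, `y' = B.ρ b y - y`, and
`x - i y` is fixed by `b`, hence by `N₁` (`fix_of_gen`), and maps to `a`. Use `h1v_invN` for `I`
and the induction hypothesis for `B`. -/
theorem cz_invN {N₁ : Subgroup Q} (hN₁ : N₁.Normal) (hle : N ≤ N₁) {b : Q} (hz : Zst N N₁ b)
    (hon : ∀ I : SmRep p Q N, H1v I → ∀ m : I.M, ∃ m', I.ρ b m' - m' = m) (n : ℕ)
    (A : SmRep p Q N) (hA : Cz (n + 1) A) : Cz n (invN A N₁ hN₁) := by
  induction n generalizing A with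
  | zero => exact trivial
  | succ n ih =>
    obtain ⟨B, I, i, j, hi, hj, hinj, hsur, hex, hI, hB⟩ := hA
    have honB : ∀ m : B.M, ∃ m', B.ρ b m' - m' = m := by
      obtain ⟨B₂, I₂, i₂, j₂, hi₂, hj₂, hinj₂, hsur₂, hex₂, hI₂, hB₂⟩ := hB
      intro m
      obtain ⟨x, hx⟩ := hsur₂ m
      obtain ⟨x', hx'⟩ := hon I₂ hI₂ x
      refine ⟨j₂ x', ?_⟩
      rw [← hj₂, ← map_sub, hx', hx]
    let i' : fixM B N₁ →ₗ[ZMod p] fixM I N₁ := i.restrict (p := fixM B N₁) (q := fixM I N₁) (by
      intro m hm k hk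
      rw [← hi, hm k hk])
    let j' : fixM I N₁ →ₗ[ZMod p] fixM A N₁ := j.restrict (p := fixM I N₁) (q := fixM A N₁) (by
      intro m hm k hk
      rw [← hj, hm k hk])
    refine ⟨invN B N₁ hN₁, invN I N₁ hN₁, i', j', fun f m => Subtype.ext (hi f m.1),
      fun f m => Subtype.ext (hj f m.1), ?_, ?_, ?_, h1v_invN hN₁ hle I hI, ih B hB⟩
    · intro m m' h
      have h1 : i (m : fixM B N₁).1 = i (m' : fixM B N₁).1 := congrArg Subtype.val h
      exact Subtype.ext (hinj h1)
    · intro a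
      let a' : fixM A N₁ := a
      obtain ⟨x, hx⟩ := hsur a'.1
      have h1 : j (I.ρ b x - x) = 0 := by
        rw [map_sub, hj, hx, a'.2 b hz.1, sub_self]
      obtain ⟨y', hy'⟩ := (hex _).1 h1
      obtain ⟨y, hy⟩ := honB y'
      have h2 : I.ρ b (x - i y) = x - i y := by
        have h3 : I.ρ b x = x + i (B.ρ b y - y) := by
          rw [hy, hy']
          abel
        rw [map_sub, ← hi, h3, map_sub]
        abel
      have h3 := fix_of_gen hz I (x - i y) h2
      refine ⟨(⟨x - i y, h3⟩ : fixM I N₁), Subtype.ext ?_⟩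
      show j (x - i y) = a'.1
      rw [map_sub, hx, (hex (i y)).2 ⟨y, rfl⟩, sub_zero]
    · intro m
      let m' : fixM I N₁ := m
      constructor
      · intro h
        have h1 : j m'.1 = 0 := congrArg Subtype.val h
        obtain ⟨y, hy⟩ := (hex _).1 h1
        have h2 : y ∈ fixM B N₁ := by
          intro k hk
          apply hinj
          rw [hi, hy]
          exact m'.2 k hk
        exact ⟨(⟨y, h2⟩ : fixM B N₁), Subtype.ext hy⟩
      · rintro ⟨y, hy⟩
        rw [← hy]
        apply Subtype.ext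
        exact (hex (i (y : fixM B N₁).1)).2 ⟨_, rfl⟩

end Pool.Agent.ORD
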