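import Pool.Agent.ORD.P6
import Pool.Agent.ORD.P4

/-!
# ORD [ORD-P7]: cohomological dimension of extensions
-/

set_option autoImplicit false

namespace Pool.Agent.ORD

open Pool.Agent.MP_6fb7ad_al

variable {p : ℕ} [Fact p.Prime] {Q : Type} [Group Q] [TopologicalSpace Q] [IsTopologicalGroup Q]
  {N : Subgroup Q}

theorem cd_top : CD p Q ⊤ := by
  refine ⟨0, fun A _ z _ _ h3 => ⟨0, fun f => ?_⟩⟩
  rw [h3 f (Subgroup.mem_top f), map_zero, sub_zero]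

theorem cd_step (hQ : IsProP p Q) (hN : N.Normal) (hNc : IsClosed (N : Set Q)) {N₁ : Subgroup Q}
    (hN₁ : N₁.Normal) (hle : N ≤ N₁) {b : Q} (hz : Zst N N₁ b) (h : CD p Q N₁) : CD p Q N := by
  obtain ⟨n, hn⟩ := h
  have hon : ∀ I : SmRep p Q N, H1v I → ∀ m : I.M, ∃ m', I.ρ b m' - m' = m :=
    fun I hI m => b_onto hQ hN hNc b hz.2.1 I hI m
  refine ⟨n + 1, fun A hA => ?_⟩
  have h1 := cz_invN hN₁ hle hz hon n A hA
  obtain ⟨B, I, i, j, h2, h3, h4, h5, h6, h7, h8⟩ := hA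
  refine h1v_of_invN hN₁ hz A (fun m => ?_) (hn _ h1)
  obtain ⟨x, rfl⟩ := h5 m
  obtain ⟨y, rfl⟩ := hon I h7 x
  exact ⟨j y, by rw [map_sub, h3]⟩

end Pool.Agent.ORD
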