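import Pool.Agent.ORD.Def2

/-!
# ORD [ORD-R1]: Shapiro, first direction
-/

set_option autoImplicit false

namespace Pool.Agent.ORD

open Pool.Agent.MP_6fb7ad_al

variable {p : ℕ} [Fact p.Prime] {Q : Type} [Group Q] [TopologicalSpace Q] [IsTopologicalGroup Q]
  {N : Subgroup Q}

/-- Let `z` be a cocycle of `Q` with values in `CO j hN A`. Then `c h = (z (j h)).1 1` is a cocycle
of `P` with values in `A`: `(z (j h * j h')).1 1 = (z (j h)).1 1 + (z (j h')).1 (1 * j h)` and
`(z (j h')).1 (j h * 1) = A.ρ h ((z (j h')).1 1)`. So `c h = A.ρ h m - m` for some `m`. Let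
`φ q = m + (z q).1 1`. It is in `COs j A`: `(z (j h * q)).1 1 = c h + A.ρ h ((z q).1 1)`; for
`n ∈ N`: `z (q * n) = z q + ρ q (z n) = z q`; for the open normal subgroup: `z` vanishes on an open
subgroup, which contains an open normal one (`exists_normal_le`). And
`φ (q * f) - φ q = (z (q * f) - z q).1 1 = (ρ q (z f)).1 1 = (z f).1 q`. -/
theorem h1v_CO (hQ : IsProP p Q) (hN : N.Normal) {P : Type} [Group P] [TopologicalSpace P]
    [IsTopologicalGroup P] (j : P →* Q) (hj : Continuous j) (A : SmRep p P (N.comap j))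
    (hA : H1v A) : H1v (CO j hN A) := by
  intro z hz hzW hzN
  have hz1 : ∀ f g x, (z (f * g)).1 x = (z f).1 x + (z g).1 (x * f) := by
    intro f g x
    have h1 := congrArg (fun φ : COs j A => φ.1 x) (hz f g)
    exact h1
  have hz0 : ∀ f h q, (z f).1 (j h * q) = A.ρ h ((z f).1 q) := fun f h q => (z f).2.1 h q
  obtain ⟨W₀, hW₀, hzW⟩ := hzW
  obtain ⟨W, hWn, hWo, hWle⟩ := exists_normal_le hQ (W₀ : Set Q) hW₀ W₀.one_mem
  have hzW1 : ∀ w ∈ W, ∀ x, (z w).1 x = 0 := by
    intro w hw x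
    have h1 : z w = 0 := hzW w (hWle hw)
    rw [h1]
    rfl
  have hzN1 : ∀ n ∈ N, ∀ x, (z n).1 x = 0 := by
    intro n hn x
    have h1 : z n = 0 := hzN n hn
    rw [h1]
    rfl
  obtain ⟨m, hm⟩ := hA (fun h => (z (j h)).1 1) (by
    intro h h'
    show (z (j (h * h'))).1 1 = (z (j h)).1 1 + A.ρ h ((z (j h')).1 1)
    rw [map_mul, hz1, one_mul, ← hz0, mul_one]) ⟨W₀.comap j, hW₀.preimage hj, by
      intro w hw
      show (z (j w)).1 1 = 0
      have h1 : z (j w) = 0 := hzW (j w) hw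
      rw [h1]
      rfl⟩ (by
      intro n hn
      exact hzN1 (j n) hn 1)
  have hφ : (fun q => m + (z q).1 1) ∈ COs j A := by
    refine ⟨fun h q => ?_, fun x n hn => ?_, W, ⟨hWn, hWo⟩, fun x w hw => ?_⟩
    · show m + (z (j h * q)).1 1 = A.ρ h (m + (z q).1 1)
      have h1 := hm h
      have h2 : (z (j h)).1 1 = A.ρ h m - m := h1
      rw [hz1, one_mul, h2, map_add]
      have h3 := hz0 q h 1
      rw [mul_one] at h3
      rw [h3]
      abel
    · show m + (z (x * n)).1 1 = m + (z x).1 1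
      rw [hz1, hzN1 n hn, add_zero]
    · show m + (z (x * w)).1 1 = m + (z x).1 1
      rw [hz1, hzW1 w hw, add_zero]
  refine ⟨⟨_, hφ⟩, fun f => ?_⟩
  apply Subtype.ext
  funext q
  show (z f).1 q = (m + (z (q * f)).1 1) - (m + (z q).1 1)
  rw [hz1, one_mul]
  abel

end Pool.Agent.ORD
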