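import Pool.Agent.ORD.Def2

/-!
# ORD [ORD-R2]: Shapiro, second direction
-/

set_option autoImplicit false

namespace Pool.Agent.ORD

open Pool.Agent.MP_6fb7ad_al

variable {p : ℕ} [Fact p.Prime] {Q : Type} [Group Q] [TopologicalSpace Q] [IsTopologicalGroup Q]
  {N : Subgroup Q}

omit [TopologicalSpace Q] [IsTopologicalGroup Q] in
/-- representatives of the right cosets of an open subgroup, as a section -/
theorem R2_sec {P : Type} [Group P] (j : P →* Q) (hi : Function.Injective j) {E : Subgroup Q}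
    (hEj : ∀ q, q ∈ E ↔ ∃ x, j x = q) :
    ∃ η : Q → P, ∀ h q, η (j h * q) = h * η q := by
  classical
  set σ : Q → Q := fun q => (Quotient.mk (QuotientGroup.rightRel E) q).out with hσ
  have h1 : ∀ q, q * (σ q)⁻¹ ∈ E := by
    intro q
    have h2 : (QuotientGroup.rightRel E) (σ q) q := Quotient.mk_out (s := QuotientGroup.rightRel E) q
    rw [QuotientGroup.rightRel_apply] at h2
    exact h2
  have h2 : ∀ q, ∃ x, j x = q * (σ q)⁻¹ := fun q => (hEj _).1 (h1 q)
  choose η hη using h2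
  refine ⟨η, fun h q => hi ?_⟩
  have h3 : σ (j h * q) = σ q := by
    rw [hσ]
    simp only
    congr 1
    apply Quotient.sound
    show (QuotientGroup.rightRel E) (j h * q) q
    rw [QuotientGroup.rightRel_apply]
    have : q * (j h * q)⁻¹ = (j h)⁻¹ := by group
    rw [this]
    exact E.inv_mem ((hEj _).2 ⟨h, rfl⟩)
  rw [hη, map_mul, hη, h3, mul_assoc]

/-- Let `c` be a cocycle of `P` with values in `A`. Every `q : Q` is `j h * σ q` with
`σ (j h * q) = σ q` (`σ` picks representatives of the right cosets of `E`); let `ψ q = c h`. Then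
`ψ (j h * q) = c h + A.ρ h (ψ q)`. There is an open normal subgroup `W` of `Q` with
`ψ (q * w) = ψ q` for all `q` and `w ∈ W`: `c` vanishes on an open normal subgroup `W₁` of `P`, so
it takes finitely many values, which are all fixed by an open normal subgroup `W₂` of `P`;
`j` is a homeomorphism onto the open subgroup `E` (`P` compact, `Q` Hausdorff), so `(W₁ ⊓ W₂).map j`
is open in `Q` and contains an open normal subgroup `W` of `Q`; then `q * w = (q * w * q⁻¹) * q`
with `q * w * q⁻¹ = j h`, `h ∈ W₁ ⊓ W₂`. Similarly `ψ (q * n) = ψ q` for `n ∈ N`.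
Let `z f = fun q => ψ (q * f) - ψ q`; this is an element of `COs j A` and `z` is a cocycle
(vanishing on `N` and on `W`). So by `h` there is `φ ∈ COs j A` with
`ψ (q * f) - ψ q = φ (q * f) - φ q` for all `f, q`. With `q = 1`: `ψ f = φ f + u`,
`u = ψ 1 - φ 1`. So `c h = ψ (j h) - A.ρ h (ψ 1) = (φ (j h) + u) - A.ρ h (φ 1 + u)`
`= u - A.ρ h u`: take `m = - u`. -/
theorem h1v_of_CO (hQ : IsProP p Q) (hN : N.Normal) {P : Type} [Group P] [TopologicalSpace P]
    [IsTopologicalGroup P] (hP : IsProP p P) (j : P →* Q) (hj : Continuous j)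
    (hi : Function.Injective j) {E : Subgroup Q} (hE : IsOpen (E : Set Q))
    (hEj : ∀ q, q ∈ E ↔ ∃ x, j x = q) (hNE : N ≤ E) (A : SmRep p P (N.comap j))
    (hA : H1v (CO j hN A)) : H1v A := by
  classical
  intro c hc hcW hcN
  obtain ⟨W₁, hW₁, hcW₁⟩ := hcW
  have := hP.compact
  have := hQ.t2
  obtain ⟨η, hη⟩ := R2_sec j hi hEj
  -- an open subgroup fixing all values of `c`
  have : Finite (P ⧸ W₁) := W₁.quotient_finite_of_isOpen hW₁
  have hsm : ∀ x : P ⧸ W₁, ∃ W : Subgroup P, IsOpen (W : Set P) ∧ ∀ w ∈ W, A.ρ w (c x.out) = c x.out :=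
    fun x => A.smooth _
  choose W hWo hW using hsm
  have hval : ∀ g, ∃ x : P ⧸ W₁, c g = c x.out := by
    intro g
    refine ⟨(g : P ⧸ W₁), ?_⟩
    have h1 : ((g : P ⧸ W₁).out)⁻¹ * g ∈ W₁ := by
      rw [← QuotientGroup.eq]
      exact QuotientGroup.out_eq' _
    have h2 := hc (g : P ⧸ W₁).out (((g : P ⧸ W₁).out)⁻¹ * g)
    rw [mul_inv_cancel_left, hcW₁ _ h1, map_zero, add_zero] at h2
    exact h2
  set V : Set P := (W₁ : Set P) ∩ ⋂ x : P ⧸ W₁, (W x : Set P) with hV
  have hVo : IsOpen V := hW₁.inter (isOpen_iInter_of_finite hWo)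
  have hV1 : (1 : P) ∈ V := ⟨W₁.one_mem, Set.mem_iInter.2 fun x => (W x).one_mem⟩
  have hVc : ∀ h ∈ V, c h = 0 ∧ ∀ g, A.ρ h (c g) = c g := by
    rintro h ⟨h1, h2⟩
    refine ⟨hcW₁ h h1, fun g => ?_⟩
    obtain ⟨x, hx⟩ := hval g
    rw [hx]
    exact hW x h (Set.mem_iInter.1 h2 x)
  -- the image of `V` is open
  have hrange : Set.range j = (E : Set Q) := by
    ext q
    rw [Set.mem_range, SetLike.mem_coe, hEj]
  have hcl := hj.isClosedEmbedding hi
  have hop : IsOpenMap j := by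
    have h1 : Topology.IsOpenEmbedding j := ⟨hcl.isEmbedding, by rw [hrange]; exact hE⟩
    exact h1.isOpenMap
  obtain ⟨U, hUn, hUo, hU⟩ := exists_normal_le hQ (j '' V) (hop V hVo) ⟨1, hV1, map_one j⟩
  set ψ : Q → A.M := fun q => c (η q) with hψ
  have hψj : ∀ h q, ψ (j h * q) = c h + A.ρ h (ψ q) := by
    intro h q
    rw [hψ]
    simp only
    rw [hη, hc]
  have hψN : ∀ q, ∀ n ∈ N, ψ (q * n) = ψ q := by
    intro q n hn
    have h1 : q * n * q⁻¹ ∈ N := hN.conj_mem n hn q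
    obtain ⟨h, hh⟩ := (hEj _).1 (hNE h1)
    have h2 : h ∈ N.comap j := by
      rw [Subgroup.mem_comap, hh]
      exact h1
    have h3 : q * n = j h * q := by rw [hh]; group
    rw [h3, hψj, hcN h h2, A.triv h h2, zero_add]
    rfl
  have hψU : ∀ q, ∀ w ∈ U, ψ (q * w) = ψ q := by
    intro q w hw
    have h1 : q * w * q⁻¹ ∈ U := hUn.conj_mem w hw q
    obtain ⟨h, hh, he⟩ := hU h1
    have h3 : q * w = j h * q := by rw [he]; group
    rw [h3, hψj, (hVc h hh).1, zero_add]
    exact (hVc h hh).2 _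
  have hmove : ∀ (B : Subgroup Q), B.Normal → (∀ q, ∀ n ∈ B, ψ (q * n) = ψ q) →
      ∀ f x, ∀ n ∈ B, ψ (x * n * f) = ψ (x * f) := by
    intro B hB h f x n hn
    have h3 := hB.conj_mem n hn f⁻¹
    rw [inv_inv] at h3
    rw [← h (x * f) _ h3]
    congr 1
    group
  have hON : ON U := ⟨hUn, hUo⟩
  have hmem : ∀ f, (fun q => ψ (q * f) - ψ q) ∈ COs j A := by
    intro f
    refine ⟨fun h q => ?_, fun x n hn => ?_, U, hON, fun x w hw => ?_⟩
    · show ψ (j h * q * f) - ψ (j h * q) = A.ρ h (ψ (q * f) - ψ q)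
      rw [mul_assoc, hψj, hψj, map_sub]
      abel
    · show ψ (x * n * f) - ψ (x * n) = ψ (x * f) - ψ x
      rw [hmove N hN hψN f x n hn, hψN x n hn]
    · show ψ (x * w * f) - ψ (x * w) = ψ (x * f) - ψ x
      rw [hmove U hUn hψU f x w hw, hψU x w hw]
  obtain ⟨φ, hφ⟩ := hA (fun f => (⟨fun q => ψ (q * f) - ψ q, hmem f⟩ : COs j A))
    (by
      intro f g
      refine Subtype.ext (funext fun x => ?_)
      show ψ (x * (f * g)) - ψ x = (ψ (x * f) - ψ x) + (ψ (x * f * g) - ψ (x * f))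
      rw [mul_assoc]
      abel)
    ⟨U, hUo, by
      intro w hw
      refine Subtype.ext (funext fun x => ?_)
      show ψ (x * w) - ψ x = 0
      rw [hψU x w hw, sub_self]⟩
    (by
      intro n hn
      refine Subtype.ext (funext fun x => ?_)
      show ψ (x * n) - ψ x = 0
      rw [hψN x n hn, sub_self])
  have h0 := φ.2.1
  refine ⟨φ.1 1 - ψ 1, fun h => ?_⟩
  have h1 : ψ (1 * j h) - ψ 1 = φ.1 (1 * j h) - φ.1 1 := by
    have h2 := congrArg (fun y : COs j A => y.1 1) (hφ (j h))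
    exact h2
  rw [one_mul] at h1
  have h2 : ψ (j h) = c h + A.ρ h (ψ 1) := by
    have := hψj h 1
    rwa [mul_one] at this
  have h3 : φ.1 (j h) = A.ρ h (φ.1 1) := by
    have := h0 h 1
    rwa [mul_one] at this
  rw [h2, h3] at h1
  rw [map_sub]
  have h4 : c h = (c h + A.ρ h (ψ 1) - ψ 1) - A.ρ h (ψ 1) + ψ 1 := by abel
  rw [h4, h1]
  abel

end Pool.Agent.ORD
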