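import Pool.Agent.ORD.Def2

/-!
# ORD [ORD-T1]: conjugation on a procyclic factor
-/

set_option autoImplicit false

namespace Pool.Agent.ORD

open Pool.Agent.MP_6fb7ad_al

variable {p : ℕ} [Fact p.Prime] {Q : Type} [Group Q] [TopologicalSpace Q] [IsTopologicalGroup Q]
  {N : Subgroup Q}

/-- Let `P = N ⊔ W`, an open normal subgroup, and `c, d` the images of `a, b` in the finite
`p`-group `Q ⧸ P` (`quot_fin`). The subgroup `P ⊔ Subgroup.zpowers b` is open, hence closed, and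
contains `N` and `b`, so it contains `N₁` and the element `a * b * a⁻¹` of `N₁`: there is a natural
number `M₀` with `c * d * c⁻¹ = d ^ M₀`. If `d = 1` take `L = 1`. Otherwise the order of `d` is
divisible by `p`. From `c ^ k * d * c⁻¹ ^ k = d ^ (M₀ ^ k)` and `c ^ (p ^ r) = 1` we get
`M₀ ^ (p ^ r) ≡ 1` modulo the order of `d`, hence modulo `p`; and `M₀ ^ (p ^ r) = M₀` in `ZMod p`
(`ZMod.pow_card_pow` or `ZMod.pow_card` iterated). So `L = M₀` works. -/
theorem twist (hQ : IsProP p Q) (hN : N.Normal) {N₁ : Subgroup Q} (hN₁ : N₁.Normal) {b : Q}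
    (hz : Zst N N₁ b) (a : Q) {W : Subgroup Q} (hW : ON W) :
    ∃ L : ℕ, (L : ZMod p) = 1 ∧ (b ^ L * a)⁻¹ * (a * b) ∈ N ⊔ W := by
  have hWn : W.Normal := hW.1
  have hPn : (N ⊔ W).Normal := inferInstance
  have hPo : IsOpen ((N ⊔ W : Subgroup Q) : Set Q) := Subgroup.isOpen_mono le_sup_right hW.2
  obtain ⟨hfin, hpg⟩ := quot_fin hQ (N ⊔ W) hPo
  set c : Q ⧸ (N ⊔ W) := (a : Q ⧸ (N ⊔ W)) with hc
  set d : Q ⧸ (N ⊔ W) := (b : Q ⧸ (N ⊔ W)) with hd
  -- it is enough to work in the quotient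
  have hred : ∀ L : ℕ, c * d * c⁻¹ = d ^ L → (b ^ L * a)⁻¹ * (a * b) ∈ N ⊔ W := by
    intro L hL
    rw [← QuotientGroup.eq]
    rw [QuotientGroup.mk_mul, QuotientGroup.mk_mul, QuotientGroup.mk_pow, ← hd, ← hc, ← hL]
    group
  -- the power
  have hmem : c * d * c⁻¹ ∈ Subgroup.zpowers d := by
    let H : Subgroup Q := (Subgroup.zpowers d).comap (QuotientGroup.mk' (N ⊔ W))
    have hPH : N ⊔ W ≤ H := by
      intro x hx
      show (x : Q ⧸ (N ⊔ W)) ∈ Subgroup.zpowers d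
      rw [(QuotientGroup.eq_one_iff x).2 hx]
      exact Subgroup.one_mem _
    have hop : IsOpen (H : Set Q) := Subgroup.isOpen_mono hPH hPo
    have hle := hz.2.2 H (Subgroup.isClosed_of_isOpen H hop) (le_trans le_sup_left hPH)
      (Subgroup.mem_zpowers d)
    have h1 : a * b * a⁻¹ ∈ H := hle (hN₁.conj_mem b hz.1 a)
    exact h1
  obtain ⟨M₀, hM₀⟩ := (mem_powers_iff_mem_zpowers.2 hmem : c * d * c⁻¹ ∈ Submonoid.powers d)
  have hM : c * d * c⁻¹ = d ^ M₀ := hM₀.symm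
  by_cases hd1 : d = 1
  · refine ⟨1, by rw [Nat.cast_one], hred 1 ?_⟩
    rw [hd1, mul_one, mul_inv_cancel, one_pow]
  · refine ⟨M₀, ?_, hred M₀ hM⟩
    have hk : ∀ k : ℕ, c ^ k * d * (c ^ k)⁻¹ = d ^ (M₀ ^ k) := by
      intro k
      induction k with
      | zero => simp
      | succ k ih =>
        have h1 : c ^ (k + 1) * d * (c ^ (k + 1))⁻¹ = c ^ k * (c * d * c⁻¹) * (c ^ k)⁻¹ := by
          rw [pow_succ]
          group
        have h2 : c ^ k * d ^ M₀ * (c ^ k)⁻¹ = (c ^ k * d * (c ^ k)⁻¹) ^ M₀ := by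
          rw [conj_pow]
        rw [h1, hM, h2, ih, ← pow_mul, ← pow_succ]
    obtain ⟨r, hr⟩ := hpg c
    have h1 := hk (p ^ r)
    rw [hr, one_mul, inv_one, mul_one] at h1
    -- the order of d is divisible by p
    obtain ⟨s, hs⟩ := (IsPGroup.iff_orderOf.1 hpg) d
    have hs0 : s ≠ 0 := by
      intro h
      rw [h, pow_zero, orderOf_eq_one_iff] at hs
      exact hd1 hs
    have hpd : p ∣ orderOf d := by
      rw [hs]
      exact dvd_pow_self p hs0
    have h2 : d ^ 1 = d ^ (M₀ ^ p ^ r) := by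
      rw [pow_one]
      exact h1
    rw [pow_eq_pow_iff_modEq] at h2
    have h3 : 1 ≡ M₀ ^ p ^ r [MOD p] := h2.of_dvd hpd
    have h4 := (ZMod.natCast_eq_natCast_iff _ _ _).2 h3
    rw [Nat.cast_one, Nat.cast_pow, ZMod.pow_card_pow] at h4
    exact h4.symm

end Pool.Agent.ORD
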