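import Pool.Agent.ORD.I4

/-!
# MP_6fb7ad_al: one-relator open subgroups and torsion-free quotients

Let `U` be reached from the pro-`p` group `G` by a finite chain of subgroups, each step `V ≥ W`
being of one of three kinds: `LiftStep` (`W` is the kernel of a character to `ℤ / p` that lifts to a
surjective character to `ℤ / p ^ 2`), `NStep` (`W` is open and contains a closed normal subgroup `K`
of `V` such that `V / K` has finite cohomological dimension and `𝔽_p⟦V / K⟧` has no zero divisors)
or `ResStep` (`W` is open and every element outside of `W` is missed by a closed normal subgroup `K`
such that `V / K` has a finite normal series with infinite procyclic factors). If `U` is a pro-`p`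
group with a single defining relation, then so is `G`.
-/

set_option autoImplicit false

namespace Pool.Agent.Results.MP_6fb7ad_al.TorsionFreeQuotients

open Pool.Agent.MP_6fb7ad_al Pool.Agent.ORD.St

theorem result (p : ℕ) [Fact p.Prime] (G : Type) [Group G] [TopologicalSpace G]
    [IsTopologicalGroup G] (hG : IsProP p G) (U : Subgroup G)
    (hU : Relation.ReflTransGen (fun V W => LiftStep p V W ∨ NStep p V W ∨ ResStep V W) ⊤ U)
    (h : OneRelator p U) : OneRelator p G :=
  Pool.Agent.ORD.main3 hG U hU h

end Pool.Agent.Results.MP_6fb7ad_al.TorsionFreeQuotients
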