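import Pool.Agent.ORD.Def2

/-!
# ORD [ORD-U1]: closed subgroups of procyclic factors
-/

set_option autoImplicit false

namespace Pool.Agent.ORD

open Pool.Agent.MP_6fb7ad_al

variable {p : ℕ} [Fact p.Prime] {Q : Type} [Group Q] [TopologicalSpace Q] [IsTopologicalGroup Q]

private theorem ORDU1_pow (hQ : IsProP p Q) {M : Subgroup Q} (hM : M.Normal)
    (hMo : IsOpen (M : Set Q)) (b : Q) : ∃ e : ℕ, b ^ (p ^ e) ∈ M := by
  obtain ⟨e, he⟩ := (quot_fin hQ M hMo).2 (QuotientGroup.mk b)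
  refine ⟨e, ?_⟩
  rw [← QuotientGroup.mk_pow] at he
  exact (QuotientGroup.eq_one_iff _).1 he

private theorem ORDU1_F1 (hQ : IsProP p Q) {K L : Subgroup Q} (hK : K.Normal) {b : Q}
    (hz : Zst K L b) {W : Subgroup Q} (hW : W.Normal) (hWo : IsOpen (W : Set Q)) {x : Q}
    (hx : x ∈ L) : ∃ j : ℕ, (b ^ j)⁻¹ * x ∈ K ⊔ W := by
  have hM : (K ⊔ W).Normal := inferInstance
  have hMo : IsOpen ((K ⊔ W : Subgroup Q) : Set Q) := Subgroup.isOpen_mono le_sup_right hWo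
  obtain ⟨e, he⟩ := ORDU1_pow hQ hM hMo b
  have h1 : L ≤ (K ⊔ W) ⊔ Subgroup.zpowers b := by
    apply hz.2.2
    · exact Subgroup.isClosed_of_isOpen _ (Subgroup.isOpen_mono le_sup_left hMo)
    · exact le_sup_left.trans le_sup_left
    · exact Subgroup.mem_sup_right (Subgroup.mem_zpowers b)
  have h2 : x ∈ (((K ⊔ W) ⊔ Subgroup.zpowers b : Subgroup Q) : Set Q) := h1 hx
  rw [Subgroup.normal_mul] at h2
  obtain ⟨m, hm, z, ⟨i, rfl⟩, rfl⟩ := h2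
  have hpe : (0 : ℤ) < ((p ^ e : ℕ) : ℤ) := by
    have := pow_pos (Fact.out : p.Prime).pos e
    exact_mod_cast this
  obtain ⟨j, hj⟩ := Int.eq_ofNat_of_zero_le (Int.emod_nonneg i hpe.ne')
  refine ⟨j, ?_⟩
  rw [← QuotientGroup.eq]
  have h3 : ((m * b ^ i : Q) : Q ⧸ (K ⊔ W)) = ((b : Q) : Q ⧸ (K ⊔ W)) ^ i := by
    rw [QuotientGroup.mk_mul, (QuotientGroup.eq_one_iff m).2 hm, one_mul, QuotientGroup.mk_zpow]
  have h4 : ((b : Q) : Q ⧸ (K ⊔ W)) ^ (p ^ e) = 1 := by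
    rw [← QuotientGroup.mk_pow]
    exact (QuotientGroup.eq_one_iff _).2 he
  show ((b ^ j : Q) : Q ⧸ (K ⊔ W)) = ((m * b ^ i : Q) : Q ⧸ (K ⊔ W))
  rw [h3, QuotientGroup.mk_pow, ← zpow_natCast]
  have h5 : i = (j : ℤ) + ((p ^ e : ℕ) : ℤ) * (i / ((p ^ e : ℕ) : ℤ)) := by
    have := Int.emod_add_mul_ediv i ((p ^ e : ℕ) : ℤ)
    rw [hj] at this
    exact this.symm
  rw [h5, zpow_add, zpow_mul, zpow_natCast, zpow_natCast, h4, one_zpow, mul_one]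

private theorem ORDU1_F2 (hQ : IsProP p Q) {K J : Subgroup Q} (hK : K.Normal) {b : Q}
    (hKJ : K ≤ J) {W : Subgroup Q} (hW : W.Normal) (hWo : IsOpen (W : Set Q)) {x : Q}
    (hx : x ∈ J) {j s : ℕ} (hj : (b ^ j)⁻¹ * x ∈ K ⊔ W) (hs : ¬ p ^ s ∣ j) :
    ∃ r < s, b ^ (p ^ r) ∈ J ⊔ W := by
  have hM : (K ⊔ W).Normal := inferInstance
  have hMo : IsOpen ((K ⊔ W : Subgroup Q) : Set Q) := Subgroup.isOpen_mono le_sup_right hWo
  obtain ⟨e, he⟩ := ORDU1_pow hQ hM hMo b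
  have hp : p.Prime := Fact.out
  have hj0 : j ≠ 0 := by
    rintro rfl
    exact hs (dvd_zero _)
  obtain ⟨r, u, hu, hju⟩ := Nat.exists_eq_pow_mul_and_not_dvd hj0 p hp.ne_one
  have hrs : r < s := by
    by_contra hc
    exact hs ((pow_dvd_pow p (not_lt.1 hc)).trans ⟨u, hju⟩)
  refine ⟨r, hrs, ?_⟩
  have hco : Nat.Coprime u (p ^ (e + 1)) :=
    Nat.Coprime.pow_right _ ((Nat.Prime.coprime_iff_not_dvd hp).2 hu).symm
  obtain ⟨v, -, hv⟩ := Nat.exists_mul_mod_eq_one_of_coprime hco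
    (Nat.one_lt_pow (Nat.succ_ne_zero e) hp.one_lt)
  have hv2 : u * v = 1 + p ^ (e + 1) * (u * v / p ^ (e + 1)) := by
    have := Nat.mod_add_div (u * v) (p ^ (e + 1))
    rw [hv] at this
    exact this.symm
  have h4 : ((b : Q) : Q ⧸ (K ⊔ W)) ^ (p ^ (e + 1)) = 1 := by
    rw [pow_succ, pow_mul, ← QuotientGroup.mk_pow, (QuotientGroup.eq_one_iff _).2 he, one_pow]
  have h5 : ((x : Q) : Q ⧸ (K ⊔ W)) = ((b : Q) : Q ⧸ (K ⊔ W)) ^ j := by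
    rw [← QuotientGroup.mk_pow]
    exact (QuotientGroup.eq.2 hj).symm
  have h6 : ((x ^ v : Q) : Q ⧸ (K ⊔ W)) = ((b ^ (p ^ r) : Q) : Q ⧸ (K ⊔ W)) := by
    rw [QuotientGroup.mk_pow, QuotientGroup.mk_pow, h5, ← pow_mul, hju, mul_assoc, hv2, mul_add,
      mul_one, pow_add, mul_left_comm, pow_mul, h4, one_pow, mul_one]
  have h7 := QuotientGroup.eq.1 h6
  have h8 : b ^ (p ^ r) = x ^ v * ((x ^ v)⁻¹ * b ^ (p ^ r)) := by group
  rw [h8]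
  exact Subgroup.mul_mem _ (Subgroup.mem_sup_left (J.pow_mem hx v))
    ((sup_le_sup_right hKJ W) h7)

private theorem ORDU1_sep (hQ : IsProP p Q) {H : Subgroup Q} (hH : IsClosed (H : Set Q)) {g : Q}
    (hg : g ∉ H) : ∃ W : Subgroup Q, ON W ∧ g ∉ H ⊔ W := by
  obtain ⟨W, h1, h2, h3⟩ := exists_sep hQ H hH g hg
  refine ⟨W, ⟨h1, h2⟩, fun h4 => ?_⟩
  have h5 : g ∈ ((H ⊔ W : Subgroup Q) : Set Q) := h4
  rw [Subgroup.mul_normal] at h5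
  obtain ⟨a, ha, w, hw, rfl⟩ := h5
  apply h3 w⁻¹ (W.inv_mem hw)
  have e : a * w * w⁻¹ = a := by group
  show a * w * w⁻¹ ∈ H
  rw [e]
  exact ha

private theorem ORDU1_C (hQ : IsProP p Q) {K J : Subgroup Q} (hK : K.Normal) {b : Q}
    (hJ : IsClosed (J : Set Q)) (hKJ : K ≤ J) (s : ℕ) (hs : ∀ r < s, b ^ (p ^ r) ∉ J) :
    ∃ W₁ : Subgroup Q, ON W₁ ∧ ∀ W : Subgroup Q, ON W → W ≤ W₁ → ∀ x ∈ J, ∀ j : ℕ,
      (b ^ j)⁻¹ * x ∈ K ⊔ W → p ^ s ∣ j := by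
  obtain ⟨W₁, hW₁, h1⟩ : ∃ W₁ : Subgroup Q, ON W₁ ∧ ∀ r < s, b ^ (p ^ r) ∉ J ⊔ W₁ := by
    clear hKJ hK
    induction s with
    | zero => exact ⟨⊤, ON.top, fun r hr => absurd hr (Nat.not_lt_zero r)⟩
    | succ s ih =>
      obtain ⟨W₁, hW₁, h1⟩ := ih (fun r hr => hs r (Nat.lt_succ_of_lt hr))
      obtain ⟨W₂, hW₂, h2⟩ := ORDU1_sep hQ hJ (hs s (Nat.lt_succ_self s))
      refine ⟨W₁ ⊓ W₂, hW₁.inf hW₂, fun r hr h3 => ?_⟩
      rcases Nat.lt_succ_iff_lt_or_eq.1 hr with h4 | h4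
      · exact h1 r h4 ((sup_le_sup_left inf_le_left J) h3)
      · rw [h4] at h3
        exact h2 ((sup_le_sup_left inf_le_right J) h3)
  refine ⟨W₁, hW₁, fun W hW hWW x hx j hj => ?_⟩
  by_contra hc
  obtain ⟨r, hr, h2⟩ := ORDU1_F2 hQ hK hKJ hW.1 hW.2 hx hj hc
  exact h1 r hr ((sup_le_sup_left hWW J) h2)

/-- For an open normal subgroup `W` of `Q` the subgroup `(K ⊔ W) ⊔ zpowers b` is open, hence
closed, and contains `K` and `b`, so it contains `L`: hence every `x ∈ L` is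
`x = b ^ j * k * w` with `j : ℕ` (`b` has finite order modulo `W`), `k ∈ K`, `w ∈ W`; that is
`mk x = (mk b) ^ j` in the finite `p`-group `Q ⧸ (K ⊔ W)` (`quot_fin`).
(*) If `x ∈ J`, `mk x = (mk b) ^ j` in `Q ⧸ (K ⊔ W)` and `j = p ^ r * u` with `p ∤ u`, then
`b ^ (p ^ r) ∈ J ⊔ W`: `u` is invertible modulo the order of `mk b`, so `mk (b ^ (p ^ r))` is a
power of `mk x`, and `K ≤ J`.
Suppose `J ≠ K`, let `x₀ ∈ J`, `x₀ ∉ K`. By `exists_sep` there is an open normal `W₀` with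
`x₀ * w ∉ K` for `w ∈ W₀`, so `mk x₀ ≠ 1` in `Q ⧸ (K ⊔ W₀)`, `mk x₀ = (mk b) ^ j`; let `p ^ r` be
the exact power of `p` dividing `j` (`j ≠ 0`); then `p ^ r` is smaller than the order `p ^ e` of
`mk b` in `Q ⧸ (K ⊔ W₀)` and divides it properly. For every open normal `W ≤ W₀` we have
`mk x₀ = (mk b) ^ j'` in `Q ⧸ (K ⊔ W)` with `j' ≡ j` modulo `p ^ e`, so the exact power of `p`
dividing `j'` is `p ^ r` too, and by (*) `b ^ (p ^ r) ∈ J ⊔ W`. As `J` is closed,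
`b ^ (p ^ r) ∈ J` (`exists_sep`). So there is a minimal `s` with `b ^ (p ^ s) ∈ J`.
Let `H` be a closed subgroup containing `K` and `b ^ (p ^ s)`, and let `x ∈ J`. By `exists_sep`
there is an open normal `W₁` with `b ^ (p ^ r) ∉ J ⊔ W₁` for all `r < s` (`J` is closed, finitely
many `r`). For every open normal `W ≤ W₁`: `mk x = (mk b) ^ j` in `Q ⧸ (K ⊔ W)`; by (*) `p ^ s ∣ j`
(or `j = 0`), so `x ∈ H ⊔ W`, more precisely `x * w ∈ H` for some `w ∈ W`. As `H` is closed,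
`x ∈ H` (`exists_sep`). The powers `(b ^ (p ^ s)) ^ m` with `m > 0` are not in `K` since
`hz.2.1`. -/
theorem closed_of_Zst (hQ : IsProP p Q) {K L : Subgroup Q} (hK : K.Normal)
    (hKc : IsClosed (K : Set Q)) {b : Q} (hz : Zst K L b) {J : Subgroup Q}
    (hJ : IsClosed (J : Set Q)) (hKJ : K ≤ J) (hJL : J ≤ L) :
    J = K ∨ ∃ s : ℕ, Zst K J (b ^ (p ^ s)) := by
  classical
  by_cases hJK : J = K
  · exact Or.inl hJK
  right
  obtain ⟨x₀, hx₀J, hx₀K⟩ : ∃ x ∈ J, x ∉ K := by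
    by_contra hc
    push Not at hc
    exact hJK (le_antisymm hc hKJ)
  have hex : ∃ s : ℕ, b ^ (p ^ s) ∈ J := by
    by_contra hc
    push Not at hc
    obtain ⟨W₀, hW₀, h0⟩ := ORDU1_sep hQ hKc hx₀K
    have hMo : IsOpen ((K ⊔ W₀ : Subgroup Q) : Set Q) := Subgroup.isOpen_mono le_sup_right hW₀.2
    have := hW₀.1
    obtain ⟨e, he⟩ := ORDU1_pow hQ (inferInstance : (K ⊔ W₀).Normal) hMo b
    obtain ⟨W₁, hW₁, h1⟩ := ORDU1_C hQ hK hJ hKJ e (fun r _ => hc r)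
    have hW := hW₀.inf hW₁
    obtain ⟨j, hj⟩ := ORDU1_F1 hQ hK hz hW.1 hW.2 (hJL hx₀J)
    obtain ⟨t, rfl⟩ := h1 _ hW inf_le_right x₀ hx₀J j hj
    apply h0
    have h2 : (b ^ (p ^ e * t))⁻¹ * x₀ ∈ K ⊔ W₀ := (sup_le_sup_left inf_le_left K) hj
    have h3 : b ^ (p ^ e * t) ∈ K ⊔ W₀ := by
      rw [pow_mul]
      exact Subgroup.pow_mem _ he t
    have h4 : x₀ = b ^ (p ^ e * t) * ((b ^ (p ^ e * t))⁻¹ * x₀) := by group
    rw [h4]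
    exact Subgroup.mul_mem _ h3 h2
  obtain ⟨s, hs, hmin⟩ : ∃ s : ℕ, b ^ (p ^ s) ∈ J ∧ ∀ r < s, b ^ (p ^ r) ∉ J :=
    ⟨Nat.find hex, Nat.find_spec hex, fun r hr => Nat.find_min hex hr⟩
  refine ⟨s, hs, fun m hm h => ?_, fun H hH hKH hbH x hx => ?_⟩
  · rw [← pow_mul] at h
    exact hz.2.1 _ (Nat.mul_pos (pow_pos (Fact.out : p.Prime).pos s) hm) h
  · by_contra hxH
    obtain ⟨W₂, hW₂, h2⟩ := ORDU1_sep hQ hH hxH
    obtain ⟨W₁, hW₁, h1⟩ := ORDU1_C hQ hK hJ hKJ s hmin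
    have hW := hW₂.inf hW₁
    obtain ⟨j, hj⟩ := ORDU1_F1 hQ hK hz hW.1 hW.2 (hJL hx)
    obtain ⟨t, rfl⟩ := h1 _ hW inf_le_right x hx j hj
    apply h2
    have h3 : (b ^ (p ^ s * t))⁻¹ * x ∈ H ⊔ W₂ :=
      (sup_le_sup hKH inf_le_left) hj
    have h4 : b ^ (p ^ s * t) ∈ H ⊔ W₂ := by
      rw [pow_mul]
      exact Subgroup.mem_sup_left (H.pow_mem hbH t)
    have h5 : x = b ^ (p ^ s * t) * ((b ^ (p ^ s * t))⁻¹ * x) := by group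
    rw [h5]
    exact Subgroup.mul_mem _ h4 h3

end Pool.Agent.ORD
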