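import Pool.Agent.ORD.U1

/-!
# ORD [ORD-U2]: series and intersections
-/

set_option autoImplicit false

namespace Pool.Agent.ORD

open Pool.Agent.MP_6fb7ad_al

variable {p : ℕ} [Fact p.Prime] {Q : Type} [Group Q] [TopologicalSpace Q] [IsTopologicalGroup Q]

/-- Let `J = K ⊔ (M ⊓ L)`, a closed subgroup (the product of the compact normal subgroup `K` and
the compact subgroup `M ⊓ L`; `Subgroup.mul_normal` or `normal_mul`, `IsCompact.mul`), with
`K ≤ J ≤ L`. If `J = K` then `M ⊓ L ≤ K`. Otherwise `closed_of_Zst` gives `s` with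
`Zst K J (b ^ (p ^ s))`. Write `b ^ (p ^ s) = k * b'` with `k ∈ K`, `b' ∈ M ⊓ L`. Then
`b' ^ m ∉ K` for `m > 0` (modulo `K` it is the power `(b ^ (p ^ s)) ^ m`). Let `H` be a closed
subgroup containing `M ⊓ K` and `b'`. Then `J' = K ⊔ (H ⊓ M ⊓ L)` is closed and contains `K` and
`b ^ (p ^ s) = k * b'`, so `J ≤ J'`. For `x ∈ M ⊓ L ≤ J'` write `x = k₁ * h` with `k₁ ∈ K`,
`h ∈ H ⊓ M ⊓ L`; then `k₁ = x * h⁻¹ ∈ M ⊓ K ≤ H`, so `x ∈ H`. -/
theorem inf_Zst (hQ : IsProP p Q) {K L M : Subgroup Q} (hK : K.Normal)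
    (hKc : IsClosed (K : Set Q)) (hLc : IsClosed (L : Set Q))
    (hMc : IsClosed (M : Set Q)) (hKL : K ≤ L) {b : Q} (hz : Zst K L b) :
    M ⊓ L ≤ K ∨ ∃ b', Zst (M ⊓ K) (M ⊓ L) b' := by
  have i1 := hQ.compact
  have i2 := hQ.t2
  have hcl : ∀ S : Subgroup Q, IsClosed (S : Set Q) →
      IsClosed ((K ⊔ S : Subgroup Q) : Set Q) := by
    intro S hS
    rw [Subgroup.normal_mul]
    exact (hKc.isCompact.mul hS.isCompact).isClosed
  have hML : IsClosed ((M ⊓ L : Subgroup Q) : Set Q) := hMc.inter hLc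
  have hmem : ∀ (S : Subgroup Q) (x : Q), x ∈ K ⊔ S → ∃ k ∈ K, ∃ s ∈ S, k * s = x := by
    intro S x hx
    have h : x ∈ ((K ⊔ S : Subgroup Q) : Set Q) := hx
    rw [Subgroup.normal_mul, Set.mem_mul] at h
    obtain ⟨k, hk, s, hs, e⟩ := h
    exact ⟨k, hk, s, hs, e⟩
  rcases closed_of_Zst hQ hK hKc hz (hcl _ hML) le_sup_left (sup_le hKL inf_le_right) with
    h | ⟨s, hs⟩
  · left
    rw [← h]
    exact le_sup_right
  · right
    obtain ⟨h1, h2, h3⟩ := hs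
    obtain ⟨k, hk, b', hb', e⟩ := hmem _ _ h1
    refine ⟨b', hb', ?_, ?_⟩
    · intro m hm hb
      apply h2 m hm
      rw [← e]
      have e1 : ((k : Q) : Q ⧸ K) = 1 := (QuotientGroup.eq_one_iff k).2 hk
      have e2 : ((b' ^ m : Q) : Q ⧸ K) = 1 := (QuotientGroup.eq_one_iff _).2 hb.2
      refine (QuotientGroup.eq_one_iff _).1 ?_
      rw [QuotientGroup.mk_pow, QuotientGroup.mk_mul, e1, one_mul, ← QuotientGroup.mk_pow, e2]
    · intro H hH hle hbH x hx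
      have h4 := h3 (K ⊔ (H ⊓ (M ⊓ L))) (hcl _ (hH.inter hML)) le_sup_left (by
        rw [← e]
        exact mul_mem (Subgroup.mem_sup_left hk) (Subgroup.mem_sup_right ⟨hbH, hb'⟩))
      obtain ⟨k₁, hk₁, h, ⟨hh1, hh2⟩, e2⟩ := hmem _ _ (h4 (Subgroup.mem_sup_right hx))
      have h5 : k₁ ∈ M ⊓ K := by
        refine ⟨?_, hk₁⟩
        have e3 : k₁ = x * h⁻¹ := by rw [← e2, mul_inv_cancel_right]
        rw [e3]
        exact M.mul_mem hx.1 (M.inv_mem hh2.1)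
      rw [← e2]
      exact mul_mem (hle h5) hh1

end Pool.Agent.ORD
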